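import Pool.Agent.PW.ChP

/-!
# PLC (the critical two-point ensemble of the plane, doc nu34/PLC_22), row A1 (helper22)

Chains whose displacement hardly sees any small shift of the sublattice (`PW.ChP` with a general shift).

* `SMh l Ch δ` : the mass of the chains with the displacement `z` changes by at most `δ` when `z` is shifted by a vector of the
  sublattice of size `≤ 2 ^ l`;
* **`chPh`** : classes of chains with `SM` and `SMh`.
-/

set_option autoImplicit false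

namespace HexObs

namespace PLC

open Finset TS SDN TIW SLW.Cat PWN PWN.ChQ

open scoped ENNReal

/-- smoothness of the displacement of the chains under every shift of the sublattice of size `≤ 2 ^ l` -/
def SMh (l : ℕ) (Ch : Set (List Bool)) (δ : ℝ) : Prop := ∀ (z h : Pt), (3 : ℤ) ∣ ip h up → hn h ≤ 2 ^ l →
  |vD Ch (z + h) - vD Ch z| ≤ δ

/-- the coordinates of a shift -/
lemma shift_coord {l : ℕ} {h : Pt} (hd : (3 : ℤ) ∣ ip h up) (hh : hn h ≤ 2 ^ l) : ∃ c1 c2 : ℤ,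
    h = c1 • ((2, -1) : Pt) + c2 • ((1, 1) : Pt) ∧ |(c1 : ℝ)| + |(c2 : ℝ)| ≤ 2 ^ l := by
  obtain ⟨a, b⟩ := h
  have e3 : ip ((a, b) : Pt) up = a + 2 * b := by
    unfold ip up
    simp only
    ring
  rw [e3] at hd
  obtain ⟨u, hu⟩ := hd
  have e1 : |a + 2 * b| ≤ 2 ^ l := by
    have : |ip ((a, b) : Pt) up| ≤ hn ((a, b) : Pt) := le_max_left _ _
    rw [e3] at this
    exact this.trans hh
  have e2 : |b - a| ≤ 2 ^ l := by
    have : |ip ((a, b) : Pt) (rotL up)| ≤ hn ((a, b) : Pt) := (le_max_left _ _).trans (le_max_right _ _)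
    have e4 : ip ((a, b) : Pt) (rotL up) = b - a := by
      unfold ip rotL up
      simp only
      ring
    rw [e4] at this
    exact this.trans hh
  refine ⟨u - b, u, ?_, ?_⟩
  · apply Prod.ext
    · simp only [Prod.fst_add, Prod.smul_fst, smul_eq_mul]
      linarith
    · simp only [Prod.snd_add, Prod.smul_snd, smul_eq_mul]
      ring
  · have h5 : |3 * (u - b)| ≤ 2 ^ l := by
      have : 3 * (u - b) = -(b - a) := by linarith
      rw [this, abs_neg]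
      exact e2
    have h6 : |3 * u| ≤ 2 ^ l := by
      rw [← hu]
      exact e1
    have h7 : |((3 * (u - b) : ℤ) : ℝ)| ≤ 2 ^ l := by exact_mod_cast h5
    have h8 : |((3 * u : ℤ) : ℝ)| ≤ 2 ^ l := by exact_mod_cast h6
    rw [Int.cast_mul, abs_mul] at h7 h8
    have h9 : |((3 : ℤ) : ℝ)| = 3 := by norm_num
    rw [h9] at h7 h8
    have h10 := abs_nonneg ((u - b : ℤ) : ℝ)
    have h11 := abs_nonneg ((u : ℤ) : ℝ)
    have h12 : (0 : ℝ) < 2 ^ l := by positivity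
    linarith

/-- **one chain of K + 1 pieces** -/
theorem chain1h {c C : ℝ} {q j K : ℕ} {D : ℤ} {S : Set (List Bool)} (hc : 0 < c) (hC : 0 < C) (hq : q + 2 ≤ j)
    (hB : S ⊆ BU) (hU : Uq S) (hZ : Zs S D) (h1 : gf S ≤ 1)
    (hup : ∀ (x : ℤ) (t : ℕ), gf {V | V ∈ S ∧ latE V = x ∧ hgt V = t} ≤ ENNReal.ofReal (C / 4 ^ j))
    (hlo : ∀ (x : ℤ) (t : ℕ), 16 * 2 ^ j ≤ t → t < 16 * 2 ^ j + 2 ^ (j - q) → 2 ^ q * |x| ≤ 2 ^ j → Even (x - t) →
      ENNReal.ofReal (c / 4 ^ j) ≤ gf {V | V ∈ S ∧ latE V = x ∧ hgt V = t}) :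
    c / 4 ^ (q + 2) ≤ wD S ∧ wD S ≤ 1 ∧ wD (pw S (K + 1)) = wD S ^ (K + 1) ∧
    ∀ (l : ℕ) (z h : Pt), (3 : ℤ) ∣ ip h up → hn h ≤ 2 ^ l → |vD (pw S (K + 1)) (z + h) - vD (pw S (K + 1)) z| ≤
      C / 4 ^ j * (wD S ^ K * (2 * 2 ^ l / 2 ^ (j - q - 2) + 2 * (1 - c / 4 ^ (q + 2)) ^ K)) := by
  classical
  have hF := TWN.fin_of_zs hB hZ
  obtain ⟨m, hm⟩ : ∃ m : ℕ, m = 2 ^ (j - q - 2) := ⟨_, rfl⟩
  obtain ⟨f, hf⟩ : ∃ f : Pt → ℝ, f = vD S := ⟨_, rfl⟩
  obtain ⟨κ, hκ⟩ : ∃ κ : ℝ, κ = c / 4 ^ j := ⟨_, rfl⟩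
  have hκ0 : 0 < κ := by rw [hκ]; positivity
  obtain ⟨M, hM⟩ : ∃ M : ℝ, M = C / 4 ^ j := ⟨_, rfl⟩
  have hM0 : 0 < M := by rw [hM]; positivity
  have hm1 : 1 ≤ m := by rw [hm]; exact Nat.one_le_two_pow
  have hmR : (1 : ℝ) ≤ m := by exact_mod_cast hm1
  have hgS : gf S ≠ ⊤ := (h1.trans_lt ENNReal.one_lt_top).ne
  have hsub : ∀ P : List Bool → Prop, gf {V | V ∈ S ∧ P V} ≠ ⊤ := fun P =>
    ((gf_mono fun V hV => hV.1).trans_lt (lt_top_iff_ne_top.2 hgS)).ne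
  have hκm : κ * (m : ℝ) ^ 2 = c / 4 ^ (q + 2) := by
    have e1 : (4 : ℝ) ^ j = (m : ℝ) ^ 2 * 4 ^ (q + 2) := by
      rw [hm]
      push_cast
      rw [← pow_mul, mul_comm (j - q - 2) 2, pow_mul]
      norm_num
      rw [← pow_add]
      congr 1
      omega
    rw [hκ, e1]
    field_simp
  have hmj : (4 * m : ℕ) = 2 ^ (j - q) := by
    rw [hm, show j - q = j - q - 2 + 2 by omega, pow_add]
    simp only [Nat.add_sub_cancel]
    ring
  -- the box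
  obtain ⟨b0, hb0⟩ : ∃ b0 : Pt, b0 = (0, 24 * 2 ^ j) := ⟨_, rfl⟩
  have hpt : ∀ i i' : ℕ, b0 + (i : ℤ) • ((2, -1) : Pt) + (i' : ℤ) • ((1, 1) : Pt) =
      ((2 * i + i', 24 * 2 ^ j - i + i') : Pt) := by
    intro i i'
    rw [hb0]
    apply Prod.ext
    · simp only [Prod.fst_add, Prod.smul_fst, smul_eq_mul]
      ring
    · simp only [Prod.snd_add, Prod.smul_snd, smul_eq_mul]
      ring
  have hlow : ∀ i, i < m → ∀ i', i' < m → κ ≤ f (b0 + (i : ℤ) • ((2, -1) : Pt) + (i' : ℤ) • ((1, 1) : Pt)) := by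
    intro i hi i' hi'
    rw [hpt, hf, hκ]
    have h2 := hlo (2 * i + i') (16 * 2 ^ j + i') (by omega) (by omega) (by
      rw [abs_of_nonneg (by positivity)]
      have h3 : (2 * (i : ℤ) + i') ≤ 4 * m := by
        have a1 : (i : ℤ) < m := by exact_mod_cast hi
        have a2 : (i' : ℤ) < m := by exact_mod_cast hi'
        linarith
      have h4 : (4 : ℤ) * m = 2 ^ (j - q) := by exact_mod_cast hmj
      have h5 : (2 : ℤ) ^ q * 2 ^ (j - q) = 2 ^ j := by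
        rw [← pow_add]
        congr 1
        omega
      calc (2 : ℤ) ^ q * (2 * i + i') ≤ 2 ^ q * 2 ^ (j - q) := mul_le_mul_of_nonneg_left (by linarith) (by positivity)
        _ = 2 ^ j := h5) (by
      push_cast
      have : (2 * (i : ℤ) + i' - (16 * 2 ^ j + i')) = 2 * (i - 8 * 2 ^ j) := by ring
      rw [this]
      exact even_two_mul _)
    have h3 : gf {V | V ∈ S ∧ latE V = 2 * (i : ℤ) + i' ∧ hgt V = 16 * 2 ^ j + i'} ≤
        gf {V | V ∈ S ∧ en V = ((2 * i + i', 24 * 2 ^ j - i + i') : Pt)} := by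
      refine gf_mono ?_
      rintro V ⟨a1, a2, a3⟩
      obtain ⟨b1, b2⟩ := en_BU (hB a1)
      refine ⟨a1, Prod.ext (b1.trans a2) ?_⟩
      show (en V).2 = 24 * 2 ^ j - i + i'
      rw [b1, a2, a3] at b2
      push_cast at b2
      linarith
    have h4 := h2.trans h3
    exact (ENNReal.ofReal_le_iff_le_toReal (hsub _)).1 h4
  have hinj : Set.InjOn (fun p : ℕ × ℕ => b0 + (p.1 : ℤ) • ((2, -1) : Pt) + (p.2 : ℤ) • ((1, 1) : Pt))
      (range m ×ˢ range m : Finset (ℕ × ℕ)) := by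
    rintro ⟨i, i'⟩ _ ⟨k, k'⟩ _ he
    have he' : b0 + (i : ℤ) • ((2, -1) : Pt) + (i' : ℤ) • ((1, 1) : Pt) =
      b0 + (k : ℤ) • ((2, -1) : Pt) + (k' : ℤ) • ((1, 1) : Pt) := he
    rw [hpt, hpt, Prod.mk.injEq] at he'
    obtain ⟨g1, g2⟩ := he'
    have g3 : i = k ∧ i' = k' := by omega
    rw [g3.1, g3.2]
  obtain ⟨Y, hY⟩ : ∃ Y : Finset Pt, Y = (hF.toFinset.image en) ∪
    (range m ×ˢ range m).image (fun p : ℕ × ℕ => b0 + (p.1 : ℤ) • ((2, -1) : Pt) + (p.2 : ℤ) • ((1, 1) : Pt)) := ⟨_, rfl⟩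
  have hYS : ∀ U ∈ S, en U ∈ Y := by
    intro U hU
    rw [hY, mem_union]
    exact Or.inl (mem_image_of_mem _ (hF.mem_toFinset.2 hU))
  have hYB : ∀ i, i < m → ∀ i', i' < m → b0 + (i : ℤ) • ((2, -1) : Pt) + (i' : ℤ) • ((1, 1) : Pt) ∈ Y := by
    intro i hi i' hi'
    rw [hY, mem_union]
    exact Or.inr (mem_image.2 ⟨(i, i'), mem_product.2 ⟨mem_range.2 hi, mem_range.2 hi'⟩, rfl⟩)
  have hf0 : ∀ y, 0 ≤ f y := fun y => by rw [hf]; exact ENNReal.toReal_nonneg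
  have hfw : ∑ y ∈ Y, f y ≤ wD S := by
    have e1 : ∀ y, f y = ∑ V ∈ hF.toFinset, if en V = y then xc ^ V.length else 0 := by
      intro y
      have h2 := TWN.vD_fs hF.toFinset y
      rw [Set.Finite.coe_toFinset] at h2
      rw [hf]
      exact h2
    have e2 : wD S = ∑ V ∈ hF.toFinset, xc ^ V.length := by
      have h2 := TWN.wD_fs hF.toFinset
      rw [Set.Finite.coe_toFinset] at h2
      exact h2
    simp only [e1]
    rw [e2, sum_comm]
    refine sum_le_sum fun V hV => ?_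
    rw [sum_ite_eq]
    split_ifs
    · exact le_rfl
    · exact pow_nonneg xc_pos.le _
  have hw1 : wD S ≤ 1 := by
    have := ENNReal.toReal_mono ENNReal.one_ne_top h1
    rwa [ENNReal.toReal_one] at this
  have hcw : c / 4 ^ (q + 2) ≤ wD S := by
    refine le_trans ?_ hfw
    have h2 : ∑ y ∈ (range m ×ˢ range m).image (fun p : ℕ × ℕ => b0 + (p.1 : ℤ) • ((2, -1) : Pt) +
        (p.2 : ℤ) • ((1, 1) : Pt)), f y ≤ ∑ y ∈ Y, f y :=
      sum_le_sum_of_subset_of_nonneg (by rw [hY]; exact subset_union_right) fun y _ _ => hf0 y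
    refine le_trans ?_ h2
    rw [sum_image hinj, ← hκm]
    calc κ * (m : ℝ) ^ 2 = ∑ _p ∈ range m ×ˢ range m, κ := by
          rw [sum_const, card_product, card_range, nsmul_eq_mul]
          push_cast
          ring
      _ ≤ _ := by
          refine sum_le_sum fun p hp => ?_
          rw [mem_product, mem_range, mem_range] at hp
          exact hlow p.1 hp.1 p.2 hp.2
  have hfM : ∀ y, f y ≤ M := by
    intro y
    by_cases h : ∃ V, V ∈ S ∧ en V = y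
    · obtain ⟨V0, h2, h3⟩ := h
      rw [hf, hM]
      have h4 : gf {V | V ∈ S ∧ en V = y} ≤ gf {V | V ∈ S ∧ latE V = latE V0 ∧ hgt V = hgt V0} := by
        refine gf_mono ?_
        rintro V ⟨a1, a2⟩
        obtain ⟨b1, b2⟩ := en_BU (hB a1)
        obtain ⟨c1, c2⟩ := en_BU (hB h2)
        rw [a2] at b1 b2
        rw [h3] at c1 c2
        refine ⟨a1, by rw [← b1, ← c1], ?_⟩
        have : (3 : ℤ) * hgt V = 3 * hgt V0 := by rw [← b2, ← c2]
        omega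
      have h5 := ENNReal.toReal_mono ENNReal.ofReal_ne_top (h4.trans (hup (latE V0) (hgt V0)))
      rwa [ENNReal.toReal_ofReal (by positivity)] at h5
    · have h2 : {V | V ∈ S ∧ en V = y} = ∅ := by
        rw [Set.eq_empty_iff_forall_notMem]
        rintro V hV
        exact h ⟨V, hV⟩
      have h3 : f y = 0 := by
        rw [hf]
        show (gf {V | V ∈ S ∧ en V = y}).toReal = 0
        rw [h2]
        have h4 := TWN.gf_fs ∅
        rw [coe_empty, sum_empty] at h4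
        exact h4
      rw [h3]
      exact hM0.le
  refine ⟨hcw, hw1, TWN.wD_pw hF hU hB (K + 1), fun l z h hd hh => ?_⟩
  obtain ⟨c1, c2, g1, g2⟩ := shift_coord hd hh
  have hv : ∀ u, vD (pw S (K + 1)) u = TWN.AvK Y f K f u := fun u => by
    have := TWN.vD_pw hF hU hB hYS K u
    rw [hf]
    exact this
  have e1 : vD (pw S (K + 1)) (z + h) - vD (pw S (K + 1)) z =
      M * TWN.AvK Y f K (fun u => (fun v => f v / M) (u + (c1 • ((2, -1) : Pt) + c2 • ((1, 1) : Pt))) -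
        (fun v => f v / M) u) z := by
    rw [show z + h = z - (-h) by rw [sub_neg_eq_add], hv, hv, TWN.AvK_tr, ← TWN.AvK_sub, ← TWN.AvK_mul M]
    congr 1
    funext u
    rw [sub_neg_eq_add, g1]
    field_simp
  have hsm := TWN.smooth (Y := Y) (f := f) (w := wD S) (κ := κ) (m := m) (b0 := b0) (e1 := ((2, -1) : Pt))
    (e2 := ((1, 1) : Pt)) (fun y _ => hf0 y) hfw hκ0 hm1 hinj (fun i hi i' hi' => ⟨hYB i hi i' hi', hlow i hi i' hi'⟩)
    (φ := fun v => f v / M) (fun v => by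
      rw [abs_of_nonneg (div_nonneg (hf0 v) hM0.le), div_le_one hM0]
      exact hfM v) c1 c2 K z
  rw [e1, abs_mul, abs_of_pos hM0, ← hM]
  refine mul_le_mul_of_nonneg_left (hsm.trans ?_) hM0.le
  rw [hκm]
  obtain ⟨c', hc'⟩ : ∃ c', c' = c / 4 ^ (q + 2) := ⟨_, rfl⟩
  have hc'0 : 0 < c' := by rw [hc']; positivity
  rw [← hc'] at hcw hκm ⊢
  have hw0 : 0 < wD S := hc'0.trans_le hcw
  have b1 : 2 * κ * m * (|(c1 : ℝ)| + |(c2 : ℝ)|) / c' ≤ 2 * 2 ^ l / 2 ^ (j - q - 2) := by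
    have e2 : ((2 : ℝ) ^ (j - q - 2)) = m := by
      rw [hm]
      push_cast
      rfl
    rw [e2, div_le_div_iff₀ hc'0 (by positivity), ← hκm]
    have h2 : (0 : ℝ) ≤ 2 * κ * m * m := by positivity
    calc 2 * κ * m * (|(c1 : ℝ)| + |(c2 : ℝ)|) * m = 2 * κ * m * m * (|(c1 : ℝ)| + |(c2 : ℝ)|) := by ring
      _ ≤ 2 * κ * m * m * 2 ^ l := mul_le_mul_of_nonneg_left g2 h2
      _ = _ := by ring
  have b2 : (wD S - c') ^ K ≤ wD S ^ K * (1 - c') ^ K := by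
    rw [← mul_pow]
    refine pow_le_pow_left₀ (by linarith) ?_ K
    nlinarith
  have b3 : 0 ≤ wD S ^ K := by positivity
  calc 2 * κ * m * (|(c1 : ℝ)| + |(c2 : ℝ)|) / c' * wD S ^ K + 2 * (wD S - c') ^ K ≤
        2 * 2 ^ l / 2 ^ (j - q - 2) * wD S ^ K + 2 * (wD S ^ K * (1 - c') ^ K) := by
        have := mul_le_mul_of_nonneg_right b1 b3
        linarith
    _ = _ := by ring

/-- **P1: chains whose displacement hardly sees a small shift** -/
theorem chPh0 : ∀ η : ℝ, 0 < η → ∃ (s : ℕ) (w0 : ℝ) (L0 : ℕ), 0 < w0 ∧ ∀ L, L0 ≤ L → ∃ Ch : Set (List Bool),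
    SLW.Chn L Ch ∧ w0 ≤ wD Ch ∧ wD Ch ≤ 1 ∧ ∀ l, l + s ≤ L → SMh l Ch (η * wD Ch / 4 ^ L) := by
  intro η hη
  obtain ⟨c, C0, q, D, j0, S, hc, -, h⟩ := SLW.oneP
  obtain ⟨C, hC⟩ : ∃ C, C = max C0 1 := ⟨_, rfl⟩
  have hC1 : 1 ≤ C := by rw [hC]; exact le_max_right _ _
  have hC0 : C0 ≤ C := by rw [hC]; exact le_max_left _ _
  obtain ⟨c', hc'⟩ : ∃ c', c' = c / 4 ^ (q + 2) := ⟨_, rfl⟩
  have hc'0 : 0 < c' := by rw [hc']; positivity
  have hone := fun (j : ℕ) (hj : j0 + q + 2 ≤ j) (K : ℕ) => by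
    obtain ⟨a1, a2, a3, a4, a5, a6⟩ := h j (by omega)
    exact chain1h (K := K) hc (by linarith : 0 < C) (by omega : q + 2 ≤ j) a1 a2 a3 a4
      (fun x t => (a5 x t).trans (ENNReal.ofReal_le_ofReal (by gcongr))) a6
  have hc'1 : c' ≤ 1 := by
    obtain ⟨b1, b2, -⟩ := hone (j0 + q + 2) le_rfl 0
    rw [← hc'] at b1
    exact b1.trans b2
  obtain ⟨K, hK⟩ := choose_K (r := 1 - c') (B := 2 * C * (256 * ((D : ℝ) + 1)) ^ 2) (e := η * c' / 2) (by linarith)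
    (by linarith) (by positivity)
  obtain ⟨N, hN⟩ : ∃ N : ℕ, N = 64 * (K + 1) * D + 1 := ⟨_, rfl⟩
  obtain ⟨q1, hq1⟩ : ∃ q1, q1 = Nat.log 2 N + 1 := ⟨_, rfl⟩
  have hN1 : N < 2 ^ q1 := by rw [hq1]; exact Nat.lt_pow_succ_log_self (by norm_num) _
  have hN2 : 2 ^ q1 ≤ 2 * N := by
    rw [hq1, pow_succ, mul_comm]
    exact Nat.mul_le_mul_left 2 (Nat.pow_log_le_self 2 (by omega))
  have hN3 : (4 : ℝ) ^ q1 ≤ (256 * ((D : ℝ) + 1)) ^ 2 * ((K : ℝ) + 1) ^ 2 := by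
    have e1 : (4 : ℝ) ^ q1 = ((2 : ℝ) ^ q1) ^ 2 := by
      rw [← pow_mul, mul_comm, pow_mul]
      norm_num
    rw [e1, ← mul_pow]
    refine pow_le_pow_left₀ (by positivity) ?_ 2
    have h1 : ((2 : ℝ) ^ q1) ≤ 2 * (64 * (K + 1) * D + 1) := by
      have : ((2 ^ q1 : ℕ) : ℝ) ≤ ((2 * N : ℕ) : ℝ) := by exact_mod_cast hN2
      rw [hN] at this
      push_cast at this
      exact this
    have hK0 : (0 : ℝ) ≤ K := Nat.cast_nonneg K
    have hD0 : (0 : ℝ) ≤ D := Nat.cast_nonneg D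
    nlinarith [mul_nonneg hK0 hD0]
  obtain ⟨s, hs⟩ := pow_unbounded_of_one_lt (C * 4 ^ q1 * (2 * 2 ^ (q + 2 + q1)) / (η * c' / 2)) (show (1 : ℝ) < 2 by norm_num)
  refine ⟨s, c' ^ (K + 1), j0 + q + 2 + q1, by positivity, fun L hL => ?_⟩
  obtain ⟨j, rfl⟩ : ∃ j, L = j + q1 := ⟨L - q1, by omega⟩
  obtain ⟨a1, a2, a3, a4, a5, a6⟩ := h j (by omega)
  obtain ⟨b1, b2, b3, b4⟩ := hone j (by omega) K
  rw [← hc'] at b1 b4
  have hw0 : 0 < wD (S j) := hc'0.trans_le b1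
  refine ⟨pw (S j) (K + 1), ⟨pw_BU a1 _, ?_, ?_, fun V hV => even_BU (pw_BU a1 _ hV)⟩, ?_, ?_, fun l hl z h' hd hh => ?_⟩
  · intro V hV i hi
    have h1 := zs_pw a1 a3 (K + 1) V hV i hi
    have h2 : (64 * (K + 1) * D : ℤ) < 2 ^ q1 := by
      have : 64 * (K + 1) * D < 2 ^ q1 := by omega
      exact_mod_cast this
    rw [pow_add]
    have h3 : (0 : ℤ) < 2 ^ j := by positivity
    calc 64 * hn (vx oo up V i) ≤ 64 * (((K + 1 : ℕ) : ℤ) * (D * 2 ^ j)) := by linarith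
      _ = 64 * (K + 1) * D * 2 ^ j := by push_cast; ring
      _ < 2 ^ q1 * 2 ^ j := mul_lt_mul_of_pos_right h2 h3
      _ = _ := by ring
  · intro V hV V' hV' E E' hE hE' he
    exact uq_pw a2 a1 (K + 1) V hV V' hV' E E' (fun i i1 i2 => hE.mem i i1 i2) (fun i i1 i2 => hE'.mem i i1 i2) he
  · rw [b3]
    exact pow_le_pow_left₀ hc'0.le b1 _
  · rw [b3]
    exact pow_le_one₀ hw0.le b2
  · refine (b4 l z h' hd hh).trans ?_
    rw [b3]
    have hCj : (0 : ℝ) < 4 ^ j := by positivity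
    have h4q : (0 : ℝ) < 4 ^ q1 := by positivity
    -- the two terms
    have t1 : C * 4 ^ q1 * (2 * 2 ^ l / 2 ^ (j - q - 2)) ≤ η * c' / 2 := by
      have e1 : (2 : ℝ) ^ l * 2 ^ s ≤ 2 ^ (j - q - 2) * 2 ^ (q + 2 + q1) := by
        rw [← pow_add, ← pow_add]
        exact pow_le_pow_right₀ (by norm_num) (by omega)
      rw [div_lt_iff₀ (by positivity)] at hs
      rw [← mul_div_assoc, div_le_iff₀ (by positivity)]
      have h2s : (0 : ℝ) < 2 ^ s := by positivity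
      have e2 : C * 4 ^ q1 * (2 * 2 ^ l) * 2 ^ s ≤ η * c' / 2 * 2 ^ (j - q - 2) * 2 ^ s := by
        calc C * 4 ^ q1 * (2 * 2 ^ l) * 2 ^ s = C * 4 ^ q1 * 2 * (2 ^ l * 2 ^ s) := by ring
          _ ≤ C * 4 ^ q1 * 2 * (2 ^ (j - q - 2) * 2 ^ (q + 2 + q1)) := mul_le_mul_of_nonneg_left e1 (by positivity)
          _ = C * 4 ^ q1 * (2 * 2 ^ (q + 2 + q1)) * 2 ^ (j - q - 2) := by ring
          _ ≤ 2 ^ s * (η * c' / 2) * 2 ^ (j - q - 2) := mul_le_mul_of_nonneg_right hs.le (by positivity)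
          _ = _ := by ring
      exact le_of_mul_le_mul_right e2 h2s
    have t2 : C * 4 ^ q1 * (2 * (1 - c') ^ K) ≤ η * c' / 2 := by
      refine le_trans ?_ hK
      have h5 : 0 ≤ (1 - c') ^ K := pow_nonneg (by linarith) _
      calc C * 4 ^ q1 * (2 * (1 - c') ^ K) = 2 * C * 4 ^ q1 * (1 - c') ^ K := by ring
        _ ≤ 2 * C * ((256 * ((D : ℝ) + 1)) ^ 2 * ((K : ℝ) + 1) ^ 2) * (1 - c') ^ K :=
            mul_le_mul_of_nonneg_right (mul_le_mul_of_nonneg_left hN3 (by positivity)) h5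
        _ = _ := by ring
    have t3 : C * 4 ^ q1 * (2 * 2 ^ l / 2 ^ (j - q - 2) + 2 * (1 - c') ^ K) ≤ η * wD (S j) := by
      have : η * c' ≤ η * wD (S j) := mul_le_mul_of_nonneg_left b1 hη.le
      linarith
    rw [pow_add 4 j q1, le_div_iff₀ (by positivity)]
    have hwK : 0 ≤ wD (S j) ^ K := by positivity
    calc C / 4 ^ j * (wD (S j) ^ K * (2 * 2 ^ l / 2 ^ (j - q - 2) + 2 * (1 - c') ^ K)) * (4 ^ j * 4 ^ q1) =
          C * 4 ^ q1 * (2 * 2 ^ l / 2 ^ (j - q - 2) + 2 * (1 - c') ^ K) * wD (S j) ^ K := by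
          field_simp
      _ ≤ η * wD (S j) * wD (S j) ^ K := mul_le_mul_of_nonneg_right t3 hwK
      _ = η * wD (S j) ^ (K + 1) := by ring

/-- an end of class 0 is a shift -/
lemma SM_of_SMh {l : ℕ} {Ch : Set (List Bool)} {δ : ℝ} (h : SMh l Ch δ) : SM l Ch δ := by
  intro z E hE
  rw [sub_eq_add_neg]
  obtain ⟨⟨-, h1⟩, h2⟩ := hE
  have hn1 := h1 E.length le_rfl
  have hev : Even E.length := by
    have h6 := cl_dx up E E.length
    by_contra hodd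
    have h5 : dx up E E.length = up := h2
    rw [if_neg hodd, h5] at h6
    revert h6
    decide
  have h3 := lev_mod E E.length
  rw [if_pos hev, sub_zero] at h3
  refine h z (-en E) ?_ ?_
  · have e : ip (-en E) up = -lev E E.length := by
      unfold lev en
      unfold ip
      simp only [Prod.fst_neg, Prod.snd_neg]
      ring
    rw [e, dvd_neg]
    exact h3
  · rw [hn_neg]
    have h4 : hn (en E) < 2 ^ l := by exact_mod_cast hn1
    exact h4.le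

/-- **A1: chains whose displacement hardly sees any small shift** -/
theorem chPh : ∀ η : ℝ, 0 < η → ∃ (s : ℕ) (w0 : ℝ) (L0 : ℕ), 0 < w0 ∧ ∀ L, L0 ≤ L → ∃ Ch : Set (List Bool),
    SLW.Chn L Ch ∧ w0 ≤ wD Ch ∧ wD Ch ≤ 1 ∧ ∀ l, l + s ≤ L → SM l Ch (η * wD Ch / 4 ^ L) ∧ SMh l Ch (η * wD Ch / 4 ^ L) := by
  intro η hη
  obtain ⟨s, w0, L0, h1, h⟩ := chPh0 η hη
  refine ⟨s, w0, L0, h1, fun L hL => ?_⟩
  obtain ⟨Ch, h2, h3, h4, h5⟩ := h L hL
  exact ⟨Ch, h2, h3, h4, fun l hl => ⟨SM_of_SMh (h5 l hl), h5 l hl⟩⟩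

end PLC

end HexObs
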