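import Pool.Agent.PLC.Defs

/-!
PLC: the literals are in `PLC/Defs.lean` (helper45); an alias
-/

set_option autoImplicit false

namespace HexObs

namespace PLC

lemma cl_PlC : CL PlC := cl_plC

end PLC

end HexObs
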