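import Pool.Agent.PW.MomT

/-!
# PLC (critical two-point ensemble of the plane), rows D1, D2: the literals (helper29)
-/

set_option autoImplicit false

namespace HexObs

namespace PLC

open Finset TS SDN TIW HexObs.SIM PWN

open scoped ENNReal

/-- the mass of the words with the end `y` and the last direction `e` -/
noncomputable def FP (e y : Pt) : ℝ := (gf {t | t ∈ SA ∧ en t = y ∧ de t = e}).toReal

/-- **the mass of the words with a given end does not feel a small shift of the end** (the same sublattice) -/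
def ShF : Prop := ∀ ε : ℝ, 0 < ε → ∃ C k0 : ℕ, ∀ (K : ℕ) (e y y' : Pt), k0 ≤ K → e ∈ dirs →
  (2 : ℤ) ^ K ≤ hn y → hn y ≤ 2 ^ (K + 3) → (2 : ℤ) ^ K ≤ hn y' → hn y' ≤ 2 ^ (K + 3) →
  hn (y' - y) ≤ 2 ^ (K - C) → (3 : ℤ) ∣ ip (y' - y) up → |FP e y - FP e y'| ≤ ε * gK K

end PLC

end HexObs
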