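import Pool.Agent.PW.TipT

/-!
PLC (the critical two-point ensemble of the plane, captain helper22, doc nu34/PLC_22): literals (helper45).

* `CL` : what is needed of a class `CC K k R e y` of ensembles `Ty k R e y` (words with the end `y`, last direction `e`, in the box
  `R`, no contact with the translates by `2 k m (1, 1)`); `PlC` : the plane (`R ≤ k`);
* `SmallC`, `TipC`, `ShC` : the rows.
-/

set_option autoImplicit false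

namespace HexObs

namespace PLC

open Finset TS SDN TIW SLW PWN

/-- a class of ensembles -/
def CL (CC : ℕ → ℕ → ℕ → Pt → Pt → Prop) : Prop := ∀ (K k R : ℕ) (e y : Pt), CC K k R e y →
  e ∈ dirs ∧ (2 : ℤ) ^ K ≤ hn y ∧ 2 ^ K ≤ k ∧ hn y + 2 ^ K ≤ (R : ℤ)

/-- **the plane** -/
def PlC (K k R : ℕ) (e y : Pt) : Prop := e ∈ dirs ∧ (2 : ℤ) ^ K ≤ hn y ∧ hn y ≤ 2 ^ (K + 3) ∧ hn y + 2 ^ K ≤ (R : ℤ) ∧ R ≤ k

lemma cl_plC : CL PlC := fun K k R e y h => by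
  obtain ⟨h1, h2, h3, h4, h5⟩ := h
  refine ⟨h1, h2, ?_, h4⟩
  have h6 : (0 : ℤ) ≤ hn y := (by positivity : (0 : ℤ) ≤ 2 ^ K).trans h2
  have h7 : (R : ℤ) ≤ k := by exact_mod_cast h5
  have h8 : (2 : ℤ) ^ K ≤ k := by linarith
  exact_mod_cast h8

/-- **row SmallC**: the sum of the weights of sparse levels is rarely small -/
def SmallC (CC : ℕ → ℕ → ℕ → Pt → Pt → Prop) : Prop := ∀ ε : ℝ, 0 < ε → ∃ c : ℝ, 0 < c ∧ ∀ (w : ℝ) (s : ℕ), 0 < w →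
  ∃ M0 : ℕ, ∀ M, M0 ≤ M → ∃ s0 : ℕ, ∀ s', s0 ≤ s' → ∃ c0 l0 k0 : ℕ, ∀ (K k R : ℕ) (e y : Pt) (lv : ℕ → ℕ)
  (Ch : ℕ → Set (List Bool)), k0 ≤ K → CC K k R e y → LvS M lv s s' w Ch → l0 ≤ lv 0 → (∀ i, i < M → lv i + s + c0 ≤ K) →
  ∑ t ∈ Ty k R e y, xc ^ t.length *
    smI c (fun i => NW (lv i) (lv i + s) (Ch i) (trI k (lv i + s)) (fun _ => 1) t /
      PWN.UT (lv i) (lv i + s) (Ch i) / M) M ≤ ε * gK K

/-- **row TipC**: the inner functionals of the tip are asymptotically independent of the far functionals, with the mean of the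
plane ensemble of the scale -/
def TipC (CC : ℕ → ℕ → ℕ → Pt → Pt → Prop) (g : ℝ → ℝ) : Prop := ∀ ε : ℝ, 0 < ε → ∃ τ : ℝ, 0 < τ ∧ ∃ C1 : ℕ, ∀ C0 C : ℕ,
  C1 ≤ C0 → C0 + C1 ≤ C → ∃ k0 : ℕ, ∀ (K k R n' : ℕ) (e y : Pt), k0 ≤ K → CC K k R e y → TIP.Sc K n' →
  ∀ q Φ er : List Bool → ℝ, (∀ t, |q t| ≤ 1) → (∀ t, |Φ t| ≤ 1) → Inn (K - C) q → RM.Rob (2 ^ (K - C0)) Φ er →
  (∀ t, 0 ≤ er t) → ∑ t ∈ Ty k R e y, xc ^ t.length * er t ^ 2 ≤ τ ^ 2 * gK K →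
  |∑ t ∈ Ty k R e y, xc ^ t.length * (Φ t * q t) - EA g n' q * ∑ t ∈ Ty k R e y, xc ^ t.length * Φ t| ≤ ε * gK K

/-- **row ShC**: far functionals do not see a shift of the end -/
def ShC (CC : ℕ → ℕ → ℕ → Pt → Pt → Prop) : Prop := ∀ ε : ℝ, 0 < ε → ∃ τ : ℝ, 0 < τ ∧ ∃ C1 : ℕ, ∀ C0 C : ℕ,
  C1 ≤ C0 → C0 + C1 ≤ C → ∃ k0 : ℕ, ∀ (K k R : ℕ) (e y y' : Pt), k0 ≤ K → CC K k R e y → CC K k R e y' →
  hn (y' - y) ≤ 2 ^ (K - C) → (3 : ℤ) ∣ ip (y' - y) up → ∀ Φ er : List Bool → ℝ, (∀ t, |Φ t| ≤ 1) →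
  RM.Rob (2 ^ (K - C0)) Φ er → (∀ t, 0 ≤ er t) →
  ∑ t ∈ Ty k R e y, xc ^ t.length * er t ^ 2 ≤ τ ^ 2 * gK K → ∑ t ∈ Ty k R e y', xc ^ t.length * er t ^ 2 ≤ τ ^ 2 * gK K →
  |∑ t ∈ Ty k R e y, xc ^ t.length * Φ t - ∑ t ∈ Ty k R e y', xc ^ t.length * Φ t| ≤ ε * gK K

end PLC

end HexObs
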