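import Pool.Agent.PLC.DefR
import Pool.Agent.PW.PlaneS
import Pool.Agent.TPF.Main

/-!
# PLC, row D2: the two-point function of the plane changes slowly, public form, one sublattice (helper29)

* `SE_sum`: `gf (SE y)` is the sum of `FP e y` over the last directions;
* `GQ`, `GQ_eq`: the two-point function at the vertex `-psi q`, in words;
* `shG`: from `ShF`: `|GQ q' - GQ q| ≤ ε |x|^(-5/24)`;
* **`pubR_same`**: from `ShF`: `G(y) / G(x) → 1` for `|y - x| = o(|x|)`, `x`, `y` in the same sublattice.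
-/

set_option autoImplicit false

namespace HexObs

namespace PLC

open Finset SDN SawNu XI72 HexObs.PHWDict TIW TPF

open scoped ENNReal

lemma SE_fin (q : HexObs.Pt) : gf (SE q) ≠ ⊤ := SE_finC ur TPC.xUp q

open Classical in
/-- the sum over the last directions -/
theorem SE_sum (y : HexObs.Pt) : (gf (SE y)).toReal = ∑ e ∈ dirs, FP e y := by
  have h1 : gf (SE y) = ∑ e ∈ dirs, gf {t | t ∈ SDN.SA ∧ en t = y ∧ de t = e} := by
    unfold gf
    simp only [_root_.tsum_subtype _ (fun t => wE t)]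
    rw [← Summable.tsum_finsetSum (fun _ _ => ENNReal.summable)]
    refine tsum_congr fun t => ?_
    simp only [Set.indicator_apply]
    by_cases h : t ∈ SE y
    · rw [if_pos h]
      have hd : de t ∈ dirs := dx_mem up_dirs t t.length
      rw [Finset.sum_eq_single (de t)]
      · exact (if_pos (show t ∈ {s | s ∈ SDN.SA ∧ en s = y ∧ de s = de t} from ⟨h.1, h.2, rfl⟩)).symm
      · intro e _ he
        exact if_neg fun h3 => he h3.2.2.symm
      · intro h3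
        exact absurd hd h3
    · rw [if_neg h]
      symm
      refine Finset.sum_eq_zero fun e _ => if_neg fun h3 => h ⟨h3.1, h3.2.1⟩
  have h2 : ∀ e ∈ dirs, gf {t | t ∈ SDN.SA ∧ en t = y ∧ de t = e} ≠ ⊤ := fun e _ =>
    ne_top_of_le_ne_top (SE_fin y) (gf_mono fun t ht => ⟨ht.1, ht.2.1⟩)
  rw [h1, ENNReal.toReal_sum h2]
  rfl

/-- the two-point function at the vertex `-psi q` -/
noncomputable def GQ (q : HexObs.Pt) : ℝ := (Gd (ENNReal.ofReal xc) (-HexMu.psi q)).toReal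

lemma Gd_fin {q : HexObs.Pt} (hq : q ≠ oo) : Gd (ENNReal.ofReal xc) (-HexMu.psi q) ≠ ⊤ := by
  intro h0
  have h1 := Gd_SE hq
  rw [h0, ENNReal.mul_top (by norm_num)] at h1
  exact (ENNReal.sum_ne_top.2 fun g _ => SE_fin _) h1.symm

/-- **the two-point function in words** -/
theorem GQ_eq {q : HexObs.Pt} (hq : q ≠ oo) : 2 * GQ q = ∑ g ∈ Rot3, ∑ e ∈ dirs, FP e (mulE g q) := by
  have h1 := congrArg ENNReal.toReal (Gd_SE hq)
  rw [ENNReal.toReal_mul, ENNReal.toReal_sum fun g _ => SE_fin _] at h1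
  have h2 : (2 : ℝ≥0∞).toReal = 2 := by norm_num
  rw [h2] at h1
  rw [show 2 * GQ q = 2 * (Gd (ENNReal.ofReal xc) (-HexMu.psi q)).toReal from rfl, h1]
  exact Finset.sum_congr rfl fun g _ => SE_sum _

lemma hn_two (p : HexObs.Pt) : 2 * nrm p ≤ hn p ^ 2 ∧ hn p ^ 2 ≤ 4 * nrm p := by
  obtain ⟨x, y⟩ := p
  have e1 : ip (x, y) up = 2 * y + x := by unfold ip up; simp; try ring
  have e2 : ip (x, y) (rotL up) = y - x := by unfold ip rotL up; simp; try ring
  have e3 : ip (x, y) (rotR up) = 2 * x + y := by unfold ip rotR up; simp; try ring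
  have e4 : nrm (x, y) = x ^ 2 + x * y + y ^ 2 := rfl
  unfold hn
  rw [e1, e2, e3, e4]
  have a1 := sq_abs (2 * y + x)
  have a2 := sq_abs (y - x)
  have a3 := sq_abs (2 * x + y)
  have p1 := abs_nonneg (2 * y + x)
  have p2 := abs_nonneg (y - x)
  have p3 := abs_nonneg (2 * x + y)
  generalize |2 * y + x| = A at *
  generalize |y - x| = B at *
  generalize |2 * x + y| = D at *
  rcases le_total B D with h1 | h1
  · rw [max_eq_right h1]
    rcases le_total A D with h2 | h2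
    · rw [max_eq_right h2]
      constructor <;> nlinarith [mul_self_nonneg x, mul_self_nonneg y]
    · rw [max_eq_left h2]
      constructor <;> nlinarith [mul_self_nonneg x, mul_self_nonneg y]
  · rw [max_eq_left h1]
    rcases le_total A B with h2 | h2
    · rw [max_eq_right h2]
      constructor <;> nlinarith [mul_self_nonneg (x + y), mul_self_nonneg x, mul_self_nonneg y]
    · rw [max_eq_left h2]
      constructor <;> nlinarith [mul_self_nonneg x, mul_self_nonneg y]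

lemma rot_cls {g : HexObs.Pt} (hg : g ∈ Rot3) {p : HexObs.Pt} (h : (3 : ℤ) ∣ ip p up) : (3 : ℤ) ∣ ip (mulE g p) up := by
  obtain ⟨x, y⟩ := p
  simp only [Rot3, Finset.mem_insert, Finset.mem_singleton] at hg
  unfold ip up at *
  rcases hg with rfl | rfl | rfl <;> simp only [mulE] at * <;> omega

lemma mulE_sub' (g p q : HexObs.Pt) : mulE g (p - q) = mulE g p - mulE g q := by
  obtain ⟨x, y⟩ := p
  obtain ⟨x', y'⟩ := q
  obtain ⟨a, b⟩ := g
  simp only [mulE, Prod.mk_sub_mk]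
  ext <;> simp only <;> ring

lemma phi_sub (q q' : HexObs.Pt) : phiTri (-HexMu.psi q') - phiTri (-HexMu.psi q) = phiTri (-HexMu.psi (q' - q)) := by
  rw [← map_sub]
  congr 1
  obtain ⟨x, y⟩ := q
  obtain ⟨x', y'⟩ := q'
  simp only [HexMu.psi, Prod.mk_sub_mk]
  ext <;> simp <;> ring

/-- the size of a point in the two norms -/
lemma hn_norm (q : HexObs.Pt) : ‖phiTri (-HexMu.psi q)‖ ≤ hn q ∧ (hn q : ℝ) ≤ 2 * ‖phiTri (-HexMu.psi q)‖ := by
  have h1 := norm_sq q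
  obtain ⟨h2, h3⟩ := hn_two q
  have h4 := hn_nonneg q
  have h2' : (2 : ℝ) * (nrm q : ℝ) ≤ (hn q : ℝ) ^ 2 := by exact_mod_cast h2
  have h3' : (hn q : ℝ) ^ 2 ≤ 4 * (nrm q : ℝ) := by exact_mod_cast h3
  have h4' : (0 : ℝ) ≤ hn q := by exact_mod_cast h4
  have h5 := norm_nonneg (phiTri (-HexMu.psi q))
  rw [← h1] at h2' h3'
  constructor
  · nlinarith
  · nlinarith

/-- **the slow change, in words** -/
theorem shG (h : ShF) : ∀ ε : ℝ, 0 < ε → ∃ δ : ℝ, 0 < δ ∧ ∀ q q' : HexObs.Pt, 1 / δ ≤ ‖phiTri (-HexMu.psi q)‖ →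
    ‖phiTri (-HexMu.psi q') - phiTri (-HexMu.psi q)‖ ≤ δ * ‖phiTri (-HexMu.psi q)‖ → (3 : ℤ) ∣ ip (q' - q) up →
    q ≠ oo ∧ q' ≠ oo ∧ |GQ q' - GQ q| ≤ ε * ‖phiTri (-HexMu.psi q)‖ ^ (-(5 / 24) : ℝ) := by
  intro ε hε
  obtain ⟨Cu, hCu, hup⟩ := PW.BL.gK_up TPC.xUp
  have hA : (0 : ℝ) < 9 * Cu * 4 := by positivity
  obtain ⟨C, k0, hS⟩ := h (ε / (9 * Cu * 4)) (by positivity)
  obtain ⟨δ, hδ⟩ : ∃ δ : ℝ, δ = 1 / 2 ^ (C + k0 + 5) := ⟨_, rfl⟩
  have hδ0 : 0 < δ := by rw [hδ]; positivity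
  refine ⟨δ, hδ0, fun q q' hq hqq hcl => ?_⟩
  obtain ⟨N, hN⟩ : ∃ N, N = ‖phiTri (-HexMu.psi q)‖ := ⟨_, rfl⟩
  rw [← hN] at hq hqq ⊢
  have hinv : 1 / δ = 2 ^ (C + k0 + 5) := by rw [hδ, one_div_one_div]
  have hN1 : (2 : ℝ) ^ (C + k0 + 5) ≤ N := hinv ▸ hq
  have hN0 : 0 < N := lt_of_lt_of_le (by positivity) hN1
  have hd32 : δ ≤ 1 / 32 := by
    rw [hδ]
    refine one_div_le_one_div_of_le (by norm_num) ?_
    calc (32 : ℝ) = 2 ^ 5 := by norm_num
      _ ≤ _ := pow_le_pow_right₀ (by norm_num) (by omega)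
  have hoo : phiTri (-HexMu.psi oo) = 0 := by
    have : (-HexMu.psi oo : SawNu.Pt) = 0 := by simp only [HexMu.psi]; rfl
    rw [this, map_zero]
  have hq0 : q ≠ oo := by
    rintro rfl
    rw [hoo, norm_zero] at hN
    linarith
  have hq0' : q' ≠ oo := by
    rintro rfl
    rw [hoo, zero_sub, norm_neg, ← hN] at hqq
    nlinarith
  refine ⟨hq0, hq0', ?_⟩
  rw [phi_sub] at hqq
  -- one rotation
  have key : ∀ g ∈ Rot3, ∀ e ∈ dirs, |FP e (mulE g q') - FP e (mulE g q)| ≤ ε / 9 * N ^ (-(5 / 24) : ℝ) := by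
    intro g hg e he
    have r1 : ∀ p : HexObs.Pt, ‖phiTri (-HexMu.psi (mulE g p))‖ = ‖phiTri (-HexMu.psi p)‖ := by
      intro p
      have h1 := norm_sq (mulE g p)
      have h2 := norm_sq p
      rw [nrm_mulE_rot hg, ← h2] at h1
      exact (pow_left_inj₀ (norm_nonneg _) (norm_nonneg _) (by norm_num)).1 h1
    obtain ⟨a1, a2⟩ := hn_norm (mulE g q)
    obtain ⟨b1, b2⟩ := hn_norm (mulE g (q' - q))
    rw [r1] at a1 a2 b1 b2
    rw [← hN] at a1 a2
    have b3 : (hn (mulE g (q' - q)) : ℝ) ≤ 2 * (δ * N) := b2.trans (by linarith)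
    rw [mulE_sub'] at b3
    obtain ⟨p, hp⟩ : ∃ p, p = mulE g q := ⟨_, rfl⟩
    obtain ⟨p', hp'⟩ : ∃ p', p' = mulE g q' := ⟨_, rfl⟩
    rw [← hp, ← hp'] at b3
    rw [← hp] at a1 a2
    rw [← hp, ← hp']
    have hcl' : (3 : ℤ) ∣ ip (p' - p) up := by
      rw [hp, hp', ← mulE_sub']
      exact rot_cls hg hcl
    -- the scale
    obtain ⟨m, hm⟩ : ∃ m : ℕ, hn p = m := ⟨(hn p).toNat, (Int.toNat_of_nonneg (hn_nonneg p)).symm⟩
    have hmR : (hn p : ℝ) = m := by rw [hm]; push_cast; rfl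
    have hm1 : 2 ^ (C + k0 + 5) ≤ m := by
      have : (2 : ℝ) ^ (C + k0 + 5) ≤ m := by
        rw [← hmR]
        exact hN1.trans a1
      exact_mod_cast this
    have hm0 : m ≠ 0 := by
      have : 0 < 2 ^ (C + k0 + 5) := by positivity
      omega
    have l1 : 2 ^ Nat.log 2 m ≤ m := Nat.pow_log_le_self 2 hm0
    have l2 : m < 2 ^ (Nat.log 2 m + 1) := Nat.lt_pow_succ_log_self (by norm_num) m
    have l3 : C + k0 + 5 ≤ Nat.log 2 m := Nat.le_log_of_pow_le (by norm_num) hm1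
    obtain ⟨K, hK⟩ : ∃ K, Nat.log 2 m = K + 1 := ⟨Nat.log 2 m - 1, by omega⟩
    rw [hK] at l1 l2 l3
    have l1' : (2 : ℝ) ^ (K + 1) ≤ m := by exact_mod_cast l1
    have l2' : (m : ℝ) < 2 ^ (K + 1 + 1) := by exact_mod_cast l2
    have hNm : (m : ℝ) ≤ 2 * N := hmR ▸ a2
    have hmN : N ≤ m := hmR ▸ a1
    -- the shift
    have s1 : (hn (p' - p) : ℝ) ≤ 2 ^ (K - C) := by
      refine b3.trans ?_
      have e1 : (2 : ℝ) ^ (C + k0 + 5) * 2 ^ (K - C) = 2 ^ (K + k0 + 5) := by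
        rw [← pow_add]
        congr 1
        omega
      have e2 : δ * 2 ^ (C + k0 + 5) = 1 := by
        rw [hδ]
        field_simp
      have e3 : N ≤ 4 * 2 ^ K := by
        refine hmN.trans (l2'.le.trans (le_of_eq ?_))
        rw [pow_succ, pow_succ]
        ring
      have e4 : (1 : ℝ) ≤ 2 ^ k0 := one_le_pow₀ (by norm_num)
      have e5 : (2 : ℝ) ^ (K + k0 + 5) = 2 ^ K * 2 ^ k0 * 32 := by
        rw [pow_add, pow_add]
        norm_num
      have e6 : (0 : ℝ) < 2 ^ (K - C) := by positivity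
      have e7 : (0 : ℝ) < 2 ^ K := by positivity
      have e8 : (2 : ℝ) ^ (K - C) = δ * (2 ^ K * 2 ^ k0 * 32) := by
        rw [← e5, ← e1, ← mul_assoc, e2, one_mul]
      rw [e8]
      have e9 : (8 : ℝ) * 2 ^ K ≤ 2 ^ K * 2 ^ k0 * 32 := by nlinarith
      nlinarith [mul_le_mul_of_nonneg_left e9 hδ0.le, mul_le_mul_of_nonneg_left e3 hδ0.le]
    have s2 : hn (p' - p) ≤ 2 ^ (K - C) := by exact_mod_cast s1
    have s3 : (2 : ℤ) ^ (K - C) ≤ 2 ^ K := pow_le_pow_right₀ (by norm_num) (by omega)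
    have hz1 : (2 : ℤ) ^ (K + 1) ≤ hn p := by
      rw [hm]
      exact_mod_cast l1
    have hz2 : hn p ≤ 2 ^ (K + 2) := by
      rw [hm]
      exact_mod_cast l2.le
    have hsh : hn p' ≤ hn p + hn (p' - p) ∧ hn p ≤ hn p' + hn (p' - p) := by
      constructor
      · have := hn_add p (p' - p)
        rwa [add_sub_cancel] at this
      · have := hn_add p' (p - p')
        rwa [add_sub_cancel, hn_sub_comm] at this
    have ep1 : (2 : ℤ) ^ (K + 1) = 2 * 2 ^ K := by rw [pow_succ]; ring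
    have ep2 : (2 : ℤ) ^ (K + 2) = 4 * 2 ^ K := by rw [pow_add]; ring
    have ep3 : (2 : ℤ) ^ (K + 3) = 8 * 2 ^ K := by rw [pow_add]; ring
    have h9 := hS K e p p' (by omega) he (by omega) (by omega) (by omega) (by omega) s2 hcl'
    rw [abs_sub_comm]
    refine h9.trans ?_
    -- gK
    have g1 : PWN.gK K ≤ Cu * 2 ^ (-(5 / 24) * (K : ℝ)) := by
      have g2 := hup K
      have g3 : PWN.gK K = (PW.BL.gK K).toReal := by
        unfold PWN.gK PW.BL.gK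
        rw [ENNReal.toReal_mul, ENNReal.toReal_pow, ENNReal.toReal_ofReal]
        have := DL.Ub_pos K
        positivity
      rw [g3]
      exact ENNReal.toReal_le_of_le_ofReal (by positivity) g2
    have g4 : (2 : ℝ) ^ (-(5 / 24) * (K : ℝ)) ≤ 4 * N ^ (-(5 / 24) : ℝ) := by
      have e3 : N ≤ 4 * 2 ^ K := by
        refine hmN.trans (l2'.le.trans (le_of_eq ?_))
        rw [pow_succ, pow_succ]
        ring
      have e5 : ((2 : ℝ) ^ K) ^ (-(5 / 24) : ℝ) = 2 ^ (-(5 / 24) * (K : ℝ)) := by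
        rw [← Real.rpow_natCast 2 K, ← Real.rpow_mul (by norm_num)]
        congr 1
        ring
      rw [← e5]
      have e6 : (4 * (2 : ℝ) ^ K) ^ (-(5 / 24) : ℝ) ≤ N ^ (-(5 / 24) : ℝ) :=
        Real.rpow_le_rpow_of_nonpos hN0 e3 (by norm_num)
      rw [Real.mul_rpow (by norm_num) (by positivity)] at e6
      have e7 : (1 / 4 : ℝ) ≤ 4 ^ (-(5 / 24) : ℝ) := by
        calc (1 / 4 : ℝ) = 4 ^ (-1 : ℝ) := by rw [Real.rpow_neg_one]; norm_num
          _ ≤ _ := Real.rpow_le_rpow_of_exponent_le (by norm_num) (by norm_num)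
      have e8 : (0 : ℝ) ≤ ((2 : ℝ) ^ K) ^ (-(5 / 24) : ℝ) := by positivity
      nlinarith
    calc ε / (9 * Cu * 4) * PWN.gK K ≤ ε / (9 * Cu * 4) * (Cu * (4 * N ^ (-(5 / 24) : ℝ))) :=
          mul_le_mul_of_nonneg_left (g1.trans (mul_le_mul_of_nonneg_left g4 hCu.le)) (by positivity)
      _ = ε / 9 * N ^ (-(5 / 24) : ℝ) := by
          field_simp
  have h1 := GQ_eq hq0
  have h2 := GQ_eq hq0'
  have h3 : 2 * (GQ q' - GQ q) = ∑ g ∈ Rot3, ∑ e ∈ dirs, (FP e (mulE g q') - FP e (mulE g q)) := by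
    simp only [Finset.sum_sub_distrib]
    rw [← h1, ← h2]
    ring
  have h4 : |2 * (GQ q' - GQ q)| ≤ ∑ g ∈ Rot3, ∑ e ∈ dirs, ε / 9 * N ^ (-(5 / 24) : ℝ) := by
    rw [h3]
    refine (Finset.abs_sum_le_sum_abs _ _).trans (Finset.sum_le_sum fun g hg => ?_)
    exact (Finset.abs_sum_le_sum_abs _ _).trans (Finset.sum_le_sum fun e he => key g hg e he)
  rw [Finset.sum_const, Finset.sum_const, show Rot3.card = 3 by decide, show dirs.card = 6 by decide, abs_mul,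
    abs_of_pos (by norm_num : (0 : ℝ) < 2)] at h4
  simp only [nsmul_eq_mul] at h4
  push_cast at h4
  linarith

/-- the public two-point function at the vertex of a walk -/
theorem G_eq {f : ℕ → Fin 3 → ℂ}
    (hf : ∀ i a, f i a = (-1 : ℂ) ^ i * Complex.exp (2 * (Real.pi : ℂ) * Complex.I * ((a : ℕ) : ℂ) / 3))
    {μ : ℝ} (hμ : μ = ⨅ n : {n : ℕ // 1 ≤ n}, (((saw f n.1).card : ℝ) ^ ((1 : ℝ) / (n.1 : ℝ))))
    {G : ℝ → ℂ → ℝ}
    (hG : ∀ z x, G z x = ∑' n : ℕ, (((saw f n).filter (fun s => SawNu.pos f s n = x)).card : ℝ) * z ^ n)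
    {q : HexObs.Pt} (hq : q ≠ oo) : G (1 / μ) (phiTri (-HexMu.psi q)) = GQ q := by
  rw [mu_val hf hμ]
  unfold GQ
  rw [Gd_real xc_pos.le (Gd_fin hq), hG, ENNReal.toReal_ofReal (tsum_nonneg fun n => by
    have := xc_pos
    positivity)]
  exact tsum_congr fun n => by rw [cnt_gd hf]

/-- the vertex of a walk -/
theorem walk_pt {f : ℕ → Fin 3 → ℂ}
    (hf : ∀ i a, f i a = (-1 : ℂ) ^ i * Complex.exp (2 * (Real.pi : ℂ) * Complex.I * ((a : ℕ) : ℂ) / 3))
    {n : ℕ} (s : Fin n → Fin 3) : ∃ q : HexObs.Pt, SawNu.pos f s n = phiTri (-HexMu.psi q) ∧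
      (3 : ℤ) ∣ ip q up - (if n.bodd then 2 else 0) := by
  have hf' : ∀ i a, f i a = encHex.φ (encHex.st i.bodd a) := fun i a => by rw [hf, hex_enc]
  have h1 : SawNu.pos f s n = phiTri ((encHex.word s).sum) := by
    have h2 := encHex.word_ps s hf' n
    have h3 : ps (encHex.word s) n = (encHex.word s).sum := by
      rw [← ps_length, encHex.word_length]
    rw [h3] at h2
    exact h2.symm
  obtain ⟨q, h2, h3⟩ := vert_of (encHex.word_tw s)
  refine ⟨q, by rw [h1, h2], ?_⟩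
  unfold mc at h3
  rw [encHex.word_length] at h3
  simpa using h3

/-- **the two-point function changes slowly, one sublattice, public form** -/
theorem pubR_same (h : ShF) {f : ℕ → Fin 3 → ℂ}
    (hf : ∀ i a, f i a = (-1 : ℂ) ^ i * Complex.exp (2 * (Real.pi : ℂ) * Complex.I * ((a : ℕ) : ℂ) / 3))
    {μ : ℝ} (hμ : μ = ⨅ n : {n : ℕ // 1 ≤ n}, (((saw f n.1).card : ℝ) ^ ((1 : ℝ) / (n.1 : ℝ))))
    {G : ℝ → ℂ → ℝ}
    (hG : ∀ z x, G z x = ∑' n : ℕ, (((saw f n).filter (fun s => SawNu.pos f s n = x)).card : ℝ) * z ^ n) :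
    ∀ ε : ℝ, 0 < ε → ∃ δ : ℝ, 0 < δ ∧ ∀ (n m : ℕ) (s : Fin n → Fin 3) (s' : Fin m → Fin 3), (Even n ↔ Even m) →
      1 / δ ≤ ‖SawNu.pos f s n‖ → ‖SawNu.pos f s' m - SawNu.pos f s n‖ ≤ δ * ‖SawNu.pos f s n‖ →
      |G (1 / μ) (SawNu.pos f s' m) / G (1 / μ) (SawNu.pos f s n) - 1| ≤ ε := by
  intro ε hε
  obtain ⟨c, hc, h2⟩ := two_point TPC.xUp TPC.xLow hf hμ hG
  obtain ⟨δ, hδ, h1⟩ := shG h (ε * c) (by positivity)
  refine ⟨δ, hδ, fun n m s s' hnm hx hxx => ?_⟩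
  have hx0 : SawNu.pos f s n ≠ 0 := by
    intro h0
    rw [h0, norm_zero] at hx
    have : 0 < 1 / δ := by positivity
    linarith
  obtain ⟨h3, -⟩ := h2 n s hx0
  obtain ⟨q, e1, c1⟩ := walk_pt hf s
  obtain ⟨q', e1', c1'⟩ := walk_pt hf s'
  rw [e1] at hx hxx h3 hx0 ⊢
  rw [e1'] at hxx ⊢
  have hcl : (3 : ℤ) ∣ ip (q' - q) up := by
    have e2 : n.bodd = m.bodd := by
      rw [Nat.even_iff, Nat.even_iff, Nat.mod_two_of_bodd, Nat.mod_two_of_bodd] at hnm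
      revert hnm
      cases n.bodd <;> cases m.bodd <;> simp
    rw [e2] at c1
    have e3 : ip (q' - q) up = ip q' up - ip q up := by
      obtain ⟨x, y⟩ := q
      obtain ⟨x', y'⟩ := q'
      unfold ip up
      simp only [Prod.mk_sub_mk]
      ring
    rw [e3]
    have := dvd_sub c1' c1
    rwa [sub_sub_sub_cancel_right] at this
  obtain ⟨hq, hq', h4⟩ := h1 q q' hx hxx hcl
  rw [G_eq hf hμ hG hq] at h3 ⊢
  rw [G_eq hf hμ hG hq']
  have hN : 0 < ‖phiTri (-HexMu.psi q)‖ := norm_pos_iff.2 hx0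
  have hNp : 0 < ‖phiTri (-HexMu.psi q)‖ ^ (-(5 / 24) : ℝ) := Real.rpow_pos_of_pos hN _
  have hGp : 0 < GQ q := lt_of_lt_of_le (by positivity) h3
  rw [div_sub_one hGp.ne', abs_div, abs_of_pos hGp, div_le_iff₀ hGp]
  calc |GQ q' - GQ q| ≤ ε * c * ‖phiTri (-HexMu.psi q)‖ ^ (-(5 / 24) : ℝ) := h4
    _ = ε * (c * ‖phiTri (-HexMu.psi q)‖ ^ (-(5 / 24) : ℝ)) := by ring
    _ ≤ ε * GQ q := mul_le_mul_of_nonneg_left h3 hε.le

end PLC

end HexObs
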