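import Pool.Agent.IW.Res

/-!
PLC, the public literals (doc nu34/PLC_22, section 5): `step`, `pos`, `saw`, `begins` are those of `IW/Res`, the rest is the text of
`HeldD98/TwoPoint`.
-/

set_option autoImplicit false

open scoped Classical

namespace Pool.Agent.PLC.Res

open Pool.Agent.IW.Res

/-- The vertices of the lattice: the end points of the walks from `0` (with or without self-intersections). -/
def vertices : Set ℂ := {x | ∃ (n : ℕ) (s : Fin n → Fin 3), pos s n = x}

/-- The critical fugacity: the inverse of the growth constant. -/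
noncomputable def zc : ℝ := 1 / ⨅ n : {n : ℕ // 1 ≤ n}, ((saw n.1).card : ℝ) ^ ((1 : ℝ) / (n.1 : ℝ))

/-- The generating function of the self-avoiding walks from `0` to `x`. -/
noncomputable def G (z : ℝ) (x : ℂ) : ℝ :=
  ∑' n : ℕ, (((saw n).filter (fun s => pos s n = x)).card : ℝ) * z ^ n

/-- The same sum over the walks whose first `m` directions are in `W` and whose last `m` directions, read backwards, are in
`W'`. -/
noncomputable def ends (z : ℝ) (x : ℂ) (m : ℕ) (W W' : Set (Fin m → Fin 3)) : ℝ :=
  ∑' n : ℕ, (((saw n).filter (fun s => pos s n = x ∧ ∃ h : m ≤ n, (fun i : Fin m => s (Fin.castLE h i)) ∈ W ∧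
    (fun i : Fin m => s (Fin.rev (Fin.castLE h i))) ∈ W')).card : ℝ) * z ^ n

end Pool.Agent.PLC.Res
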