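import Pool.Agent.PLC.RInf
import Pool.Agent.PLC.Res
import Pool.Agent.PLC.PubR
import Pool.Agent.MC.Dict
import Pool.Agent.TPF.NC

/-!
# PLC, row E1a: sums over the walks with a given end = sums over the words (helper29)

* `zc_eq`: the critical fugacity of `PLC/Res` is `xc`;
* **`dict`**: for a vertex `x ≠ 0`: sums over the walks from `0` to `x` = half the sum over the three rotations and the six
  directions of exit of the sums over the words.
-/

set_option autoImplicit false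

open scoped Classical

namespace Pool.Agent.PLC

open Pool.Agent.IW.Res Pool.Agent.PLC.Res

open HexObs (Pt oo up vx dx xc mulE dirs)

open HexObs.SDN (SA)

open HexObs.TOG (wdN mem_wdN)

open NTSF (rot om)

open NTF (JJ sw)

open HexObs.TIW (en de)

/-- the walk with all directions turned by `a` -/
def rk (a : Fin 3) {n : ℕ} (s : Fin n → Fin 3) : Fin n → Fin 3 := fun i => s i + a

lemma rk_zero {n : ℕ} (s : Fin n → Fin 3) : rk 0 s = s := by
  funext i
  exact add_zero _

lemma rk_one {n : ℕ} (s : Fin n → Fin 3) : rk 1 s = rot s := rfl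

lemma rk_two {n : ℕ} (s : Fin n → Fin 3) : rk 2 s = rot (rot s) := by
  funext i
  show s i + 2 = s i + 1 + 1
  rw [add_assoc]
  rfl

lemma pos_rk (a : Fin 3) {n : ℕ} (s : Fin n → Fin 3) (k : ℕ) : pos (rk a s) k = om ^ (a : ℕ) * pos s k := by
  have h : ∀ s : Fin n → Fin 3, pos (rot s) k = om * pos s k := fun s => NTSF.pos_rot s k
  fin_cases a
  · show pos (rk 0 s) k = om ^ 0 * pos s k
    rw [rk_zero, pow_zero, one_mul]
  · show pos (rk 1 s) k = om ^ 1 * pos s k
    rw [rk_one, h, pow_one]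
  · show pos (rk 2 s) k = om ^ 2 * pos s k
    rw [rk_two, h, h]
    ring

/-- the critical fugacity -/
theorem zc_eq : zc = xc := by
  have h1 : (⨅ n : {n : ℕ // 1 ≤ n}, ((saw n.1).card : ℝ) ^ ((1 : ℝ) / (n.1 : ℝ))) = HexObs.muB := by
    unfold HexObs.muB
    refine congrArg iInf (funext fun n => ?_)
    rw [show (saw n.1).card = HexObs.aB n.1 from NTSZ.NC.card_saw n.2]
  unfold zc
  rw [h1, HexObs.TPC.An.muB_eq, one_div, one_div, inv_inv]

lemma om_eq : om = JJ (-1, 0) := by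
  have h := NTF.JJ_Ed 1
  have h2 : NTF.Ed 1 = (-1, 0) := rfl
  rw [h2] at h
  rw [h]
  unfold om
  congr 1
  norm_num

lemma JJ_om (v : Pt) : om * JJ v = JJ (mulE (-1, 1) v) := by
  rw [om_eq]
  have h3 : Real.sqrt 3 * Real.sqrt 3 = 3 := Real.mul_self_sqrt (by norm_num)
  obtain ⟨x, y⟩ := v
  apply Complex.ext
  · rw [Complex.mul_re, NTF.JJ_re, NTF.JJ_re, NTF.JJ_im, NTF.JJ_im, NTF.JJ_re]
    unfold mulE
    simp only
    push_cast
    linear_combination ((x : ℝ) / 4) * h3
  · rw [Complex.mul_im, NTF.JJ_re, NTF.JJ_re, NTF.JJ_im, NTF.JJ_im, NTF.JJ_im]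
    unfold mulE
    simp only
    push_cast
    ring

/-- the three points -/
def yv (p : Pt) (a : Fin 3) : Pt := if a = 0 then p else if a = 1 then mulE (0, -1) p else mulE (-1, 1) p

lemma yv_JJ (p : Pt) (a : Fin 3) : om ^ (a : ℕ) * JJ (yv p a) = JJ p := by
  obtain ⟨x, y⟩ := p
  fin_cases a
  · show om ^ 0 * JJ (x, y) = JJ (x, y)
    rw [pow_zero, one_mul]
  · show om ^ 1 * JJ (mulE (0, -1) (x, y)) = JJ (x, y)
    rw [pow_one, JJ_om]
    congr 1
    unfold mulE
    ext <;> simp only <;> ring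
  · show om ^ 2 * JJ (mulE (-1, 1) (x, y)) = JJ (x, y)
    rw [pow_two, mul_assoc, JJ_om, JJ_om]
    congr 1
    unfold mulE
    ext <;> simp only <;> ring

lemma om_ne : om ≠ 0 := Complex.exp_ne_zero _

lemma yv_iff (p v : Pt) (a : Fin 3) : om ^ (a : ℕ) * JJ v = JJ p ↔ v = yv p a := by
  constructor
  · intro h
    rw [← yv_JJ p a] at h
    exact NTF.JJ_inj (mul_left_cancel₀ (pow_ne_zero _ om_ne) h)
  · rintro rfl
    exact yv_JJ p a

/-- a vertex is a point of the lattice -/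
lemma vert_JJ {x : ℂ} (hx : x ∈ vertices) : ∃ p : Pt, JJ p = x := by
  obtain ⟨n, s, rfl⟩ := hx
  unfold pos
  generalize (Finset.univ.filter (fun i : Fin n => (i : ℕ) < n)) = S
  induction S using Finset.induction_on with
  | empty =>
    refine ⟨(0, 0), ?_⟩
    rw [Finset.sum_empty]
    apply Complex.ext
    · rw [NTF.JJ_re]; simp
    · rw [NTF.JJ_im]; simp
  | insert i S hi ih =>
    obtain ⟨p, hp⟩ := ih
    refine ⟨NTF.de (i : ℕ) (s i) + p, ?_⟩
    rw [Finset.sum_insert hi, NTF.JJ_add, hp]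
    congr 1
    exact NTF.JJ_de i (s i)

/-- the sum over the words by length -/
theorem sum_len {E : Set (List Bool)} (hE : E ⊆ SA) {f : List Bool → ℝ} (hs : Summable fun t : E => f t.1) :
    HasSum (fun n => ∑ t ∈ (wdN n).filter (fun t => t ∈ E), f t) (∑' t : E, f t.1) := by
  have h2 : HasSum (fun x : Σ n, {t : E // t.1.length = n} => f x.2.1.1) (∑' t : E, f t.1) :=
    ((Equiv.sigmaFiberEquiv (fun t : E => t.1.length)).hasSum_iff (f := fun t : E => f t.1)).2 hs.hasSum
  refine h2.sigma fun n => ?_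
  obtain ⟨S, hS⟩ : ∃ S : Finset (List Bool), S = (wdN n).filter (fun t => t ∈ E) := ⟨_, rfl⟩
  have hm : ∀ t : List Bool, t ∈ S ↔ t ∈ E ∧ t.length = n := by
    intro t
    rw [hS, Finset.mem_filter, mem_wdN]
    constructor
    · rintro ⟨h3, h4⟩
      exact ⟨h4, h3.1⟩
    · rintro ⟨h3, h4⟩
      exact ⟨⟨h4, hE h3⟩, h3⟩
  rw [← hS]
  let e2 : {t : E // t.1.length = n} ≃ S :=
    { toFun := fun t => ⟨t.1.1, (hm _).2 ⟨t.1.2, t.2⟩⟩
      invFun := fun t => ⟨⟨t.1, ((hm _).1 t.2).1⟩, ((hm _).1 t.2).2⟩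
      left_inv := fun _ => rfl
      right_inv := fun _ => rfl }
  have h3 := S.hasSum f
  exact (e2.hasSum_iff (f := fun t : S => f t.1)).2 h3

/-- **the walks of one length** -/
theorem sum_saw {n : ℕ} (hn : 0 < n) (F : (Fin n → Fin 3) → ℝ) :
    ∑ s ∈ saw n, F s = 1 / 2 * ∑ a : Fin 3, ∑ t ∈ wdN n, F (rk a (sw n t)) := by
  have h1 : ∑ s ∈ saw n, F s = ∑ s ∈ (saw n).filter (fun s => s ⟨0, hn⟩ = 0), (F s + F (rot s) + F (rot (rot s))) :=
    NTSF.Mg.sum_rot hn F
  have h2 : ∑ t ∈ wdN n, (F (sw n t) + F (rot (sw n t)) + F (rot (rot (sw n t)))) =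
      2 * ∑ s ∈ (saw n).filter (fun s => s ⟨0, hn⟩ = 0), (F s + F (rot s) + F (rot (rot s))) :=
    NTSF.Mg.sum_first hn fun s => F s + F (rot s) + F (rot (rot s))
  rw [h1, Fin.sum_univ_three]
  simp only [rk_zero, rk_one, rk_two]
  rw [← Finset.sum_add_distrib, ← Finset.sum_add_distrib, h2]
  ring

/-- the words with the end `y`, the six directions of exit -/
lemma sum_dirs (n : ℕ) (y : Pt) (F : List Bool → ℝ) :
    ∑ e ∈ dirs, ∑ t ∈ (wdN n).filter (fun t => t ∈ HexObs.PLC.Se e y), F t =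
      ∑ t ∈ (wdN n).filter (fun t => en t = y), F t := by
  simp only [Finset.sum_filter]
  rw [Finset.sum_comm]
  refine Finset.sum_congr rfl fun t ht => ?_
  have hSA : t ∈ SA := (mem_wdN.1 ht).2
  have hd : de t ∈ dirs := HexObs.dx_mem HexObs.SDN.up_dirs t t.length
  by_cases h : en t = y
  · rw [if_pos h, Finset.sum_eq_single (de t)]
    · exact if_pos ⟨hSA, h, rfl⟩
    · intro e _ he
      exact if_neg fun h3 => he h3.2.2.symm
    · intro h3
      exact absurd hd h3
  · rw [if_neg h]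
    exact Finset.sum_eq_zero fun e _ => if_neg fun h3 => h h3.2.1

/-- **E1a: the dictionary** -/
theorem dict {x : ℂ} (hx : x ∈ vertices) (hx0 : x ≠ 0) : ∃ y : Fin 3 → Pt, (∀ a : Fin 3, om ^ (a : ℕ) * JJ (y a) = x) ∧
    ∀ g : (n : ℕ) → (Fin n → Fin 3) → ℝ, (∀ n s, |g n s| ≤ 1) →
      (∀ (a : Fin 3) (e : Pt), Summable fun t : HexObs.PLC.Se e (y a) => xc ^ t.1.length * g t.1.length (rk a (sw t.1.length t.1))) ∧
      HasSum (fun n => (∑ s ∈ (saw n).filter (fun s => pos s n = x), g n s) * zc ^ n)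
        (1 / 2 * ∑ a : Fin 3, ∑ e ∈ dirs, ∑' t : HexObs.PLC.Se e (y a),
          xc ^ t.1.length * g t.1.length (rk a (sw t.1.length t.1))) := by
  obtain ⟨p, rfl⟩ := vert_JJ hx
  refine ⟨yv p, yv_JJ p, fun g hg => ?_⟩
  have hsum : ∀ (a : Fin 3) (e : Pt), Summable fun t : HexObs.PLC.Se e (yv p a) =>
      xc ^ t.1.length * g t.1.length (rk a (sw t.1.length t.1)) := fun a e =>
    HexObs.PLC.summ_Seq e (yv p a) (q := fun t => g t.length (rk a (sw t.length t))) fun t => hg _ _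
  refine ⟨hsum, ?_⟩
  have h1 : ∀ (a : Fin 3) (e : Pt), HasSum (fun n => ∑ t ∈ (wdN n).filter (fun t => t ∈ HexObs.PLC.Se e (yv p a)),
      xc ^ t.length * g t.length (rk a (sw t.length t))) (∑' t : HexObs.PLC.Se e (yv p a),
          xc ^ t.1.length * g t.1.length (rk a (sw t.1.length t.1))) := fun a e =>
    sum_len (E := HexObs.PLC.Se e (yv p a)) (fun t ht => ht.1) (f := fun t => xc ^ t.length * g t.length (rk a (sw t.length t)))
      (hsum a e)
  have h2 : HasSum (fun n => 1 / 2 * ∑ a : Fin 3, ∑ e ∈ dirs, ∑ t ∈ (wdN n).filter (fun t => t ∈ HexObs.PLC.Se e (yv p a)),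
      xc ^ t.length * g t.length (rk a (sw t.length t))) (1 / 2 * ∑ a : Fin 3, ∑ e ∈ dirs,
        ∑' t : HexObs.PLC.Se e (yv p a), xc ^ t.1.length * g t.1.length (rk a (sw t.1.length t.1))) :=
    (hasSum_sum fun a _ => hasSum_sum fun e _ => h1 a e).mul_left _
  have h3 : (fun n => (∑ s ∈ (saw n).filter (fun s => pos s n = JJ p), g n s) * zc ^ n) =
      fun n => 1 / 2 * ∑ a : Fin 3, ∑ e ∈ dirs, ∑ t ∈ (wdN n).filter (fun t => t ∈ HexObs.PLC.Se e (yv p a)),
        xc ^ t.length * g t.length (rk a (sw t.length t)) := by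
    funext n
    have h4 : ∀ a : Fin 3, ∑ e ∈ dirs, ∑ t ∈ (wdN n).filter (fun t => t ∈ HexObs.PLC.Se e (yv p a)),
        xc ^ t.length * g t.length (rk a (sw t.length t)) =
        ∑ t ∈ wdN n, if en t = yv p a then xc ^ t.length * g t.length (rk a (sw t.length t)) else 0 := fun a => by
      rw [← Finset.sum_filter]
      exact sum_dirs n (yv p a) _
    simp only [h4]
    rcases Nat.eq_zero_or_pos n with rfl | hn
    · have hJ0 : JJ oo = 0 := by
        apply Complex.ext
        · rw [NTF.JJ_re]; simp [oo]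
        · rw [NTF.JJ_im]; simp [oo]
      have h5 : ∀ s : Fin 0 → Fin 3, pos s 0 = 0 := fun s => by
        unfold pos
        exact Finset.sum_eq_zero fun i hi => absurd (Finset.mem_filter.1 hi).2 (Nat.not_lt_zero _)
      have h6 : (saw 0).filter (fun s => pos s 0 = JJ p) = ∅ := by
        refine Finset.filter_eq_empty_iff.2 fun s _ h => hx0 ?_
        rw [← h, h5]
      rw [h6, Finset.sum_empty, zero_mul]
      symm
      rw [mul_eq_zero]
      right
      refine Finset.sum_eq_zero fun a _ => Finset.sum_eq_zero fun t ht => if_neg fun h => hx0 ?_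
      have hl : t.length = 0 := (mem_wdN.1 ht).1
      have h7 : t = [] := List.length_eq_zero_iff.1 hl
      subst h7
      have h8 : (oo : Pt) = yv p a := h
      rw [← yv_JJ p a, ← h8, hJ0, mul_zero]
    · rw [Finset.sum_filter, sum_saw hn (fun s => if pos s n = JJ p then g n s else 0), mul_assoc, Finset.sum_mul]
      congr 1
      refine Finset.sum_congr rfl fun a _ => ?_
      rw [Finset.sum_mul]
      refine Finset.sum_congr rfl fun t ht => ?_
      have hl : t.length = n := (mem_wdN.1 ht).1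
      subst hl
      have h5 : pos (rk a (sw t.length t)) t.length = JJ p ↔ en t = yv p a := by
        rw [pos_rk]
        have h6 : pos (sw t.length t) t.length = JJ (vx oo up t t.length) := NTSF.pos_sw _ t _ le_rfl
        rw [h6]
        exact yv_iff p _ a
      by_cases h6 : en t = yv p a
      · rw [if_pos (h5.2 h6), if_pos h6, zc_eq, mul_comm]
      · rw [if_neg (fun h => h6 (h5.1 h)), if_neg h6, zero_mul]
  rw [h3]
  exact h2

/-- the dictionary, equation form -/
theorem dict_eq {x : ℂ} (hx : x ∈ vertices) (hx0 : x ≠ 0) : ∃ y : Fin 3 → Pt,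
    (∀ a : Fin 3, om ^ (a : ℕ) * JJ (y a) = x) ∧
    ∀ g : (n : ℕ) → (Fin n → Fin 3) → ℝ, (∀ n s, |g n s| ≤ 1) →
      (Summable fun n => (∑ s ∈ (saw n).filter (fun s => pos s n = x), g n s) * zc ^ n) ∧
      (∑' n, (∑ s ∈ (saw n).filter (fun s => pos s n = x), g n s) * zc ^ n) =
        1 / 2 * ∑ a : Fin 3, ∑ e ∈ dirs, ∑' t : HexObs.PLC.Se e (y a),
          xc ^ t.1.length * g t.1.length (rk a (sw t.1.length t.1)) := by
  obtain ⟨y, hy, h⟩ := dict hx hx0
  exact ⟨y, hy, fun g hg => ⟨(h g hg).2.summable, (h g hg).2.tsum_eq⟩⟩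

end Pool.Agent.PLC
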