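import Pool.Agent.PLC.NbC
import Pool.Agent.TPF.Main
import Pool.Agent.TPC.XUp
import Pool.Agent.TPC.XLow

/-!
PLC, row E2 (helper70): the bounds of the two-point function in the literal of PLC/Res (text of HeldD98/TwoPoint).
-/

set_option autoImplicit false

open scoped Classical

namespace Pool.Agent.PLC

open Pool.Agent.IW.Res Res

theorem saw_eq (n : ℕ) : saw n = SawNu.saw step n := by
  ext s
  unfold saw SawNu.saw
  rw [Finset.mem_filter, Finset.mem_filter]
  refine and_congr_right fun _ => ⟨fun h j k hjk => ?_, fun h j k hj hk hjk => ?_⟩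
  · exact Fin.ext (h j k (Nat.lt_succ_iff.1 j.2) (Nat.lt_succ_iff.1 k.2) hjk)
  · exact congrArg Fin.val (h ⟨j, Nat.lt_succ_of_le hj⟩ ⟨k, Nat.lt_succ_of_le hk⟩ hjk)

theorem tpb : TPb := by
  obtain ⟨c, hc, h⟩ := HexObs.TPF.two_point HexObs.TPC.xUp HexObs.TPC.xLow (f := step) (fun _ _ => rfl)
    (μ := ⨅ n : {n : ℕ // 1 ≤ n}, ((saw n.1).card : ℝ) ^ ((1 : ℝ) / (n.1 : ℝ))) (by simp only [saw_eq]) (G := G)
    (by
      intro z x
      unfold G
      refine tsum_congr fun n => ?_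
      rw [saw_eq]
      rfl)
  refine ⟨c, hc, ?_⟩
  rintro x ⟨n, s, rfl⟩ hx
  exact h n s hx

end Pool.Agent.PLC
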