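import Pool.Agent.PLC.Defs
import Pool.Agent.PW.Inner

/-!
PLC, row E0 (helper45): the functionals of the two ends for the row TipC.

* `Sta r Φ` : the value of `Φ` at `A ++ Y` is its value at `A` as soon as the end of `A` is outside the ball of radius `r` about the
  start (the mirror image of `Inn`); `sta_rob` : such a functional is robust at the end, for all words whose end is far;
* `staM`, `innM` : the functionals of the first and of the last `m` steps, cut off when these steps leave the ball: they are `Sta`
  and `Inn`.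
-/

set_option autoImplicit false

namespace HexObs

namespace PLC

open Finset TS SDN TIW SLW PWN

/-- functionals of the start, up to the exit from the ball of radius `r` -/
def Sta (r : ℕ) (Φ : List Bool → ℝ) : Prop := ∀ A Y : List Bool, A ++ Y ∈ SA → (r : ℤ) ≤ hn (en A) → Φ (A ++ Y) = Φ A

/-- the error of a functional of the start: no error if the end is far -/
noncomputable def erS (r : ℕ) (t : List Bool) : ℝ := if hn (en t) < r then 2 else 0

lemma erS_nn (r : ℕ) (t : List Bool) : 0 ≤ erS r t := by
  unfold erS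
  split_ifs <;> norm_num

lemma erS_far {r : ℕ} {t : List Bool} (h : (r : ℤ) ≤ hn (en t)) : erS r t = 0 := if_neg (not_lt.2 h)

/-- the error of a functional of the start vanishes on the words of an end `y` outside the ball -/
lemma erS_Ty {r k R : ℕ} {e y : Pt} (h : (r : ℤ) ≤ hn y) (τ : ℝ) (K : ℕ) :
    ∑ t ∈ Ty k R e y, xc ^ t.length * erS r t ^ 2 ≤ τ ^ 2 * gK K := by
  have h1 : ∀ t ∈ Ty k R e y, xc ^ t.length * erS r t ^ 2 = 0 := fun t ht => by
    rw [erS_far (by rw [(mem_Ty.1 ht).2.2.1]; exact h)]
    ring
  rw [sum_eq_zero h1]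
  exact mul_nonneg (sq_nonneg _) (gK_pos K).le

/-- **a functional of the start is robust at the end** -/
theorem sta_rob {r r1 r2 : ℕ} {Φ : List Bool → ℝ} (hs : Sta r Φ) (hΦ : ∀ t, |Φ t| ≤ 1) (h : r + r1 ≤ r2) :
    RM.Rob r1 Φ (erS r2) := by
  intro A Y hAY _ hY
  by_cases hf : hn (en (A ++ Y)) < (r2 : ℤ)
  · have e : erS r2 (A ++ Y) = 2 := if_pos hf
    rw [e]
    have h1 := abs_sub (Φ (A ++ Y)) (Φ A)
    have h2 := hΦ (A ++ Y)
    have h3 := hΦ A
    linarith
  · push Not at hf
    rw [erS_far hf]
    have e1 : en (A ++ Y) = en A + mulE (rt A) (en Y) := by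
      have := vx_app A Y Y.length
      unfold en at this ⊢
      rw [List.length_append]
      exact this
    have h1 : hn (en Y) < (r1 : ℤ) := hY _ le_rfl
    have h2 : hn (en (A ++ Y)) ≤ hn (en A) + hn (en Y) := by
      rw [e1]
      refine (hn_add _ _).trans ?_
      rw [hn_mulE (nrm_rt A)]
    have h3 : ((r + r1 : ℕ) : ℤ) ≤ r2 := by exact_mod_cast h
    push_cast at h3
    rw [hs A Y hAY (by linarith), sub_self, abs_zero]

open Classical in
/-- a functional of the first `m` steps, inside the ball of radius `r` -/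
noncomputable def staM (r m : ℕ) (f : List Bool → ℝ) (t : List Bool) : ℝ :=
  if m ≤ t.length ∧ ∀ i, i ≤ m → hn (vx oo up t i) < (r : ℤ) then f (t.take m) else 0

open Classical in
/-- a functional of the last `m` steps, inside the ball of radius `r` about the tip -/
noncomputable def innM (r m : ℕ) (f : List Bool → ℝ) (t : List Bool) : ℝ :=
  if m ≤ t.length ∧ ∀ i, i ≤ m → hn (en (t.drop (t.length - i))) < (r : ℤ) then f (t.drop (t.length - m)) else 0

lemma staM_le {r m : ℕ} {f : List Bool → ℝ} (hf : ∀ t, |f t| ≤ 1) (t : List Bool) : |staM r m f t| ≤ 1 := by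
  unfold staM
  split_ifs
  · exact hf _
  · rw [abs_zero]
    exact zero_le_one

lemma innM_le {r m : ℕ} {f : List Bool → ℝ} (hf : ∀ t, |f t| ≤ 1) (t : List Bool) : |innM r m f t| ≤ 1 := by
  unfold innM
  split_ifs
  · exact hf _
  · rw [abs_zero]
    exact zero_le_one

/-- the functionals of the first `m` steps are functionals of the start -/
theorem sta_staM (r m : ℕ) (f : List Bool → ℝ) : Sta r (staM r m f) := by
  intro A Y _ hr
  have e1 : ∀ i, i ≤ A.length → vx oo up (A ++ Y) i = vx oo up A i := fun i hi => vx_append (by omega)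
  unfold staM
  by_cases hm : m ≤ A.length
  · have h1 : m ≤ (A ++ Y).length := by rw [List.length_append]; omega
    rw [List.take_append_of_le_length hm]
    by_cases h2 : ∀ i, i ≤ m → hn (vx oo up A i) < (r : ℤ)
    · rw [if_pos ⟨h1, fun i hi => by rw [e1 i (by omega)]; exact h2 i hi⟩, if_pos ⟨hm, h2⟩]
    · rw [if_neg (fun h => h2 fun i hi => by rw [← e1 i (by omega)]; exact h.2 i hi), if_neg (fun h => h2 h.2)]
  · refine (if_neg ?_).trans (if_neg fun h => hm h.1).symm
    rintro ⟨_, h2⟩
    have h3 := h2 A.length (by omega)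
    rw [e1 _ le_rfl] at h3
    exact absurd hr (not_le.2 h3)

/-- the functionals of the last `m` steps are inner functionals -/
theorem inn_innM (b m : ℕ) (f : List Bool → ℝ) : Inn b (innM (2 ^ b) m f) := by
  intro A E _ hr
  have e1 : ∀ i, i ≤ E.length → (A ++ E).drop ((A ++ E).length - i) = E.drop (E.length - i) := fun i hi => by
    have e2 : (A ++ E).length - i = A.length + (E.length - i) := by rw [List.length_append]; omega
    rw [e2, List.drop_append]
    simp
  have e0 : ((2 ^ b : ℕ) : ℤ) = 2 ^ b := by push_cast; rfl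
  unfold innM
  by_cases hm : m ≤ E.length
  · have h1 : m ≤ (A ++ E).length := by rw [List.length_append]; omega
    rw [e1 m hm]
    by_cases h2 : ∀ i, i ≤ m → hn (en (E.drop (E.length - i))) < ((2 ^ b : ℕ) : ℤ)
    · rw [if_pos ⟨h1, fun i hi => by rw [e1 i (by omega)]; exact h2 i hi⟩, if_pos ⟨hm, h2⟩]
    · rw [if_neg (fun h => h2 fun i hi => by rw [← e1 i (by omega)]; exact h.2 i hi), if_neg (fun h => h2 h.2)]
  · refine (if_neg ?_).trans (if_neg fun h => hm h.1).symm
    rintro ⟨_, h2⟩
    have h3 := h2 E.length (by omega)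
    rw [e1 _ le_rfl, Nat.sub_self, List.drop_zero, e0] at h3
    exact absurd hr (not_le.2 h3)

end PLC

end HexObs
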