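import Pool.Agent.PLC.RInf
import Pool.Agent.PLC.StR
import Pool.Agent.IW.Rev

/-!
# PLC, row S (helper58): the share of the direction of the exit

The last letter of a word turns at the tip, it is free: `s ++ [true]` and `s ++ [false]` are self-avoiding together and have the same
end; the directions of the exit differ by 120 degrees. Since the last letter is an inner functional with the mean `1 / 2`, `EF2`
shows that a functional which does not see the last letter has nearly the same sum for the three directions.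

* `Tog y Φ` : the functional does not see the last letter of the words with the end `y`;
* **`shareF_of`** : `EF2 g → ShareF`; **`shareS_of`** : the form for the functionals of the start.
-/

set_option autoImplicit false

namespace HexObs

namespace PLC

open Finset TS SDN TIW SLW PWN

/-! ### the last letter changed -/

/-- the last letter changed -/
def fli (t : List Bool) : List Bool := t.dropLast ++ (t.getLast?.toList.map not)

lemma fli_app (s : List Bool) (c : Bool) : fli (s ++ [c]) = s ++ [!c] := by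
  unfold fli
  rw [List.dropLast_concat, List.getLast?_concat]
  rfl

lemma fli_fli (t : List Bool) : fli (fli t) = t := by
  rcases t.eq_nil_or_concat' with rfl | ⟨s, c, rfl⟩
  · rfl
  · rw [fli_app, fli_app, Bool.not_not]

/-- the involution -/
def fliE : List Bool ≃ List Bool := ⟨fli, fli, fli_fli, fli_fli⟩

lemma sa_snoc {s : List Bool} {c : Bool} : s ++ [c] ∈ SA ↔ Pool.Agent.IW.DS s := by
  rw [← Pool.Agent.IW.saw_DS (b := c)]
  exact ⟨fun h => ⟨by simp, h⟩, fun h => h.2⟩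

lemma en_snc (s : List Bool) (c : Bool) : en (s ++ [c]) = tip oo up s := by
  have e : en (s ++ [c]) = vx oo up (s ++ [c]) (s.length + 1) := by
    unfold en
    rw [List.length_append, List.length_singleton]
  rw [e, vx_append (by omega)]
  rfl

lemma tip_eq (s : List Bool) : tip oo up s = en s + de s := rfl

lemma de_snc (s : List Bool) (c : Bool) : de (s ++ [c]) = turn c (de s) := by
  have e : de (s ++ [c]) = dx up (s ++ [c]) (s.length + 1) := by
    unfold de
    rw [List.length_append, List.length_singleton]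
  have e2 : dx up (s ++ [c]) (s.length + 1) = turn (tf (s ++ [c]) s.length) (dx up (s ++ [c]) s.length) := rfl
  have e3 : tf (s ++ [c]) s.length = c := by
    have := tf_append_right (t := s) (s := [c]) 0
    rw [add_zero] at this
    rw [this]
    rfl
  rw [e, e2, e3, dx_append le_rfl]
  rfl

/-- the last letter -/
def qL (b : Bool) (t : List Bool) : ℝ := if t.getLast? = some b then 1 else 0

lemma qL_le (b : Bool) (t : List Bool) : |qL b t| ≤ 1 := by
  unfold qL
  split_ifs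
  · rw [abs_one]
  · rw [abs_zero]
    exact zero_le_one

lemma qL_snoc (b : Bool) (s : List Bool) (c : Bool) : qL b (s ++ [c]) = if c = b then 1 else 0 := by
  simp only [qL, List.getLast?_concat, Option.some.injEq]

lemma qL_nil (b : Bool) : qL b [] = 0 := rfl

lemma inn_qL (m : ℕ) (b : Bool) : Inn m (qL b) := by
  intro A E _ h
  rcases E.eq_nil_or_concat' with rfl | ⟨s, c, rfl⟩
  · exfalso
    have h1 : en ([] : List Bool) = 0 := rfl
    rw [h1] at h
    have h2 : hn (0 : Pt) = 0 := by decide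
    rw [h2] at h
    have : (0 : ℤ) < 2 ^ m := by positivity
    omega
  · rw [← List.append_assoc, qL_snoc, qL_snoc]

lemma inn_one (m : ℕ) : Inn m (fun _ => 1) := fun _ _ _ _ => rfl

/-- the last letter is fair -/
lemma sum_qL {m : ℕ} (hm : 0 < m) (b : Bool) : ∑ t ∈ sawF m, xc ^ m * qL b t = (∑ t ∈ sawF m, xc ^ m * (1 : ℝ)) / 2 := by
  have h1 : ∀ t ∈ sawF m, fli t ∈ sawF m := by
    intro t ht
    rw [mem_sawF] at ht ⊢
    obtain ⟨s, c, rfl, hs⟩ := Pool.Agent.IW.split_last hm ht.1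
    rw [fli_app, ← hs]
    rw [← hs] at ht
    exact Pool.Agent.IW.saw_DS.2 (Pool.Agent.IW.saw_DS.1 ht)
  have h3 : ∑ t ∈ sawF m, xc ^ m * qL b t = ∑ t ∈ sawF m, xc ^ m * qL (!b) t := by
    refine sum_nbij' fli fli h1 h1 (fun t _ => fli_fli t) (fun t _ => fli_fli t) ?_
    intro t ht
    rw [mem_sawF] at ht
    obtain ⟨s, c, rfl, -⟩ := Pool.Agent.IW.split_last hm ht.1
    rw [fli_app, qL_snoc, qL_snoc]
    cases b <;> cases c <;> simp
  have h4 : ∑ t ∈ sawF m, xc ^ m * qL b t + ∑ t ∈ sawF m, xc ^ m * qL (!b) t = ∑ t ∈ sawF m, xc ^ m * (1 : ℝ) := by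
    rw [← sum_add_distrib]
    refine sum_congr rfl fun t ht => ?_
    rw [mem_sawF] at ht
    obtain ⟨s, c, rfl, -⟩ := Pool.Agent.IW.split_last hm ht.1
    rw [qL_snoc, qL_snoc]
    cases b <;> cases c <;> simp
  rw [eq_div_iff two_ne_zero]
  linarith

/-- the mean of the last letter -/
lemma EA_qL {Lg : ℝ} {g : ℝ → ℝ} (hg : Bump Lg g) (n : ℕ) (b : Bool) : EA g n (qL b) = EA g n (fun _ => 1) / 2 := by
  unfold EA
  rw [div_right_comm]
  congr 1
  rw [sum_AA, sum_AA, sum_div]
  refine sum_congr rfl fun m _ => ?_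
  rcases Nat.eq_zero_or_pos m with h | h
  · have h1 : wA g n m = 0 := by
      rw [h]
      unfold wA
      split_ifs
      · refine hg.lo _ ?_
        rw [Nat.cast_zero, zero_div]
        exact zero_lt_one
      · rfl
    rw [h1, zero_mul, zero_mul, zero_div]
  · rw [sum_qL h b, mul_div_assoc]

/-! ### the toggle -/

/-- the functional does not see the last letter of the words with the end y -/
def Tog (y : Pt) (Φ : List Bool → ℝ) : Prop := ∀ (s : List Bool) (c : Bool), s ++ [c] ∈ SA → en (s ++ [c]) = y →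
  Φ (s ++ [c]) = Φ (s ++ [!c])

lemma rot3 (d e : Pt) : turn true d = e ↔ turn false d = rotR (rotR e) := by
  obtain ⟨a, b⟩ := d
  obtain ⟨c, f⟩ := e
  simp only [turn, rotL, rotR, if_true, Bool.false_eq_true, if_false, Prod.mk.injEq]
  constructor
  · rintro ⟨h1, h2⟩
    constructor <;> omega
  · rintro ⟨h1, h2⟩
    constructor <;> omega

lemma mem_Se_flip {e y : Pt} (s : List Bool) : s ++ [true] ∈ Se e y ↔ s ++ [false] ∈ Se (rotR (rotR e)) y := by
  unfold Se
  simp only [Set.mem_ofPred_eq]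
  rw [sa_snoc, sa_snoc, en_snc, en_snc, de_snc, de_snc, rot3]

/-- the sum of a functional -/
noncomputable def SG (e y : Pt) (f : List Bool → ℝ) : ℝ := ∑' t : Se e y, xc ^ t.1.length * f t.1

/-- **the toggle of the last letter** -/
theorem tog_sum {e y : Pt} {Φ : List Bool → ℝ} (h : Tog y Φ) :
    SG e y (fun t => Φ t * qL true t) = SG (rotR (rotR e)) y (fun t => Φ t * qL false t) := by
  classical
  unfold SG
  rw [tsum_subtype (Se e y) (fun t => xc ^ t.length * (Φ t * qL true t)),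
    tsum_subtype (Se (rotR (rotR e)) y) (fun t => xc ^ t.length * (Φ t * qL false t)), ← fliE.tsum_eq]
  refine tsum_congr fun t => ?_
  show (Se e y).indicator (fun t => xc ^ t.length * (Φ t * qL true t)) (fli t) = _
  rcases t.eq_nil_or_concat' with rfl | ⟨s, c, rfl⟩
  · have e1 : fli [] = [] := rfl
    rw [e1]
    simp only [Set.indicator, qL_nil, mul_zero]
    rw [ite_self, ite_self]
  · rw [fli_app]
    cases c
    · show (Se e y).indicator (fun t => xc ^ t.length * (Φ t * qL true t)) (s ++ [true]) = _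
      by_cases hm : s ++ [true] ∈ Se e y
      · rw [Set.indicator_of_mem hm, Set.indicator_of_mem (mem_Se_flip s |>.1 hm)]
        have h1 := h s true hm.1 hm.2.1
        rw [h1, qL_snoc, qL_snoc]
        simp
      · rw [Set.indicator_of_notMem hm, Set.indicator_of_notMem fun h2 => hm (mem_Se_flip s |>.2 h2)]
    · simp only [Set.indicator, qL_snoc]
      simp

/-- **ShareF**: a far functional that does not see the last letter has nearly the same sum for the three directions -/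
def ShareF : Prop := ∀ ε : ℝ, 0 < ε → ∃ C1 : ℕ, ∀ C0 : ℕ, C1 ≤ C0 → ∃ k0 : ℕ, ∀ (K : ℕ) (e e' y : Pt), k0 ≤ K →
  e ∈ dirs → e' ∈ dirs → cl e = cl e' → (2 : ℤ) ^ K ≤ hn y → hn y ≤ 2 ^ (K + 3) → ∀ Φ er : List Bool → ℝ, (∀ t, |Φ t| ≤ 1) →
  RM.Rob (2 ^ (K - C0)) Φ er → (∀ t, 0 ≤ er t) → (∀ t ∈ SA, en t = y → er t = 0) → Tog y Φ →
  |∑' t : Se e y, xc ^ t.1.length * Φ t.1 - ∑' t : Se e' y, xc ^ t.1.length * Φ t.1| ≤ ε * gK K

lemma sc_exists : ∃ k0 : ℕ, ∀ K, k0 ≤ K → ∃ n, TIP.Sc K n := by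
  have h0 : 0 < PW.mZ (2 ^ 0) := NTA.mlow_M.pos 0
  obtain ⟨k0, hk0⟩ := pow_unbounded_of_one_lt (1 / PW.mZ (2 ^ 0)) (one_lt_two : (1 : ℝ) < 2)
  refine ⟨k0, fun K hK => ?_⟩
  have h1 := mz_two K
  have h2 : (1 : ℝ) < PW.mZ (2 ^ K) := by
    rw [div_lt_iff₀ h0] at hk0
    refine hk0.trans_le (le_trans ?_ h1)
    exact mul_le_mul_of_nonneg_right (pow_le_pow_right₀ (by norm_num) hK) h0.le
  have h3 : (2 : ℝ) * PW.mZ (2 ^ K) ≤ PW.mZ (2 ^ (K + 1)) := by
    have h := NTA.MLow.two NTA.mlow_M K 1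
    rwa [pow_one] at h
  refine ⟨⌈PW.mZ (2 ^ K)⌉₊, Nat.le_ceil _, ?_⟩
  have h4 := Nat.ceil_lt_add_one (a := PW.mZ (2 ^ K)) (by linarith)
  linarith

lemma cl_three : ∀ e ∈ dirs, ∀ e' ∈ dirs, cl e = cl e' → e' = e ∨ e' = rotR (rotR e) ∨ e = rotR (rotR e') := by
  decide

/-- **row S** -/
theorem shareF_of {Lg : ℝ} {g : ℝ → ℝ} (hg : Bump Lg g) (h : EF2 g) : ShareF := by
  intro ε hε
  obtain ⟨C1, h⟩ := h (ε / 6) (by positivity)
  obtain ⟨k1, hk1⟩ := sc_exists
  refine ⟨C1, fun C0 hC0 => ?_⟩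
  obtain ⟨k0, h⟩ := h C0 (C0 + C1) hC0 le_rfl
  refine ⟨max k0 k1, fun K e e' y hK he he' hcl hy1 hy2 Φ er hΦ hR her0 her hT => ?_⟩
  obtain ⟨n', hn'⟩ := hk1 K (le_of_max_le_right hK)
  have hg0 := gK_nonneg K
  have key : ∀ e : Pt, e ∈ dirs → rotR (rotR e) ∈ dirs →
      |SG e y Φ - SG (rotR (rotR e)) y Φ| ≤ ε * gK K := by
    intro e he he'
    have a1 := h K n' e y (le_of_max_le_left hK) he hy1 hy2 hn' (qL true) Φ er (qL_le true) hΦ (inn_qL _ _) hR her0 her
    have a2 := h K n' _ y (le_of_max_le_left hK) he' hy1 hy2 hn' (qL false) Φ er (qL_le false) hΦ (inn_qL _ _) hR her0 her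
    have a3 := h K n' e y (le_of_max_le_left hK) he hy1 hy2 hn' (fun _ => 1) Φ er (fun _ => by rw [abs_one]) hΦ
      (inn_one _) hR her0 her
    have a4 := h K n' _ y (le_of_max_le_left hK) he' hy1 hy2 hn' (fun _ => 1) Φ er (fun _ => by rw [abs_one]) hΦ
      (inn_one _) hR her0 her
    have b := tog_sum (e := e) hT
    simp only [mul_one] at a3 a4
    rw [EA_qL hg] at a1 a2
    change |SG e y (fun t => Φ t * qL true t) - EA g n' (fun _ => 1) / 2 * SG e y Φ| ≤ _ at a1
    change |SG (rotR (rotR e)) y (fun t => Φ t * qL false t) - EA g n' (fun _ => 1) / 2 * SG (rotR (rotR e)) y Φ| ≤ _ at a2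
    change |SG e y Φ - EA g n' (fun _ => 1) * SG e y Φ| ≤ _ at a3
    change |SG (rotR (rotR e)) y Φ - EA g n' (fun _ => 1) * SG (rotR (rotR e)) y Φ| ≤ _ at a4
    rw [b] at a1
    rw [abs_le] at a1 a2 a3 a4 ⊢
    constructor <;> linarith [a1.1, a1.2, a2.1, a2.2, a3.1, a3.2, a4.1, a4.2]
  rcases cl_three e he e' he' hcl with h1 | h1 | h1
  · rw [h1, sub_self, abs_zero]
    positivity
  · subst h1
    exact key e he he'
  · subst h1
    have := key e' he' he
    rw [abs_sub_comm] at this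
    exact this

/-- **ShareS**: the form for the functionals of the start -/
def ShareS : Prop := ∀ ε : ℝ, 0 < ε → ∃ k0 : ℕ, ∀ (K : ℕ) (e e' y : Pt) (r : ℕ), k0 ≤ K → e ∈ dirs → e' ∈ dirs →
  cl e = cl e' → (2 : ℤ) ^ K ≤ hn y → hn y ≤ 2 ^ (K + 3) → 2 * r ≤ 2 ^ K → ∀ Φ : List Bool → ℝ, (∀ t, |Φ t| ≤ 1) → Sta r Φ →
  |∑' t : Se e y, xc ^ t.1.length * Φ t.1 - ∑' t : Se e' y, xc ^ t.1.length * Φ t.1| ≤ ε * gK K

lemma hn_de (s : List Bool) : hn (de s) = 2 := by
  have h : ∀ d ∈ dirs, hn d = 2 := by decide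
  exact h _ (dx_mem SDN.up_dirs s s.length)

theorem shareS_of (h : ShareF) : ShareS := by
  intro ε hε
  obtain ⟨C1, h⟩ := h ε hε
  obtain ⟨k0, h⟩ := h (C1 + 1) (by omega)
  refine ⟨k0 + 2, fun K e e' y r hK he he' hcl hy1 hy2 hr Φ hΦ hS => ?_⟩
  have hp : 2 * 2 ^ (K - (C1 + 1)) ≤ 2 ^ K := by
    calc 2 * 2 ^ (K - (C1 + 1)) = 2 ^ (K - (C1 + 1) + 1) := by ring
      _ ≤ 2 ^ K := Nat.pow_le_pow_right (by norm_num) (by omega)
  have hr2 : ((r + 2 ^ (K - (C1 + 1)) : ℕ) : ℤ) ≤ 2 ^ K := by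
    have : r + 2 ^ (K - (C1 + 1)) ≤ 2 ^ K := by omega
    exact_mod_cast this
  refine h K e e' y (by omega) he he' hcl hy1 hy2 Φ (erS (r + 2 ^ (K - (C1 + 1)))) hΦ (sta_rob hS hΦ le_rfl) (erS_nn _) ?_ ?_
  · intro t _ ht
    exact erS_far (by rw [ht]; linarith)
  · intro s c hs hy
    have h1 : (r : ℤ) ≤ hn (en s) := by
      rw [en_snc, tip_eq] at hy
      have h2 := hn_add (en s) (de s)
      rw [hy, hn_de] at h2
      have h3 : (4 : ℤ) ≤ 2 ^ K := by
        calc (4 : ℤ) = 2 ^ 2 := by norm_num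
          _ ≤ 2 ^ K := pow_le_pow_right₀ (by norm_num) (by omega)
      have h4 : 2 * (r : ℤ) ≤ 2 ^ K := by exact_mod_cast hr
      linarith
    rw [hS s [c] hs h1, hS s [!c] (sa_snoc.2 (sa_snoc.1 hs)) h1]

end PLC

end HexObs

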