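import Pool.Agent.PLC.ChPh
import Pool.Agent.PW.LevQ

/-!
# PLC (the critical two-point ensemble of the plane, doc nu34/PLC_22), row A2 (helper22)

* `dvd_mul` : the sublattice is invariant under the multiplications;
* **`levSh`** : the weight of a level, with a far functional, for the end `y` and for a near end `y'` of the same sublattice.
-/

set_option autoImplicit false

namespace HexObs

namespace PLC

open Finset TS SDN TIW PWN

/-- the sublattice is invariant under the multiplications -/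
lemma dvd_mul (u : Pt) {h : Pt} (hd : (3 : ℤ) ∣ ip h up) : (3 : ℤ) ∣ ip (mulE u h) up := by
  obtain ⟨a, b⟩ := h
  obtain ⟨c, d⟩ := u
  have e3 : ip ((a, b) : Pt) up = a + 2 * b := by
    unfold ip up
    simp only
    ring
  rw [e3] at hd
  obtain ⟨v, hv⟩ := hd
  have e4 : ip (mulE ((c, d) : Pt) ((a, b) : Pt)) up = 3 * (c * v + d * (2 * v - b)) := by
    unfold mulE ip up
    simp only
    linear_combination (c + 2 * d) * hv
  rw [e4]
  exact dvd_mul_right _ _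

/-- the vector from the tip to the end, for two ends -/
lemma zz_sh {e y y' : Pt} {A : List Bool} : zz e y' A = zz e y A + mulE (conjE (rotTo up e)) (y' - y) := by
  unfold zz
  rw [← mulE_add]
  congr 1
  abel

/-- **A2: the level for two near ends** -/
theorem levSh {k R l L : ℕ} {e y y' : Pt} {Ch : Set (List Bool)} {δ : ℝ} {θ Ψ er : List Bool → ℝ} (he : e ∈ dirs)
    (hC : SLW.Chn L Ch) (hl : l + 1 ≤ L) (hk : 2 ^ (L + 3) ≤ k) (hR : hn y + 2 ^ (L + 5) ≤ R) (hw : 0 < wD Ch)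
    (hS : SMh l Ch δ) (hd : (3 : ℤ) ∣ ip (y' - y) up) (hh : hn (y' - y) ≤ 2 ^ l) (hθ : ∀ A, 0 ≤ θ A)
    (hθT : ∀ A, θ A ≠ 0 → TrF k (2 ^ (L + 2)) A) (hΨ : ∀ A, |Ψ A| ≤ 1)
    (hrob : ∀ A Y, A ++ Y ∈ SA → de Y = up → (∀ i, i ≤ Y.length → hn (vx oo up Y i) < 2 ^ (L + 1)) →
      |Ψ (A ++ Y) - Ψ A| ≤ er (A ++ Y)) :
    |∑ t ∈ Ty k R e y, xc ^ t.length * (Ψ t * NW l L Ch θ (fun _ => 1) t) -
      ∑ t ∈ Ty k R e y', xc ^ t.length * (Ψ t * NW l L Ch θ (fun _ => 1) t)| ≤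
      ∑ t ∈ Ty k R e y, xc ^ t.length * (NW l L Ch θ (fun _ => 1) t * er t) +
      ∑ t ∈ Ty k R e y', xc ^ t.length * (NW l L Ch θ (fun _ => 1) t * er t) +
      δ / wD Ch * ∑ y'' ∈ Bs y (2 ^ (L + 2)), ∑ t ∈ Ty k R e y'', xc ^ t.length * NW l L Ch θ (fun _ => 1) t := by
  classical
  have hl' : l ≤ L := by omega
  have hp5 : (2 : ℤ) ^ (L + 5) = 32 * 2 ^ L := by ring
  have hp4 : (2 : ℤ) ^ (L + 4) = 16 * 2 ^ L := by ring
  have hp2 : (2 : ℤ) ^ (L + 2) = 4 * 2 ^ L := by ring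
  have hp1 : (2 : ℤ) ^ (L + 1) = 2 * 2 ^ L := by ring
  have hp0 : (0 : ℤ) < 2 ^ L := by positivity
  have hlL : 2 * (2 : ℤ) ^ l ≤ 2 ^ L := by
    have : (2 : ℤ) ^ (l + 1) ≤ 2 ^ L := pow_le_pow_right₀ (by norm_num) hl
    rw [pow_succ] at this
    linarith
  have hδ : 0 ≤ δ := by
    have h0 : hn (0 : Pt) ≤ 2 ^ l := by
      have : hn (0 : Pt) = 0 := by decide
      rw [this]
      positivity
    exact (abs_nonneg _).trans (hS 0 0 (by decide) h0)
  have hdw : 0 ≤ δ / wD Ch := div_nonneg hδ hw.le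
  -- replacing the functional at the word by the functional at the far part
  have hrep : ∀ x : Pt, |∑ t ∈ Ty k R e x, xc ^ t.length * (Ψ t * NW l L Ch θ (fun _ => 1) t) -
      ∑ t ∈ Ty k R e x, xc ^ t.length * NW l L Ch (fun A => θ A * Ψ A) (fun _ => 1) t| ≤
      ∑ t ∈ Ty k R e x, xc ^ t.length * (NW l L Ch θ (fun _ => 1) t * er t) := by
    intro x
    rw [← sum_sub_distrib]
    refine (abs_sum_le_sum_abs _ _).trans (sum_le_sum fun t ht => ?_)
    rw [← mul_sub, abs_mul, abs_of_nonneg (xp_nn _)]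
    refine mul_le_mul_of_nonneg_left ?_ (xp_nn _)
    have hh : ∀ i j, Dl l L Ch t i j → |Ψ t - Ψ (t.take i)| ≤ er t := by
      intro i j hD
      obtain ⟨Y, h1, h2, h3, h4⟩ := Dl_back hC hl' ht hD
      have h5 := hrob _ Y h2 h3 h4
      rw [h1] at h5
      exact h5
    exact NW_errT (ψ := fun _ => 1) hθ hh fun _ _ => by rw [abs_one]
  have hT : ∀ A, θ A * Ψ A ≠ 0 → TrF k (2 ^ (L + 2)) A := fun A h => hθT A fun h0 => h (by rw [h0, zero_mul])
  have hΨθ : ∀ A, |θ A * Ψ A| ≤ θ A := by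
    intro A
    rw [abs_mul, abs_of_nonneg (hθ A)]
    calc θ A * |Ψ A| ≤ θ A * 1 := mul_le_mul_of_nonneg_left (hΨ A) (hθ A)
      _ = θ A := mul_one _
  have hR4 : ∀ x : Pt, hn (x - y) < 2 ^ (L + 2) → hn x + 2 ^ (L + 4) ≤ R := by
    intro x hx
    have h15 := hn_add (x - y) y
    rw [sub_add_cancel] at h15
    rw [hp2] at hx
    rw [hp5] at hR
    rw [hp4]
    linarith
  have hR1 : hn y + 2 ^ (L + 4) ≤ R := by rw [hp4]; rw [hp5] at hR; linarith
  have hR2 : hn y' + 2 ^ (L + 4) ≤ R := hR4 y' (by rw [hp2]; linarith [show (0 : ℤ) < 2 ^ l by positivity])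
  -- the two ends with the same far parts
  have e1 : ∑ t ∈ Ty k R e y, xc ^ t.length * NW l L Ch (fun A => θ A * Ψ A) (fun _ => 1) t -
      ∑ t ∈ Ty k R e y', xc ^ t.length * NW l L Ch (fun A => θ A * Ψ A) (fun _ => 1) t =
      ∑ A ∈ AF k R L e, xc ^ A.length * (θ A * Ψ A) * ∑ E ∈ HcF l, xc ^ E.length * (chi (2 ^ l) E * 1) *
        (vD Ch (zz e y A - en E) - vD Ch (zz e y' A - en E)) := by
    rw [convP (ψ := fun _ => 1) he hC hl' hk hR1 hT, convP (ψ := fun _ => 1) he hC hl' hk hR2 hT, ← sum_sub_distrib]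
    refine sum_congr rfl fun A _ => ?_
    rw [← mul_sub, ← sum_sub_distrib]
    congr 1
    exact sum_congr rfl fun E _ => by ring
  have e2 : ∀ A ∈ AF k R L e, |xc ^ A.length * (θ A * Ψ A) * ∑ E ∈ HcF l, xc ^ E.length * (chi (2 ^ l) E * 1) *
      (vD Ch (zz e y A - en E) - vD Ch (zz e y' A - en E))| ≤ δ / wD Ch * ∑ y'' ∈ Bs y (2 ^ (L + 2)),
      xc ^ A.length * θ A * ∑ E ∈ HcF l, xc ^ E.length * (chi (2 ^ l) E * 1) * vD Ch (zz e y'' A - en E) := by
    intro A _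
    have e3 : ∑ y'' ∈ Bs y (2 ^ (L + 2)), xc ^ A.length * θ A * ∑ E ∈ HcF l, xc ^ E.length * (chi (2 ^ l) E * 1) *
        vD Ch (zz e y'' A - en E) = xc ^ A.length * θ A * ∑ E ∈ HcF l, xc ^ E.length * (chi (2 ^ l) E * 1) *
        ∑ y'' ∈ Bs y (2 ^ (L + 2)), vD Ch (zz e y'' A - en E) := by
      rw [← mul_sum, sum_comm]
      congr 1
      exact sum_congr rfl fun E _ => (mul_sum _ _ _).symm
    rw [e3, abs_mul, abs_mul, abs_of_nonneg (xp_nn _)]
    have e4 : δ / wD Ch * (xc ^ A.length * θ A * ∑ E ∈ HcF l, xc ^ E.length * (chi (2 ^ l) E * 1) *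
        ∑ y'' ∈ Bs y (2 ^ (L + 2)), vD Ch (zz e y'' A - en E)) = xc ^ A.length * θ A *
        ∑ E ∈ HcF l, xc ^ E.length * chi (2 ^ l) E * (δ / wD Ch * ∑ y'' ∈ Bs y (2 ^ (L + 2)),
          vD Ch (zz e y'' A - en E)) := by
      rw [mul_sum, mul_sum, mul_sum]
      exact sum_congr rfl fun E _ => by ring
    rw [e4]
    refine mul_le_mul (mul_le_mul_of_nonneg_left (hΨθ A) (xp_nn _)) ?_ (abs_nonneg _) (mul_nonneg (xp_nn _) (hθ A))
    refine (abs_sum_le_sum_abs _ _).trans (sum_le_sum fun E hE => ?_)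
    rw [mem_HcF] at hE
    rw [mul_one, abs_mul, abs_mul, abs_of_nonneg (xp_nn _), abs_of_nonneg (chi_nn _ _)]
    refine mul_le_mul_of_nonneg_left ?_ (mul_nonneg (xp_nn _) (chi_nn _ _))
    have hsum : 0 ≤ ∑ y'' ∈ Bs y (2 ^ (L + 2)), vD Ch (zz e y'' A - en E) := sum_nonneg fun y' _ => vD_nonneg _ _
    have hnE : hn (en E) < 2 ^ l := by
      have h1 := hE.1.2 E.length le_rfl
      exact_mod_cast h1
    rcases lt_or_ge (hn (y - en A)) (2 ^ (L + 1)) with hnear | hfar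
    · have h9 := near_sum he hC hl' hE hnear
      have h10 : |vD Ch (zz e y A - en E) - vD Ch (zz e y' A - en E)| ≤ δ := by
        have e5 : zz e y' A - en E = zz e y A - en E + mulE (conjE (rotTo up e)) (y' - y) := by
          rw [zz_sh (y := y)]
          abel
        rw [e5, abs_sub_comm]
        refine hS _ _ (dvd_mul _ hd) ?_
        rw [hn_mulE (by rw [nrm_conjE, nrm_rotTo upd' he])]
        exact hh
      refine h10.trans ?_
      calc δ = δ / wD Ch * wD Ch := by rw [div_mul_cancel₀ _ hw.ne']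
        _ ≤ _ := mul_le_mul_of_nonneg_left h9 hdw
    · have hz : ∀ x : Pt, hn (zz e x A) = hn (x - en A) := fun x => hn_zz he x A
      have h12 : ∀ x : Pt, (2 : ℤ) ^ L + 2 ^ l ≤ hn (x - en A) → vD Ch (zz e x A - en E) = 0 := by
        intro x hx
        refine vD_far hC ?_
        have h13 := hn_add (zz e x A - en E) (en E)
        rw [sub_add_cancel, hz] at h13
        linarith
      have h14 := hn_add (y' - en A) (-(y' - y))
      rw [hn_neg] at h14
      have e6 : y' - en A + -(y' - y) = y - en A := by abel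
      rw [e6] at h14
      rw [hp1] at hfar
      rw [h12 y (by linarith [show (0 : ℤ) < 2 ^ l by positivity]), h12 y' (by linarith), sub_self, abs_zero]
      exact mul_nonneg hdw hsum
  have e5 : ∑ A ∈ AF k R L e, ∑ y'' ∈ Bs y (2 ^ (L + 2)), xc ^ A.length * θ A * ∑ E ∈ HcF l,
      xc ^ E.length * (chi (2 ^ l) E * 1) * vD Ch (zz e y'' A - en E) =
      ∑ y'' ∈ Bs y (2 ^ (L + 2)), ∑ t ∈ Ty k R e y'', xc ^ t.length * NW l L Ch θ (fun _ => 1) t := by
    rw [sum_comm]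
    refine sum_congr rfl fun y'' hy'' => ?_
    rw [mem_Bs] at hy''
    push_cast at hy''
    exact (convP (ψ := fun _ => 1) he hC hl' hk (hR4 y'' hy'') hθT).symm
  have h20 : |∑ t ∈ Ty k R e y, xc ^ t.length * NW l L Ch (fun A => θ A * Ψ A) (fun _ => 1) t -
      ∑ t ∈ Ty k R e y', xc ^ t.length * NW l L Ch (fun A => θ A * Ψ A) (fun _ => 1) t| ≤
      δ / wD Ch * ∑ y'' ∈ Bs y (2 ^ (L + 2)), ∑ t ∈ Ty k R e y'', xc ^ t.length * NW l L Ch θ (fun _ => 1) t := by
    rw [e1]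
    refine (abs_sum_le_sum_abs _ _).trans ((sum_le_sum e2).trans ?_)
    rw [← mul_sum, e5]
  have h21 := hrep y
  have h22 := hrep y'
  rw [abs_le] at *
  constructor <;> linarith [h20.1, h20.2, h21.1, h21.2, h22.1, h22.2]

end PLC

end HexObs
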