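import Pool.Agent.PW.TipJ

/-!
PLC (critical two-point ensemble of the plane), row A3 (helper5), doc nu34/PLC_22: **`TS_core`**: two ensembles of words that
agree level by level, up to errors of the far functional, agree on every far functional.
-/

set_option autoImplicit false

namespace HexObs

namespace PLC

open Finset TS SDN TIW SLW SLW.TW PWN PWN.RM

/-- **two ensembles**: the level by level comparison gives the comparison of the far functionals -/
theorem TS_core {S S' : Finset (List Bool)} {p p' : List Bool → ℝ} {M : ℕ} {r : ℕ → ℕ} {r0 : ℕ}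
    {n nb : ℕ → List Bool → ℝ} {Φ er : List Bool → ℝ} {B ω β τ c x m0 : ℝ}
    (hp : ∀ t, 0 ≤ p t) (hp' : ∀ t, 0 ≤ p' t) (h0 : ∀ i t, 0 ≤ n i t) (hnb : ∀ i t, n i t ≤ nb i t)
    (hB : ∀ i, i < M → TW.Ex S p (fun t => nb i t ^ 2) ≤ B) (hB' : ∀ i, i < M → TW.Ex S' p' (fun t => nb i t ^ 2) ≤ B)
    (hω : 0 ≤ ω) (hc : 0 < c) (hM : 1 ≤ M) (hτ : 0 ≤ τ) (hr : ∀ i, i < M → r i ≤ r0)
    (hosc : ∀ i j, i < j → j < M → Rob (r i) (n j) (fun t => ω * nb j t))
    (hΦ1 : ∀ t, |Φ t| ≤ 1) (hfar : Rob r0 Φ er) (her0 : ∀ t, 0 ≤ er t)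
    (her2 : TW.Ex S p (fun t => er t ^ 2) ≤ τ ^ 2 * m0) (her2' : TW.Ex S' p' (fun t => er t ^ 2) ≤ τ ^ 2 * m0)
    (hlev : ∀ i, i < M → ∀ Ψ er : List Bool → ℝ, (∀ t, |Ψ t| ≤ 1) → (∀ t, 0 ≤ er t) → Rob (r i) Ψ er →
      |TW.Ex S p (fun t => Ψ t * n i t) - TW.Ex S' p' (fun t => Ψ t * n i t)| ≤
        TW.Ex S p (fun t => n i t * er t) + TW.Ex S' p' (fun t => n i t * er t) + β)
    (hS : TW.Ex S p (fun t => by classical exact if Ta (fun j => n j t / M) M 0 < 2 * c then 1 else 0) ≤ x)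
    (hS' : TW.Ex S' p' (fun t => by classical exact if Ta (fun j => n j t / M) M 0 < 2 * c then 1 else 0) ≤ x) :
    |TW.Ex S p Φ - TW.Ex S' p' Φ| ≤
      2 * (x + B / (c ^ 2 * M)) + (τ * (B + m0) + 2 * (ω * B / c) + β) / c := by
  classical
  have hM0 : (0 : ℝ) < M := by exact_mod_cast (by omega : 0 < M)
  obtain ⟨a, ha⟩ : ∃ a : ℕ → List Bool → ℝ, a = fun j t => n j t / M := ⟨_, rfl⟩
  have ha' : ∀ j t, a j t = n j t / M := fun j t => by rw [ha]
  have ha0 : ∀ j t, 0 ≤ a j t := fun j t => by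
    rw [ha']
    exact div_nonneg (h0 _ _) hM0.le
  have key : ∀ (T : Finset (List Bool)) (w : List Bool → ℝ), (∀ t, 0 ≤ w t) →
      (∀ i, i < M → TW.Ex T w (fun t => nb i t ^ 2) ≤ B) → TW.Ex T w (fun t => er t ^ 2) ≤ τ ^ 2 * m0 →
      (∀ l, l < M → TW.Ex T w (fun t => a l t ^ 2) ≤ B / M ^ 2) ∧
      (∀ l, l < M → 2 * TW.Ex T w (fun t => n l t * er t) ≤ τ * (B + m0)) ∧
      ∀ l, l < M → TW.Ex T w (fun t => n l t * (ω / M / c * ∑ j ∈ Ico (l + 1) M, nb j t)) ≤ ω * B / c := by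
    intro T w hw hBw hew
    have hn2 : ∀ i, i < M → TW.Ex T w (fun t => n i t ^ 2) ≤ B := fun i hi =>
      (TW.Ex_mono hw fun t _ => pow_le_pow_left₀ (h0 _ _) (hnb _ _) 2).trans (hBw i hi)
    refine ⟨fun l hl => ?_, fun l hl => Ex_cs2 hw hτ (hn2 l hl) hew, fun l hl => ?_⟩
    · have e1 : TW.Ex T w (fun t => a l t ^ 2) = (1 / (M : ℝ) ^ 2) * TW.Ex T w (fun t => n l t ^ 2) := by
        rw [← TW.Ex_smul]
        unfold TW.Ex
        refine sum_congr rfl fun t _ => ?_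
        simp only [ha', div_pow]
        ring
      rw [e1, div_eq_mul_one_div B, mul_comm B]
      exact mul_le_mul_of_nonneg_left (hn2 l hl) (by positivity)
    · exact er_sum (e := fun j => j) (N := M) hw h0 hnb hBw hω hc hM (fun _ h => h) hl
  obtain ⟨k1, k2, k3⟩ := key S p hp hB her2
  obtain ⟨k1', k2', k3'⟩ := key S' p' hp' hB' her2'
  have hD : ∀ l, l < M → |TW.Ex S p (fun t => Φ t * al c a M l t) - TW.Ex S' p' (fun t => Φ t * al c a M l t)| ≤
      (τ * (B + m0) + 2 * (ω * B / c) + β) / M := by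
    intro l hl
    obtain ⟨g, hg⟩ : ∃ g : List Bool → ℝ, g = fun t => gc c (Ta (fun j => a j t) M (l + 1)) := ⟨_, rfl⟩
    have hg' : ∀ t, g t = gc c (Ta (fun j => a j t) M (l + 1)) := fun t => by rw [hg]
    have hg0 : ∀ t, 0 ≤ g t := fun t => by rw [hg']; exact gc_nonneg _ _
    have hg1 : ∀ t, g t ≤ 1 := fun t => by rw [hg']; exact gc_le_one _ _
    obtain ⟨G, hG⟩ : ∃ G : List Bool → ℝ, G = fun t => ω / M / c * ∑ j ∈ Ico (l + 1) M, nb j t := ⟨_, rfl⟩
    have hG0 : ∀ t, 0 ≤ G t := fun t => by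
      rw [hG]
      exact mul_nonneg (div_nonneg (div_nonneg hω hM0.le) hc.le) (sum_nonneg fun j _ => (h0 _ _).trans (hnb _ _))
    have hgR : Rob (r l) g G := by
      rw [hg, hG]
      refine Rob_gc hc fun j hj1 hj2 A Y hA hd hY => ?_
      have h3 := hosc l j hj1 hj2 A Y hA hd hY
      show |a j (A ++ Y) - a j A| ≤ ω / M * nb j (A ++ Y)
      rw [ha', ha', ← sub_div, abs_div, abs_of_pos hM0, div_mul_eq_mul_div]
      exact div_le_div_of_nonneg_right h3 hM0.le
    have hR1 := Rob_mul hΦ1 (Rob_mono (hr _ hl) hfar) hg0 hg1 hgR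
    have h3 := hlev l hl (fun t => Φ t * g t) (fun t => er t + G t)
      (fun t => by
        rw [abs_mul, abs_of_nonneg (hg0 t)]
        exact mul_le_one₀ (hΦ1 t) (hg0 t) (hg1 t)) (fun t => add_nonneg (her0 t) (hG0 t)) hR1
    have h4 : ∀ (T : Finset (List Bool)) (w : List Bool → ℝ), TW.Ex T w (fun t => n l t * (er t + G t)) =
        TW.Ex T w (fun t => n l t * er t) + TW.Ex T w (fun t => n l t * G t) := by
      intro T w
      rw [← TW.Ex_add]
      unfold TW.Ex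
      exact sum_congr rfl fun t _ => by ring
    rw [h4, h4] at h3
    have h5 := k3 l hl
    have h5' := k3' l hl
    have h6 := k2 l hl
    have h6' := k2' l hl
    have e5 : ∀ (T : Finset (List Bool)) (w : List Bool → ℝ), TW.Ex T w (fun t => Φ t * al c a M l t) =
        (1 / (M : ℝ)) * TW.Ex T w (fun t => Φ t * g t * n l t) := by
      intro T w
      rw [← TW.Ex_smul]
      unfold TW.Ex al
      refine sum_congr rfl fun t _ => ?_
      show w t * (Φ t * (a l t * gc c (Ta (fun j => a j t) M (l + 1)))) = w t * (1 / M * (Φ t * g t * n l t))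
      rw [← hg', ha']
      ring
    rw [e5, e5, ← mul_sub, abs_mul, abs_of_pos (by positivity : (0 : ℝ) < 1 / M), one_div, ← div_eq_inv_mul]
    refine div_le_div_of_nonneg_right ?_ hM0.le
    rw [hG] at h3
    linarith
  have hj := tele_x (F := Φ) (κ := fun _ => (τ * (B + m0) + 2 * (ω * B / c) + β) / M) hp hp' ha0 hc hM hΦ1 k1 k1'
    (by simp only [ha']; exact hS) (by simp only [ha']; exact hS') hD
  have e8 : (∑ _l ∈ range M, (τ * (B + m0) + 2 * (ω * B / c) + β) / M) = τ * (B + m0) + 2 * (ω * B / c) + β := by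
    rw [sum_const, card_range, nsmul_eq_mul]
    field_simp
  rw [e8] at hj
  exact hj

end PLC

end HexObs
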