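import Pool.Agent.PLC.Defs
import Pool.Agent.PLC.LevSh
import Pool.Agent.PLC.TSc

/-!
PLC (the critical two-point ensemble of the plane), row A3 (helper5), doc nu34/PLC_22: **`shC_of`**: far functionals do not see
a shift of the end inside the sublattice.
-/

set_option autoImplicit false

namespace HexObs

namespace PLC

open Finset TS SDN TIW SLW SLW.TW PWN PWN.RM

/-- the level identity for two ends, in the form of the cores -/
theorem levES {C β η : ℝ} {K k R M s s' : ℕ} {e0 y y' : Pt} {lv : ℕ → ℕ} {Ch : ℕ → Set (List Bool)} {w : ℝ}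
    (hw : 0 < w) (hη : 0 ≤ η) (hs : 1 ≤ s) (hLv : LvS M lv s s' w Ch) (he0 : e0 ∈ dirs)
    (hk : ∀ i, i < M → 2 ^ (lv i + s + 3) ≤ k) (hR : ∀ i, i < M → hn y + 2 ^ (lv i + s + 5) ≤ (R : ℤ))
    (hsm : ∀ i, i < M → SMh (lv i) (Ch i) (η * wD (Ch i) / 4 ^ (lv i + s)))
    (hwin : ∀ i, i < M → ∑ y'' ∈ Bs y (2 ^ (lv i + s + 2)), ∑ t ∈ Ty k R e0 y'', xc ^ t.length *
      NC k (lv i) (lv i + s) (Ch i) t ≤ C * 4 ^ (lv i + s) * PWN.UT (lv i) (lv i + s) (Ch i) * gK K)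
    (hβ : η * C ≤ β) (hd : (3 : ℤ) ∣ ip (y' - y) up) (hh : ∀ i, i < M → hn (y' - y) ≤ 2 ^ lv i) :
    ∀ i, i < M → ∀ Ψ er : List Bool → ℝ, (∀ t, |Ψ t| ≤ 1) → (∀ t, 0 ≤ er t) → Rob (2 ^ (lv i + s + 1)) Ψ er →
      |TW.Ex (Ty k R e0 y) (fun t => xc ^ t.length / gK K) (fun t => Ψ t *
          aW lv s Ch (fun i => trI k (lv i + s)) (fun i => PWN.UT (lv i) (lv i + s) (Ch i)) i t) -
        TW.Ex (Ty k R e0 y') (fun t => xc ^ t.length / gK K) (fun t => Ψ t *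
          aW lv s Ch (fun i => trI k (lv i + s)) (fun i => PWN.UT (lv i) (lv i + s) (Ch i)) i t)| ≤
        TW.Ex (Ty k R e0 y) (fun t => xc ^ t.length / gK K) (fun t =>
          aW lv s Ch (fun i => trI k (lv i + s)) (fun i => PWN.UT (lv i) (lv i + s) (Ch i)) i t * er t) +
        TW.Ex (Ty k R e0 y') (fun t => xc ^ t.length / gK K) (fun t =>
          aW lv s Ch (fun i => trI k (lv i + s)) (fun i => PWN.UT (lv i) (lv i + s) (Ch i)) i t * er t) + β := by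
  intro i hi Ψ er hΨ _ hR'
  have hwi : 0 < wD (Ch i) := hw.trans_le (hLv.mass i hi)
  have hUT : 0 < PWN.UT (lv i) (lv i + s) (Ch i) := UT_pos hwi
  have hg := gK_pos K
  have h1 := levSh (Ψ := Ψ) (er := er) (θ := trI k (lv i + s)) he0 (hLv.chn i hi) (by omega : lv i + 1 ≤ lv i + s)
    (hk i hi) (hR i hi) hwi (hsm i hi) hd (hh i hi) (trI_nonneg k _) (fun _ h => trI_ne h) hΨ
    (fun A Y hA hd hY => hR' A Y hA hd fun i' hi' => by
      have := hY i' hi'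
      push_cast
      exact this)
  have h2 := hwin i hi
  have e1 : η * wD (Ch i) / 4 ^ (lv i + s) / wD (Ch i) = η / 4 ^ (lv i + s) := by
    field_simp
  rw [e1] at h1
  have h3 : η / 4 ^ (lv i + s) * ∑ y'' ∈ Bs y (2 ^ (lv i + s + 2)), ∑ t ∈ Ty k R e0 y'', xc ^ t.length *
      NW (lv i) (lv i + s) (Ch i) (trI k (lv i + s)) (fun _ => 1) t ≤ β * (gK K * PWN.UT (lv i) (lv i + s) (Ch i)) := by
    calc η / 4 ^ (lv i + s) * ∑ y'' ∈ Bs y (2 ^ (lv i + s + 2)), ∑ t ∈ Ty k R e0 y'', xc ^ t.length *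
        NW (lv i) (lv i + s) (Ch i) (trI k (lv i + s)) (fun _ => 1) t ≤
        η / 4 ^ (lv i + s) * (C * 4 ^ (lv i + s) * PWN.UT (lv i) (lv i + s) (Ch i) * gK K) :=
        mul_le_mul_of_nonneg_left h2 (by positivity)
      _ = η * C * (gK K * PWN.UT (lv i) (lv i + s) (Ch i)) := by
        field_simp
      _ ≤ β * (gK K * PWN.UT (lv i) (lv i + s) (Ch i)) := mul_le_mul_of_nonneg_right hβ (by positivity)
  obtain ⟨D, hD⟩ : ∃ D : ℝ, D = gK K * PWN.UT (lv i) (lv i + s) (Ch i) := ⟨_, rfl⟩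
  have hD0 : 0 < D := by rw [hD]; exact mul_pos hg hUT
  have e2 : ∀ (x : Pt) (f : List Bool → ℝ), TW.Ex (Ty k R e0 x) (fun t => xc ^ t.length / gK K) (fun t => f t *
      aW lv s Ch (fun i => trI k (lv i + s)) (fun i => PWN.UT (lv i) (lv i + s) (Ch i)) i t) =
      (∑ t ∈ Ty k R e0 x, xc ^ t.length * (f t * NW (lv i) (lv i + s) (Ch i) (trI k (lv i + s)) (fun _ => 1) t)) / D := by
    intro x f
    rw [hD]
    unfold TW.Ex aW
    rw [sum_div]
    refine sum_congr rfl fun t _ => ?_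
    field_simp
  have e3 : ∀ (x : Pt) (f : List Bool → ℝ), TW.Ex (Ty k R e0 x) (fun t => xc ^ t.length / gK K) (fun t =>
      aW lv s Ch (fun i => trI k (lv i + s)) (fun i => PWN.UT (lv i) (lv i + s) (Ch i)) i t * f t) =
      (∑ t ∈ Ty k R e0 x, xc ^ t.length * (NW (lv i) (lv i + s) (Ch i) (trI k (lv i + s)) (fun _ => 1) t * f t)) / D := by
    intro x f
    rw [hD]
    unfold TW.Ex aW
    rw [sum_div]
    refine sum_congr rfl fun t _ => ?_
    field_simp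
  rw [e2, e2, e3, e3, ← sub_div, ← add_div, abs_div, abs_of_pos hD0, div_add' _ _ _ hD0.ne']
  rw [← hD] at h3
  exact div_le_div_of_nonneg_right (by linarith) hD0.le

/-- **the shift of the end** -/
theorem shC_of {CC : ℕ → ℕ → ℕ → Pt → Pt → Prop} (hcls : CL CC) (hST : SmallC CC) (hSe : SeY) (hML : MomYL) (hM1 : Mom1T) :
    ShC CC := by
  intro ε hε
  obtain ⟨m0, kS, hm0, hSe⟩ := hSe
  obtain ⟨CL', kL, hCL, hML⟩ := hML
  obtain ⟨CW, cW, kW, lW, hCW, hM1⟩ := hM1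
  obtain ⟨D, hD1, hD⟩ := UT_low
  obtain ⟨c, hc, hST⟩ := hST (ε / 16) (by positivity)
  obtain ⟨β, hβdef⟩ : ∃ β : ℝ, β = ε * c / 8 := ⟨_, rfl⟩
  have hβ0 : 0 < β := by rw [hβdef]; positivity
  obtain ⟨η, hη⟩ : ∃ η : ℝ, η = β / CW := ⟨_, rfl⟩
  have hη0 : 0 < η := by rw [hη]; positivity
  have hηβ : η * CW ≤ β := by
    rw [hη]
    refine le_of_eq ?_
    field_simp
  obtain ⟨s1, w, L0, hw, hChP⟩ := chPh η hη0
  obtain ⟨s, hs⟩ : ∃ s, s = s1 + 1 := ⟨_, rfl⟩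
  obtain ⟨M0, hST⟩ := hST w s hw
  obtain ⟨B, hB⟩ : ∃ B : ℝ, B = (CL' * (D ^ s / w)) ^ 2 := ⟨_, rfl⟩
  have hB0 : 0 ≤ B := by rw [hB]; positivity
  obtain ⟨M1, hM1'⟩ := exists_nat_gt (16 * B / (c ^ 2 * ε))
  obtain ⟨M, hMdef⟩ : ∃ M : ℕ, M = M0 + M1 + 1 := ⟨_, rfl⟩
  have hM : 1 ≤ M := by omega
  have hMr : (0 : ℝ) < M := by exact_mod_cast (by omega : 0 < M)
  have hBM : B / (c ^ 2 * M) ≤ ε / 16 := by
    have h1 : 16 * B / (c ^ 2 * ε) ≤ M := hM1'.le.trans (by exact_mod_cast (by omega : M1 ≤ M))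
    rw [div_le_iff₀ (by positivity)] at h1
    rw [div_le_iff₀ (by positivity)]
    nlinarith
  obtain ⟨s0, hST⟩ := hST M (by omega)
  obtain ⟨s2, hs2⟩ := pow_unbounded_of_one_lt (1024 * B / (c ^ 2 * ε)) (one_lt_two : (1 : ℝ) < 2)
  obtain ⟨s', hs'⟩ : ∃ s' : ℕ, s' = s0 + s2 + 8 := ⟨_, rfl⟩
  have hBs : 128 * B / (2 ^ s' * c ^ 2) ≤ ε / 8 := by
    have h1 : 1024 * B / (c ^ 2 * ε) ≤ 2 ^ s' := hs2.le.trans (pow_le_pow_right₀ (by norm_num) (by omega))
    rw [div_le_iff₀ (by positivity)] at h1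
    rw [div_le_iff₀ (by positivity)]
    nlinarith
  obtain ⟨c0, l0, k0, hST⟩ := hST s' (by omega)
  have hsm0 : 0 < √m0 := Real.sqrt_pos.2 hm0
  obtain ⟨τ', hτ'def⟩ : ∃ τ' : ℝ, τ' = ε * c / (8 * (B + m0)) := ⟨_, rfl⟩
  have hτ'0 : 0 < τ' := by rw [hτ'def]; positivity
  obtain ⟨τ, hτdef⟩ : ∃ τ : ℝ, τ = τ' * √m0 := ⟨_, rfl⟩
  have hτ0 : 0 < τ := by rw [hτdef]; positivity
  have hττ' : τ ^ 2 = τ' ^ 2 * m0 := by
    rw [hτdef, mul_pow, Real.sq_sqrt hm0.le]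
  have hτB : τ' * (B + m0) / c ≤ ε / 8 := by
    rw [hτ'def, div_le_iff₀ hc]
    refine le_of_eq ?_
    field_simp
  refine ⟨τ, hτ0, c0 + cW + 16 + M * (s + s'), fun C0 C hC0 hC => ⟨C + l0 + k0 + kS + kL + kW + lW + L0 + 1, ?_⟩⟩
  intro K k R e y y' hk0 hy hy' hh hd Φ er hΦ hfar her0 her2 her2'
  obtain ⟨he, hhn, hKk, hRy⟩ := hcls K k R e y hy
  obtain ⟨-, hhn', -, hRy'⟩ := hcls K k R e y' hy'
  -- the levels
  obtain ⟨lv, hlv⟩ : ∃ lv : ℕ → ℕ, lv = fun i => K - C + 8 + i * (s + s') := ⟨_, rfl⟩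
  have hlv' : ∀ i, lv i = K - C + 8 + i * (s + s') := fun i => by rw [hlv]
  have hlow : ∀ i, K - C + 8 ≤ lv i := fun i => by rw [hlv']; exact Nat.le_add_right _ _
  have htop : ∀ i, i < M → lv i + s + C0 + c0 + cW + 8 ≤ K := by
    intro i hi
    have h1 : i * (s + s') + (s + s') ≤ M * (s + s') := by
      calc i * (s + s') + (s + s') = (i + 1) * (s + s') := by ring
        _ ≤ M * (s + s') := Nat.mul_le_mul_right _ hi
    rw [hlv']
    omega
  have hgap : ∀ i j, i < j → j < M → lv i + s + s' ≤ lv j := by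
    intro i j' hij _
    have h1 : i * (s + s') + (s + s') ≤ j' * (s + s') := by
      calc i * (s + s') + (s + s') = (i + 1) * (s + s') := by ring
        _ ≤ j' * (s + s') := Nat.mul_le_mul_right _ hij
    rw [hlv', hlv']
    omega
  have hchE : ∀ i, ∃ Ch : Set (List Bool), Chn (lv i + s) Ch ∧ w ≤ wD Ch ∧ wD Ch ≤ 1 ∧
      ∀ l, l + s1 ≤ lv i + s → SM l Ch (η * wD Ch / 4 ^ (lv i + s)) ∧ SMh l Ch (η * wD Ch / 4 ^ (lv i + s)) := fun i =>
    hChP (lv i + s) (by have := hlow i; omega)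
  choose Ch hCh using hchE
  have hLv : LvS M lv s s' w Ch := ⟨hgap, fun i _ => (hCh i).1, fun i _ => (hCh i).2.1⟩
  have hsmT : ∀ x : Pt, CC K k R e x → ∀ e' : ℕ → ℕ, (∀ j, j < M → e' j < M) → (∀ i j, i < j → j < M → e' i < e' j) →
      ∑ t ∈ Ty k R e x, xc ^ t.length *
        smI c (fun j => NW (lv (e' j)) (lv (e' j) + s) (Ch (e' j)) (trI k (lv (e' j) + s))
          (fun _ => 1) t / PWN.UT (lv (e' j)) (lv (e' j) + s) (Ch (e' j)) / M) M ≤ ε / 16 * gK K := by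
    intro x hx e' he1' he2'
    exact hST K k R e x (fun j => lv (e' j)) (fun j => Ch (e' j)) (by omega) hx (hLv.sub he1' he2') (by
      have := hlow (e' 0)
      show l0 ≤ lv (e' 0)
      omega) (fun i hi => by
      have := htop (e' i) (he1' i hi)
      show lv (e' i) + s + c0 ≤ K
      omega)
  have hET : ∀ x : Pt, CC K k R e x → EnsD (Ty k R e x) (fun t => xc ^ t.length) M M lv s Ch (fun i => trI k (lv i + s))
      (fun i => PWN.UT (lv i) (lv i + s) (Ch i)) (gK K) m0 B c (ε / 16) := by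
    intro x hx
    obtain ⟨-, hx1, -, -⟩ := hcls K k R e x hx
    have hx3 : (2 : ℤ) ^ (K - 3) ≤ hn x := (pow_le_pow_right₀ (by norm_num) (by omega)).trans hx1
    rw [hB]
    exact ensT (R := R) (e0 := e) (c := c) (x := ε / 16) (M := M) (m0 := m0) (K := K) hCL hD hw hLv
      (fun i hi => (hML K (lv i) (lv i + s) _ (Ch i) (trI k (lv i + s)) (by omega) (by have := htop i hi; omega)
        (Nat.le_add_right _ _) hx3 (hCh i).1 (trI_nonneg _ _) (trI_le _ _) _ (fun t ht => by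
          have h3 := mem_Ty.1 ht
          exact ⟨h3.1.1, h3.2.2.1⟩)).2)
      (mass_Ty hm0 (hSe K _ (by omega) hx1)) (hsmT x hx)
  have hA := hET y hy
  have hA' := hET y' hy'
  have hpow : ∀ i, i < M → 2 ^ (lv i + s + 5) ≤ 2 ^ K := fun i hi =>
    Nat.pow_le_pow_right (by norm_num) (by have := htop i hi; omega)
  have hlev := levES (β := β) (R := R) (e0 := e) (K := K) (k := k) (y := y) (y' := y') hw hη0.le (by omega : 1 ≤ s) hLv he
    (fun i hi => (Nat.pow_le_pow_right (by norm_num) (by omega)).trans ((hpow i hi).trans hKk)) (fun i hi => by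
      have h1 : ((2 : ℤ) ^ (lv i + s + 5)) ≤ 2 ^ K := by exact_mod_cast hpow i hi
      linarith) (fun i _ => ((hCh i).2.2.2 (lv i) (by omega)).2) (fun i hi =>
      hM1 K k R (lv i) (lv i + s) e _ (Ch i) (by omega) (by have := hlow i; omega) (Nat.le_add_right _ _)
        (by have := htop i hi; omega) hhn (hCh i).1) hηβ hd (fun i _ => hh.trans
        (pow_le_pow_right₀ (by norm_num) (by have := hlow i; omega)))
  have hT := TS_core (S := Ty k R e y) (S' := Ty k R e y') (p := fun t => xc ^ t.length / gK K)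
    (p' := fun t => xc ^ t.length / gK K) (M := M) (r := fun i => 2 ^ (lv i + s + 1)) (r0 := 2 ^ (K - C0))
    (n := aW lv s Ch (fun i => trI k (lv i + s)) (fun i => PWN.UT (lv i) (lv i + s) (Ch i)))
    (nb := aQ lv s Ch (fun i => trI k (lv i + s)) (fun i => PWN.UT (lv i) (lv i + s) (Ch i)))
    (Φ := Φ) (er := er) (B := B) (ω := 64 / 2 ^ s') (β := β) (τ := τ') (c := c) (x := ε / 16) (m0 := m0)
    hA.p0' hA'.p0' (aW_nonneg hA.th hA.u0) (aW_le_aQ hA.th hA.u0) hA.mom' hA'.mom' (by positivity) hc hM hτ'0.le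
    (fun i hi => Nat.pow_le_pow_right (by norm_num) (by have := htop i hi; omega))
    (fun i j hij hj => aW_osc hgap (by omega) hA.th hA.u0 hij hj) hΦ hfar her0
    (by rw [Ex_div, div_le_iff₀ (gK_pos K), ← hττ']; exact her2)
    (by rw [Ex_div, div_le_iff₀ (gK_pos K), ← hττ']; exact her2')
    hlev (hA.small' (fun j => j) (fun _ h => h) (fun _ _ h _ => h)) (hA'.small' (fun j => j) (fun _ h => h) (fun _ _ h _ => h))
  have e3 : (τ' * (B + m0) + 2 * (64 / 2 ^ s' * B / c) + β) / c =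
      τ' * (B + m0) / c + 128 * B / (2 ^ s' * c ^ 2) + β / c := by
    field_simp
    ring
  have hβc : β / c = ε / 8 := by
    rw [hβdef]
    field_simp
  rw [e3, hβc, Ex_div, Ex_div, ← sub_div, abs_div, abs_of_pos (gK_pos K), div_le_iff₀ (gK_pos K)] at hT
  exact hT.trans (mul_le_mul_of_nonneg_right (by linarith) (gK_pos K).le)

end PLC

end HexObs
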