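import Pool.Agent.PLC.Defs
import Pool.Agent.PW.SmallTy
import Pool.Agent.PW.TipNF
import Pool.Agent.PW.PlaneS

/-!
# PLC, row B2 (helper47): the total weight of the levels is rarely small on the words of the plane with a given end

* `farP` : the first piece and the translates are far from the tip;
* `smallP_core` : the transfer from the ensemble of the right parts;
* **`smallP : SmallC PlC`**.
-/

set_option autoImplicit false

namespace HexObs

namespace PLC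

open Finset TS SDN TIW SLW HexObs.SIM SLW.TW PWN

open scoped ENNReal

/-- words of the plane: the first piece and all translates are far from the tip -/
theorem farP {k R' L K : ℕ} {y : Pt} (hRk : R' ≤ k) (hK : 2 ^ K ≤ k) (hL : L + 4 ≤ K) {X R : List Bool}
    (hen : en (X ++ R) = y) (hy : (2 : ℤ) ^ K ≤ hn y) (hX : TIP.In (2 ^ (K - 3)) X)
    (hb : ∀ i, i ≤ (X ++ R).length → hn (vx oo up (X ++ R) i) < R') : FarX k L X R := by
  have hkk : (2 : ℤ) ^ K ≤ k := by exact_mod_cast hK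
  have hLL : (16 : ℤ) * 2 ^ L ≤ 2 ^ K := by
    have : (2 : ℤ) ^ (L + 4) ≤ 2 ^ K := pow_le_pow_right₀ (by norm_num) hL
    rw [pow_add] at this
    linarith
  have hpL : (0 : ℤ) < 2 ^ L := by positivity
  have hRk' : (R' : ℤ) ≤ k := by exact_mod_cast hRk
  have hfar : ∀ i, i ≤ (X ++ R).length → ∀ m : ℤ, m ≠ 0 → (8 * 2 ^ L : ℤ) ≤
      hn (vx oo up (X ++ R) i + (2 * (k : ℤ) * m, 2 * (k : ℤ) * m) - en (X ++ R)) := by
    intro i hi m hm
    have h1 := hn_T k hm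
    have h2 := hb i hi
    have h3 := hb (X ++ R).length le_rfl
    have h4 : hn (en (X ++ R)) < R' := h3
    have e : ((2 * (k : ℤ) * m, 2 * (k : ℤ) * m) : Pt) = (vx oo up (X ++ R) i + (2 * (k : ℤ) * m, 2 * (k : ℤ) * m) -
        en (X ++ R)) - (vx oo up (X ++ R) i - en (X ++ R)) := by
      abel
    have h5 := hn_sub (vx oo up (X ++ R) i + (2 * (k : ℤ) * m, 2 * (k : ℤ) * m) - en (X ++ R))
      (vx oo up (X ++ R) i - en (X ++ R))
    have h6 := hn_sub (vx oo up (X ++ R) i) (en (X ++ R))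
    rw [← e] at h5
    linarith
  refine ⟨fun i hi m => ?_, hfar⟩
  rcases eq_or_ne m 0 with hm | hm
  · subst hm
    have h1 : vx oo up (X ++ R) i = vx oo up X i := vx_append (by omega)
    have h2 : hn (vx oo up X i) ≤ 3 * (2 ^ (K - 3) : ℕ) := hn_le_Bl (hX i hi)
    have h3 : (2 : ℤ) ^ K = 8 * 2 ^ (K - 3) := by
      rw [show (8 : ℤ) = 2 ^ 3 by norm_num, ← pow_add, show 3 + (K - 3) = K by omega]
    have h4 : (vx oo up (X ++ R) i + (2 * (k : ℤ) * 0, 2 * (k : ℤ) * 0) - en (X ++ R) : Pt) = vx oo up X i - y := by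
      rw [h1, hen]
      ext1
      · show (vx oo up X i).1 + 2 * (k : ℤ) * 0 - y.1 = (vx oo up X i).1 - y.1
        ring
      · show (vx oo up X i).2 + 2 * (k : ℤ) * 0 - y.2 = (vx oo up X i).2 - y.2
        ring
    rw [h4]
    have h6 := hn_tri y (vx oo up X i) 0
    rw [sub_zero, sub_zero, hn_sub_comm _ (vx oo up X i)] at h6
    push_cast at h2
    linarith
  · exact hfar i (hi.trans (by rw [List.length_append]; omega)) m hm

/-- **the transfer** -/
theorem smallP_core : ∀ ε : ℝ, 0 < ε →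
    ∃ (c J a k0 : ℕ) (A : ℝ), 0 < A ∧ c ≤ k0 ∧ ∀ (K k R' L : ℕ) (e y : Pt), k0 ≤ K → PlC K k R' e y → L + a ≤ K →
      ∀ (F G : List Bool → ℝ) (τ : ℝ), (∀ X R, FarX k L X R → G R ≤ F (X ++ R)) →
        gf {t | (t ∈ SA ∧ en t = y ∧ ∀ i, i ≤ t.length → hn (vx oo up t i) < R') ∧ F t < τ} ≤
          ENNReal.ofReal (A / 4 ^ K) * NTA.Xb K * gf {R | R ∈ BotS (K - c) (K + J) ∧ G R < τ} +
          ENNReal.ofReal ε * PW.BL.gK K := by
  intro ε hε
  obtain ⟨J, K1, hbox⟩ := PW.plane_tail (ε / 2) (by positivity)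
  obtain ⟨c, k0, A, hA, _, hck, hdom⟩ := PW.domStP (ε / 2) 3 J (by positivity)
  refine ⟨c, J + 4, 4, k0 + K1, A, hA, by omega, fun K k R' L e y hK hC hL F G τ hFG => ?_⟩
  obtain ⟨_, hy1, _, hy3, hRk⟩ := hC
  have hkK : 2 ^ K ≤ k := (cl_plC K k R' e y ⟨by assumption, hy1, by assumption, hy3, hRk⟩).2.2.1
  have h8 : (2 : ℤ) ^ K = 8 * 2 ^ (K - 3) := by
    rw [show (8 : ℤ) = 2 ^ 3 by norm_num, ← pow_add, show 3 + (K - 3) = K by omega]
  have hyB : y ∉ Bl oo (2 ^ (K - 3)) := by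
    intro h
    have h1 : hn y ≤ 3 * (2 ^ (K - 3) : ℕ) := hn_le_Bl h
    have h4 : (0 : ℤ) < 2 ^ (K - 3) := by positivity
    push_cast at h1
    linarith
  have hbox := hbox K y (by omega)
  obtain ⟨E, hE⟩ : ∃ E : Set (List Bool), E = {t | (t ∈ SA ∧ JNT.labE t = y ∧ t ∈ WL (K + J)) ∧
      (∀ i, i ≤ t.length → hn (vx oo up t i) < R') ∧ F t < τ} := ⟨_, rfl⟩
  have hdm := hdom K y E {R | G R < τ} (by omega) (fun t ht => by rw [hE] at ht; exact ht.1) hyB
    (fun X R hXR hIn _ => by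
      rw [hE] at hXR
      obtain ⟨⟨h1, h2, h3⟩, h4, h5⟩ := hXR
      exact lt_of_le_of_lt (hFG X R (farP hRk hkK hL h2 hy1 hIn h4)) h5)
  have hsplit : {t | (t ∈ SA ∧ en t = y ∧ ∀ i, i ≤ t.length → hn (vx oo up t i) < R') ∧ F t < τ} ⊆
      {t | t ∈ PW.Py y ∧ t ∉ WL (K + J)} ∪ E := by
    rintro t ⟨⟨h1, h2, h3⟩, h4⟩
    by_cases h5 : t ∈ WL (K + J)
    · right
      rw [hE]
      exact ⟨⟨h1, h2, h5⟩, h3, h4⟩
    · left
      exact ⟨⟨h1, h2⟩, h5⟩
  calc _ ≤ gf {t | t ∈ PW.Py y ∧ t ∉ WL (K + J)} + gf E := (gf_mono hsplit).trans (gf_union_le _ _)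
    _ ≤ ENNReal.ofReal (ε / 2) * PW.BL.gK K + (ENNReal.ofReal (ε / 2) * PW.BL.gK K +
        ENNReal.ofReal (A / 4 ^ K) * NTA.Xb K * gf {R | R ∈ BotS (K - c) (K + J + 4) ∧ G R < τ}) :=
        add_le_add hbox hdm
    _ = ENNReal.ofReal (A / 4 ^ K) * NTA.Xb K * gf {R | R ∈ BotS (K - c) (K + (J + 4)) ∧ G R < τ} +
        ENNReal.ofReal ε * PW.BL.gK K := by
        have h3 : ENNReal.ofReal ε = ENNReal.ofReal (ε / 2) + ENNReal.ofReal (ε / 2) := by
          rw [← ENNReal.ofReal_add (by positivity) (by positivity)]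
          congr 1
          ring
        rw [h3, show K + (J + 4) = K + J + 4 by omega]
        ring

/-- **small sums over the words of the plane** -/
theorem small_TyP : ∀ ε : ℝ, 0 < ε →
    ∃ (c J a k0 : ℕ) (e : ℝ), 0 < e ∧ c ≤ k0 ∧ ∀ (K k R' : ℕ) (e' y : Pt), k0 ≤ K → PlC K k R' e' y →
      ∀ (M : ℕ) (lv : ℕ → ℕ) (s : ℕ) (Ch : ℕ → Set (List Bool)) (U : ℕ → ℝ) (cc : ℝ), 1 ≤ M →
        (∀ j, j < M → Chn (lv j + s) (Ch j)) → (∀ j, j < M → lv j + s + a ≤ K) → (∀ j, 0 ≤ U j) →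
        gf {R | R ∈ BotS (K - c) (K + J) ∧
          Ta (fun j => N0 (lv j) (lv j + s) (Ch j) R / U j / M) M 0 < 2 * cc} ≤
            ENNReal.ofReal (e * Ub (K + J)) * NTA.Xb (K + J) →
        ∑ t ∈ Ty k R' e' y, xc ^ t.length *
          smI cc (fun j => NW (lv j) (lv j + s) (Ch j) (trI k (lv j + s)) (fun _ => 1) t / U j / M) M ≤ ε * gK K := by
  classical
  intro ε hε
  obtain ⟨c, J, a, k0, A, hA, hck, h⟩ := smallP_core (ε / 2) (by positivity)
  obtain ⟨D, hD1, hXp⟩ := NTA.Xb_pow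
  have hD0 : 0 < D := by linarith
  obtain ⟨e, he⟩ : ∃ e : ℝ, e = ε / 2 / (A * (2 ^ J * D ^ J)) := ⟨_, rfl⟩
  have he0 : 0 < e := by rw [he]; positivity
  refine ⟨c, J, a, k0, e, he0, hck, fun K k R' e' y hK hC M lv s Ch U cc hM1 hCh hlv hU hB => ?_⟩
  have hU0 : 0 < Ub K := Num2Aux.UU_pos _
  obtain ⟨F, hF⟩ : ∃ F : List Bool → ℝ, F = fun t =>
      Ta (fun j => NW (lv j) (lv j + s) (Ch j) (trI k (lv j + s)) (fun _ => 1) t / U j / M) M 0 := ⟨_, rfl⟩
  obtain ⟨G, hG⟩ : ∃ G : List Bool → ℝ, G = fun R =>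
      Ta (fun j => N0 (lv j) (lv j + s) (Ch j) R / U j / M) M 0 := ⟨_, rfl⟩
  have hM0 : (0 : ℝ) ≤ M := Nat.cast_nonneg M
  -- the level above all levels
  obtain ⟨L, hL⟩ : ∃ L, L = K - a := ⟨_, rfl⟩
  have haK : a ≤ K := by
    have := hlv 0 (by omega)
    omega
  have hFG : ∀ X R, FarX k L X R → G R ≤ F (X ++ R) := by
    intro X R hXR
    rw [hF, hG]
    show Ta _ M 0 ≤ Ta _ M 0
    unfold Ta
    refine sum_le_sum fun j hj => ?_
    rw [mem_Ico] at hj
    have h1 := hlv j hj.2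
    have h2 := NC_farX (l := lv j) (hCh j hj.2) (by omega) (by omega : lv j + s ≤ L) hXR
    exact div_le_div_of_nonneg_right (div_le_div_of_nonneg_right h2 (hU j)) hM0
  have h1 := h K k R' L e' y hK hC (by omega) F G (2 * cc) hFG
  have h2 : gf {R | R ∈ BotS (K - c) (K + J) ∧ G R < 2 * cc} ≤ ENNReal.ofReal (e * Ub (K + J)) * NTA.Xb (K + J) := by
    rw [hG]
    exact hB
  have h3 : ENNReal.ofReal (A / 4 ^ K) * NTA.Xb K * (ENNReal.ofReal (e * Ub (K + J)) * NTA.Xb (K + J)) ≤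
      ENNReal.ofReal (ε / 2) * PW.BL.gK K := by
    calc ENNReal.ofReal (A / 4 ^ K) * NTA.Xb K * (ENNReal.ofReal (e * Ub (K + J)) * NTA.Xb (K + J))
        ≤ ENNReal.ofReal (A / 4 ^ K) * NTA.Xb K * (ENNReal.ofReal (e * (2 ^ J * Ub K)) *
          (ENNReal.ofReal (D ^ J) * NTA.Xb K)) := by
          gcongr
          · exact T2.AN.UU_up K J
          · exact hXp K J
      _ = ENNReal.ofReal (A / 4 ^ K * (e * (2 ^ J * Ub K)) * D ^ J) * NTA.Xb K ^ 2 :=
          mul3 (by positivity) (by positivity) (by positivity) _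
      _ = ENNReal.ofReal (ε / 2) * PW.BL.gK K := by
          unfold PW.BL.gK
          rw [← mul_assoc (ENNReal.ofReal (ε / 2)), ← ENNReal.ofReal_mul (by positivity)]
          congr 2
          rw [he]
          field_simp
  have h4 : gf {t | (t ∈ SA ∧ en t = y ∧ ∀ i, i ≤ t.length → hn (vx oo up t i) < R') ∧ F t < 2 * cc} ≤
      ENNReal.ofReal (ε * gK K) := by
    refine h1.trans ?_
    refine (add_le_add ((mul_le_mul' le_rfl h2).trans h3) le_rfl).trans (le_of_eq ?_)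
    rw [gK_eq, ← add_mul, ← ENNReal.ofReal_add (by positivity) (by positivity), ← ENNReal.ofReal_mul (by positivity)]
    congr 1
    ring
  have h5 := sum_ind (T := Ty k R' e' y) (P := fun t => F t < 2 * cc)
    (mul_nonneg hε.le (gK_nonneg K)) (fun t ht hP => ?_) h4
  · refine le_trans (le_of_eq (sum_congr rfl fun t _ => ?_)) h5
    unfold smI
    rw [hF]
  · rw [mem_Ty] at ht
    exact ⟨⟨ht.1.1, ht.2.2.1, ht.1.2⟩, hP⟩

/-- **row B2**: on the words of the plane the total weight of the levels is rarely small -/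
theorem smallP : SmallC PlC := by
  intro ε hε
  obtain ⟨c1, J, a, k1, e, he, hck, h⟩ := small_TyP ε hε
  obtain ⟨c, hc, hB⟩ := smallB0 e (c1 + J) he
  refine ⟨c, hc, fun w s hw => ?_⟩
  obtain ⟨M0, hB⟩ := hB w s hw
  refine ⟨max M0 1, fun M hM => ?_⟩
  obtain ⟨s0, hB⟩ := hB M ((le_max_left _ _).trans hM)
  refine ⟨s0, fun s' hs' => ?_⟩
  obtain ⟨c0, l0, hB⟩ := hB s' hs'
  refine ⟨max a (c0 + c1), l0, k1, fun K k R' e' y lv Ch hk hC hLv hl hlk => ?_⟩
  have ha := le_max_left a (c0 + c1)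
  have hc01 := le_max_right a (c0 + c1)
  have hl' : ∀ i, i < M → l0 ≤ lv i := by
    intro i hi
    rcases Nat.eq_zero_or_pos i with h0 | h0
    · rw [h0]
      exact hl
    · have := hLv.gap 0 i h0 hi
      omega
  refine h K k R' e' y hk hC M lv s Ch (fun i => PWN.UT (lv i) (lv i + s) (Ch i)) c ((le_max_right _ _).trans hM) hLv.chn
    (fun i hi => ?_) (fun i => UT_nonneg _ _ _) ?_
  · have := hlk i hi
    omega
  · refine hB (K - c1) (K + J) lv Ch hLv hl' (fun i hi => ?_) (by omega) (by omega)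
    have := hlk i hi
    omega

end PLC

end HexObs
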