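import Pool.Agent.PLC.Defs

/-!
PLC, row C1 (helper45): `TipC` for every class of ensembles, from `SmallC` (the proof of PW/TipT).
-/

set_option autoImplicit false

namespace HexObs

namespace PLC

open Finset TS SDN TIW SLW SLW.TW PWN PWN.RM

/-- **the tip, for every class of ensembles** -/
theorem tipC_of {CC : ℕ → ℕ → ℕ → Pt → Pt → Prop} (hcls : PLC.CL CC) (hA : AReg) (hSN : SmallN) (hST : SmallC CC) (hSe : SeY)
    (hML : MomYL) (hM1 : Mom1T) {Lg : ℝ} {g : ℝ → ℝ} (hg : Bump Lg g) {u : ℝ} (hu : g u = 1) : TipC CC g := by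
  intro ε hε
  obtain ⟨e1, he1⟩ : ∃ e1 : ℝ, e1 = min ε 1 := ⟨_, rfl⟩
  have he10 : 0 < e1 := by rw [he1]; exact lt_min hε one_pos
  have he1ε : e1 ≤ ε := by rw [he1]; exact min_le_left _ _
  have he11 : e1 ≤ 1 := by rw [he1]; exact min_le_right _ _
  obtain ⟨m0, kS, hm0, hSe⟩ := hSe
  obtain ⟨CL, kL, hCL, hML⟩ := hML
  obtain ⟨CW, cW, kW, lW, hCW, hM1⟩ := hM1
  obtain ⟨ε', hε'⟩ : ∃ ε' : ℝ, ε' = e1 / (64 * (m0 + 1)) := ⟨_, rfl⟩
  have hε0 : 0 < ε' := by rw [hε']; positivity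
  have hε2 : ε' ≤ 1 / 64 := by
    rw [hε', div_le_div_iff₀ (by positivity) (by norm_num)]
    nlinarith
  have hε3 : 4 * ε' * (m0 + 1) ≤ e1 / 8 := by
    rw [hε']
    have : 4 * (e1 / (64 * (m0 + 1))) * (m0 + 1) = e1 / 16 := by
      field_simp
      ring
    rw [this]
    linarith
  obtain ⟨Cm, hCm, hMom⟩ := momA (momU hA)
  obtain ⟨D, hD1, hD⟩ := UT_low
  obtain ⟨c, hc, hSN⟩ := hSN (ε' / 4) (by positivity)
  obtain ⟨c', hc', hST⟩ := hST (e1 / 32) (by positivity)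
  obtain ⟨β', hβ'def⟩ : ∃ β' : ℝ, β' = e1 * c' / 8 := ⟨_, rfl⟩
  have hβ'0 : 0 < β' := by rw [hβ'def]; positivity
  obtain ⟨η, hη⟩ : ∃ η : ℝ, η = β' / (2 * CW) := ⟨_, rfl⟩
  have hη0 : 0 < η := by rw [hη]; positivity
  have hηβ : 2 * η * CW ≤ β' := by
    rw [hη]
    refine le_of_eq ?_
    field_simp
  obtain ⟨s, w, L0, hw, hChP⟩ := chP η hη0
  obtain ⟨M0, hSN⟩ := hSN w s hw
  obtain ⟨M0', hST⟩ := hST w s hw
  obtain ⟨B, hB⟩ : ∃ B : ℝ, B = (Cm * (D ^ s / w)) ^ 2 := ⟨_, rfl⟩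
  have hB0 : 0 ≤ B := by rw [hB]; positivity
  obtain ⟨B', hB'⟩ : ∃ B' : ℝ, B' = (CL * (D ^ s / w)) ^ 2 := ⟨_, rfl⟩
  have hB'0 : 0 ≤ B' := by rw [hB']; positivity
  obtain ⟨M1, hM1'⟩ := exists_nat_gt (4 * B / (c ^ 2 * ε'))
  obtain ⟨M2, hM2'⟩ := exists_nat_gt (32 * B' / (c' ^ 2 * e1))
  obtain ⟨M, hMdef⟩ : ∃ M : ℕ, M = M0 + M0' + M1 + M2 + 1 := ⟨_, rfl⟩
  have hM : 1 ≤ M := by omega
  have hMr : (0 : ℝ) < M := by exact_mod_cast (by omega : 0 < M)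
  have hBM : B / (c ^ 2 * M) ≤ ε' / 4 := by
    have h1 : 4 * B / (c ^ 2 * ε') ≤ M := hM1'.le.trans (by exact_mod_cast (by omega : M1 ≤ M))
    rw [div_le_iff₀ (by positivity)] at h1
    rw [div_le_iff₀ (by positivity)]
    nlinarith
  have hBM' : B' / (c' ^ 2 * M) ≤ e1 / 32 := by
    have h1 : 32 * B' / (c' ^ 2 * e1) ≤ M := hM2'.le.trans (by exact_mod_cast (by omega : M2 ≤ M))
    rw [div_le_iff₀ (by positivity)] at h1
    rw [div_le_iff₀ (by positivity)]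
    nlinarith
  obtain ⟨s0, hSN⟩ := hSN M (by omega)
  obtain ⟨s0', hST⟩ := hST M (by omega)
  obtain ⟨s1, hs1⟩ := pow_unbounded_of_one_lt (512 * B / (c ^ 2 * ε')) (one_lt_two : (1 : ℝ) < 2)
  obtain ⟨s2, hs2⟩ := pow_unbounded_of_one_lt (1024 * B' / (c' ^ 2 * e1)) (one_lt_two : (1 : ℝ) < 2)
  obtain ⟨s', hs'⟩ : ∃ s' : ℕ, s' = s0 + s0' + s1 + s2 + 8 := ⟨_, rfl⟩
  have hBs : 128 * B / (2 ^ s' * c ^ 2) ≤ ε' / 4 := by
    have h1 : 512 * B / (c ^ 2 * ε') ≤ 2 ^ s' := hs1.le.trans (pow_le_pow_right₀ (by norm_num) (by omega))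
    rw [div_le_iff₀ (by positivity)] at h1
    rw [div_le_iff₀ (by positivity)]
    nlinarith
  have hBs' : 128 * B' / (2 ^ s' * c' ^ 2) ≤ e1 / 8 := by
    have h1 : 1024 * B' / (c' ^ 2 * e1) ≤ 2 ^ s' := hs2.le.trans (pow_le_pow_right₀ (by norm_num) (by omega))
    rw [div_le_iff₀ (by positivity)] at h1
    rw [div_le_iff₀ (by positivity)]
    nlinarith
  obtain ⟨c0, l0, hSN⟩ := hSN s' (by omega)
  obtain ⟨c0', l0', k0', hST⟩ := hST s' (by omega)
  obtain ⟨τ, hτdef⟩ : ∃ τ : ℝ, τ = e1 * c' / (8 * (B' + m0)) * min 1 (√m0) := ⟨_, rfl⟩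
  have hsm0 : 0 < √m0 := Real.sqrt_pos.2 hm0
  have hτ0 : 0 < τ := by rw [hτdef]; exact mul_pos (by positivity) (lt_min one_pos hsm0)
  -- the constant of T_tip
  obtain ⟨τ', hτ'def⟩ : ∃ τ' : ℝ, τ' = e1 * c' / (8 * (B' + m0)) := ⟨_, rfl⟩
  have hτ'0 : 0 < τ' := by rw [hτ'def]; positivity
  have hττ' : τ ^ 2 ≤ τ' ^ 2 * m0 := by
    rw [hτdef, ← hτ'def, mul_pow]
    refine mul_le_mul_of_nonneg_left ?_ (by positivity)
    have h1 : min 1 (√m0) ≤ √m0 := min_le_right _ _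
    have h2 : 0 ≤ min 1 (√m0) := le_min zero_le_one hsm0.le
    calc min 1 (√m0) ^ 2 ≤ (√m0) ^ 2 := pow_le_pow_left₀ h2 h1 2
      _ = m0 := Real.sq_sqrt hm0.le
  have hτB : τ' * (B' + m0) / c' ≤ e1 / 8 := by
    rw [hτ'def, div_le_iff₀ hc']
    refine le_of_eq ?_
    field_simp
  obtain ⟨Ca, la, hCa, hLa⟩ := levAe hA hg hu
  obtain ⟨ka, hka⟩ := MA_pos hA hg hu
  obtain ⟨β, hβdef⟩ : ∃ β : ℝ, β = ε' * c / 4 := ⟨_, rfl⟩
  have hβ0 : 0 < β := by rw [hβdef]; positivity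
  obtain ⟨j, hj⟩ := pow_unbounded_of_one_lt (Ca * (D ^ s / w) / β) (one_lt_two : (1 : ℝ) < 2)
  rw [div_lt_iff₀ hβ0] at hj
  refine ⟨τ, hτ0, c0 + c0' + cW + j + 16 + 3 * M * (s + s'), fun C0 C hC0 hC =>
    ⟨C + l0 + l0' + k0' + la + ka + kS + kL + kW + lW + L0 + 1, ?_⟩⟩
  intro K k R n' e y hk0 hCC hSc' q Φ er hq hΦ hInn hfar her0 her2
  obtain ⟨he, hhn, hKk2, hR⟩ := hcls K k R e y hCC
  -- the levels
  obtain ⟨lv, hlv⟩ : ∃ lv : ℕ → ℕ, lv = fun i => K - C + 8 + i * (s + s') := ⟨_, rfl⟩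
  have hlv' : ∀ i, lv i = K - C + 8 + i * (s + s') := fun i => by rw [hlv]
  have hlow : ∀ i, K - C + 8 ≤ lv i := fun i => by rw [hlv']; exact Nat.le_add_right _ _
  have htop : ∀ i, i < 3 * M → lv i + s + C0 + c0 + c0' + cW + j + 8 ≤ K := by
    intro i hi
    have h1 : i * (s + s') + (s + s') ≤ 3 * M * (s + s') := by
      calc i * (s + s') + (s + s') = (i + 1) * (s + s') := by ring
        _ ≤ 3 * M * (s + s') := Nat.mul_le_mul_right _ hi
    rw [hlv']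
    omega
  have hgap : ∀ i j, i < j → j < 3 * M → lv i + s + s' ≤ lv j := by
    intro i j' hij _
    have h1 : i * (s + s') + (s + s') ≤ j' * (s + s') := by
      calc i * (s + s') + (s + s') = (i + 1) * (s + s') := by ring
        _ ≤ j' * (s + s') := Nat.mul_le_mul_right _ hij
    rw [hlv', hlv']
    omega
  have hchE : ∀ i, ∃ Ch : Set (List Bool), Chn (lv i + s) Ch ∧ w ≤ wD Ch ∧ wD Ch ≤ 1 ∧
      ∀ l, l + s ≤ lv i + s → SM l Ch (η * wD Ch / 4 ^ (lv i + s)) := fun i =>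
    hChP (lv i + s) (by have := hlow i; omega)
  choose Ch hCh using hchE
  have hLv : LvS (3 * M) lv s s' w Ch := ⟨hgap, fun i _ => (hCh i).1, fun i _ => (hCh i).2.1⟩
  have hll : l0 + l0' + la + lW ≤ K - C + 8 := by omega
  -- small sums, plane
  have hsmA : ∀ m, n' ≤ m → m ≤ 2 * n' → ∀ e : ℕ → ℕ, (∀ j, j < M → e j < 3 * M) →
      (∀ i j, i < j → j < M → e i < e j) → ∑ t ∈ sawF m, smI c (fun j => N0 (lv (e j)) (lv (e j) + s) (Ch (e j)) t /
        PWN.UT (lv (e j)) (lv (e j) + s) (Ch (e j)) / M) M ≤ ε' / 4 * cS m := by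
    intro m hm1' _ e he1 he2
    obtain ⟨k3, hk3, hSc3⟩ := sc_ex (k := K) (n := m) (hSc'.1.trans (by exact_mod_cast hm1'))
    refine hSN k3 m (fun j => lv (e j)) (fun j => Ch (e j)) hSc3 (hLv.sub he1 he2) ?_ fun i hi => ?_
    · have := hlow (e 0)
      show l0 ≤ lv (e 0)
      omega
    · have := htop (e i) (he1 i hi)
      show lv (e i) + s + c0 ≤ k3
      omega
  have hsmT : ∀ e' : ℕ → ℕ, (∀ j, j < M → e' j < 3 * M) → (∀ i j, i < j → j < M → e' i < e' j) →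
      ∑ t ∈ Ty k R e y, xc ^ t.length *
        smI c' (fun j => NW (lv (e' j)) (lv (e' j) + s) (Ch (e' j)) (trI k (lv (e' j) + s))
          (fun _ => 1) t / PWN.UT (lv (e' j)) (lv (e' j) + s) (Ch (e' j)) / M) M ≤ e1 / 32 * gK K := by
    intro e' he1' he2'
    exact hST K k R e y (fun j => lv (e' j)) (fun j => Ch (e' j)) (by omega) hCC (hLv.sub he1' he2') (by
      have := hlow (e' 0)
      show l0' ≤ lv (e' 0)
      omega) (fun i hi => by
      have := htop (e' i) (he1' i hi)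
      show lv (e' i) + s + c0' ≤ K
      omega)
  have hMA : 0 < MA g n' := hka K n' (by omega) hSc'.1
  have hhn3 : (2 : ℤ) ^ (K - 3) ≤ hn y :=
    (pow_le_pow_right₀ (by norm_num) (by omega)).trans hhn
  have hEA := ensA (c := c) (x := ε' / 4) (M := M) hMom hg hD hCm hw hLv hMA hsmA
  have hET := ensT (R := R) (e0 := e) (c := c') (x := e1 / 32) (M := M) (m0 := m0) (K := K) hCL hD hw hLv
    (fun i hi => (hML K (lv i) (lv i + s) _ (Ch i) (trI k (lv i + s)) (by omega) (by have := htop i hi; omega)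
      (Nat.le_add_right _ _) hhn3 (hCh i).1 (trI_nonneg _ _) (trI_le _ _) _ (fun t ht => by
        have h3 := mem_Ty.1 ht
        exact ⟨h3.1.1, h3.2.2.1⟩)).2)
    (mass_Ty hm0 (hSe K _ (by omega) hhn)) hsmT
  have hLA := levEA (β := β) hg hCa hLa hD1 hD hSc' hw hLv (fun i _ => by have := hlow i; omega)
    (fun i hi => by have := htop i hi; omega) (fun i hi => by
      have h1 := htop i hi
      have h2 : (2 : ℝ) ^ j ≤ 2 ^ (K - lv i) := pow_le_pow_right₀ (by norm_num) (by omega)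
      calc Ca * (D ^ s / w) ≤ 2 ^ j * β := hj.le
        _ ≤ 2 ^ (K - lv i) * β := mul_le_mul_of_nonneg_right h2 hβ0.le
        _ = β * 2 ^ (K - lv i) := by ring) hq
  have hpowK : ∀ i, i < 3 * M → 2 ^ (lv i + s + 5) ≤ 2 ^ K := fun i hi =>
    Nat.pow_le_pow_right (by norm_num) (by have := htop i hi; omega)
  have hpow : ∀ i, i < 3 * M → 2 ^ (lv i + s + 5) ≤ k := fun i hi => (hpowK i hi).trans hKk2
  have hLT := levET (β := β') (R := R) (e0 := e) (K := K) hw hη0.le hLv he (fun i hi =>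
      (Nat.pow_le_pow_right (by norm_num) (by omega)).trans (hpow i hi)) (fun i hi => by
      have h1 : ((2 : ℤ) ^ (lv i + s + 5)) ≤ 2 ^ K := by exact_mod_cast hpowK i hi
      linarith) (fun i _ => (hCh i).2.2.2 (lv i) le_rfl) (fun i hi =>
      hM1 K k R (lv i) (lv i + s) e _ (Ch i) (by omega) (by have := hlow i; omega) (Nat.le_add_right _ _)
        (by have := htop i hi; omega) hhn (hCh i).1) hηβ hq
  have hIQ : InnQ (3 * M) lv s Ch q := innQ (fun i _ => by have := hlow i; omega) hInn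
  have hAm : ∑ t ∈ AAF n', pA g n' t = MA g n' := rfl
  have e2 : (2 * (64 / 2 ^ s' * B / c) + β) / c = 128 * B / (2 ^ s' * c ^ 2) + β / c := by
    field_simp
    ring
  have e2' : (2 * (64 / 2 ^ s' * B' / c') + β') / c' = 128 * B' / (2 ^ s' * c' ^ 2) + β' / c' := by
    field_simp
    ring
  have hβc : β / c = ε' / 4 := by
    rw [hβdef]
    field_simp
  have hβc' : β' / c' = e1 / 8 := by
    rw [hβ'def]
    field_simp
  have hT := T_tip (r0 := 2 ^ (K - C0)) (er := er) (τ := τ') (ε' := ε') (err := ε) hgap (by omega : 8 ≤ s') hM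
    (fun i hi => Nat.pow_le_pow_right (by norm_num) (by have := htop i hi; omega)) hEA hAm hLA hET hLT hβ0.le hq hIQ
    hc hc' hε0 (by
      rw [← hB, e2, hβc]
      linarith) (by linarith) hτ'0.le hΦ hfar her0 (her2.trans (mul_le_mul_of_nonneg_right hττ' (gK_pos K).le)) (by
      rw [← hB']
      have e3 : (τ' * (B' + m0) + 2 * (64 / 2 ^ s' * B' / c') + β') / c' =
          τ' * (B' + m0) / c' + (2 * (64 / 2 ^ s' * B' / c') + β') / c' := by ring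
      rw [e3, e2', hβc']
      have h1 : e1 / 32 + B' / (c' ^ 2 * M) ≤ 1 := by linarith
      have h2 : 4 * ε' * (m0 + (e1 / 32 + B' / (c' ^ 2 * M))) ≤ 4 * ε' * (m0 + 1) :=
        mul_le_mul_of_nonneg_left (by linarith) (by positivity)
      linarith)
  exact hT

end PLC

end HexObs
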