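import Pool.Agent.PLC.RInf
import Pool.Agent.PLC.SmallP
import Pool.Agent.PLC.ShC
import Pool.Agent.PLC.TipC
import Pool.Agent.PW.TipTF

/-!
PLC, rows C1, A3, D1 closed (helper45): no hypothesis left.
-/

set_option autoImplicit false

namespace HexObs

namespace PLC

open SLW PWN

/-- **row TipC** for the plane -/
theorem tipC {Lg : ℝ} {g : ℝ → ℝ} (hg : Bump Lg g) {u : ℝ} (hu : g u = 1) : TipC PlC g :=
  tipC_of cl_plC aReg smallN smallP seY momL mom1T hg hu

/-- **row ShC** for the plane -/
theorem shC : ShC PlC := shC_of cl_plC smallP seY momL mom1T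

theorem shF2 : ShF2 := shF2_of shC

/-- **the two-point function of the words is slowly varying** -/
theorem shF : ShF := shF_of shF2

/-- **the end of the critical two-point ensemble is asymptotically independent of what is far** -/
theorem eF2 {Lg : ℝ} {g : ℝ → ℝ} (hg : Bump Lg g) {u : ℝ} (hu : g u = 1) : EF2 g := eF2_of (tipC hg hu)

theorem eF {Lg : ℝ} {g : ℝ → ℝ} (hg : Bump Lg g) {u : ℝ} (hu : g u = 1) : EF g := eF_of (eF2 hg hu)

end PLC

end HexObs
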