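import Pool.Agent.PLC.EAlim
import Pool.Agent.PLC.Share
import Pool.Agent.PLC.TipCZ
import Pool.Agent.PLC.NbZ

/-!
PLC, row E1b (helper11): the last steps of the walks with a given end are asymptotically independent of the start, with the law of the
infinite walk.
-/

set_option autoImplicit false

open MeasureTheory Filter Topology
open scoped Classical

namespace HexObs

namespace PLC

open TS SDN TIW SLW PWN MCP

open Pool.Agent.IW (rvw rvw_app rvw_mem rvw_rvw split_last ext ext_lt Loc law law_prob law_lim)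

open Pool.Agent.IW.MC (StQ stE_StQ Wr Wr_loc law_three)

open Pool.Agent.PLC (BP p_third)

lemma Wr_Wr (a b : Fin 3) (W : Set (ℕ → Fin 3)) : Wr a (Wr b W) = Wr (a + b) W := by
  ext w
  show (fun i => w i + a + b) ∈ W ↔ (fun i => w i + (a + b)) ∈ W
  simp only [add_assoc]

lemma fin3 : ∀ a : Fin 3, a = 0 ∨ a = 1 ∨ a = 2 := by decide

lemma law_Wr {n m : ℕ} (hn : 0 < n) (hm : m ≤ n) {W : Set (ℕ → Fin 3)} (hW : Loc m W) (a : Fin 3) :
    (law n).real (Wr a W) = (law n).real W := by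
  rw [law_three hn hm (Wr_loc hW a), law_three hn hm hW, Wr_Wr, Wr_Wr, Wr_Wr]
  rcases fin3 a with rfl | rfl | rfl
  · rfl
  · rw [show (0 : Fin 3) + 1 = 1 from rfl, show (1 : Fin 3) + 1 = 2 from rfl, show (2 : Fin 3) + 1 = 0 from rfl]
    ring
  · rw [show (0 : Fin 3) + 2 = 2 from rfl, show (1 : Fin 3) + 2 = 0 from rfl, show (2 : Fin 3) + 2 = 1 from rfl]
    ring

/-- the infinite walk is rotation invariant -/
theorem P_Wr {P : Measure (ℕ → Fin 3)} [IsProbabilityMeasure P] (hP : BP P) {m : ℕ} {W : Set (ℕ → Fin 3)} (hW : Loc m W)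
    (a : Fin 3) : P.real (Wr a W) = P.real W := by
  have h1 := law_lim hP (Wr_loc hW a)
  have h2 := law_lim hP hW
  refine tendsto_nhds_unique (h1.congr' ?_) h2
  filter_upwards [eventually_ge_atTop (max m 1)] with n hn
  exact law_Wr (lt_of_lt_of_le one_pos ((le_max_right _ _).trans hn)) ((le_max_left _ _).trans hn) hW a

lemma L0_loc {m : ℕ} {W : Set (ℕ → Fin 3)} (h : Loc m W) (a : Fin 3) : Loc (max m 1) (W ∩ {w | w 0 = a}) := by
  rintro w w' e ⟨h1, h2⟩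
  refine ⟨h _ _ (fun i hi => e i (lt_of_lt_of_le hi (le_max_left _ _))) h1, ?_⟩
  have h3 := e 0 (lt_of_lt_of_le one_pos (le_max_right _ _))
  show w' 0 = a
  rw [← h3]
  exact h2

lemma Z0_Wr (a : Fin 3) (W : Set (ℕ → Fin 3)) : Z0 (Wr a W) = Wr a (W ∩ {w | w 0 = a}) := by
  ext w
  constructor
  · rintro ⟨h1, h2⟩
    refine ⟨h1, ?_⟩
    show w 0 + a = a
    rw [show w 0 = 0 from h2, zero_add]
  · rintro ⟨h1, h2⟩
    refine ⟨h1, ?_⟩
    have h3 : w 0 + a = a := h2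
    show w 0 = 0
    exact add_eq_right.1 h3

theorem P_Z0 {P : Measure (ℕ → Fin 3)} [IsProbabilityMeasure P] (hP : BP P) {m : ℕ} {W : Set (ℕ → Fin 3)} (hW : Loc m W)
    (a : Fin 3) : P.real (Z0 (Wr a W)) = P.real (W ∩ {w | w 0 = a}) := by
  rw [Z0_Wr]
  exact P_Wr hP (L0_loc hW a) a

/-- the label of the first step -/
theorem sum_lab {P : Measure (ℕ → Fin 3)} [IsProbabilityMeasure P] {m : ℕ} {W : Set (ℕ → Fin 3)} (hW : Loc m W) :
    P.real (W ∩ {w | w 0 = 0}) + P.real (W ∩ {w | w 0 = 1}) + P.real (W ∩ {w | w 0 = 2}) = P.real W := by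
  have e : W = (W ∩ {w | w 0 = 0}) ∪ ((W ∩ {w | w 0 = 1}) ∪ (W ∩ {w | w 0 = 2})) := by
    ext w
    constructor
    · intro h
      rcases fin3 (w 0) with h0 | h0 | h0
      · exact Or.inl ⟨h, h0⟩
      · exact Or.inr (Or.inl ⟨h, h0⟩)
      · exact Or.inr (Or.inr ⟨h, h0⟩)
    · rintro (h | h | h) <;> exact h.1
  have d1 : Disjoint (W ∩ {w | w 0 = 0}) ((W ∩ {w | w 0 = 1}) ∪ (W ∩ {w | w 0 = 2})) := by
    rw [Set.disjoint_left]
    rintro w ⟨-, h1⟩ (⟨-, h2⟩ | ⟨-, h2⟩)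
    · exact absurd ((show w 0 = 0 from h1).symm.trans h2) (by decide)
    · exact absurd ((show w 0 = 0 from h1).symm.trans h2) (by decide)
  have d2 : Disjoint (W ∩ {w | w 0 = 1}) (W ∩ {w | w 0 = 2}) := by
    rw [Set.disjoint_left]
    rintro w ⟨-, h1⟩ ⟨-, h2⟩
    exact absurd ((show w 0 = 1 from h1).symm.trans h2) (by decide)
  have m1 := (L0_loc hW 1).meas
  have m2 := (L0_loc hW 2).meas
  conv_rhs => rw [e]
  rw [measureReal_union d1 (m1.union m2), measureReal_union d2 m2]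
  ring

/-! ### the frame -/

/-- the share of the label l of the exit -/
noncomputable def hh (P : Measure (ℕ → Fin 3)) {m : ℕ} (V : Set (Fin m → Fin 3)) (l : Fin 3) : ℝ :=
  3 / 2 * (P.real (VI V ∩ {w | w 0 = rho l true}) + P.real (VI V ∩ {w | w 0 = rho l false}))

lemma hh_sum {P : Measure (ℕ → Fin 3)} [IsProbabilityMeasure P] {m : ℕ} (V : Set (Fin m → Fin 3)) (a : Fin 3) :
    hh P V (0 + a) + hh P V (1 + a) + hh P V (2 + a) = 3 * P.real (VI V) := by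
  have h := sum_lab (P := P) (VI_loc V)
  rcases fin3 a with rfl | rfl | rfl
  · have e : ∀ l : Fin 3, rho (l + 0) true = l - 2 ∧ rho (l + 0) false = l - 1 := by decide
    unfold hh
    rw [(e 0).1, (e 0).2, (e 1).1, (e 1).2, (e 2).1, (e 2).2, show (0 : Fin 3) - 2 = 1 from rfl,
      show (0 : Fin 3) - 1 = 2 from rfl, show (1 : Fin 3) - 2 = 2 from rfl, show (1 : Fin 3) - 1 = 0 from rfl,
      show (2 : Fin 3) - 2 = 0 from rfl, show (2 : Fin 3) - 1 = 1 from rfl]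
    linarith
  · have e : rho (0 + 1) true = 2 ∧ rho (0 + 1) false = 0 ∧ rho (1 + 1) true = 0 ∧ rho (1 + 1) false = 1 ∧
      rho (2 + 1) true = 1 ∧ rho (2 + 1) false = 2 := by decide
    obtain ⟨e1, e2, e3, e4, e5, e6⟩ := e
    unfold hh
    rw [e1, e2, e3, e4, e5, e6]
    linarith
  · have e : rho (0 + 2) true = 0 ∧ rho (0 + 2) false = 1 ∧ rho (1 + 2) true = 1 ∧ rho (1 + 2) false = 2 ∧
      rho (2 + 2) true = 2 ∧ rho (2 + 2) false = 0 := by decide
    obtain ⟨e1, e2, e3, e4, e5, e6⟩ := e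
    unfold hh
    rw [e1, e2, e3, e4, e5, e6]
    linarith

lemma hh_nonneg {P : Measure (ℕ → Fin 3)} {m : ℕ} (V : Set (Fin m → Fin 3)) (l : Fin 3) : 0 ≤ hh P V l := by
  unfold hh
  have h1 := measureReal_nonneg (μ := P) (s := VI V ∩ {w | w 0 = rho l true})
  have h2 := measureReal_nonneg (μ := P) (s := VI V ∩ {w | w 0 = rho l false})
  linarith

lemma lst_nil (c : Bool) : lst c [] = 0 := by
  unfold lst
  refine TIP.ind_neg ?_
  rw [List.getLast?_nil]
  exact fun h => absurd h.symm (Option.some_ne_none c)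

lemma qu_eq {b m : ℕ} {t : List Bool} (ht : 0 < t.length) :
    qu b m t = qf true (StQ b m Set.univ) t + qf false (StQ b m Set.univ) t := by
  have h := lst_add ht true
  unfold qf qu
  rw [← add_mul, show lst true t + lst false t = 1 from h, one_mul]

lemma SE_lin2 {e y : Pt} {h h' : List Bool → ℝ} (hh : ∀ t, |h t| ≤ 1) (hh' : ∀ t, |h' t| ≤ 1) :
    SE e y (fun t => h t + h' t) = SE e y h + SE e y h' := (SE_add hh hh').symm

lemma ne_nil {e y : Pt} {K : ℕ} (hy : (2 : ℤ) ^ K ≤ hn y) {t : List Bool} (ht : t ∈ Se e y) : 0 < t.length := by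
  rw [List.length_pos_iff]
  rintro rfl
  have h1 : en ([] : List Bool) = 0 := rfl
  have h2 : (0 : Pt) = y := h1 ▸ ht.2.1
  rw [← h2] at hy
  have h3 : hn (0 : Pt) = 0 := by decide
  rw [h3] at hy
  have : (0 : ℤ) < 2 ^ K := by positivity
  omega

/-- **the last steps of the walks with a given end and exit**: the exit of the ball, and the labels -/
theorem frame {P : Measure (ℕ → Fin 3)} [IsProbabilityMeasure P] (hP : BP P) {ε : ℝ} (hε : 0 < ε) :
    ∃ (c k0 : ℕ) (δ : ℝ), 2 ≤ c ∧ 0 < δ ∧ ∀ K n m : ℕ, k0 ≤ K → TIP.Sc K n → (m : ℝ) ≤ δ * n → c ≤ K ∧ ∀ (e y : Pt),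
      e ∈ dirs → (2 : ℤ) ^ K ≤ hn y → hn y ≤ 2 ^ (K + 3) →
      SE e y (fun t => 1 - qu (K - c) m t) ≤ ε * (gK K + SE e y (fun _ => 1)) ∧
      ∀ (V : Set (Fin m → Fin 3)) (a : Fin 3) (r : ℕ) (Φ : List Bool → ℝ), 2 * r ≤ 2 ^ K → (∀ t, |Φ t| ≤ 1) → Sta r Φ →
      |SE e y (fun t => Φ t * TIP.ind (t ∈ Bk m a V)) - hh P V (NTF.aa e + a) * SE e y Φ| ≤
        ε * (gK K + SE e y (fun _ => 1)) := by
  obtain ⟨C1, hE⟩ := eF2 (tent_bump 0) (tent_one 0) (ε / 4) (by positivity)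
  obtain ⟨k1, hE⟩ := hE (C1 + 1) (C1 + 1 + C1) (by omega) le_rfl
  obtain ⟨C2, hL⟩ := eA_lim hP (ε := ε / 4) (by positivity)
  obtain ⟨k2, δ, hδ, hL⟩ := hL (max C2 (C1 + 1 + C1 + 2)) (le_max_left _ _)
  obtain ⟨c, hc⟩ : ∃ c, c = max C2 (C1 + 1 + C1 + 2) := ⟨_, rfl⟩
  rw [← hc] at hL
  have hcc : C1 + 1 + C1 + 2 ≤ c := hc ▸ le_max_right _ _
  refine ⟨c, max (max k1 k2) (C1 + 3), δ, by omega, hδ, fun K n m hK hN hm => ?_⟩
  have hK1 : k1 ≤ K := ((le_max_left _ _).trans (le_max_left _ _)).trans hK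
  have hK2 : k2 ≤ K := ((le_max_right _ _).trans (le_max_left _ _)).trans hK
  have hK3 : C1 + 3 ≤ K := (le_max_right _ _).trans hK
  obtain ⟨-, hcK, hL⟩ := hL K n m hK2 hN hm
  refine ⟨hcK, fun e y he hy1 hy2 => ?_⟩
  have hg := gK_nonneg K
  -- the two functionals
  have hq : ∀ (W : Set (ℕ → Fin 3)) (x : Bool), Inn (K - (C1 + 1 + C1)) (qf x (StQ (K - c) m W)) := fun W x =>
    inn_mono (by omega) (inn_qf (stE_StQ (K - c) m W) x)
  have hp : ∀ r : ℕ, 2 * r ≤ 2 ^ K → r + 2 ^ (K - (C1 + 1)) ≤ 2 ^ K := by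
    intro r hr
    have h1 : 2 * 2 ^ (K - (C1 + 1)) ≤ 2 ^ K := by
      calc 2 * 2 ^ (K - (C1 + 1)) = 2 ^ (K - (C1 + 1) + 1) := by ring
        _ ≤ 2 ^ K := Nat.pow_le_pow_right (by norm_num) (by omega)
    omega
  have hy0 : ((2 ^ K : ℕ) : ℤ) ≤ hn y := by
    push_cast
    exact hy1
  have app : ∀ (W : Set (ℕ → Fin 3)) (x : Bool) (r : ℕ) (Φ : List Bool → ℝ), 2 * r ≤ 2 ^ K → (∀ t, |Φ t| ≤ 1) → Sta r Φ →
      |SE e y (fun t => Φ t * qf x (StQ (K - c) m W) t) - EA (tent 0) n (qf x (StQ (K - c) m W)) * SE e y Φ| ≤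
        ε / 4 * gK K := fun W x r Φ hr hΦ hS =>
    hE K n e y hK1 he hy1 hy2 hN _ Φ (erS (2 ^ K)) (qf_abs x _) hΦ (hq W x) (sta_rob hS hΦ (hp r hr)) (erS_nn _)
      (fun t _ ht => erS_far (by rw [ht]; exact hy0))
  have one : ∀ t : List Bool, |(fun _ : List Bool => (1 : ℝ)) t| ≤ 1 := fun _ => by norm_num
  have hS1 : Sta 0 (fun _ => 1) := fun _ _ _ _ => rfl
  obtain ⟨M, hM⟩ : ∃ M, M = SE e y (fun _ => 1) := ⟨_, rfl⟩
  have hM0 : 0 ≤ M := hM ▸ SE_nonneg fun _ => zero_le_one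
  rw [← hM]
  -- the exit of the ball at the tip
  have hU : Loc m (Set.univ : Set (ℕ → Fin 3)) := fun _ _ _ _ => Set.mem_univ _
  have third : P.real (Z0 Set.univ) = 1 / 3 := by
    have e0 : Z0 Set.univ = {w | w 0 = 0} := Set.univ_inter _
    rw [e0]
    exact p_third hP 0
  have ex : SE e y (fun t => 1 - qu (K - c) m t) ≤ ε / 2 * gK K + ε / 2 * M := by
    have b1 := app Set.univ true 0 _ (by positivity) one hS1
    have b2 := app Set.univ false 0 _ (by positivity) one hS1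
    have c1 := hL Set.univ hU true
    have c2 := hL Set.univ hU false
    rw [third] at c1 c2
    rw [← hM] at b1 b2
    simp only [one_mul] at b1 b2
    have h1 : SE e y (fun t => 1 - qu (K - c) m t) = M -
        (SE e y (qf true (StQ (K - c) m Set.univ)) + SE e y (qf false (StQ (K - c) m Set.univ))) := by
      rw [← SE_lin2 (qf_abs _ _) (qf_abs _ _), hM]
      have h2 : SE e y (fun t => qf true (StQ (K - c) m Set.univ) t + qf false (StQ (K - c) m Set.univ) t) =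
          SE e y (qu (K - c) m) := SE_congr fun t ht => (qu_eq (ne_nil hy1 ht)).symm
      have hqu : ∀ t, |qu (K - c) m t| ≤ 1 := fun t => by
        unfold qu
        rw [abs_of_nonneg (TIP.ind_nonneg _)]
        exact TIP.ind_le_one _
      rw [h2, SE_sub one hqu]
      rfl
    rw [h1]
    obtain ⟨b1, -⟩ := abs_le.1 b1
    obtain ⟨b2, -⟩ := abs_le.1 b2
    obtain ⟨c1, -⟩ := abs_le.1 c1
    obtain ⟨c2, -⟩ := abs_le.1 c2
    have d1 := mul_le_mul_of_nonneg_right c1 hM0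
    have d2 := mul_le_mul_of_nonneg_right c2 hM0
    linarith
  refine ⟨ex.trans (by nlinarith), fun V a r Φ hr hΦ hS => ?_⟩
  -- the bound of the sums
  have hΦM : |SE e y Φ| ≤ M := by
    have h0 : SE e y (fun _ => 0) = 0 := by
      unfold SE
      simp
    have h := SE_dist (e := e) (y := y) (h := Φ) (h' := fun _ => 0) (k := fun _ => 1) hΦ (fun _ => by norm_num) one
      (fun t _ => by rw [sub_zero]; exact hΦ t)
    rwa [h0, sub_zero, ← hM] at h
  -- the functional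
  have hqq : ∀ t, |qq (K - c) m a V e t| ≤ 1 := by
    intro t
    rcases Nat.eq_zero_or_pos t.length with h0 | h0
    · rw [List.length_eq_zero_iff] at h0
      subst h0
      unfold qq qf
      rw [lst_nil, lst_nil, zero_mul, zero_mul, add_zero, abs_zero]
      exact zero_le_one
    · have h1 := lst_add h0 true
      have n1 := qf_nonneg true (StQ (K - c) m (Wr (rho (NTF.aa e + a) true) (VI V))) t
      have n2 := qf_nonneg false (StQ (K - c) m (Wr (rho (NTF.aa e + a) false) (VI V))) t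
      have u1 : qf true (StQ (K - c) m (Wr (rho (NTF.aa e + a) true) (VI V))) t ≤ lst true t :=
        mul_le_of_le_one_right (TIP.ind_nonneg _) (TIP.ind_le_one _)
      have u2 : qf false (StQ (K - c) m (Wr (rho (NTF.aa e + a) false) (VI V))) t ≤ lst false t :=
        mul_le_of_le_one_right (TIP.ind_nonneg _) (TIP.ind_le_one _)
      have h1' : lst true t + lst false t = 1 := h1
      unfold qq
      rw [abs_of_nonneg (add_nonneg n1 n2)]
      linarith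
  have hind : ∀ t, |TIP.ind (t ∈ Bk m a V)| ≤ 1 := fun t => by
    rw [abs_of_nonneg (TIP.ind_nonneg _)]
    exact TIP.ind_le_one _
  have s1 : |SE e y (fun t => Φ t * TIP.ind (t ∈ Bk m a V)) - SE e y (fun t => Φ t * qq (K - c) m a V e t)| ≤
      SE e y (fun t => 1 - qu (K - c) m t) := by
    refine SE_dist (fun t => ?_) (fun t => ?_) (fun t => ?_) fun t ht => ?_
    · rw [abs_mul]
      exact mul_le_one₀ (hΦ t) (abs_nonneg _) (hind t)
    · rw [abs_mul]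
      exact mul_le_one₀ (hΦ t) (abs_nonneg _) (hqq t)
    · unfold qu
      have g1 := TIP.ind_nonneg (rvw t ∈ StQ (K - c) m Set.univ)
      have g2 := TIP.ind_le_one (rvw t ∈ StQ (K - c) m Set.univ)
      rw [abs_le]
      constructor <;> linarith
    · rw [← mul_sub, abs_mul]
      have h1 := qq_dist (b := K - c) (m := m) (a := a) (V := V) (ne_nil hy1 ht) ht.2.2
      calc |Φ t| * |TIP.ind (t ∈ Bk m a V) - qq (K - c) m a V e t| ≤ 1 * |TIP.ind (t ∈ Bk m a V) - qq (K - c) m a V e t| :=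
            mul_le_mul_of_nonneg_right (hΦ t) (abs_nonneg _)
        _ ≤ _ := by rw [one_mul]; exact h1
  have s2 : SE e y (fun t => Φ t * qq (K - c) m a V e t) =
      SE e y (fun t => Φ t * qf true (StQ (K - c) m (Wr (rho (NTF.aa e + a) true) (VI V))) t) +
        SE e y (fun t => Φ t * qf false (StQ (K - c) m (Wr (rho (NTF.aa e + a) false) (VI V))) t) := by
    have g : ∀ (x : Bool) (W : Set (ℕ → Fin 3)) (t : List Bool), |Φ t * qf x (StQ (K - c) m W) t| ≤ 1 := fun x W t => by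
      rw [abs_mul]
      exact mul_le_one₀ (hΦ t) (abs_nonneg _) (qf_abs _ _ t)
    rw [← SE_lin2 (g _ _) (g _ _)]
    refine SE_congr fun t _ => ?_
    unfold qq
    ring
  have a1 := app (Wr (rho (NTF.aa e + a) true) (VI V)) true r Φ hr hΦ hS
  have a2 := app (Wr (rho (NTF.aa e + a) false) (VI V)) false r Φ hr hΦ hS
  have l1 := hL _ (Wr_loc (VI_loc V) (rho (NTF.aa e + a) true)) true
  have l2 := hL _ (Wr_loc (VI_loc V) (rho (NTF.aa e + a) false)) false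
  rw [P_Z0 hP (VI_loc V)] at l1 l2
  have m1 : |(EA (tent 0) n (qf true (StQ (K - c) m (Wr (rho (NTF.aa e + a) true) (VI V)))) -
      3 / 2 * P.real (VI V ∩ {w | w 0 = rho (NTF.aa e + a) true})) * SE e y Φ| ≤ ε / 4 * M := by
    rw [abs_mul]
    exact mul_le_mul l1 hΦM (abs_nonneg _) (by positivity)
  have m2 : |(EA (tent 0) n (qf false (StQ (K - c) m (Wr (rho (NTF.aa e + a) false) (VI V)))) -
      3 / 2 * P.real (VI V ∩ {w | w 0 = rho (NTF.aa e + a) false})) * SE e y Φ| ≤ ε / 4 * M := by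
    rw [abs_mul]
    exact mul_le_mul l2 hΦM (abs_nonneg _) (by positivity)
  have s1' := s1.trans ex
  rw [s2] at s1'
  unfold hh
  rw [sub_mul] at m1 m2
  rw [abs_le] at s1' a1 a2 m1 m2 ⊢
  constructor <;> nlinarith [s1'.1, s1'.2, a1.1, a1.2, a2.1, a2.2, m1.1, m1.2, m2.1, m2.2]

/-! ### all exits -/

/-- the direction with the label l -/
def dA (l : Fin 3) : Pt := if l = 0 then up else if l = 1 then rotL (rotL up) else rotR (rotR up)

lemma dA_facts : dirs = {dA 0, dA 1, dA 2, -dA 0, -dA 1, -dA 2} := by decide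

lemma dA_lab : ∀ l : Fin 3, dA l ∈ dirs ∧ -dA l ∈ dirs ∧ NTF.aa (dA l) = l ∧ NTF.aa (-dA l) = l ∧ cl (dA l) = cl (dA 0) ∧
    cl (-dA l) = cl (-dA 0) := by decide

lemma sum_dirs (F : Pt → ℝ) : ∑ e ∈ dirs, F e = (F (dA 0) + F (dA 1) + F (dA 2)) + (F (-dA 0) + F (-dA 1) + F (-dA 2)) := by
  rw [dA_facts, Finset.sum_insert (by decide), Finset.sum_insert (by decide), Finset.sum_insert (by decide),
    Finset.sum_insert (by decide), Finset.sum_insert (by decide), Finset.sum_singleton]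
  ring

lemma share {h0 h1 h2 p s0 s1 s2 η : ℝ} (n0 : 0 ≤ h0) (n1 : 0 ≤ h1) (n2 : 0 ≤ h2) (hs : h0 + h1 + h2 = 3 * p) (hp : p ≤ 1)
    (d1 : |s1 - s0| ≤ η) (d2 : |s2 - s0| ≤ η) : |h0 * s0 + h1 * s1 + h2 * s2 - p * (s0 + s1 + s2)| ≤ 4 * η := by
  have e : h0 * s0 + h1 * s1 + h2 * s2 - p * (s0 + s1 + s2) = (h1 - p) * (s1 - s0) + (h2 - p) * (s2 - s0) := by
    linear_combination s0 * hs
  have b1 : |h1 - p| ≤ 2 := by
    rw [abs_le]
    constructor <;> linarith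
  have b2 : |h2 - p| ≤ 2 := by
    rw [abs_le]
    constructor <;> linarith
  rw [e]
  refine (abs_add_le _ _).trans ?_
  rw [abs_mul, abs_mul]
  have c1 := mul_le_mul b1 d1 (abs_nonneg _) (by norm_num)
  have c2 := mul_le_mul b2 d2 (abs_nonneg _) (by norm_num)
  linarith

/-- **the last steps of the walks with a given end** -/
theorem frame2 {P : Measure (ℕ → Fin 3)} [IsProbabilityMeasure P] (hP : BP P) {ε : ℝ} (hε : 0 < ε) :
    ∃ (c k0 : ℕ) (δ : ℝ), 2 ≤ c ∧ 0 < δ ∧ ∀ K n m : ℕ, k0 ≤ K → TIP.Sc K n → (m : ℝ) ≤ δ * n → c ≤ K ∧ ∀ y : Pt,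
      (2 : ℤ) ^ K ≤ hn y → hn y ≤ 2 ^ (K + 3) →
      SS y (fun t => 1 - qu (K - c) m t) ≤ ε * (gK K + SS y (fun _ => 1)) ∧
      ∀ (V : Set (Fin m → Fin 3)) (a : Fin 3) (r : ℕ) (Φ : List Bool → ℝ), 2 * r ≤ 2 ^ K → (∀ t, |Φ t| ≤ 1) → Sta r Φ →
      |SS y (fun t => Φ t * TIP.ind (t ∈ Bk m a V)) - P.real (VI V) * SS y Φ| ≤ ε * (gK K + SS y (fun _ => 1)) := by
  obtain ⟨c, k1, δ, hc, hδ, hF⟩ := frame hP (ε := ε / 12) (by positivity)
  obtain ⟨k2, hS⟩ := shareS_of (shareF_of (tent_bump 0) (eF2 (tent_bump 0) (tent_one 0))) (ε / 16) (by positivity)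
  refine ⟨c, max k1 k2, δ, hc, hδ, fun K n m hK hN hm => ?_⟩
  obtain ⟨hcK, hF⟩ := hF K n m ((le_max_left _ _).trans hK) hN hm
  refine ⟨hcK, fun y hy1 hy2 => ?_⟩
  have hg := gK_nonneg K
  have one : ∀ t : List Bool, |(fun _ : List Bool => (1 : ℝ)) t| ≤ 1 := fun _ => by norm_num
  have nn : ∀ e : Pt, 0 ≤ SE e y (fun _ => 1) := fun e => SE_nonneg fun _ => zero_le_one
  have hqu : ∀ t, |1 - qu (K - c) m t| ≤ 1 := fun t => by
    unfold qu
    have g1 := TIP.ind_nonneg (rvw t ∈ StQ (K - c) m Set.univ)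
    have g2 := TIP.ind_le_one (rvw t ∈ StQ (K - c) m Set.univ)
    rw [abs_le]
    constructor <;> linarith
  have D := dA_lab
  refine ⟨?_, fun V a r Φ hr hΦ hSt => ?_⟩
  · rw [SS_eq y hqu, SS_eq y one, sum_dirs, sum_dirs]
    have a0 := (hF _ y (D 0).1 hy1 hy2).1
    have a1 := (hF _ y (D 1).1 hy1 hy2).1
    have a2 := (hF _ y (D 2).1 hy1 hy2).1
    have b0 := (hF _ y (D 0).2.1 hy1 hy2).1
    have b1 := (hF _ y (D 1).2.1 hy1 hy2).1
    have b2 := (hF _ y (D 2).2.1 hy1 hy2).1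
    have := nn (dA 0)
    have := nn (dA 1)
    have := nn (dA 2)
    have := nn (-dA 0)
    have := nn (-dA 1)
    have := nn (-dA 2)
    nlinarith
  · have hprod : ∀ t, |Φ t * TIP.ind (t ∈ Bk m a V)| ≤ 1 := fun t => by
      rw [abs_mul]
      refine mul_le_one₀ (hΦ t) (abs_nonneg _) ?_
      rw [abs_of_nonneg (TIP.ind_nonneg _)]
      exact TIP.ind_le_one _
    have hp1 : P.real (VI V) ≤ 1 := measureReal_le_one
    have hs := hh_sum (P := P) V a
    have q : ∀ l : Fin 3, 0 ≤ hh P V (l + a) := fun l => hh_nonneg V _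
    have f0 := (hF _ y (D 0).1 hy1 hy2).2 V a r Φ hr hΦ hSt
    have f1 := (hF _ y (D 1).1 hy1 hy2).2 V a r Φ hr hΦ hSt
    have f2 := (hF _ y (D 2).1 hy1 hy2).2 V a r Φ hr hΦ hSt
    have g0 := (hF _ y (D 0).2.1 hy1 hy2).2 V a r Φ hr hΦ hSt
    have g1 := (hF _ y (D 1).2.1 hy1 hy2).2 V a r Φ hr hΦ hSt
    have g2 := (hF _ y (D 2).2.1 hy1 hy2).2 V a r Φ hr hΦ hSt
    rw [(D 0).2.2.1] at f0
    rw [(D 1).2.2.1] at f1
    rw [(D 2).2.2.1] at f2
    rw [(D 0).2.2.2.1] at g0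
    rw [(D 1).2.2.2.1] at g1
    rw [(D 2).2.2.2.1] at g2
    have s1 := hS K (dA 1) (dA 0) y r ((le_max_right _ _).trans hK) (D 1).1 (D 0).1 (D 1).2.2.2.2.1 hy1 hy2 hr Φ hΦ hSt
    have s2 := hS K (dA 2) (dA 0) y r ((le_max_right _ _).trans hK) (D 2).1 (D 0).1 (D 2).2.2.2.2.1 hy1 hy2 hr Φ hΦ hSt
    have t1 := hS K (-dA 1) (-dA 0) y r ((le_max_right _ _).trans hK) (D 1).2.1 (D 0).2.1 (D 1).2.2.2.2.2 hy1 hy2 hr Φ hΦ hSt
    have t2 := hS K (-dA 2) (-dA 0) y r ((le_max_right _ _).trans hK) (D 2).2.1 (D 0).2.1 (D 2).2.2.2.2.2 hy1 hy2 hr Φ hΦ hSt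
    have u1 := share (q 0) (q 1) (q 2) hs hp1 s1 s2
    have u2 := share (q 0) (q 1) (q 2) hs hp1 t1 t2
    change |hh P V (0 + a) * SE (dA 0) y Φ + hh P V (1 + a) * SE (dA 1) y Φ + hh P V (2 + a) * SE (dA 2) y Φ -
      P.real (VI V) * (SE (dA 0) y Φ + SE (dA 1) y Φ + SE (dA 2) y Φ)| ≤ _ at u1
    change |hh P V (0 + a) * SE (-dA 0) y Φ + hh P V (1 + a) * SE (-dA 1) y Φ + hh P V (2 + a) * SE (-dA 2) y Φ -
      P.real (VI V) * (SE (-dA 0) y Φ + SE (-dA 1) y Φ + SE (-dA 2) y Φ)| ≤ _ at u2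
    rw [SS_eq y hprod, SS_eq y hΦ, SS_eq y one, sum_dirs, sum_dirs, sum_dirs]
    have := nn (dA 0)
    have := nn (dA 1)
    have := nn (dA 2)
    have := nn (-dA 0)
    have := nn (-dA 1)
    have := nn (-dA 2)
    rw [abs_le] at f0 f1 f2 g0 g1 g2 u1 u2 ⊢
    constructor
    · nlinarith [f0.1, f1.1, f2.1, g0.1, g1.1, g2.1, u1.1, u2.1]
    · nlinarith [f0.2, f1.2, f2.2, g0.2, g1.2, g2.2, u1.2, u2.2]

end PLC

end HexObs
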