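import Pool.Agent.PLC.Res

/-!
PLC, row E1d (helper47): the reversal of the walks, public form

* `pos_inj_parity` : the parity of the number of steps is determined by the end point;
* `pos_rev` : the positions of the reversed walk;
* **`ends_rev`** : the sums over the walks to `x` with prescribed ends are the sums over the walks to `x'` with the ends exchanged,
  `x' = x` or `- x` according to the parity.
-/

set_option autoImplicit false

open scoped Classical

namespace Pool.Agent.PLC

namespace E1D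

open Pool.Agent.IW.Res Pool.Agent.PLC.Res Finset

/-- the third root of unity -/
noncomputable def w3 : ℂ := Complex.exp (2 * (Real.pi : ℂ) * Complex.I / 3)

lemma w3_rel : 1 + w3 + w3 ^ 2 = 0 := by
  have h := (Complex.isPrimitiveRoot_exp 3 (by norm_num)).geom_sum_eq_zero (by norm_num)
  have e : Complex.exp (2 * (Real.pi : ℂ) * Complex.I / ((3 : ℕ) : ℂ)) = w3 := by
    unfold w3
    norm_num
  rw [e] at h
  simpa [Finset.sum_range_succ] using h

lemma step_w (i : ℕ) (a : Fin 3) : step i a = (-1) ^ i * w3 ^ (a : ℕ) := by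
  unfold step w3
  rw [← Complex.exp_nat_mul]
  congr 2
  ring

lemma w3_im : w3.im ≠ 0 := by
  intro h
  have h1 := congrArg Complex.re w3_rel
  simp only [Complex.add_re, Complex.one_re, pow_two, Complex.mul_re, Complex.zero_re, h] at h1
  nlinarith [sq_nonneg (w3.re + 1 / 2)]

lemma int_inj {a b a' b' : ℤ} (h : (a : ℂ) + b * w3 = a' + b' * w3) : a = a' ∧ b = b' := by
  have h1 := congrArg Complex.im h
  simp only [Complex.add_im, Complex.intCast_im, Complex.mul_im, Complex.intCast_re, zero_add, zero_mul, add_zero] at h1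
  have h2 : (b : ℝ) = b' := mul_right_cancel₀ w3_im h1
  have h3 : b = b' := by exact_mod_cast h2
  refine ⟨?_, h3⟩
  rw [h3] at h
  have h4 := add_right_cancel h
  exact_mod_cast h4

lemma pos_zero {n : ℕ} (s : Fin n → Fin 3) : pos s 0 = 0 := by
  unfold pos
  refine sum_eq_zero fun i hi => ?_
  rw [mem_filter] at hi
  omega

lemma pos_succ {n : ℕ} (s : Fin n → Fin 3) {k : ℕ} (hk : k < n) : pos s (k + 1) = pos s k + step k (s ⟨k, hk⟩) := by
  unfold pos
  have h1 : univ.filter (fun i : Fin n => (i : ℕ) < k + 1) = insert ⟨k, hk⟩ (univ.filter (fun i : Fin n => (i : ℕ) < k)) := by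
    ext i
    simp only [mem_filter, mem_univ, true_and, mem_insert, Fin.ext_iff]
    omega
  rw [h1, sum_insert (by simp), add_comm]

/-- the class of a position -/
lemma pos_cls {n : ℕ} (s : Fin n → Fin 3) : ∀ k, k ≤ n → ∃ a b : ℤ, pos s k = a + b * w3 ∧
    (3 : ℤ) ∣ a + b - (if k % 2 = 0 then 0 else 1) := by
  intro k
  induction k with
  | zero => exact fun _ => ⟨0, 0, by rw [pos_zero]; simp, by simp⟩
  | succ k ih =>
    intro hk
    obtain ⟨a, b, h1, h2⟩ := ih (by omega)
    obtain ⟨u, v, h3, h4⟩ : ∃ u v : ℤ, w3 ^ ((s ⟨k, hk⟩ : Fin 3) : ℕ) = u + v * w3 ∧ (3 : ℤ) ∣ u + v - 1 := by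
      generalize s ⟨k, hk⟩ = c
      fin_cases c
      · exact ⟨1, 0, by simp, by norm_num⟩
      · exact ⟨0, 1, by simp, by norm_num⟩
      · refine ⟨-1, -1, ?_, by norm_num⟩
        have := w3_rel
        push_cast
        show w3 ^ 2 = _
        linear_combination this
    rw [pos_succ s hk, h1, step_w, h3]
    rcases Nat.even_or_odd k with hev | hod
    · refine ⟨a + u, b + v, ?_, ?_⟩
      · rw [hev.neg_one_pow]
        push_cast
        ring
      · have e1 : k % 2 = 0 := Nat.even_iff.1 hev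
        have e2 : ¬ (k + 1) % 2 = 0 := by omega
        rw [if_pos e1] at h2
        rw [if_neg e2]
        omega
    · refine ⟨a - u, b - v, ?_, ?_⟩
      · rw [hod.neg_one_pow]
        push_cast
        ring
      · have e1 : ¬ k % 2 = 0 := by
          have := Nat.odd_iff.1 hod
          omega
        have e2 : (k + 1) % 2 = 0 := by omega
        rw [if_neg e1] at h2
        rw [if_pos e2]
        omega

/-- the parity of the number of steps is determined by the end point -/
lemma pos_inj_parity {n m : ℕ} (s : Fin n → Fin 3) (t : Fin m → Fin 3) (h : pos s n = pos t m) : n % 2 = m % 2 := by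
  obtain ⟨a, b, h1, h2⟩ := pos_cls s n le_rfl
  obtain ⟨a', b', h1', h2'⟩ := pos_cls t m le_rfl
  rw [h1, h1'] at h
  obtain ⟨e1, e2⟩ := int_inj h
  subst e1 e2
  split_ifs at h2 h2' <;> omega

/-- the reversed walk -/
def rvs {n : ℕ} (s : Fin n → Fin 3) : Fin n → Fin 3 := fun i => s (Fin.rev i)

lemma rvs_rvs {n : ℕ} (s : Fin n → Fin 3) : rvs (rvs s) = s := by
  funext i
  unfold rvs
  rw [Fin.rev_rev]

/-- **the positions of the reversed walk** -/
lemma pos_rev {n : ℕ} (s : Fin n → Fin 3) : ∀ k, k ≤ n → (-1) ^ n * pos (rvs s) k = -(pos s n - pos s (n - k)) := by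
  intro k
  induction k with
  | zero =>
    intro _
    rw [pos_zero, Nat.sub_zero]
    ring
  | succ k ih =>
    intro hk
    have h1 := ih (by omega)
    have hj : n - (k + 1) < n := by omega
    have e : (Fin.rev ⟨k, hk⟩ : Fin n) = ⟨n - (k + 1), hj⟩ := by
      ext
      rw [Fin.val_rev]
    have h2 : pos s (n - k) = pos s (n - (k + 1)) + step (n - (k + 1)) (s ⟨n - (k + 1), hj⟩) := by
      rw [← pos_succ s hj]
      congr 1
      omega
    have h3 : rvs s ⟨k, hk⟩ = s ⟨n - (k + 1), hj⟩ := by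
      unfold rvs
      rw [e]
    rw [pos_succ (rvs s) hk, mul_add, h1, h2, h3, step_w, step_w]
    have h4 : (-1 : ℂ) ^ n * (-1) ^ k = -(-1) ^ (n - (k + 1)) := by
      obtain ⟨d, hd⟩ : ∃ d, n = d + (k + 1) := ⟨n - (k + 1), by omega⟩
      rw [hd, Nat.add_sub_cancel, ← pow_add, show d + (k + 1) + k = d + 1 + 2 * k by ring, pow_add, pow_mul, pow_succ]
      norm_num
    linear_combination (w3 ^ ((s ⟨n - (k + 1), hj⟩ : Fin 3) : ℕ)) * h4

lemma sq_one (n : ℕ) : ((-1 : ℂ) ^ n) * (-1) ^ n = 1 := by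
  rw [← pow_add, ← two_mul, pow_mul]
  norm_num

/-- the reversed walk is self-avoiding -/
lemma rvs_saw {n : ℕ} {s : Fin n → Fin 3} (h : s ∈ saw n) : rvs s ∈ saw n := by
  unfold saw at h ⊢
  rw [mem_filter] at h ⊢
  refine ⟨mem_univ _, fun j k hj hk he => ?_⟩
  have h1 := pos_rev s j hj
  have h2 := pos_rev s k hk
  rw [he] at h1
  have h3 : pos s (n - j) = pos s (n - k) := by linear_combination h2 - h1
  have h4 := h.2 (n - j) (n - k) (by omega) (by omega) h3
  omega

lemma rvs_end {n : ℕ} (s : Fin n → Fin 3) : pos (rvs s) n = -(-1) ^ n * pos s n := by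
  have h := pos_rev s n le_rfl
  rw [Nat.sub_self, pos_zero] at h
  have h2 := sq_one n
  calc pos (rvs s) n = (((-1 : ℂ) ^ n) * (-1) ^ n) * pos (rvs s) n := by rw [h2, one_mul]
    _ = (-1) ^ n * ((-1) ^ n * pos (rvs s) n) := by ring
    _ = _ := by rw [h]; ring

/-- **the reversal** -/
theorem ends_rev {x : ℂ} (hx : x ∈ vertices) : ∃ x' ∈ vertices, ‖x'‖ = ‖x‖ ∧ (∀ z : ℝ, G z x' = G z x) ∧
    ∀ (z : ℝ) (m : ℕ) (W W' : Set (Fin m → Fin 3)), ends z x m W W' = ends z x' m W' W := by
  obtain ⟨n0, s0, h0⟩ := hx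
  have key : ∀ (n : ℕ) (s : Fin n → Fin 3), pos s n = x ↔ pos (rvs s) n = -(-1) ^ n0 * x := by
    intro n s
    constructor
    · intro h
      have h1 := pos_inj_parity s s0 (h.trans h0.symm)
      rw [rvs_end, h]
      rw [neg_one_pow_eq_pow_mod_two n, neg_one_pow_eq_pow_mod_two n0, h1]
    · intro h
      have h1 : n % 2 = n0 % 2 := by
        refine pos_inj_parity (rvs s) (rvs s0) ?_
        rw [h, rvs_end, h0]
      have h2 : (-1 : ℂ) ^ n = (-1) ^ n0 := by
        rw [neg_one_pow_eq_pow_mod_two n, neg_one_pow_eq_pow_mod_two n0, h1]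
      have h3 := rvs_end s
      rw [h, h2] at h3
      have h4 := sq_one n0
      linear_combination (-(-1 : ℂ) ^ n0) * (-h3) + (-(pos s n) + x) * h4
  refine ⟨-(-1) ^ n0 * x, ⟨n0, rvs s0, (key n0 s0).1 h0⟩, ?_, fun z => ?_, fun z m W W' => ?_⟩
  · rw [norm_mul, norm_neg, norm_pow, norm_neg, norm_one, one_pow, one_mul]
  · unfold G
    refine tsum_congr fun n => ?_
    congr 2
    refine (card_nbij' rvs rvs ?_ ?_ (fun s _ => rvs_rvs s) (fun s _ => rvs_rvs s)).symm
    · intro s hs
      rw [mem_coe, mem_filter] at hs ⊢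
      exact ⟨rvs_saw hs.1, (key n s).1 hs.2⟩
    · intro s hs
      rw [mem_coe, mem_filter] at hs ⊢
      refine ⟨rvs_saw hs.1, (key n (rvs s)).2 ?_⟩
      rw [rvs_rvs]
      exact hs.2
  · unfold ends
    refine tsum_congr fun n => ?_
    congr 2
    have e1 : ∀ (s : Fin n → Fin 3) (h : m ≤ n), (fun i : Fin m => rvs s (Fin.castLE h i)) =
        fun i : Fin m => s (Fin.rev (Fin.castLE h i)) := fun s h => rfl
    have e2 : ∀ (s : Fin n → Fin 3) (h : m ≤ n), (fun i : Fin m => rvs s (Fin.rev (Fin.castLE h i))) =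
        fun i : Fin m => s (Fin.castLE h i) := fun s h => by
      funext i
      show s (Fin.rev (Fin.rev _)) = _
      rw [Fin.rev_rev]
    refine card_nbij' rvs rvs ?_ ?_ (fun s _ => rvs_rvs s) (fun s _ => rvs_rvs s)
    · intro s hs
      rw [mem_coe, mem_filter] at hs ⊢
      obtain ⟨h1, h2, h3, h4, h5⟩ := hs
      refine ⟨rvs_saw h1, (key n s).1 h2, h3, ?_, ?_⟩
      · rw [e1]
        exact h5
      · rw [e2]
        exact h4
    · intro s hs
      rw [mem_coe, mem_filter] at hs ⊢
      obtain ⟨h1, h2, h3, h4, h5⟩ := hs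
      refine ⟨rvs_saw h1, (key n (rvs s)).2 (by rw [rvs_rvs]; exact h2), h3, ?_, ?_⟩
      · rw [e1]
        exact h5
      · rw [e2]
        exact h4

end E1D

end Pool.Agent.PLC
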