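import Pool.Agent.PLC.E1B
import Pool.Agent.PLC.E1A
import Pool.Agent.PLC.E1D

/-!
PLC, row E1 (helper11): **(E)**, the two ends of the critical walks with given end points are asymptotically independent, with the law of
the infinite walk.
-/

set_option autoImplicit false

open MeasureTheory Filter Topology
open scoped Classical

namespace HexObs

namespace PLC

open TS SDN TIW SLW PWN MCP

open Pool.Agent.IW (rvw rvw_app split_last ext ext_lt)

open Pool.Agent.IW.MC (StQ)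

/-! ### comparison of the sums -/

lemma SE_mono {e y : Pt} {h k : List Bool → ℝ} (hh : ∀ t, |h t| ≤ 1) (hk : ∀ t, |k t| ≤ 1) (hd : ∀ t ∈ Se e y, h t ≤ k t) :
    SE e y h ≤ SE e y k :=
  Summable.tsum_le_tsum (fun t => mul_le_mul_of_nonneg_left (hd t.1 t.2) (pow_nonneg xc_pos.le _)) (summ_Seq e y hh)
    (summ_Seq e y hk)

lemma SS_mono {y : Pt} {h k : List Bool → ℝ} (hh : ∀ t, |h t| ≤ 1) (hk : ∀ t, |k t| ≤ 1)
    (hd : ∀ t, t ∈ SA → en t = y → h t ≤ k t) : SS y h ≤ SS y k := by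
  rw [SS_eq y hh, SS_eq y hk]
  exact Finset.sum_le_sum fun e _ => SE_mono hh hk fun t ht => hd t ht.1 ht.2.1

lemma SS_dist {y : Pt} {h h' k : List Bool → ℝ} (hh : ∀ t, |h t| ≤ 1) (hh' : ∀ t, |h' t| ≤ 1) (hk : ∀ t, |k t| ≤ 1)
    (hd : ∀ t, t ∈ SA → en t = y → |h t - h' t| ≤ k t) : |SS y h - SS y h'| ≤ SS y k := by
  rw [SS_eq y hh, SS_eq y hh', SS_eq y hk, ← Finset.sum_sub_distrib]
  exact (Finset.abs_sum_le_sum_abs _ _).trans (Finset.sum_le_sum fun e _ => SE_dist hh hh' hk fun t ht => hd t ht.1 ht.2.1)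

lemma SS_congr {y : Pt} {h h' : List Bool → ℝ} (hc : ∀ t, t ∈ SA → en t = y → h t = h' t) : SS y h = SS y h' :=
  tsum_congr fun t => by rw [hc t.1 t.2.1 t.2.2]

lemma ind_abs (p : Prop) : |TIP.ind p| ≤ 1 := by
  rw [abs_of_nonneg (TIP.ind_nonneg _)]
  exact TIP.ind_le_one _

lemma ind_mul_abs (p q : Prop) : |TIP.ind p * TIP.ind q| ≤ 1 := by
  rw [abs_mul]
  exact mul_le_one₀ (ind_abs p) (abs_nonneg _) (ind_abs q)

lemma qu_abs (b m : ℕ) (t : List Bool) : |1 - qu b m t| ≤ 1 := by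
  unfold qu
  have g1 := TIP.ind_nonneg (rvw t ∈ StQ b m Set.univ)
  have g2 := TIP.ind_le_one (rvw t ∈ StQ b m Set.univ)
  rw [abs_le]
  constructor <;> linarith

lemma JJ_le_hn' (p : Pt) : ‖NTF.JJ p‖ ≤ hn p := by
  have h1 := NTF.JJ_norm p
  have h2 := nrm_le_hn p
  have h3 := hn_nonneg p
  have h4 : ((nrm p : ℤ) : ℝ) ≤ (hn p : ℝ) ^ 2 := by exact_mod_cast h2
  have h5 : ‖NTF.JJ p‖ ^ 2 ≤ (hn p : ℝ) ^ 2 := by
    rw [h1]
    exact h4
  exact (sq_le_sq₀ (norm_nonneg _) (by exact_mod_cast h3)).1 h5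

lemma rvw_len (t : List Bool) : (rvw t).length = t.length := by
  rcases t.eq_nil_or_concat' with rfl | ⟨s, c, rfl⟩
  · rfl
  · rw [rvw_app, List.length_append, List.length_append, rev_length]

/-! ### the exit of the ball as an event of the labels -/

/-- the walk leaves the ball of radius 2^b within m steps -/
def Xb' (b m : ℕ) : Set (Fin m → Fin 3) := {s | ∃ i, i ≤ m ∧ (2 : ℝ) ^ b ≤ ‖Pool.Agent.IW.Res.pos s i‖}

lemma pos_lab (m : ℕ) (a : Fin 3) (t : List Bool) {i : ℕ} (hi : i ≤ m) :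
    ‖Pool.Agent.IW.Res.pos (fun j : Fin m => NTF.aa (dx up t j) + a) i‖ = ‖NTF.JJ (vx oo up t i)‖ := by
  have h1 := Pool.Agent.PLC.pos_rk a (NTF.sw m t) i
  have h2 : Pool.Agent.IW.Res.pos (NTF.sw m t) i = NTF.JJ (vx oo up t i) := NTSF.pos_sw m t i hi
  have h3 : Pool.Agent.IW.Res.pos (fun j : Fin m => NTF.aa (dx up t j) + a) i =
      NTSF.om ^ (a : ℕ) * Pool.Agent.IW.Res.pos (NTF.sw m t) i := h1
  rw [h3, norm_mul, norm_pow, NTSF.om_norm, one_pow, one_mul, h2]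

lemma exF {b m : ℕ} (a : Fin 3) {t : List Bool} (hm : m ≤ t.length) {i : ℕ} (hi : i ≤ m)
    (h : ((2 ^ (b + 1) : ℕ) : ℤ) ≤ hn (vx oo up t i)) : t ∈ Fr m a (Xb' b m) := by
  refine ⟨hm, i, hi, ?_⟩
  rw [pos_lab m a t hi]
  have h1 := hn_le_JJ' (vx oo up t i)
  have h2 : (2 : ℝ) ^ (b + 1) ≤ ((hn (vx oo up t i) : ℤ) : ℝ) := by exact_mod_cast h
  rw [pow_succ] at h2
  linarith

lemma exB {b m : ℕ} (a : Fin 3) {t : List Bool} (ht : 0 < t.length) (h : t ∈ Bk m a (Xb' b m)) : qu b m t = 0 := by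
  obtain ⟨s, c, rfl, -⟩ := split_last ht rfl
  obtain ⟨hm, i, hi, h1⟩ := h
  have hl : (s ++ [c]).length = s.length + 1 := by simp
  rw [hl] at hm
  have e : (fun j : Fin m => NTF.aa (dx up (s ++ [c]) ((s ++ [c]).length - 1 - j)) + a) =
      fun j : Fin m => NTF.aa (dx up (rvw (s ++ [c])) j) + (NTF.aa (dx up s s.length) + a) := by
    funext j
    have hj := j.2
    rw [hl, Nat.add_sub_cancel, lab_back s c (by omega), add_assoc]
  rw [e, pos_lab m _ _ hi] at h1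
  refine TIP.ind_neg fun h2 => ?_
  have h3 := h2.2.1 i hi
  have h4 := HexObs.PLC.JJ_le_hn' (vx oo up (rvw (s ++ [c])) i)
  have h5 : ((hn (vx oo up (rvw (s ++ [c])) i) : ℤ) : ℝ) < 2 ^ b := by exact_mod_cast h3
  linarith

/-- the functional of the start -/
noncomputable def fS (b m : ℕ) (a : Fin 3) (W : Set (Fin m → Fin 3)) : List Bool → ℝ :=
  staM (2 ^ (b + 1)) m fun s => TIP.ind ((fun i : Fin m => NTF.aa (dx up s i) + a) ∈ W)

lemma fS_abs (b m : ℕ) (a : Fin 3) (W : Set (Fin m → Fin 3)) (t : List Bool) : |fS b m a W t| ≤ 1 :=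
  staM_le (fun _ => ind_abs _) t

lemma fS_dist (b m : ℕ) (a : Fin 3) (W : Set (Fin m → Fin 3)) (t : List Bool) :
    |TIP.ind (t ∈ Fr m a W) - fS b m a W t| ≤ TIP.ind (t ∈ Fr m a (Xb' b m)) := by
  unfold fS staM
  by_cases hm : m ≤ t.length
  · by_cases hb : ∀ i, i ≤ m → hn (vx oo up t i) < ((2 ^ (b + 1) : ℕ) : ℤ)
    · rw [if_pos ⟨hm, hb⟩]
      have e : (fun i : Fin m => NTF.aa (dx up (t.take m) i) + a) = fun i : Fin m => NTF.aa (dx up t i) + a := by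
        funext i
        have hi := i.2
        rw [Pool.Agent.IW.dx_take _ _ _ (by omega)]
      have e2 : TIP.ind (t ∈ Fr m a W) = TIP.ind ((fun i : Fin m => NTF.aa (dx up (t.take m) i) + a) ∈ W) := by
        rw [e]
        exact TIP.ind_congr ⟨fun h => h.2, fun h => ⟨hm, h⟩⟩
      rw [e2, sub_self, abs_zero]
      exact TIP.ind_nonneg _
    · rw [if_neg fun h => hb h.2, sub_zero]
      push Not at hb
      obtain ⟨i, hi, h⟩ := hb
      rw [TIP.ind_pos (exF (b := b) a hm hi h)]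
      exact ind_abs _
  · rw [if_neg fun h => hm h.1, TIP.ind_neg fun h : t ∈ Fr m a W => hm h.1, sub_self, abs_zero]
    exact TIP.ind_nonneg _

lemma fS_univ (b m : ℕ) (a : Fin 3) (W : Set (Fin m → Fin 3)) (t : List Bool) :
    fS b m a W t * TIP.ind (t ∈ Bk m a Set.univ) = fS b m a W t := by
  by_cases hm : m ≤ t.length
  · rw [TIP.ind_pos ⟨hm, Set.mem_univ _⟩, mul_one]
  · have h : fS b m a W t = 0 := if_neg fun h => hm h.1
    rw [h, zero_mul]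

lemma hn_pos_len {y : Pt} {K : ℕ} (hy : (2 : ℤ) ^ K ≤ hn y) {t : List Bool} (ht : t ∈ SA) (hen : en t = y) : 0 < t.length :=
  ne_nil (e := de t) hy ⟨ht, hen, rfl⟩

end PLC

end HexObs

namespace Pool.Agent.PLC

open Pool.Agent.IW.Res Pool.Agent.PLC.Res HexObs.PLC

open HexObs (Pt oo up vx dx xc)

open HexObs.TIW (en hn)

open NTSF (om)

open NTF (JJ sw)

/-- **the sums over the walks with a given end in the words** -/
theorem x_sum {x : ℂ} (hx : x ∈ vertices) (hx0 : x ≠ 0) : ∃ y : Fin 3 → Pt, (∀ a : Fin 3, om ^ (a : ℕ) * JJ (y a) = x) ∧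
    G zc x = 1 / 2 * ∑ a : Fin 3, SS (y a) (fun _ => 1) ∧
    ∀ (m : ℕ) (W W' : Set (Fin m → Fin 3)), ends zc x m W W' =
      1 / 2 * ∑ a : Fin 3, SS (y a) (fun t => HexObs.TIP.ind (t ∈ Fr m a W) * HexObs.TIP.ind (t ∈ Bk m a W')) := by
  obtain ⟨y, hy, h⟩ := dict_eq hx hx0
  refine ⟨y, hy, ?_, fun m W W' => ?_⟩
  · have h1 := (h (fun _ _ => 1) (fun _ _ => by norm_num)).2
    unfold G
    have e1 : ∀ n : ℕ, (((saw n).filter (fun s => pos s n = x)).card : ℝ) * zc ^ n =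
        (∑ s ∈ (saw n).filter (fun s => pos s n = x), (1 : ℝ)) * zc ^ n := fun n => by
      rw [Finset.sum_const, nsmul_eq_mul, mul_one]
    rw [tsum_congr e1, h1]
    congr 1
    exact Finset.sum_congr rfl fun a _ => (SS_eq (y a) (h := fun _ => 1) (fun _ => by norm_num)).symm
  · obtain ⟨g, hg⟩ : ∃ g : (n : ℕ) → (Fin n → Fin 3) → ℝ, g = fun n s => if ∃ h : m ≤ n,
      (fun i : Fin m => s (Fin.castLE h i)) ∈ W ∧ (fun i : Fin m => s (Fin.rev (Fin.castLE h i))) ∈ W' then 1 else 0 := ⟨_, rfl⟩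
    have hg1 : ∀ n s, |g n s| ≤ 1 := fun n s => by
      rw [hg]
      beta_reduce
      split_ifs
      · rw [abs_one]
      · rw [abs_zero]
        exact zero_le_one
    have h1 := (h g hg1).2
    unfold ends
    have e1 : ∀ n : ℕ, (((saw n).filter (fun s => pos s n = x ∧ ∃ h : m ≤ n, (fun i : Fin m => s (Fin.castLE h i)) ∈ W ∧
        (fun i : Fin m => s (Fin.rev (Fin.castLE h i))) ∈ W')).card : ℝ) * zc ^ n =
        (∑ s ∈ (saw n).filter (fun s => pos s n = x), g n s) * zc ^ n := fun n => by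
      rw [hg]
      beta_reduce
      rw [Finset.sum_boole, Finset.filter_filter]
    rw [tsum_congr e1, h1]
    congr 1
    refine Finset.sum_congr rfl fun a _ => ?_
    rw [SS_eq (y a) (fun t => ind_mul_abs _ _)]
    refine Finset.sum_congr rfl fun e _ => tsum_congr fun t => ?_
    congr 1
    rw [hg]
    beta_reduce
    have e2 : ∀ (hmn : m ≤ t.1.length), (fun i : Fin m => rk a (sw t.1.length t.1) (Fin.rev (Fin.castLE hmn i))) =
        fun i : Fin m => NTF.aa (dx up t.1 (t.1.length - 1 - i)) + a := by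
      intro hmn
      funext i
      show NTF.aa (dx up t.1 ((Fin.rev (Fin.castLE hmn i) : Fin t.1.length) : ℕ)) + a = _
      rw [Fin.val_rev, Fin.val_castLE, Nat.sub_sub, add_comm 1]
    have e3 : ∀ (hmn : m ≤ t.1.length), (fun i : Fin m => rk a (sw t.1.length t.1) (Fin.castLE hmn i)) =
        fun i : Fin m => NTF.aa (dx up t.1 i) + a := fun _ => rfl
    by_cases hc : t.1 ∈ Fr m a W ∧ t.1 ∈ Bk m a W'
    · rw [HexObs.TIP.ind_pos hc.1, HexObs.TIP.ind_pos hc.2, if_pos, mul_one]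
      refine ⟨hc.1.1, ?_, ?_⟩
      · rw [e3]
        exact hc.1.2
      · rw [e2]
        exact hc.2.2
    · rw [if_neg]
      · by_cases h1 : t.1 ∈ Fr m a W
        · rw [HexObs.TIP.ind_neg fun h2 : t.1 ∈ Bk m a W' => hc ⟨h1, h2⟩, mul_zero]
        · rw [HexObs.TIP.ind_neg h1, zero_mul]
      · rintro ⟨hmn, h1, h2⟩
        rw [e3] at h1
        rw [e2] at h2
        exact hc ⟨⟨hmn, h1⟩, ⟨hmn, h2⟩⟩

/-- the data of one scale -/
structure Sc1 (P : Measure (ℕ → Fin 3)) (ε : ℝ) (K b m : ℕ) : Prop where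
  hb : b + 2 ≤ K
  ex : ∀ y : Pt, (2 : ℤ) ^ K ≤ hn y → hn y ≤ 2 ^ (K + 3) →
    SS y (fun t => 1 - qu b m t) ≤ ε * (HexObs.PWN.gK K + SS y (fun _ => 1))
  fr : ∀ y : Pt, (2 : ℤ) ^ K ≤ hn y → hn y ≤ 2 ^ (K + 3) →
    ∀ (V : Set (Fin m → Fin 3)) (a : Fin 3) (r : ℕ) (Φ : List Bool → ℝ), 2 * r ≤ 2 ^ K → (∀ t, |Φ t| ≤ 1) → Sta r Φ →
      |SS y (fun t => Φ t * HexObs.TIP.ind (t ∈ Bk m a V)) - P.real (VI V) * SS y Φ| ≤
        ε * (HexObs.PWN.gK K + SS y (fun _ => 1))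

lemma hn_frame {x : ℂ} {K : ℕ} (h1 : (2 : ℝ) ^ K ≤ ‖x‖) (h2 : ‖x‖ < 2 ^ (K + 1)) {y : Pt} {a : Fin 3}
    (hy : om ^ (a : ℕ) * JJ y = x) : (2 : ℤ) ^ K ≤ hn y ∧ hn y ≤ 2 ^ (K + 3) := by
  have e : ‖JJ y‖ = ‖x‖ := by rw [← hy, norm_mul, norm_pow, NTSF.om_norm, one_pow, one_mul]
  have a1 := HexObs.PLC.JJ_le_hn' y
  have a2 := HexObs.MCP.hn_le_JJ' y
  rw [e] at a1 a2
  constructor
  · have : (2 : ℝ) ^ K ≤ ((hn y : ℤ) : ℝ) := h1.trans a1
    exact_mod_cast this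
  · have h3 : (2 : ℝ) ^ (K + 3) = 4 * 2 ^ (K + 1) := by
      rw [pow_add, pow_add]
      norm_num
      ring
    have : ((hn y : ℤ) : ℝ) ≤ 2 ^ (K + 3) := by
      have h4 : (0 : ℝ) < 2 ^ (K + 1) := by positivity
      linarith
    exact_mod_cast this

/-- the error of one scale -/
noncomputable def er1 (ε : ℝ) (K : ℕ) (x : ℂ) : ℝ := ε * (3 / 2 * HexObs.PWN.gK K + G zc x)

section one

variable {P : Measure (ℕ → Fin 3)} [IsProbabilityMeasure P] {ε : ℝ} {K b m : ℕ}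

lemma x_ne {x : ℂ} (h1 : (2 : ℝ) ^ K ≤ ‖x‖) : x ≠ 0 := by
  rintro rfl
  rw [norm_zero] at h1
  have : (0 : ℝ) < 2 ^ K := by positivity
  linarith

omit [IsProbabilityMeasure P] in
/-- the exit of the ball at the end, and the short walks -/
lemma ex_end (hS : Sc1 P ε K b m) {x : ℂ} (hx : x ∈ vertices) (h1 : (2 : ℝ) ^ K ≤ ‖x‖) (h2 : ‖x‖ < 2 ^ (K + 1)) :
    ends zc x m Set.univ (Xb' b m) ≤ er1 ε K x ∧ |G zc x - ends zc x m Set.univ Set.univ| ≤ er1 ε K x := by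
  obtain ⟨y, hy, hG, hE⟩ := x_sum hx (x_ne h1)
  have hf : ∀ a, (2 : ℤ) ^ K ≤ hn (y a) ∧ hn (y a) ≤ 2 ^ (K + 3) := fun a => hn_frame h1 h2 (hy a)
  have q0 := hS.ex (y 0) (hf 0).1 (hf 0).2
  have q1 := hS.ex (y 1) (hf 1).1 (hf 1).2
  have q2 := hS.ex (y 2) (hf 2).1 (hf 2).2
  have one : ∀ t : List Bool, |(fun _ : List Bool => (1 : ℝ)) t| ≤ 1 := fun _ => by norm_num
  rw [Fin.sum_univ_three] at hG
  constructor
  · rw [hE, Fin.sum_univ_three]
    have s : ∀ a, SS (y a) (fun t => HexObs.TIP.ind (t ∈ Fr m a Set.univ) * HexObs.TIP.ind (t ∈ Bk m a (Xb' b m))) ≤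
        SS (y a) (fun t => 1 - qu b m t) := fun a => by
      refine SS_mono (fun t => ind_mul_abs _ _) (qu_abs b m) fun t ht hen => ?_
      have hl := hn_pos_len (hf a).1 ht hen
      by_cases hB : t ∈ Bk m a (Xb' b m)
      · rw [exB a hl hB, sub_zero]
        exact (le_abs_self _).trans (ind_mul_abs _ _)
      · rw [HexObs.TIP.ind_neg hB, mul_zero, sub_nonneg]
        exact HexObs.TIP.ind_le_one _
    have s0 := s 0
    have s1 := s 1
    have s2 := s 2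
    unfold er1
    rw [hG]
    linarith
  · rw [hG, hE, Fin.sum_univ_three]
    have s : ∀ a, |SS (y a) (fun _ => 1) - SS (y a) (fun t => HexObs.TIP.ind (t ∈ Fr m a Set.univ) *
        HexObs.TIP.ind (t ∈ Bk m a Set.univ))| ≤ SS (y a) (fun t => 1 - qu b m t) := fun a => by
      refine SS_dist one (fun t => ind_mul_abs _ _) (qu_abs b m) fun t _ _ => ?_
      by_cases hm : m ≤ t.length
      · rw [HexObs.TIP.ind_pos ⟨hm, Set.mem_univ _⟩, HexObs.TIP.ind_pos ⟨hm, Set.mem_univ _⟩, mul_one, sub_self, abs_zero,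
          sub_nonneg]
        exact HexObs.TIP.ind_le_one _
      · have e : qu b m t = 0 := HexObs.TIP.ind_neg fun h => hm (by
          have h3 := h.1
          rwa [rvw_len] at h3)
        rw [e, sub_zero, HexObs.TIP.ind_neg fun h : t ∈ Fr m a Set.univ => hm h.1, zero_mul, sub_zero, abs_one]
    have s0 := s 0
    have s1 := s 1
    have s2 := s 2
    unfold er1
    rw [hG]
    rw [abs_le] at s0 s1 s2 ⊢
    constructor <;> linarith [s0.1, s0.2, s1.1, s1.2, s2.1, s2.2]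

/-- the start replaced by its functional -/
lemma st_dist {x : ℂ} {y : Fin 3 → Pt} (hG : ∀ (W W' : Set (Fin m → Fin 3)), ends zc x m W W' =
      1 / 2 * ∑ a : Fin 3, SS (y a) (fun t => HexObs.TIP.ind (t ∈ Fr m a W) * HexObs.TIP.ind (t ∈ Bk m a W')))
    (W W' : Set (Fin m → Fin 3)) : |ends zc x m W W' -
      1 / 2 * ∑ a : Fin 3, SS (y a) (fun t => fS b m a W t * HexObs.TIP.ind (t ∈ Bk m a W'))| ≤
        ends zc x m (Xb' b m) Set.univ := by
  have hf : ∀ (a : Fin 3) (t : List Bool), |fS b m a W t * HexObs.TIP.ind (t ∈ Bk m a W')| ≤ 1 := fun a t => by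
    rw [abs_mul]
    exact mul_le_one₀ (fS_abs b m a W t) (abs_nonneg _) (ind_abs _)
  have s : ∀ a, |SS (y a) (fun t => HexObs.TIP.ind (t ∈ Fr m a W) * HexObs.TIP.ind (t ∈ Bk m a W')) -
      SS (y a) (fun t => fS b m a W t * HexObs.TIP.ind (t ∈ Bk m a W'))| ≤
      SS (y a) (fun t => HexObs.TIP.ind (t ∈ Fr m a (Xb' b m)) * HexObs.TIP.ind (t ∈ Bk m a Set.univ)) := fun a => by
    refine SS_dist (fun t => ind_mul_abs _ _) (hf a) (fun t => ind_mul_abs _ _) fun t _ _ => ?_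
    rw [← sub_mul, abs_mul, abs_of_nonneg (HexObs.TIP.ind_nonneg (t ∈ Bk m a W'))]
    have h1 := fS_dist b m a W t
    by_cases hB : t ∈ Bk m a W'
    · have hU : t ∈ Bk m a Set.univ := ⟨hB.1, Set.mem_univ _⟩
      rw [HexObs.TIP.ind_pos hB, HexObs.TIP.ind_pos hU, mul_one, mul_one]
      exact h1
    · rw [HexObs.TIP.ind_neg hB, mul_zero]
      exact mul_nonneg (HexObs.TIP.ind_nonneg _) (HexObs.TIP.ind_nonneg _)
  rw [hG, hG, Fin.sum_univ_three, Fin.sum_univ_three, Fin.sum_univ_three]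
  have s0 := s 0
  have s1 := s 1
  have s2 := s 2
  rw [abs_le] at s0 s1 s2 ⊢
  constructor <;> linarith [s0.1, s0.2, s1.1, s1.2, s2.1, s2.2]

/-- **the end is asymptotically independent of the start** -/
theorem ends_st (hS : Sc1 P ε K b m) {x : ℂ} (hx : x ∈ vertices) (h1 : (2 : ℝ) ^ K ≤ ‖x‖) (h2 : ‖x‖ < 2 ^ (K + 1))
    (W W' : Set (Fin m → Fin 3)) :
    |ends zc x m W W' - P.real (VI W') * ends zc x m W Set.univ| ≤ 3 * er1 ε K x := by
  obtain ⟨x', hx', hn', hGx, hrev⟩ := E1D.ends_rev hx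
  have hX : ends zc x m (Xb' b m) Set.univ ≤ er1 ε K x := by
    rw [hrev]
    have h := (ex_end hS hx' (by rw [hn']; exact h1) (by rw [hn']; exact h2)).1
    unfold er1 at h ⊢
    rwa [hGx] at h
  obtain ⟨y, hy, hG, hE⟩ := x_sum hx (x_ne h1)
  have hf : ∀ a, (2 : ℤ) ^ K ≤ hn (y a) ∧ hn (y a) ≤ 2 ^ (K + 3) := fun a => hn_frame h1 h2 (hy a)
  have hr : 2 * 2 ^ (b + 1) ≤ 2 ^ K := by
    calc 2 * 2 ^ (b + 1) = 2 ^ (b + 2) := by ring
      _ ≤ 2 ^ K := Nat.pow_le_pow_right (by norm_num) hS.hb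
  have f : ∀ a, |SS (y a) (fun t => fS b m a W t * HexObs.TIP.ind (t ∈ Bk m a W')) - P.real (VI W') * SS (y a) (fS b m a W)| ≤
      ε * (HexObs.PWN.gK K + SS (y a) (fun _ => 1)) := fun a =>
    hS.fr (y a) (hf a).1 (hf a).2 W' a (2 ^ (b + 1)) _ hr (fS_abs b m a W) (sta_staM _ _ _)
  have d1 := st_dist (b := b) (fun W W' => hE m W W') W W'
  have d2 := st_dist (b := b) (fun W W' => hE m W W') W Set.univ
  have e : ∀ a, SS (y a) (fun t => fS b m a W t * HexObs.TIP.ind (t ∈ Bk m a Set.univ)) = SS (y a) (fS b m a W) := fun a =>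
    SS_congr fun t _ _ => fS_univ b m a W t
  rw [Fin.sum_univ_three] at hG d1 d2
  rw [e, e, e] at d2
  have f0 := f 0
  have f1 := f 1
  have f2 := f 2
  have hp0 : 0 ≤ P.real (VI W') := measureReal_nonneg
  have hp1 : P.real (VI W') ≤ 1 := measureReal_le_one
  have d3 : |P.real (VI W') * (ends zc x m W Set.univ - 1 / 2 * (SS (y 0) (fS b m 0 W) + SS (y 1) (fS b m 1 W) +
      SS (y 2) (fS b m 2 W)))| ≤ er1 ε K x := by
    rw [abs_mul, abs_of_nonneg hp0]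
    exact (mul_le_of_le_one_left (abs_nonneg _) hp1).trans (d2.trans hX)
  have d1' := d1.trans hX
  unfold er1 at *
  rw [hG] at *
  rw [mul_sub] at d3
  rw [abs_le] at d1' d3 f0 f1 f2 ⊢
  constructor <;> nlinarith [d1'.1, d1'.2, d3.1, d3.2, f0.1, f0.2, f1.1, f1.2, f2.1, f2.2]

/-- **(E) on one scale** -/
theorem ends_both (hS : Sc1 P ε K b m) {x : ℂ} (hx : x ∈ vertices) (h1 : (2 : ℝ) ^ K ≤ ‖x‖) (h2 : ‖x‖ < 2 ^ (K + 1))
    (W W' : Set (Fin m → Fin 3)) :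
    |ends zc x m W W' - P.real (VI W) * P.real (VI W') * G zc x| ≤ 7 * er1 ε K x := by
  obtain ⟨x', hx', hn', hGx, hrev⟩ := E1D.ends_rev hx
  have h1' : (2 : ℝ) ^ K ≤ ‖x'‖ := by rw [hn']; exact h1
  have h2' : ‖x'‖ < 2 ^ (K + 1) := by rw [hn']; exact h2
  have a1 := ends_st hS hx h1 h2 W W'
  have a2 := ends_st hS hx' h1' h2' Set.univ W
  have a3 := (ex_end hS hx' h1' h2').2
  have e : er1 ε K x' = er1 ε K x := by
    unfold er1
    rw [hGx]
  rw [e] at a2 a3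
  rw [hGx] at a3
  rw [hrev zc m W Set.univ] at a1
  have p0 : 0 ≤ P.real (VI W) := measureReal_nonneg
  have p1 : P.real (VI W) ≤ 1 := measureReal_le_one
  have q0 : 0 ≤ P.real (VI W') := measureReal_nonneg
  have q1 : P.real (VI W') ≤ 1 := measureReal_le_one
  have b2 : |P.real (VI W') * (ends zc x' m Set.univ W - P.real (VI W) * ends zc x' m Set.univ Set.univ)| ≤
      3 * er1 ε K x := by
    rw [abs_mul, abs_of_nonneg q0]
    exact (mul_le_of_le_one_left (abs_nonneg _) q1).trans a2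
  have b3 : |P.real (VI W') * P.real (VI W) * (G zc x - ends zc x' m Set.univ Set.univ)| ≤ er1 ε K x := by
    rw [abs_mul, abs_of_nonneg (mul_nonneg q0 p0)]
    exact (mul_le_of_le_one_left (abs_nonneg _) (mul_le_one₀ q1 p0 p1)).trans a3
  have e2 : ends zc x m W W' - P.real (VI W) * P.real (VI W') * G zc x =
      (ends zc x m W W' - P.real (VI W') * ends zc x' m Set.univ W) +
      P.real (VI W') * (ends zc x' m Set.univ W - P.real (VI W) * ends zc x' m Set.univ Set.univ) -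
      P.real (VI W') * P.real (VI W) * (G zc x - ends zc x' m Set.univ Set.univ) := by ring
  rw [e2]
  rw [abs_le] at a1 b2 b3 ⊢
  constructor <;> linarith [a1.1, a1.2, b2.1, b2.2, b3.1, b3.2]

end one

/-- the scale of the unit of mass -/
lemma gK_le : ∃ A : ℝ, 0 < A ∧ ∀ (K : ℕ) (x : ℂ), x ∈ vertices → (2 : ℝ) ^ K ≤ ‖x‖ → ‖x‖ < 2 ^ (K + 1) →
    HexObs.PWN.gK K ≤ A * G zc x := by
  obtain ⟨Cu, hCu, hup⟩ := HexObs.PW.BL.gK_up HexObs.TPC.xUp
  obtain ⟨c, hc, hG⟩ := tpb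
  refine ⟨Cu * 2 / c, by positivity, fun K x hx h1 h2 => ?_⟩
  have hg1 : HexObs.PWN.gK K ≤ Cu * 2 ^ (-(5 / 24) * (K : ℝ)) := by
    have g2 := hup K
    have g3 : HexObs.PWN.gK K = (HexObs.PW.BL.gK K).toReal := by
      unfold HexObs.PWN.gK HexObs.PW.BL.gK
      rw [ENNReal.toReal_mul, ENNReal.toReal_pow, ENNReal.toReal_ofReal]
      have := HexObs.SDN.DL.Ub_pos K
      positivity
    rw [g3]
    exact ENNReal.toReal_le_of_le_ofReal (by positivity) g2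
  have hx0 : x ≠ 0 := x_ne h1
  have hG1 := (hG x hx hx0).1
  have hN : 0 < ‖x‖ := norm_pos_iff.2 hx0
  have g4 : (2 : ℝ) ^ (-(5 / 24) * (K : ℝ)) ≤ 2 * ‖x‖ ^ (-(5 / 24) : ℝ) := by
    have e5 : ((2 : ℝ) ^ K) ^ (-(5 / 24) : ℝ) = 2 ^ (-(5 / 24) * (K : ℝ)) := by
      rw [← Real.rpow_natCast 2 K, ← Real.rpow_mul (by norm_num)]
      congr 1
      ring
    rw [← e5]
    have e3 : ‖x‖ ≤ 2 * 2 ^ K := by
      rw [pow_succ] at h2
      linarith
    have e6 : (2 * (2 : ℝ) ^ K) ^ (-(5 / 24) : ℝ) ≤ ‖x‖ ^ (-(5 / 24) : ℝ) :=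
      Real.rpow_le_rpow_of_nonpos hN e3 (by norm_num)
    rw [Real.mul_rpow (by norm_num) (by positivity)] at e6
    have e7 : (1 / 2 : ℝ) ≤ 2 ^ (-(5 / 24) : ℝ) := by
      calc (1 / 2 : ℝ) = 2 ^ (-1 : ℝ) := by rw [Real.rpow_neg_one]; norm_num
        _ ≤ _ := Real.rpow_le_rpow_of_exponent_le (by norm_num) (by norm_num)
    have e8 : (0 : ℝ) ≤ ((2 : ℝ) ^ K) ^ (-(5 / 24) : ℝ) := by positivity
    nlinarith
  rw [div_mul_eq_mul_div, le_div_iff₀ hc]
  have h3 : c * (2 : ℝ) ^ (-(5 / 24) * (K : ℝ)) ≤ 2 * G zc x := by nlinarith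
  calc HexObs.PWN.gK K * c ≤ Cu * 2 ^ (-(5 / 24) * (K : ℝ)) * c := mul_le_mul_of_nonneg_right hg1 hc.le
    _ = Cu * (c * 2 ^ (-(5 / 24) * (K : ℝ))) := by ring
    _ ≤ Cu * (2 * G zc x) := mul_le_mul_of_nonneg_left h3 hCu.le
    _ = Cu * 2 * G zc x := by ring

/-- **(E): the two ends of the critical walks from 0 to x are asymptotically independent, with the law of the infinite walk** -/
theorem eP {P : Measure (ℕ → Fin 3)} [IsProbabilityMeasure P] (hP : BP P) : EP P := by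
  intro ε hε
  obtain ⟨A, hA, hgA⟩ := gK_le
  obtain ⟨c0, hc0, hlo⟩ := HexObs.SIM.mlowZ
  obtain ⟨c, k1, δ1, hc, hδ1, hF⟩ := frame2 hP (ε := ε / (7 * (3 / 2 * A + 1))) (by positivity)
  obtain ⟨k2, hk2⟩ := sc_exists
  refine ⟨min (1 / 2 ^ (max k1 k2)) (δ1 * c0 / 4), lt_min (by positivity) (by positivity), fun x hx m hR hm W W' => ?_⟩
  have hR1 : (2 : ℝ) ^ (max k1 k2) ≤ ‖x‖ := by
    refine le_trans ?_ hR
    rw [le_div_iff₀ (lt_min (by positivity) (by positivity))]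
    calc (2 : ℝ) ^ (max k1 k2) * min (1 / 2 ^ (max k1 k2)) (δ1 * c0 / 4) ≤ 2 ^ (max k1 k2) * (1 / 2 ^ (max k1 k2)) :=
          mul_le_mul_of_nonneg_left (min_le_left _ _) (by positivity)
      _ = 1 := by field_simp
  have h1x : 1 ≤ ‖x‖ := (one_le_pow₀ (by norm_num)).trans hR1
  obtain ⟨K, h1, h2⟩ := exists_nat_pow_near h1x (by norm_num : (1 : ℝ) < 2)
  have hK : max k1 k2 ≤ K := by
    by_contra h
    push Not at h
    have h3 : (2 : ℝ) ^ (K + 1) ≤ 2 ^ (max k1 k2) := pow_le_pow_right₀ (by norm_num) h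
    linarith
  obtain ⟨n, hn⟩ := hk2 K ((le_max_right _ _).trans hK)
  have hmn : (m : ℝ) ≤ δ1 * n := by
    have g1 : c0 * (2 : ℝ) ^ (4 / 3 * (K : ℝ)) ≤ n := (hlo K).trans hn.1
    have g2 : ‖x‖ ^ (4 / 3 : ℝ) ≤ 4 * (2 : ℝ) ^ (4 / 3 * (K : ℝ)) := by
      have e1 : ((2 : ℝ) ^ (K + 1)) ^ (4 / 3 : ℝ) = 2 ^ (4 / 3 : ℝ) * 2 ^ (4 / 3 * (K : ℝ)) := by
        rw [← Real.rpow_natCast 2 (K + 1), ← Real.rpow_mul (by norm_num), ← Real.rpow_add (by norm_num)]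
        congr 1
        push_cast
        ring
      have e2 : ‖x‖ ^ (4 / 3 : ℝ) ≤ ((2 : ℝ) ^ (K + 1)) ^ (4 / 3 : ℝ) :=
        Real.rpow_le_rpow (norm_nonneg _) h2.le (by norm_num)
      have e3 : (2 : ℝ) ^ (4 / 3 : ℝ) ≤ 4 := by
        calc (2 : ℝ) ^ (4 / 3 : ℝ) ≤ 2 ^ (2 : ℝ) := Real.rpow_le_rpow_of_exponent_le (by norm_num) (by norm_num)
          _ = 4 := by norm_num
      rw [e1] at e2
      refine e2.trans (mul_le_mul_of_nonneg_right e3 (by positivity))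
    have g3 : (m : ℝ) ≤ δ1 * c0 / 4 * ‖x‖ ^ (4 / 3 : ℝ) :=
      hm.trans (mul_le_mul_of_nonneg_right (min_le_right _ _) (by positivity))
    calc (m : ℝ) ≤ δ1 * c0 / 4 * ‖x‖ ^ (4 / 3 : ℝ) := g3
      _ ≤ δ1 * c0 / 4 * (4 * (2 : ℝ) ^ (4 / 3 * (K : ℝ))) := mul_le_mul_of_nonneg_left g2 (by positivity)
      _ = δ1 * (c0 * (2 : ℝ) ^ (4 / 3 * (K : ℝ))) := by ring
      _ ≤ δ1 * n := mul_le_mul_of_nonneg_left g1 hδ1.le
  obtain ⟨hcK, hF⟩ := hF K n m ((le_max_left _ _).trans hK) hn hmn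
  have hS : Sc1 P (ε / (7 * (3 / 2 * A + 1))) K (K - c) m :=
    ⟨by omega, fun y hy1 hy2 => (hF y hy1 hy2).1, fun y hy1 hy2 => (hF y hy1 hy2).2⟩
  refine (ends_both hS hx h1 h2 W W').trans ?_
  have hg := hgA K x hx h1 h2
  have hA' : 0 < 7 * (3 / 2 * A + 1) := by positivity
  unfold er1
  calc 7 * (ε / (7 * (3 / 2 * A + 1)) * (3 / 2 * HexObs.PWN.gK K + G zc x)) ≤
        7 * (ε / (7 * (3 / 2 * A + 1)) * (3 / 2 * (A * G zc x) + G zc x)) := by gcongr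
    _ = ε * G zc x := by
        field_simp

end Pool.Agent.PLC
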