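import Pool.Agent.PLC.Lab

/-!
PLC, row E1b (helper11): the plane means of the events of the tip are given by the law of the infinite walk.
-/

set_option autoImplicit false

open MeasureTheory Filter Topology
open scoped Classical

namespace HexObs

namespace PLC

open TS SDN TIW SLW PWN MCP

open Pool.Agent.IW (rvw ext ext_lt Loc law law_prob law_lim sw_take)

open Pool.Agent.IW.MC (StQ stE_StQ Wr Wr_loc Ex Pn_near law_three mw mw_ind mw_one mw_le)

open Pool.Agent.IW.Res (begins)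

/-- the first label is 0 -/
def Z0 (W : Set (ℕ → Fin 3)) : Set (ℕ → Fin 3) := W ∩ {w | w 0 = 0}

lemma Z0_loc {m : ℕ} {W : Set (ℕ → Fin 3)} (h : Loc m W) : Loc (max m 1) (Z0 W) := by
  rintro w w' e ⟨h1, h2⟩
  refine ⟨h _ _ (fun i hi => e i (lt_of_lt_of_le hi (le_max_left _ _))) h1, ?_⟩
  have h3 := e 0 (lt_of_lt_of_le one_pos (le_max_right _ _))
  show w' 0 = 0
  rw [← h3]
  exact h2

lemma sw_zero {n : ℕ} (hn : 0 < n) (t : List Bool) : ext (NTF.sw n t) 0 = 0 := by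
  rw [ext_lt _ hn]
  exact aa_up

/-- an event of the words = the event with the first label 0 -/
lemma law_zero {n m : ℕ} (hn : 0 < n) (hm : m ≤ n) {W : Set (ℕ → Fin 3)} (hW : Loc m W) :
    3 * (law n).real (Z0 W) = TOG.Pn n {t | ext (NTF.sw n t) ∈ W} := by
  have h1 := law_three hn (max_le hm hn) (Z0_loc hW)
  have e0 : {t : List Bool | ext (NTF.sw n t) ∈ Wr 0 (Z0 W)} = {t | ext (NTF.sw n t) ∈ W} := by
    ext t
    rw [Pool.Agent.IW.MC.Wr_zero]
    exact ⟨fun h => h.1, fun h => ⟨h, sw_zero hn t⟩⟩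
  have e1 : ∀ a : Fin 3, a ≠ 0 → {t : List Bool | ext (NTF.sw n t) ∈ Wr a (Z0 W)} = ∅ := by
    intro a ha
    ext t
    refine ⟨fun h => ha ?_, fun h => h.elim⟩
    have h2 : ext (NTF.sw n t) 0 + a = 0 := h.2
    rwa [sw_zero hn t, zero_add] at h2
  have e2 : TOG.Pn n (∅ : Set (List Bool)) = 0 := by
    unfold TOG.Pn
    simp
  rw [e0, e1 1 (by decide), e1 2 (by decide), e2, add_zero, add_zero] at h1
  rw [h1]
  ring

/-- **the plane mean of an event of the tip** -/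
theorem eA_lim {P : Measure (ℕ → Fin 3)} [IsProbabilityMeasure P]
    (hP : ∀ (η : ℕ → Fin 3) (m : ℕ), Tendsto (fun n => begins n m η) atTop (𝓝 (P.real {w | ∀ i, i < m → w i = η i})))
    {ε : ℝ} (hε : 0 < ε) : ∃ C : ℕ, ∀ c : ℕ, C ≤ c → ∃ (k0 : ℕ) (δ : ℝ), 0 < δ ∧ ∀ K n m : ℕ, k0 ≤ K → TIP.Sc K n →
      (m : ℝ) ≤ δ * n → m ≤ n ∧ c ≤ K ∧ (∀ W : Set (ℕ → Fin 3), Loc m W → ∀ x : Bool,
        |EA (tent 0) n (qf x (StQ (K - c) m W)) - 3 / 2 * P.real (Z0 W)| ≤ ε) := by
  obtain ⟨C1, k1, hval⟩ := eA_val (ε := ε / 4) (by positivity)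
  obtain ⟨C2, k2, hmix⟩ := mixN (ε / 4) (by positivity)
  refine ⟨max C1 C2, fun c hc => ?_⟩
  obtain ⟨δ, k3, hδ, hex⟩ := exitN' (ε / 4) c (by positivity)
  obtain ⟨k4, hk4⟩ := big_n 1
  refine ⟨max (max k1 k2) (max k3 (max k4 c)), min δ 1, lt_min hδ one_pos, fun K n m hK hN hm => ?_⟩
  have hk1 : k1 ≤ K := ((le_max_left _ _).trans (le_max_left _ _)).trans hK
  have hk2 : k2 ≤ K := ((le_max_right _ _).trans (le_max_left _ _)).trans hK
  have hk3 : k3 ≤ K := ((le_max_left _ _).trans (le_max_right _ _)).trans hK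
  have hk5 : k4 ≤ K := ((le_max_left _ _).trans ((le_max_right _ _).trans (le_max_right _ _))).trans hK
  have hcK : c ≤ K := ((le_max_right _ _).trans ((le_max_right _ _).trans (le_max_right _ _))).trans hK
  have hn1 : 1 ≤ n := hk4 K n hk5 hN
  have hn0 : (0 : ℝ) ≤ n := Nat.cast_nonneg _
  have hmn : m ≤ n := by
    have : (m : ℝ) ≤ n := hm.trans ((mul_le_mul_of_nonneg_right (min_le_right _ _) hn0).trans (by rw [one_mul]))
    exact_mod_cast this
  have hC1 : C1 ≤ c := (le_max_left _ _).trans hc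
  have hC2 : C2 ≤ c := (le_max_right _ _).trans hc
  refine ⟨hmn, hcK, fun W hW x => ?_⟩
  have hE : TOG.Pn n (Pool.Agent.IW.MC.Ex (K - c) m) ≤ ε / 4 := hex K n m hk3 hN (hm.trans (mul_le_mul_of_nonneg_right (min_le_left _ _) hn0))
  have h1 := hval (K - c) K n hk1 (by omega) hN _ (stE_StQ (K - c) m W) (lf_StQ (K - c) m W) x
  have hU : Loc m (Set.univ : Set (ℕ → Fin 3)) := fun _ _ _ _ => Set.mem_univ _
  -- the same for all large n'
  have key : ∀ n' : ℕ, n ≤ n' → |TOG.Pn n (StQ (K - c) m W) - 3 * (law n').real (Z0 W)| ≤ 3 * (ε / 4) := by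
    intro n' hnn
    obtain ⟨K', hKK, hN'⟩ := sc_up hN hnn
    have g0 := fun (V : Set (ℕ → Fin 3)) => hmix (K - c) K K' n n' hk2 (hk2.trans hKK) (by omega) (by omega) hN hN' _
      (stE_StQ (K - c) m V)
    have g1 : TOG.Pn n' (Pool.Agent.IW.MC.Ex (K - c) m) ≤ 2 * (ε / 4) := by
      have g3 := Pn_near (b := K - c) hn1 hmn hU
      have g4 : TOG.Pn n {t | ext (NTF.sw n t) ∈ (Set.univ : Set (ℕ → Fin 3))} = 1 := by
        rw [← mw_ind]
        exact (Pool.Agent.IW.MC.mw_congr fun t _ => if_pos (Set.mem_univ (ext (NTF.sw n t)))).trans (mw_one hn1)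
      rw [g4] at g3
      have g5 : TOG.Pn n' (Pool.Agent.IW.MC.Ex (K - c) m) + TOG.Pn n' (StQ (K - c) m Set.univ) ≤ 1 := by
        refine le_of_le_of_eq ?_ (mw_one (n := n') (by omega))
        rw [← mw_ind, ← mw_ind]
        unfold mw
        rw [← add_div, ← Finset.sum_add_distrib]
        refine div_le_div_of_nonneg_right (Finset.sum_le_sum fun t _ => ?_) (Nat.cast_nonneg _)
        by_cases hE : t ∈ Pool.Agent.IW.MC.Ex (K - c) m
        · have hE' : t ∉ StQ (K - c) m Set.univ := by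
            obtain ⟨i, i1, i2⟩ := hE
            rintro ⟨-, h5, -⟩
            exact absurd (h5 i i1) (not_lt.2 i2)
          rw [if_pos hE, if_neg hE', add_zero]
        · rw [if_neg hE, zero_add]
          split_ifs <;> norm_num
      have g6 := (abs_le.1 (g0 Set.univ)).2
      have g7 := (abs_le.1 g3).1
      linarith
    have g2 := Pn_near (b := K - c) (n := n') (by omega) (hmn.trans hnn) hW
    rw [law_zero (by omega) (hmn.trans hnn) hW]
    have g3 := g0 W
    have e1 : TOG.Pn n (StQ (K - c) m W) - TOG.Pn n' {t | ext (NTF.sw n' t) ∈ W} =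
        (TOG.Pn n (StQ (K - c) m W) - TOG.Pn n' (StQ (K - c) m W)) +
          (TOG.Pn n' (StQ (K - c) m W) - TOG.Pn n' {t | ext (NTF.sw n' t) ∈ W}) := by ring
    rw [e1]
    refine (abs_add_le _ _).trans ?_
    linarith
  have hlim : Tendsto (fun n' => |TOG.Pn n (StQ (K - c) m W) - 3 * (law n').real (Z0 W)|) atTop
      (𝓝 |TOG.Pn n (StQ (K - c) m W) - 3 * P.real (Z0 W)|) :=
    (((law_lim hP (Z0_loc hW)).const_mul 3).const_sub _).abs
  have h2 : |TOG.Pn n (StQ (K - c) m W) - 3 * P.real (Z0 W)| ≤ 3 * (ε / 4) := by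
    refine le_of_tendsto hlim ?_
    filter_upwards [eventually_ge_atTop n] with n' hn' using key n' hn'
  have g1 := abs_le.1 h1
  have g2 := abs_le.1 h2
  rw [abs_le]
  constructor <;> linarith [g1.1, g1.2, g2.1, g2.2]

end PLC

end HexObs
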