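import Pool.Agent.MC.Rev
import Pool.Agent.PW.TipNF

/-!
PLC, row E1b (helper11): the mean over the plane ensemble of an event of the start seen from the tip (reversed word, given last
letter) is half the probability of the event for the walk with n steps.
-/

set_option autoImplicit false

namespace HexObs

namespace PLC

open Finset TS SDN TIW SLW PWN MCP

open Pool.Agent.IW (rvw rvw_app rvw_mem rvw_rvw split_last DS saw_DS)

/-- events that do not see the last letter -/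
def LF (Q : Set (List Bool)) : Prop := ∀ (s : List Bool) (c c' : Bool), s ++ [c] ∈ Q → s ++ [c'] ∈ Q

/-- the other last letter -/
def swp (t : List Bool) : List Bool := t.dropLast ++ (t.getLast?.map not).toList

lemma swp_app (s : List Bool) (c : Bool) : swp (s ++ [c]) = s ++ [!c] := by
  unfold swp
  rw [List.dropLast_concat, List.getLast?_concat]
  rfl

lemma swp_mem {n : ℕ} (hn : 0 < n) {t : List Bool} (ht : t ∈ SawN n) : swp t ∈ SawN n := by
  obtain ⟨s, c, rfl, hs⟩ := split_last hn ht.1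
  rw [← hs] at ht ⊢
  rw [swp_app]
  exact saw_DS.2 (saw_DS.1 ht)

lemma swp_swp {n : ℕ} (hn : 0 < n) {t : List Bool} (ht : t.length = n) : swp (swp t) = t := by
  obtain ⟨s, c, rfl, -⟩ := split_last hn ht
  rw [swp_app, swp_app, Bool.not_not]

/-- the change of the last letter keeps the sums -/
lemma sum_swp {n : ℕ} (hn : 0 < n) (F : List Bool → ℝ) : ∑ t ∈ sawF n, F (swp t) = ∑ t ∈ sawF n, F t := by
  refine sum_nbij' swp swp ?_ ?_ ?_ ?_ ?_
  · intro t ht
    exact mem_sawF.2 (swp_mem hn (mem_sawF.1 ht))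
  · intro t ht
    exact mem_sawF.2 (swp_mem hn (mem_sawF.1 ht))
  · intro t ht
    exact swp_swp hn (mem_sawF.1 ht).1
  · intro t ht
    exact swp_swp hn (mem_sawF.1 ht).1
  · intro t _
    rfl

/-- the last letter is c -/
noncomputable def lst (c : Bool) (t : List Bool) : ℝ := TIP.ind (t.getLast? = some c)

lemma lst_app (c x : Bool) (s : List Bool) : lst c (s ++ [x]) = TIP.ind (x = c) := by
  unfold lst
  rw [List.getLast?_concat]
  exact TIP.ind_congr ⟨fun h => Option.some.inj h, fun h => by rw [h]⟩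

lemma lst_swp {c : Bool} {t : List Bool} (ht : 0 < t.length) : lst c (swp t) = lst (!c) t := by
  obtain ⟨s, x, rfl, -⟩ := split_last ht rfl
  rw [swp_app, lst_app, lst_app]
  refine TIP.ind_congr ?_
  cases x <;> cases c <;> decide

lemma lst_add {t : List Bool} (ht : 0 < t.length) (c : Bool) : lst c t + lst (!c) t = 1 := by
  obtain ⟨s, x, rfl, -⟩ := split_last ht rfl
  rw [lst_app, lst_app]
  cases x <;> cases c <;> simp [TIP.ind]

lemma lst_rvw {c : Bool} {t : List Bool} : lst c (rvw t) = lst c t := by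
  rcases t.eq_nil_or_concat' with rfl | ⟨s, x, rfl⟩
  · rfl
  · rw [rvw_app, lst_app, lst_app]

/-- half of the sum has the last letter c -/
lemma sum_half {n : ℕ} (hn : 0 < n) (c : Bool) {F : List Bool → ℝ} (hF : ∀ t ∈ sawF n, F (swp t) = F t) :
    ∑ t ∈ sawF n, F t * lst c t = 1 / 2 * ∑ t ∈ sawF n, F t := by
  have h1 : ∑ t ∈ sawF n, F t * lst (!c) t = ∑ t ∈ sawF n, F t * lst c t := by
    rw [← sum_swp hn (fun t => F t * lst c t)]
    refine sum_congr rfl fun t ht => ?_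
    have hl : 0 < t.length := by rw [(mem_sawF.1 ht).1]; exact hn
    show F t * lst (!c) t = F (swp t) * lst c (swp t)
    rw [hF t ht, lst_swp hl]
  have h2 : ∑ t ∈ sawF n, F t * lst c t + ∑ t ∈ sawF n, F t * lst (!c) t = ∑ t ∈ sawF n, F t := by
    rw [← sum_add_distrib]
    refine sum_congr rfl fun t ht => ?_
    have hl : 0 < t.length := by rw [(mem_sawF.1 ht).1]; exact hn
    rw [← mul_add, lst_add hl, mul_one]
  rw [h1] at h2
  linarith

lemma en_swp {t : List Bool} : en (swp t) = en t := by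
  rcases t.eq_nil_or_concat' with rfl | ⟨s, x, rfl⟩
  · rfl
  · rw [swp_app, en_snoc, en_snoc]

lemma ind_swp {Q : Set (List Bool)} (hQ : LF Q) {t : List Bool} : TIP.ind (swp t ∈ Q) = TIP.ind (t ∈ Q) := by
  rcases t.eq_nil_or_concat' with rfl | ⟨s, x, rfl⟩
  · rfl
  · rw [swp_app]
    exact TIP.ind_congr ⟨hQ _ _ _, hQ _ _ _⟩

/-- the event of the start seen from the tip, with the last letter -/
noncomputable def qf (c : Bool) (Q : Set (List Bool)) (t : List Bool) : ℝ := lst c t * TIP.ind (rvw t ∈ Q)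

lemma qf_nonneg (c : Bool) (Q : Set (List Bool)) (t : List Bool) : 0 ≤ qf c Q t :=
  mul_nonneg (TIP.ind_nonneg _) (TIP.ind_nonneg _)

lemma qf_le (c : Bool) (Q : Set (List Bool)) (t : List Bool) : qf c Q t ≤ 1 :=
  mul_le_one₀ (TIP.ind_le_one _) (TIP.ind_nonneg _) (TIP.ind_le_one _)

lemma qf_abs (c : Bool) (Q : Set (List Bool)) (t : List Bool) : |qf c Q t| ≤ 1 := by
  rw [abs_of_nonneg (qf_nonneg c Q t)]
  exact qf_le c Q t

lemma inn_qf {b : ℕ} {Q : Set (List Bool)} (hQ : StE b Q) (c : Bool) : Inn (b + 2) (qf c Q) := by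
  intro A E hA hE
  have h1 := inn_rvw hQ A E hA hE
  show lst c (A ++ E) * TIP.ind (rvw (A ++ E) ∈ Q) = lst c E * TIP.ind (rvw E ∈ Q)
  have h2 : TIP.ind (rvw (A ++ E) ∈ Q) = TIP.ind (rvw E ∈ Q) := h1
  rw [h2]
  congr 1
  rcases E.eq_nil_or_concat' with rfl | ⟨s, x, rfl⟩
  · exfalso
    have e0 : hn (en []) = 0 := by decide
    rw [e0] at hE
    have : (0 : ℤ) < 2 ^ (b + 2) := by positivity
    linarith
  · rw [← List.append_assoc, lst_app, lst_app]

lemma inn_mono {b b' : ℕ} (h : b ≤ b') {q : List Bool → ℝ} (hq : Inn b q) : Inn b' q := fun A E hA hE =>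
  hq A E hA ((pow_le_pow_right₀ (by norm_num) h).trans hE)

/-- **the plane mean of an event of the start seen from the tip** -/
theorem eA_val {ε : ℝ} (hε : 0 < ε) : ∃ C k0 : ℕ, ∀ b K n : ℕ, k0 ≤ K → b + C ≤ K → TIP.Sc K n → ∀ Q : Set (List Bool),
    StE b Q → LF Q → ∀ c : Bool, |EA (tent 0) n (qf c Q) - 1 / 2 * TOG.Pn n Q| ≤ ε := by
  obtain ⟨e, he⟩ : ∃ e : ℝ, e = ε / 4 := ⟨_, rfl⟩
  have he0 : 0 < e := by rw [he]; positivity
  obtain ⟨τ, hτ, hT⟩ := tipN0 e he0
  obtain ⟨c3, k3, h3⟩ := tip_far he0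
  obtain ⟨j, hj⟩ := pow_unbounded_of_one_lt (2 / τ) (one_lt_two : (1 : ℝ) < 2)
  obtain ⟨C1, hT⟩ := hT (c3 + 2 + j)
  obtain ⟨k1, hT⟩ := hT (max C1 (c3 + 2 + j)) (max C1 (c3 + 2 + j) + C1) (le_max_left _ _) le_rfl
  obtain ⟨k2, hMA⟩ := MA_pos aReg (tent_bump 0) (tent_one 0)
  refine ⟨max C1 (c3 + 2 + j) + C1 + 2 + (c3 + 2), max (max k1 k2) (max k3 (c3 + 2 + j)), fun b K n hK hb hN Q hQ hLF c => ?_⟩
  have hk1 : k1 ≤ K := ((le_max_left _ _).trans (le_max_left _ _)).trans hK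
  have hk2 : k2 ≤ K := ((le_max_right _ _).trans (le_max_left _ _)).trans hK
  have hk3 : k3 ≤ K := ((le_max_left _ _).trans (le_max_right _ _)).trans hK
  have hkj : c3 + 2 + j ≤ K := ((le_max_right _ _).trans (le_max_right _ _)).trans hK
  obtain ⟨R, hR⟩ : ∃ R : ℝ, R = 2 ^ (K - (c3 + 1)) := ⟨_, rfl⟩
  have hR0 : 0 < R := by rw [hR]; positivity
  have hR2 : 2 * R = 2 ^ (K - c3) := by
    rw [hR, ← pow_succ']
    congr 1
    omega
  have hRr : (2 : ℝ) ^ (K - (c3 + 2 + j)) * 2 ^ (j + 1) = R := by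
    rw [hR, ← pow_add]
    congr 1
    omega
  have hj' : 2 ≤ τ * 2 ^ j := by
    rw [div_lt_iff₀ hτ] at hj
    linarith
  have hsm : (2 : ℝ) ^ (K - (c3 + 2 + j)) ≤ τ * R := by
    have h0 : (0 : ℝ) < 2 ^ (K - (c3 + 2 + j)) := by positivity
    rw [← hRr, pow_succ]
    nlinarith
  have hbR : (2 : ℝ) ^ b + ((2 ^ (K - (c3 + 2 + j)) : ℕ) : ℝ) ≤ R := by
    have h1 : (2 : ℝ) ^ b ≤ 2 ^ (K - (c3 + 2)) := pow_le_pow_right₀ (by norm_num) (by omega)
    have h2 : (2 : ℝ) ^ (K - (c3 + 2 + j)) ≤ 2 ^ (K - (c3 + 2)) := pow_le_pow_right₀ (by norm_num) (by omega)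
    have h3 : (2 : ℝ) ^ (K - (c3 + 2)) * 2 = R := by
      rw [hR, ← pow_succ]
      congr 1
      omega
    push_cast
    linarith
  have hpsi : ∀ A Y : List Bool, (hn (en Y) : ℝ) ≤ τ * R → |psi R (A ++ Y) - psi R A| ≤ τ := by
    intro A Y hY
    refine (psi_lip hR0 _ _).trans ?_
    rw [div_le_iff₀ hR0]
    have := hn_app A Y
    linarith
  have hY1 : ∀ (r : ℕ) (Y : List Bool), (∀ i, i ≤ Y.length → hn (vx oo up Y i) < ((2 ^ r : ℕ) : ℤ)) →
      (hn (en Y) : ℝ) ≤ 2 ^ r := by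
    intro r Y hY
    have h1 := hY Y.length le_rfl
    have h2 : hn (en Y) < 2 ^ r := by
      have : ((2 ^ r : ℕ) : ℤ) = 2 ^ r := by push_cast; ring
      rw [← this]
      exact h1
    have h3 : ((hn (en Y) : ℤ) : ℝ) < 2 ^ r := by exact_mod_cast h2
    exact h3.le
  have hp1 : ∀ t, |psi R t| ≤ 1 := fun t => by
    rw [abs_of_nonneg (psi_nonneg R t)]
    exact psi_le_one R t
  have key := hT K n K n hk1 le_rfl hN hN (qf c Q) (psi R) (fun _ => τ) (fun t => 1 / 2 * (TIP.ind (t ∈ Q) * psi R t)) (psi R)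
    (qf_abs c Q) hp1 (fun t => by
      rw [abs_mul, abs_of_pos (by norm_num : (0 : ℝ) < 1 / 2)]
      have := F_le Q R t
      linarith) hp1 (inn_mono (by omega) (inn_qf hQ c))
    (fun A Y hA hd hY => hpsi A Y ((hY1 _ Y hY).trans (le_trans (pow_le_pow_right₀ (by norm_num) (by omega)) hsm)))
    (fun _ => hτ.le) (fun m _ _ => by rw [sum_const, TIW.card_sawF, nsmul_eq_mul, mul_comm]) (fun m => ?_) (fun _ => rfl)
    (fun A Y hA hY => ?_) (fun A Y hA hY => hpsi A Y ?_)
  · -- the end of the proof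
    have hcut := cut_cost n Q R
    have e1 : En n (fun t => 1 / 2 * (TIP.ind (t ∈ Q) * psi R t)) = 1 / 2 * Eu n (fun t => TIP.ind (t ∈ Q) * psi R t) := by
      unfold En Eu
      rw [← mul_sum, mul_div_assoc]
    have e2 : En n (psi R) = Eu n (psi R) := rfl
    rw [e1, e2] at key
    have hps : 1 - Eu n (psi R) ≤ e := by
      have h4 : 1 - Eu n (psi R) = Eu n (fun t => 1 - psi R t) := by rw [Eu_sub, Eu_one]
      rw [h4]
      refine le_trans ?_ (h3 K n hk3 hN)
      rw [Pn_Eu]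
      refine Eu_mono fun t => ?_
      by_cases h5 : t ∈ {t | hn (en t) < 2 ^ (K - c3)}
      · rw [TIP.ind_pos h5]
        have := psi_nonneg R t
        linarith
      · have h6 : (2 : ℤ) ^ (K - c3) ≤ hn (en t) := not_lt.1 h5
        have h7 : 2 * R ≤ (hn (en t) : ℝ) := by
          rw [hR2]
          exact_mod_cast h6
        rw [psi_one hR0 h7, sub_self]
        exact TIP.ind_nonneg _
    have hps1 : Eu n (psi R) ≤ 1 := (abs_le.1 (Eu_le hp1)).2
    have hEA := EA_abs (tent_bump 0) (hMA K n hk2 hN.1) (qf_abs c Q)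
    obtain ⟨X, hX⟩ : ∃ X : ℝ, X = EA (tent 0) n (qf c Q) := ⟨_, rfl⟩
    obtain ⟨Y, hY⟩ : ∃ Y : ℝ, Y = Eu n (psi R) := ⟨_, rfl⟩
    obtain ⟨Z, hZ⟩ : ∃ Z : ℝ, Z = Eu n (fun t => TIP.ind (t ∈ Q) * psi R t) := ⟨_, rfl⟩
    rw [← hX, ← hY, ← hZ] at key
    rw [← hX] at hEA
    rw [← hZ, ← hY] at hcut
    rw [← hY] at hps hps1
    rw [← hX]
    have g1 := abs_le.1 key
    have g2 := abs_le.1 hcut
    have g3 := abs_le.1 hEA
    have g4 : |X * (1 - Y)| ≤ e := by
      rw [abs_mul, abs_of_nonneg (by linarith : 0 ≤ 1 - Y)]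
      have := abs_nonneg X
      nlinarith
    have g5 := abs_le.1 g4
    rw [abs_le]
    constructor
    · nlinarith [g1.1, g1.2, g2.1, g2.2, g5.1, g5.2]
    · nlinarith [g1.1, g1.2, g2.1, g2.2, g5.1, g5.2]
  · -- the sums
    show ∑ t ∈ sawF m, 1 / 2 * (TIP.ind (t ∈ Q) * psi R t) = ∑ t ∈ sawF m, psi R t * qf c Q t
    rcases Nat.eq_zero_or_pos m with rfl | hm
    · refine sum_congr rfl fun t ht => ?_
      have h := (mem_sawF.1 ht).1
      rw [List.length_eq_zero_iff] at h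
      subst h
      have h4 : psi R [] = 0 := psi_zero hR0 (by
        have e0 : hn (en []) = 0 := by decide
        rw [e0]
        push_cast
        exact hR0.le)
      rw [h4]
      ring
    · have h4 : ∑ t ∈ sawF m, psi R t * qf c Q t = ∑ t ∈ sawF m, (TIP.ind (t ∈ Q) * psi R t) * lst c t := by
        rw [← sum_rvw m (fun t => (TIP.ind (t ∈ Q) * psi R t) * lst c t)]
        refine sum_congr rfl fun t _ => ?_
        show psi R t * (lst c t * TIP.ind (rvw t ∈ Q)) = (TIP.ind (rvw t ∈ Q) * psi R (rvw t)) * lst c (rvw t)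
        have h5 : psi R (rvw t) = psi R t := by
          unfold psi
          rw [hn_rvw]
        rw [h5, lst_rvw]
        ring
      rw [h4, sum_half hm c (fun t _ => ?_), mul_sum]
      show TIP.ind (swp t ∈ Q) * psi R (swp t) = TIP.ind (t ∈ Q) * psi R t
      rw [ind_swp hLF]
      unfold psi
      rw [en_swp]
  · have h4 := F_rob hQ (R := R) (τ := τ) (r := 2 ^ (K - (c3 + 2 + j))) hbR (by push_cast; exact hsm) hA (fun i hi => by
      have := hY i hi
      push_cast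
      exact this)
    show |1 / 2 * (TIP.ind (A ++ Y ∈ Q) * psi R (A ++ Y)) - 1 / 2 * (TIP.ind (A ∈ Q) * psi R A)| ≤ τ
    rw [← mul_sub, abs_mul, abs_of_pos (by norm_num : (0 : ℝ) < 1 / 2)]
    linarith
  · refine (hY1 (K - (c3 + 2 + j)) Y (fun i hi => ?_)).trans hsm
    have := hY i hi
    push_cast
    exact this

end PLC

end HexObs
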