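import Pool.Agent.PLC.E1D
import Pool.Agent.PLN.Two
import Pool.Agent.NTS.Dict
import Pool.Agent.NT.MassD

/-!
PLC, row F1 (helper47): the mass `PG r` of the words of the plane between two mid-edges of one level is the sum over the
self-avoiding walks from `0` to a vertex at distance `√3 r` with prescribed first and last directions.

* `card_FS` : the words with a given end and the last direction `(1, -1)` as walks;
* `cj` : the mirror image of a walk;
* **`PG_ends`**.
-/

set_option autoImplicit false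

open scoped Classical

namespace Pool.Agent.PLC

namespace F1

open Pool.Agent.IW.Res Pool.Agent.PLC.Res Finset

open HexObs (Pt oo up dx vx turn rotL cl dirs cl_dx dx_mem dx_succ tf SawN xc xc_pos)

open HexObs.PLN (FS PG)

open HexObs (gf wE)

open NTF (JJ sw aa)

open scoped ENNReal

/-- the last direction of a word of `FS (1, -1) y` : the number of letters is even -/
lemma even_FS {y : Pt} {t : List Bool} (ht : t ∈ FS (1, -1) y) : Even t.length := by
  have h1 := cl_dx up t t.length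
  have h2 : dx up t t.length = (1, -1) := ht.2.2
  rw [h2] at h1
  by_contra hcon
  rw [if_neg hcon] at h1
  exact absurd h1 (by decide)

/-- the words with a given end and the last direction `(1, -1)` as walks -/
theorem card_FS {n : ℕ} (hn : 0 < n) (hev : Even n) (y : Pt) :
    {t | t ∈ FS (1, -1) y ∧ t.length = n}.ncard =
      ((saw n).filter fun s => pos s n = JJ y ∧ s ⟨0, hn⟩ = 0 ∧ s ⟨n - 1, by omega⟩ ≠ 2).card := by
  have hodd : ¬ Even (n - 1) := by
    obtain ⟨m, hm⟩ := hev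
    rintro ⟨k, hk⟩
    omega
  have hturn : ∀ d ∈ dirs, ∀ b b' : Bool, turn b d = turn b' d → b = b' := by decide
  have himg : (((saw n).filter fun s => pos s n = JJ y ∧ s ⟨0, hn⟩ = 0 ∧ s ⟨n - 1, by omega⟩ ≠ 2 :
      Finset (Fin n → Fin 3)) : Set (Fin n → Fin 3)) = sw n '' {t | t ∈ FS (1, -1) y ∧ t.length = n} := by
    ext s
    rw [mem_coe, mem_filter]
    constructor
    · rintro ⟨h1, h2, h3, h4⟩
      obtain ⟨t, ht, hs, hb⟩ := NTSF.sw_surj hn (s := s) h1 h3 (decide (rotL (NTF.de (n - 1) (s ⟨n - 1, by omega⟩)) = (1, -1)))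
      have hd : dx up t (n - 1) = NTF.de (n - 1) (s ⟨n - 1, by omega⟩) := by
        rw [← NTSF.step_sw' n t (n - 1) (by omega), hs]
      have hpos : JJ (vx oo up t n) = JJ y := by
        have := NTSF.pos_sw n t n le_rfl
        rw [← this, hs]
        exact h2
      refine ⟨t, ⟨⟨ht.2, ?_, ?_⟩, ht.1⟩, hs⟩
      · show vx oo up t t.length = y
        rw [ht.1]
        exact NTF.JJ_inj hpos
      · show dx up t t.length = (1, -1)
        obtain ⟨m, hm⟩ : ∃ m, n = m + 1 := ⟨n - 1, by omega⟩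
        have hm1 : n - 1 = m := by omega
        rw [ht.1]
        have e1 : dx up t n = turn (tf t (n - 1)) (dx up t (n - 1)) := by
          conv_lhs => rw [show n = n - 1 + 1 by omega]
          rw [dx_succ]
        rw [e1, hb, hd]
        refine NTF.turn_of _ (NTF.de_dirs _ _) (1, -1) (by decide) ?_ ?_
        · rw [NTF.cl_de, if_neg hodd]
          decide
        · intro he
          apply h4
          unfold NTF.de at he
          rw [if_neg hodd, neg_neg] at he
          revert he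
          generalize s ⟨n - 1, _⟩ = a
          revert a
          decide
    · rintro ⟨t, ⟨⟨h1, h2, h3⟩, h4⟩, rfl⟩
      refine ⟨NTSF.sw_mem ⟨h4, h1⟩, ?_, rfl, ?_⟩
      · have := NTSF.pos_sw n t n le_rfl
        have h5 : vx oo up t n = y := by
          rw [← h4]
          exact h2
        rw [h5] at this
        exact this
      · have h5 : dx up t n = (1, -1) := by
          rw [← h4]
          exact h3
        have e1 : dx up t n = turn (tf t (n - 1)) (dx up t (n - 1)) := by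
          conv_lhs => rw [show n = n - 1 + 1 by omega]
          rw [dx_succ]
        rw [e1] at h5
        intro he
        have h6 := NTSF.step_sw' n t (n - 1) (by omega)
        rw [he] at h6
        unfold NTF.de at h6
        rw [if_neg hodd] at h6
        rw [← h6] at h5
        revert h5
        generalize tf t (n - 1) = b
        revert b
        decide
  rw [← Set.ncard_coe_finset, himg, Set.InjOn.ncard_image]
  rintro t ⟨⟨h1, h2, h3⟩, h4⟩ t' ⟨⟨h1', h2', h3'⟩, h4'⟩ he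
  refine NTSF.sw_inj h4 h4' he ?_
  have e1 : dx up t n = turn (tf t (n - 1)) (dx up t (n - 1)) := by
    conv_lhs => rw [show n = n - 1 + 1 by omega]
    rw [dx_succ]
  have e2 : dx up t' n = turn (tf t' (n - 1)) (dx up t' (n - 1)) := by
    conv_lhs => rw [show n = n - 1 + 1 by omega]
    rw [dx_succ]
  have h5 : dx up t n = (1, -1) := by
    rw [← h4]
    exact h3
  have h6 : dx up t' n = (1, -1) := by
    rw [← h4']
    exact h3'
  have h7 : dx up t (n - 1) = dx up t' (n - 1) := by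
    rw [← NTSF.step_sw' n t (n - 1) (by omega), ← NTSF.step_sw' n t' (n - 1) (by omega), he]
  rw [h7, h5] at e1
  rw [h6] at e2
  exact hturn _ (dx_mem (by decide) t' (n - 1)) _ _ (e1.symm.trans e2)

/-! ### The mirror image -/

/-- the mirror image of a walk -/
def cj {n : ℕ} (s : Fin n → Fin 3) : Fin n → Fin 3 := fun i => 1 - s i

lemma cj_cj {n : ℕ} (s : Fin n → Fin 3) : cj (cj s) = s := by
  funext i
  unfold cj
  exact sub_sub_cancel _ _

lemma step_cj (i : ℕ) (a : Fin 3) : step i (1 - a) = E1D.w3 * (starRingEnd ℂ) (step i a) := by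
  have h3 : E1D.w3 ^ 3 = 1 := by
    have h := E1D.w3_rel
    linear_combination (E1D.w3 - 1) * h
  have hn : (starRingEnd ℂ) E1D.w3 * E1D.w3 = 1 := by
    rw [mul_comm, Complex.mul_conj, Complex.normSq_eq_norm_sq]
    have : ‖E1D.w3‖ = 1 := by
      unfold E1D.w3
      rw [show 2 * (Real.pi : ℂ) * Complex.I / 3 = ((2 * Real.pi / 3 : ℝ) : ℂ) * Complex.I by
        push_cast
        ring]
      exact Complex.norm_exp_ofReal_mul_I _
    rw [this]
    simp
  rw [E1D.step_w, E1D.step_w, map_mul, map_pow, map_pow, map_neg, map_one]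
  fin_cases a
  · show (-1 : ℂ) ^ i * E1D.w3 ^ 1 = E1D.w3 * ((-1) ^ i * (starRingEnd ℂ) E1D.w3 ^ 0)
    ring
  · show (-1 : ℂ) ^ i * E1D.w3 ^ 0 = E1D.w3 * ((-1) ^ i * (starRingEnd ℂ) E1D.w3 ^ 1)
    linear_combination (-(-1 : ℂ) ^ i) * hn
  · show (-1 : ℂ) ^ i * E1D.w3 ^ 2 = E1D.w3 * ((-1) ^ i * (starRingEnd ℂ) E1D.w3 ^ 2)
    have h4 : (starRingEnd ℂ) E1D.w3 ^ 2 * E1D.w3 = E1D.w3 ^ 2 := by
      calc (starRingEnd ℂ) E1D.w3 ^ 2 * E1D.w3 = (starRingEnd ℂ) E1D.w3 * ((starRingEnd ℂ) E1D.w3 * E1D.w3) := by ring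
        _ = (starRingEnd ℂ) E1D.w3 * E1D.w3 ^ 3 := by rw [hn, h3]
        _ = ((starRingEnd ℂ) E1D.w3 * E1D.w3) * E1D.w3 ^ 2 := by ring
        _ = E1D.w3 ^ 2 := by rw [hn, one_mul]
    linear_combination (-(-1 : ℂ) ^ i) * h4

lemma pos_cj {n : ℕ} (s : Fin n → Fin 3) (k : ℕ) : pos (cj s) k = E1D.w3 * (starRingEnd ℂ) (pos s k) := by
  unfold pos
  rw [map_sum, mul_sum]
  exact sum_congr rfl fun i _ => step_cj i (s i)

lemma w3_ne : E1D.w3 ≠ 0 := Complex.exp_ne_zero _

lemma cj_inj {n : ℕ} (s : Fin n → Fin 3) {j k : ℕ} : pos (cj s) j = pos (cj s) k ↔ pos s j = pos s k := by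
  rw [pos_cj, pos_cj]
  constructor
  · intro h
    have h1 := mul_left_cancel₀ w3_ne h
    exact (starRingEnd ℂ).injective h1
  · intro h
    rw [h]

lemma cj_saw {n : ℕ} {s : Fin n → Fin 3} (h : s ∈ saw n) : cj s ∈ saw n := by
  unfold saw at h ⊢
  rw [mem_filter] at h ⊢
  exact ⟨mem_univ _, fun j k hj hk he => h.2 j k hj hk ((cj_inj s).1 he)⟩

/-! ### The end point -/

/-- the end point -/
lemma phi_r (r : ℕ) : SawNu.phiTri (-HexMu.psi (2 * (r : ℤ), -(r : ℤ))) = JJ (-(r : ℤ), -(r : ℤ)) := by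
  apply Complex.ext
  · rw [NTF.JJ_re]
    show ((((-HexMu.psi (2 * (r : ℤ), -(r : ℤ))).1 : ℤ) : ℝ) / 2) = _
    simp only [HexMu.psi, Prod.fst_neg]
    push_cast
    ring
  · rw [NTF.JJ_im]
    show ((((-HexMu.psi (2 * (r : ℤ), -(r : ℤ))).2 : ℤ) : ℝ) * (Real.sqrt 3 / 2)) = _
    simp only [HexMu.psi, Prod.snd_neg]
    push_cast
    ring

lemma JJ_mirror (r : ℕ) : JJ ((r : ℤ), (r : ℤ)) = E1D.w3 * (starRingEnd ℂ) (JJ (-(r : ℤ), -(r : ℤ))) := by
  have h3 : (√3 : ℝ) * √3 = 3 := Real.mul_self_sqrt (by norm_num)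
  have hw : E1D.w3 = ⟨-(1 / 2), √3 / 2⟩ := by
    unfold E1D.w3
    have e2 : 2 * Real.pi / 3 = Real.pi - Real.pi / 3 := by ring
    rw [show 2 * (Real.pi : ℂ) * Complex.I / 3 = ((2 * Real.pi / 3 : ℝ) : ℂ) * Complex.I by
      push_cast
      ring]
    apply Complex.ext
    · rw [Complex.exp_ofReal_mul_I_re, e2, Real.cos_pi_sub, Real.cos_pi_div_three]
    · rw [Complex.exp_ofReal_mul_I_im, e2, Real.sin_pi_sub, Real.sin_pi_div_three]
  rw [hw]
  apply Complex.ext
  · rw [Complex.mul_re, Complex.conj_re, Complex.conj_im, NTF.JJ_re, NTF.JJ_re, NTF.JJ_im]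
    push_cast
    linear_combination (-(r : ℝ) / 4) * h3
  · rw [Complex.mul_im, Complex.conj_re, Complex.conj_im, NTF.JJ_re, NTF.JJ_im, NTF.JJ_im]
    push_cast
    ring

/-- a walk to `JJ y`, `y` of the class of the origin, has an even number of steps -/
lemma even_end {n : ℕ} (s : Fin n → Fin 3) (r : ℕ) (h : pos s n = JJ (-(r : ℤ), -(r : ℤ))) : Even n := by
  obtain ⟨a, b, h1, h2⟩ := E1D.pos_cls s n le_rfl
  have h3 : (√3 : ℝ) * √3 = 3 := Real.mul_self_sqrt (by norm_num)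
  -- JJ (-r, -r) = - r + r * w3
  have hw : (JJ (-(r : ℤ), -(r : ℤ)) : ℂ) = ((-(r : ℤ) : ℤ) : ℂ) + ((r : ℤ) : ℂ) * E1D.w3 := by
    unfold E1D.w3
    have e2 : 2 * Real.pi / 3 = Real.pi - Real.pi / 3 := by ring
    rw [show 2 * (Real.pi : ℂ) * Complex.I / 3 = ((2 * Real.pi / 3 : ℝ) : ℂ) * Complex.I by
      push_cast
      ring]
    apply Complex.ext
    · rw [NTF.JJ_re, Complex.add_re, Complex.mul_re, Complex.exp_ofReal_mul_I_re, Complex.exp_ofReal_mul_I_im, e2,
        Real.cos_pi_sub, Real.cos_pi_div_three]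
      simp only [Complex.intCast_re, Complex.intCast_im]
      push_cast
      ring
    · rw [NTF.JJ_im, Complex.add_im, Complex.mul_im, Complex.exp_ofReal_mul_I_re, Complex.exp_ofReal_mul_I_im, e2,
        Real.sin_pi_sub, Real.sin_pi_div_three]
      simp only [Complex.intCast_re, Complex.intCast_im]
      push_cast
      ring
  rw [h1, hw] at h
  obtain ⟨e1, e2⟩ := E1D.int_inj h
  rw [e1, e2] at h2
  by_contra hcon
  rw [Nat.even_iff] at hcon
  rw [if_neg hcon] at h2
  omega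

/-- the walks of the sum `ends` -/
lemma ends_card {n : ℕ} (hn : 0 < n) (r : ℕ) :
    ((saw n).filter (fun s => pos s n = JJ (-(r : ℤ), -(r : ℤ)) ∧ ∃ h : 1 ≤ n,
      (fun i : Fin 1 => s (Fin.castLE h i)) ∈ {W : Fin 1 → Fin 3 | W 0 ≠ 2} ∧
      (fun i : Fin 1 => s (Fin.rev (Fin.castLE h i))) ∈ {W : Fin 1 → Fin 3 | W 0 ≠ 2})).card =
    ((saw n).filter fun s => pos s n = JJ (-(r : ℤ), -(r : ℤ)) ∧ s ⟨0, hn⟩ = 0 ∧ s ⟨n - 1, by omega⟩ ≠ 2).card +
    ((saw n).filter fun s => pos s n = JJ ((r : ℤ), (r : ℤ)) ∧ s ⟨0, hn⟩ = 0 ∧ s ⟨n - 1, by omega⟩ ≠ 2).card := by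
  have h1 : ((saw n).filter fun s => pos s n = JJ ((r : ℤ), (r : ℤ)) ∧ s ⟨0, hn⟩ = 0 ∧ s ⟨n - 1, by omega⟩ ≠ 2).card =
      ((saw n).filter fun s => pos s n = JJ (-(r : ℤ), -(r : ℤ)) ∧ s ⟨0, hn⟩ = 1 ∧ s ⟨n - 1, by omega⟩ ≠ 2).card := by
    have a1 : ∀ a : Fin 3, a = 0 → 1 - a = 1 := by decide
    have a2 : ∀ a : Fin 3, a = 1 → 1 - a = 0 := by decide
    have a3 : ∀ a : Fin 3, a ≠ 2 → 1 - a ≠ 2 := by decide
    refine card_nbij' cj cj ?_ ?_ (fun s _ => cj_cj s) (fun s _ => cj_cj s)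
    · intro s hs
      rw [mem_coe, mem_filter] at hs ⊢
      obtain ⟨h1, h2, h3, h4⟩ := hs
      refine ⟨cj_saw h1, ?_, a1 _ h3, a3 _ h4⟩
      have h5 := pos_cj (cj s) n
      rw [cj_cj, h2, JJ_mirror] at h5
      exact ((starRingEnd ℂ).injective (mul_left_cancel₀ w3_ne h5)).symm
    · intro s hs
      rw [mem_coe, mem_filter] at hs ⊢
      obtain ⟨h1, h2, h3, h4⟩ := hs
      refine ⟨cj_saw h1, ?_, a2 _ h3, a3 _ h4⟩
      rw [pos_cj, h2, JJ_mirror]
  rw [h1, ← card_union_of_disjoint]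
  · congr 1
    ext s
    rw [mem_filter, mem_union, mem_filter, mem_filter]
    have e2 : ∀ h : 1 ≤ n, s (Fin.rev (Fin.castLE h (0 : Fin 1))) = s ⟨n - 1, by omega⟩ := fun h => by
      congr 1
    have e0 : ∀ h : 1 ≤ n, s (Fin.castLE h (0 : Fin 1)) = s ⟨0, hn⟩ := fun h => rfl
    have a1 : ∀ a : Fin 3, a ≠ 2 ↔ a = 0 ∨ a = 1 := by decide
    constructor
    · rintro ⟨h2, h3, h, h4, h5⟩
      have h4' : s (Fin.castLE h (0 : Fin 1)) ≠ 2 := h4
      have h5' : s (Fin.rev (Fin.castLE h (0 : Fin 1))) ≠ 2 := h5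
      rw [e0, a1] at h4'
      rw [e2] at h5'
      rcases h4' with h6 | h6
      · exact Or.inl ⟨h2, h3, h6, h5'⟩
      · exact Or.inr ⟨h2, h3, h6, h5'⟩
    · rintro (⟨h2, h3, h4, h5⟩ | ⟨h2, h3, h4, h5⟩)
      · refine ⟨h2, h3, hn, ?_, ?_⟩
        · show s (Fin.castLE hn (0 : Fin 1)) ≠ 2
          rw [e0, h4]
          decide
        · show s (Fin.rev (Fin.castLE hn (0 : Fin 1))) ≠ 2
          rw [e2]
          exact h5
      · refine ⟨h2, h3, hn, ?_, ?_⟩
        · show s (Fin.castLE hn (0 : Fin 1)) ≠ 2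
          rw [e0, h4]
          decide
        · show s (Fin.rev (Fin.castLE hn (0 : Fin 1))) ≠ 2
          rw [e2]
          exact h5
  · rw [disjoint_left]
    intro s hs hs'
    rw [mem_filter] at hs hs'
    rw [hs.2.2.1] at hs'
    exact absurd hs'.2.2.1 (by decide)

/-- **row F1**: the two-point function of the plane between two mid-edges of one level -/
theorem PG_ends (r : ℕ) (hr : 1 ≤ r) : (PG r).toReal =
    xc * ends xc (SawNu.phiTri (-HexMu.psi (2 * (r : ℤ), -(r : ℤ)))) 1 {W | W 0 ≠ 2} {W | W 0 ≠ 2} := by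
  have hkey : gf (FS (1, -1) ((r : ℤ), (r : ℤ))) + gf (FS (1, -1) (-(r : ℤ), -(r : ℤ))) =
      ∑' n : ℕ, (((saw n).filter (fun s => pos s n = JJ (-(r : ℤ), -(r : ℤ)) ∧ ∃ h : 1 ≤ n,
      (fun i : Fin 1 => s (Fin.castLE h i)) ∈ {W : Fin 1 → Fin 3 | W 0 ≠ 2} ∧
      (fun i : Fin 1 => s (Fin.rev (Fin.castLE h i))) ∈ {W : Fin 1 → Fin 3 | W 0 ≠ 2})).card : ℝ≥0∞) *
        ENNReal.ofReal (xc ^ n) := by
    rw [NTF.gf_lengths, NTF.gf_lengths (FS (1, -1) (-(r : ℤ), -(r : ℤ))), ← ENNReal.tsum_add]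
    refine tsum_congr fun n => ?_
    rw [NTF.gf_card (n := n) fun t ht => ht.2, NTF.gf_card (n := n) fun t ht => ht.2, ← add_mul]
    congr 1
    rcases Nat.eq_zero_or_pos n with h0 | hn
    · subst h0
      have e1 : ∀ y : Pt, y ≠ oo → {t | t ∈ FS (1, -1) y ∧ t.length = 0} = ∅ := by
        intro y hy
        rw [Set.eq_empty_iff_forall_notMem]
        rintro t ⟨⟨_, h2, _⟩, h3⟩
        apply hy
        rw [List.length_eq_zero_iff] at h3
        rw [h3] at h2
        exact h2.symm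
      rw [e1 _ (by intro h; have := congrArg Prod.fst h; simp only [oo] at this; omega),
        e1 _ (by intro h; have := congrArg Prod.fst h; simp only [oo] at this; omega), Set.ncard_empty,
        filter_false_of_mem]
      · simp
      · rintro s _ ⟨_, h, _⟩
        exact absurd h (by norm_num)
    rcases Nat.even_or_odd n with hev | hod
    · rw [card_FS hn hev, card_FS hn hev, ends_card hn]
      push_cast
      ring
    · have e1 : ∀ y : Pt, {t | t ∈ FS (1, -1) y ∧ t.length = n} = ∅ := by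
        intro y
        rw [Set.eq_empty_iff_forall_notMem]
        rintro t ⟨h2, h3⟩
        have := even_FS h2
        rw [h3] at this
        exact (Nat.not_even_iff_odd.2 hod) this
      rw [e1, e1, Set.ncard_empty, filter_false_of_mem]
      · simp
      · rintro s _ ⟨h, _⟩
        exact (Nat.not_even_iff_odd.2 hod) (even_end s r h)
  rw [phi_r, HexObs.PLN.PG_eq, hkey, ENNReal.toReal_mul, ENNReal.toReal_ofReal xc_pos.le, ENNReal.tsum_toReal_eq fun n => ?_]
  · unfold ends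
    congr 1
    refine tsum_congr fun n => ?_
    rw [ENNReal.toReal_mul, ENNReal.toReal_natCast, ENNReal.toReal_ofReal (pow_nonneg xc_pos.le n)]
    congr!
  · exact ENNReal.mul_ne_top (ENNReal.natCast_ne_top _) ENNReal.ofReal_ne_top

end F1

end Pool.Agent.PLC
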