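import Pool.Agent.PLC.PubR

/-!
# PLC, row D2: the two-point function of the plane changes slowly, public form, all vertices (helper29)

* `pos_snoc`: one more step;
* **`pubR_of`**: from `ShF` and the ratio at neighbours: `G(y) / G(x) → 1` for `|y - x| = o(|x|)`, all vertices.
-/

set_option autoImplicit false

namespace HexObs

namespace PLC

open Finset SDN SawNu XI72 HexObs.PHWDict TIW TPF

open scoped ENNReal

lemma norm_f {f : ℕ → Fin 3 → ℂ}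
    (hf : ∀ i a, f i a = (-1 : ℂ) ^ i * Complex.exp (2 * (Real.pi : ℂ) * Complex.I * ((a : ℕ) : ℂ) / 3)) (i : ℕ) (a : Fin 3) :
    ‖f i a‖ = 1 := by
  rw [hf, norm_mul, norm_pow, norm_neg, norm_one, one_pow, one_mul]
  have h1 : 2 * (Real.pi : ℂ) * Complex.I * ((a : ℕ) : ℂ) / 3 = ((2 * Real.pi * (a : ℕ) / 3 : ℝ) : ℂ) * Complex.I := by
    push_cast
    ring
  rw [h1, Complex.norm_exp_ofReal_mul_I]

/-- one more step -/
lemma pos_snoc (f : ℕ → Fin 3 → ℂ) {n : ℕ} (s : Fin n → Fin 3) (a : Fin 3) :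
    SawNu.pos f (Fin.snoc s a : Fin (n + 1) → Fin 3) (n + 1) = SawNu.pos f s n + f n a := by
  unfold SawNu.pos
  rw [Finset.filter_true_of_mem fun i _ => i.2, Finset.filter_true_of_mem fun i _ => i.2, Fin.sum_univ_castSucc]
  simp

/-- **the two-point function changes slowly, all vertices, public form** -/
theorem pubR_of (h : ShF) {f : ℕ → Fin 3 → ℂ}
    (hf : ∀ i a, f i a = (-1 : ℂ) ^ i * Complex.exp (2 * (Real.pi : ℂ) * Complex.I * ((a : ℕ) : ℂ) / 3))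
    {μ : ℝ} (hμ : μ = ⨅ n : {n : ℕ // 1 ≤ n}, (((saw f n.1).card : ℝ) ^ ((1 : ℝ) / (n.1 : ℝ))))
    {G : ℝ → ℂ → ℝ}
    (hG : ∀ z x, G z x = ∑' n : ℕ, (((saw f n).filter (fun s => SawNu.pos f s n = x)).card : ℝ) * z ^ n)
    (hN : ∀ ε : ℝ, 0 < ε → ∃ R : ℝ, ∀ (n : ℕ) (s : Fin n → Fin 3) (a : Fin 3), R ≤ ‖SawNu.pos f s n‖ →
      |G (1 / μ) (SawNu.pos f s n + f n a) / G (1 / μ) (SawNu.pos f s n) - 1| ≤ ε) :
    ∀ ε : ℝ, 0 < ε → ∃ δ : ℝ, 0 < δ ∧ ∀ (n m : ℕ) (s : Fin n → Fin 3) (s' : Fin m → Fin 3),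
      1 / δ ≤ ‖SawNu.pos f s n‖ → ‖SawNu.pos f s' m - SawNu.pos f s n‖ ≤ δ * ‖SawNu.pos f s n‖ →
      |G (1 / μ) (SawNu.pos f s' m) / G (1 / μ) (SawNu.pos f s n) - 1| ≤ ε := by
  intro ε hε
  obtain ⟨η, hη⟩ : ∃ η : ℝ, η = min (1 / 2) (ε / 4) := ⟨_, rfl⟩
  have hη0 : 0 < η := by rw [hη]; positivity
  have hη1 : η ≤ 1 / 2 := hη ▸ min_le_left _ _
  have hη2 : 4 * η ≤ ε := by
    have := hη ▸ min_le_right (1 / 2 : ℝ) (ε / 4)
    linarith
  obtain ⟨δ, hδ, h1⟩ := pubR_same h hf hμ hG η hη0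
  obtain ⟨R, hR⟩ := hN η hη0
  obtain ⟨c, hc, h2⟩ := two_point TPC.xUp TPC.xLow hf hμ hG
  refine ⟨min (1 / 2) (min (δ / 2) (1 / (2 * (|R| + 1)))), by positivity, fun n m s s' hx hxx => ?_⟩
  obtain ⟨x, hxe⟩ : ∃ x, x = SawNu.pos f s n := ⟨_, rfl⟩
  obtain ⟨y, hye⟩ : ∃ y, y = SawNu.pos f s' m := ⟨_, rfl⟩
  obtain ⟨D, hD⟩ : ∃ D : ℝ, D = min (1 / 2) (min (δ / 2) (1 / (2 * (|R| + 1)))) := ⟨_, rfl⟩
  have hD0 : 0 < D := by rw [hD]; positivity
  have hD1 : D ≤ 1 / 2 := hD ▸ min_le_left _ _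
  have hD2 : D ≤ δ / 2 := hD ▸ (min_le_right _ _).trans (min_le_left _ _)
  have hD3 : D ≤ 1 / (2 * (|R| + 1)) := hD ▸ (min_le_right _ _).trans (min_le_right _ _)
  rw [← hD, ← hxe] at hx hxx
  rw [← hye] at hxx
  rw [← hxe, ← hye]
  have hx1 : 1 ≤ D * ‖x‖ := by
    rw [div_le_iff₀ hD0] at hx
    linarith
  have hN0 : 0 < ‖x‖ := by
    by_contra hcon
    have : D * ‖x‖ ≤ 0 := mul_nonpos_of_nonneg_of_nonpos hD0.le (not_lt.1 hcon)
    linarith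
  have hx0 : x ≠ 0 := norm_pos_iff.1 hN0
  have hdx : 1 / δ ≤ ‖x‖ := by
    rw [div_le_iff₀ hδ]
    nlinarith
  have hy2 : ‖x‖ / 2 ≤ ‖y‖ := by
    have h3 : ‖x‖ ≤ ‖y‖ + ‖y - x‖ := by
      have := norm_add_le y (x - y)
      rw [add_sub_cancel] at this
      rwa [norm_sub_rev y x]
    nlinarith
  have hyR : R ≤ ‖y‖ := by
    have h3 : 2 * (|R| + 1) ≤ ‖x‖ := by
      have h4 : 1 / D ≤ ‖x‖ := hx
      refine le_trans ?_ h4
      rw [le_div_iff₀ hD0]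
      rw [le_div_iff₀ (by positivity)] at hD3
      linarith
    have := le_abs_self R
    linarith
  have hGx : 0 < G (1 / μ) x := by
    have h3 := (h2 n s (hxe ▸ hx0)).1
    rw [← hxe] at h3
    exact lt_of_lt_of_le (by positivity) h3
  by_cases hp : Even n ↔ Even m
  · have h3 := h1 n m s s' hp (hxe ▸ hdx) (by
      rw [← hxe, ← hye]
      refine hxx.trans ?_
      nlinarith)
    rw [← hxe, ← hye] at h3
    linarith
  · have hy0 : y ≠ 0 := norm_pos_iff.1 (by linarith)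
    have hGy : 0 < G (1 / μ) y := by
      have h3 := (h2 m s' (hye ▸ hy0)).1
      rw [← hye] at h3
      exact lt_of_lt_of_le (by positivity) h3
    obtain ⟨z, hz⟩ : ∃ z, z = y + f m 0 := ⟨_, rfl⟩
    have hzp : z = SawNu.pos f (Fin.snoc s' 0 : Fin (m + 1) → Fin 3) (m + 1) := by
      rw [pos_snoc, hz, hye]
    have hzx : ‖z - x‖ ≤ δ * ‖x‖ := by
      have h3 : z - x = (y - x) + f m 0 := by rw [hz]; ring
      rw [h3]
      refine (norm_add_le _ _).trans ?_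
      rw [norm_f hf]
      nlinarith
    have h3 := h1 n (m + 1) s (Fin.snoc s' 0) (by
      rw [Nat.even_add_one]
      tauto) (hxe ▸ hdx) (by
      rw [← hxe, ← hzp]
      exact hzx)
    rw [← hxe, ← hzp] at h3
    have h4 := hR m s' 0 (hye ▸ hyR)
    rw [← hye, ← hz] at h4
    rw [abs_le] at h3 h4 ⊢
    obtain ⟨u, hu⟩ : ∃ u, u = G (1 / μ) z / G (1 / μ) x := ⟨_, rfl⟩
    obtain ⟨w, hw⟩ : ∃ w, w = G (1 / μ) z / G (1 / μ) y := ⟨_, rfl⟩
    rw [← hu] at h3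
    rw [← hw] at h4
    have hw0 : 0 < w := by linarith
    have e1 : G (1 / μ) y / G (1 / μ) x = u / w := by
      rw [hu, hw]
      have hz0 : G (1 / μ) z ≠ 0 := by
        intro h0
        rw [h0, zero_div] at hw
        linarith
      field_simp
    rw [e1]
    constructor
    · rw [neg_le_sub_iff_le_add, ← sub_le_iff_le_add, le_div_iff₀ hw0]
      nlinarith
    · rw [sub_le_iff_le_add, div_le_iff₀ hw0]
      nlinarith

end PLC

end HexObs
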