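import Mathlib

/-!
PLC, row WFin (helper73), general part: weighted laws of two real variables. If the (weighted) means of
`exp (i (s X + t Y))` converge to the characteristic function of a probability, then the means of every bounded continuous
function of `(X, Y)` converge.
-/

set_option autoImplicit false

noncomputable section

open MeasureTheory ProbabilityTheory Filter Topology
open scoped ENNReal NNReal BoundedContinuousFunction

namespace PLC2

/-- the law of `X` under the weights `q` -/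
def wlaw {ι E : Type*} [MeasurableSpace E] (q : ι → ℝ) (X : ι → E) : Measure E :=
  Measure.sum fun i => ENNReal.ofReal (q i / ∑' j, q j) • Measure.dirac (X i)

section

variable {ι E : Type*} [MeasurableSpace E] {q : ι → ℝ} {X : ι → E}
  (hq : ∀ i, 0 ≤ q i) (hs : Summable q) (hp : 0 < ∑' i, q i)

include hq hs hp in
theorem wlaw_prob : IsProbabilityMeasure (wlaw q X) := by
  constructor
  unfold wlaw
  rw [Measure.sum_apply _ MeasurableSet.univ]
  simp only [Measure.smul_apply, measure_univ, smul_eq_mul, mul_one]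
  rw [← ENNReal.ofReal_tsum_of_nonneg (fun i => div_nonneg (hq i) hp.le) (hs.div_const _), tsum_div_const,
    div_self hp.ne', ENNReal.ofReal_one]

include hq hs hp in
theorem wlaw_int {F : Type*} [NormedAddCommGroup F] [NormedSpace ℝ F] [CompleteSpace F] {f : E → F}
    (hf : StronglyMeasurable f) {B : ℝ} (hB : ∀ x, ‖f x‖ ≤ B) :
    ∫ x, f x ∂(wlaw q X) = (∑' i, q i)⁻¹ • ∑' i, q i • f (X i) := by
  have : IsProbabilityMeasure (wlaw q X) := wlaw_prob hq hs hp
  have hint : Integrable f (wlaw q X) :=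
    (integrable_const B).mono' hf.aestronglyMeasurable (Eventually.of_forall hB)
  have h1 := hasSum_integral_measure (μ := fun i => ENNReal.ofReal (q i / ∑' j, q j) • Measure.dirac (X i)) hint
  have h2 : ∀ i, ∫ x, f x ∂(ENNReal.ofReal (q i / ∑' j, q j) • Measure.dirac (X i)) =
      (∑' j, q j)⁻¹ • (q i • f (X i)) := by
    intro i
    rw [integral_smul_measure, integral_dirac' _ _ hf, ENNReal.toReal_ofReal (div_nonneg (hq i) hp.le), smul_smul,
      div_eq_inv_mul]
  have h3 := h1.tsum_eq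
  simp_rw [h2] at h3
  unfold wlaw
  rw [← h3]
  have hsum : Summable fun i => q i • f (X i) := by
    refine Summable.of_norm_bounded (hs.mul_right B) fun i => ?_
    rw [norm_smul, Real.norm_of_nonneg (hq i)]
    exact mul_le_mul_of_nonneg_left (hB _) (hq i)
  exact Summable.tsum_const_smul _ hsum

end

/-- **weak convergence of weighted laws** on the plane -/
theorem lim_pair {ι : ℕ → Type*} {q : ∀ n, ι n → ℝ} {X Y : ∀ n, ι n → ℝ} {μ : Measure (ℝ × ℝ)} [IsProbabilityMeasure μ]
    (hq : ∀ n i, 0 ≤ q n i) (hs : ∀ n, Summable (q n)) (hp : ∀ n, 0 < ∑' i, q n i)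
    (h : ∀ s t : ℝ, Tendsto (fun n => (∑' i, (q n i : ℂ) * Complex.exp (((s * X n i + t * Y n i : ℝ) : ℂ) * Complex.I)) /
      ((∑' i, q n i : ℝ) : ℂ)) atTop (𝓝 (∫ p, Complex.exp (((s * p.1 + t * p.2 : ℝ) : ℂ) * Complex.I) ∂μ)))
    (f : ℝ × ℝ →ᵇ ℝ) :
    Tendsto (fun n => (∑' i, q n i * f (X n i, Y n i)) / ∑' i, q n i) atTop (𝓝 (∫ p, f p ∂μ)) := by
  classical
  let e : ℝ × ℝ ≃ᵐ EuclideanSpace ℝ (Fin 2) :=
    (MeasurableEquiv.finTwoArrow (α := ℝ)).symm.trans (MeasurableEquiv.toLp 2 (Fin 2 → ℝ))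
  have he0 : ∀ p, WithLp.ofLp (e p) 0 = p.1 := fun _ => rfl
  have he1 : ∀ p, WithLp.ofLp (e p) 1 = p.2 := fun _ => rfl
  have hμ : IsProbabilityMeasure (μ.map e) := Measure.isProbabilityMeasure_map e.measurable.aemeasurable
  let Q : ℕ → ProbabilityMeasure (EuclideanSpace ℝ (Fin 2)) := fun n =>
    ⟨wlaw (q n) (fun i => e (X n i, Y n i)), wlaw_prob (hq n) (hs n) (hp n)⟩
  let Q0 : ProbabilityMeasure (EuclideanSpace ℝ (Fin 2)) := ⟨μ.map e, hμ⟩
  have key : Tendsto Q atTop (𝓝 Q0) := by
    refine ProbabilityMeasure.tendsto_of_tendsto_charFun fun t => ?_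
    have e1 : charFun (Q0 : Measure (EuclideanSpace ℝ (Fin 2))) t =
        ∫ p, Complex.exp (((t 0 * p.1 + t 1 * p.2 : ℝ) : ℂ) * Complex.I) ∂μ := by
      rw [charFun_apply]
      show ∫ x, _ ∂(μ.map e) = _
      rw [integral_map_equiv]
      refine integral_congr_ae (Eventually.of_forall fun p => ?_)
      simp only
      congr 2
      rw [PiLp.inner_apply]
      simp [Fin.sum_univ_two, he0, he1]
    rw [e1]
    refine (h (t 0) (t 1)).congr fun n => ?_
    show _ = charFun (wlaw (q n) (fun i => e (X n i, Y n i))) t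
    rw [charFun_apply, wlaw_int (hq n) (hs n) (hp n) (B := 1)]
    · rw [Complex.real_smul, div_eq_inv_mul]
      push_cast
      congr 1
      refine tsum_congr fun i => ?_
      rw [Complex.real_smul]
      congr 3
      rw [PiLp.inner_apply]
      simp [Fin.sum_univ_two, he0, he1]
    · exact (by fun_prop : Continuous fun x : EuclideanSpace ℝ (Fin 2) =>
        Complex.exp ((inner ℝ x t : ℝ) * Complex.I)).stronglyMeasurable
    · intro x
      exact (Complex.norm_exp_ofReal_mul_I _).le
  let g : EuclideanSpace ℝ (Fin 2) →ᵇ ℝ :=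
    f.compContinuous ⟨fun x : EuclideanSpace ℝ (Fin 2) => (WithLp.ofLp x 0, WithLp.ofLp x 1), by fun_prop⟩
  have e3 := (ProbabilityMeasure.tendsto_iff_forall_integral_tendsto.1 key) g
  have e4 : ∫ x, g x ∂(Q0 : Measure (EuclideanSpace ℝ (Fin 2))) = ∫ p, f p ∂μ := by
    show ∫ x, _ ∂(μ.map e) = _
    rw [integral_map_equiv]
    rfl
  rw [e4] at e3
  refine e3.congr fun n => ?_
  show ∫ x, g x ∂(wlaw (q n) (fun i => e (X n i, Y n i))) = _
  rw [wlaw_int (hq n) (hs n) (hp n) (B := ‖g‖) g.continuous.stronglyMeasurable (fun x => g.norm_coe_le_norm x),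
    smul_eq_mul, div_eq_inv_mul]
  rfl

end PLC2

end
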