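import Pool.Agent.PLC.WDef
import Pool.Agent.PLC.Law2
import Pool.Agent.PW.E1d

/-!
PLC (the critical two-point ensemble of the plane), row W, the end (helper73): from the characteristic functions to the law
of the two windings of the critical walk.

* `tipL`, `charL2` : the square root of the characteristic function of the cylinder, along any scale `L`;
* **`windX`** : the law of the windings of the critical walk.
-/

set_option autoImplicit false

noncomputable section

open MeasureTheory ProbabilityTheory Filter Topology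

namespace PW

theorem div_sqrtL {L : ℕ → ℝ} (hL : Tendsto L atTop atTop) (M s e : ℝ) (he : 0 < e) : ∀ᶠ n : ℕ in atTop, ∀ t : ℝ,
    |t| ≤ |s| → M * |t / √(L n)| ≤ e := by
  have h0 : Tendsto (fun n => √(L n)) atTop atTop := Real.tendsto_sqrt_atTop.comp hL
  have h1 : Tendsto (fun n : ℕ => |M| * (|s| / √(L n))) atTop (𝓝 (|M| * 0)) :=
    (Tendsto.const_div_atTop h0 |s|).const_mul _
  rw [mul_zero] at h1
  filter_upwards [h1.eventually (gt_mem_nhds he), hL.eventually_gt_atTop 0] with n hn h2 t ht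
  have h3 : 0 < √(L n) := Real.sqrt_pos.2 h2
  refine le_trans ?_ hn.le
  rw [abs_div, abs_of_pos h3]
  refine mul_le_mul (le_abs_self M) ?_ (by positivity) (abs_nonneg _)
  exact div_le_div_of_nonneg_right ht h3.le

theorem exp_neg_sub {x y : ℝ} (hx : 0 ≤ x) (hy : 0 ≤ y) : |Real.exp (-x) - Real.exp (-y)| ≤ |x - y| := by
  have w : ∀ x y : ℝ, 0 ≤ x → x ≤ y → |Real.exp (-x) - Real.exp (-y)| ≤ |x - y| := by
    intro x y hx hxy
    have w1 : Real.exp (-y) ≤ Real.exp (-x) := Real.exp_le_exp.2 (by linarith)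
    rw [abs_of_nonneg (by linarith), abs_of_nonpos (by linarith)]
    have w2 : Real.exp (-y) = Real.exp (-x) * Real.exp (-(y - x)) := by
      rw [← Real.exp_add]
      congr 1
      ring
    have w3 : 1 - (y - x) ≤ Real.exp (-(y - x)) := by
      have := Real.add_one_le_exp (-(y - x))
      linarith
    have w4 : Real.exp (-x) ≤ 1 := Real.exp_le_one_iff.2 (by linarith)
    have w5 : 0 < Real.exp (-x) := Real.exp_pos _
    rw [w2]
    nlinarith
  rcases le_total x y with hxy | hxy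
  · exact w x y hx hxy
  · rw [abs_sub_comm, abs_sub_comm x y]
    exact w y x hy hxy

section

variable {Φ : ℕ → ℝ → ℂ} {ψ : ℕ → ℕ → ℝ → ℂ} {K : ℕ → ℕ} {L : ℕ → ℝ} {a r : ℝ}

/-- **the tip** (as `tip_lim`, along any scale `L`) -/
theorem tipL (ha : 0 < a) (hr0 : 0 < r) (h1 : CylLim Φ a) (h2 : TipCyl Φ ψ)
    (hψ : ∀ C b, Continuous (ψ C b)) (hψ0 : ∀ C b, ψ C b 0 = 1) (hK : Tendsto K atTop atTop) (hL : Tendsto L atTop atTop)
    (hr : Tendsto (fun n : ℕ => Real.log ((2 ^ K n : ℕ) : ℝ) / L n) atTop (𝓝 r)) (s e : ℝ) (he : 0 < e) :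
    ∃ C0 : ℕ, ∀ C, C0 ≤ C → ∀ᶠ n : ℕ in atTop,
      ‖ψ C (K n - C) (s / √(L n)) - ((Real.exp (-(a * r / 2 * s ^ 2)) : ℝ) : ℂ)‖ ≤ e := by
  set g : ℝ := Real.exp (-(a * r / 2 * s ^ 2)) with hg
  have hg0 : 0 < g := Real.exp_pos _
  set d : ℝ := min (g ^ 2 / 2) (e * g) with hd
  have hd0 : 0 < d := lt_min (by positivity) (by positivity)
  obtain ⟨C0, hC0⟩ := h2 (d / 4) (by positivity)
  refine ⟨C0, fun C hC => ?_⟩
  obtain ⟨M, hM⟩ := hC0 C hC
  have hKC : Tendsto (fun n => K n - C) atTop atTop := (tendsto_sub_atTop_nat C).comp hK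
  have k1 : Tendsto (fun n => 2 ^ K n) atTop atTop :=
    (tendsto_pow_atTop_atTop_of_one_lt (by norm_num)).comp hK
  have e1 := hKC.eventually hM
  have e2 := k1.eventually (h1 (|s| * √(r + 1)) (d / 4) (by positivity))
  have e3 := div_sqrtL hL M s (d / 4) (by positivity)
  have e4 := hr.eventually (Metric.ball_mem_nhds r (show 0 < min 1 (d / 4 / (a * s ^ 2 + 1)) from
    lt_min one_pos (by positivity)))
  filter_upwards [e1, e2, e3, e4, hK.eventually_ge_atTop C, hK.eventually_ge_atTop 1, hL.eventually_gt_atTop 0]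
    with n g1 g2 g3 g4 g5 g6 hl
  have hsl : 0 < √(L n) := Real.sqrt_pos.2 hl
  have hk1 : (1 : ℝ) < ((2 ^ K n : ℕ) : ℝ) := by
    have : 1 < 2 ^ K n := Nat.one_lt_two_pow (by omega)
    exact_mod_cast this
  have hlk : 0 < Real.log ((2 ^ K n : ℕ) : ℝ) := Real.log_pos hk1
  set ρ : ℝ := Real.log ((2 ^ K n : ℕ) : ℝ) / L n with hρ
  have hρ0 : 0 < ρ := div_pos hlk hl
  rw [Real.dist_eq, lt_min_iff] at g4
  have hρ1 : ρ ≤ r + 1 := by
    have := (abs_lt.1 g4.1).2
    linarith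
  have hKn : K n - C + C = K n := Nat.sub_add_cancel g5
  have key : ∀ t : ℝ, |t| ≤ |s| → ‖ψ C (K n - C) (t / √(L n)) ^ 2 -
      ((Real.exp (-(a * r / 2 * t ^ 2)) : ℝ) : ℂ) ^ 2‖ ≤ d := by
    intro t ht
    have f1 := g1 (t / √(L n))
    rw [hKn] at f1
    have f2 : ‖Φ (2 ^ K n) (t / √(L n)) - ((Real.exp (-(a * (t * √ρ) ^ 2)) : ℝ) : ℂ)‖ ≤ d / 4 := by
      have : t / √(L n) = t * √ρ / √(Real.log ((2 ^ K n : ℕ) : ℝ)) := by
        rw [hρ, Real.sqrt_div hlk.le]
        field_simp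
      rw [this]
      refine g2 (t * √ρ) ?_
      rw [abs_mul, abs_of_nonneg (Real.sqrt_nonneg ρ)]
      exact mul_le_mul ht (Real.sqrt_le_sqrt hρ1) (Real.sqrt_nonneg _) (abs_nonneg _)
    have f3 := g3 t ht
    have f4 : |Real.exp (-(a * (t * √ρ) ^ 2)) - Real.exp (-(a * r / 2 * t ^ 2)) ^ 2| ≤ d / 4 := by
      have q1 : (t * √ρ) ^ 2 = t ^ 2 * ρ := by
        rw [mul_pow, Real.sq_sqrt hρ0.le]
      have q2 : Real.exp (-(a * r / 2 * t ^ 2)) ^ 2 = Real.exp (-(a * t ^ 2 * r)) := by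
        rw [← Real.exp_nat_mul]
        congr 1
        push_cast
        ring
      rw [q1, q2]
      have q4 := exp_neg_sub (x := a * (t ^ 2 * ρ)) (y := a * t ^ 2 * r) (by positivity) (by positivity)
      refine q4.trans ?_
      have q5 : a * (t ^ 2 * ρ) - a * t ^ 2 * r = a * t ^ 2 * (ρ - r) := by ring
      rw [q5, abs_mul, abs_of_nonneg (by positivity : (0 : ℝ) ≤ a * t ^ 2)]
      have q6 : t ^ 2 ≤ s ^ 2 := sq_le_sq.2 ht
      have q7 : a * t ^ 2 ≤ a * s ^ 2 + 1 := by nlinarith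
      calc a * t ^ 2 * |ρ - r| ≤ (a * s ^ 2 + 1) * (d / 4 / (a * s ^ 2 + 1)) :=
            mul_le_mul q7 g4.2.le (abs_nonneg _) (by positivity)
        _ = d / 4 := by field_simp
    have : ψ C (K n - C) (t / √(L n)) ^ 2 - ((Real.exp (-(a * r / 2 * t ^ 2)) : ℝ) : ℂ) ^ 2 =
        -(Φ (2 ^ K n) (t / √(L n)) - ψ C (K n - C) (t / √(L n)) ^ 2) +
        ((Φ (2 ^ K n) (t / √(L n)) - ((Real.exp (-(a * (t * √ρ) ^ 2)) : ℝ) : ℂ)) +
        ((Real.exp (-(a * (t * √ρ) ^ 2)) - Real.exp (-(a * r / 2 * t ^ 2)) ^ 2 : ℝ) : ℂ)) := by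
      push_cast
      ring
    rw [this]
    refine (norm_add_le _ _).trans ?_
    refine (add_le_add le_rfl (norm_add_le _ _)).trans ?_
    rw [norm_neg, Complex.norm_real (Real.exp (-(a * (t * √ρ) ^ 2)) - Real.exp (-(a * r / 2 * t ^ 2)) ^ 2),
      Real.norm_eq_abs]
    linarith
  have hfin := close_of_sq (ψ := fun t => ψ C (K n - C) (t / √(L n)))
    (G := fun t => Real.exp (-(a * r / 2 * t ^ 2))) (s := s) (e := d) (g := g)
    ((hψ _ _).comp (continuous_id.div_const _)) (by simp [hψ0]) hg0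
    (lt_of_le_of_lt (min_le_left _ _) (by have := pow_pos hg0 2; linarith))
    (fun t ht => by
      rw [hg]
      refine Real.exp_le_exp.2 ?_
      have : t ^ 2 ≤ s ^ 2 := sq_le_sq.2 (by
        have := Set.abs_sub_left_of_mem_uIcc ht
        simpa using this)
      have h3 : 0 < a * r / 2 := by positivity
      nlinarith)
    (fun t ht => key t (by
      have := Set.abs_sub_left_of_mem_uIcc ht
      simpa using this))
  refine hfin.trans ?_
  rw [div_le_iff₀ hg0]
  exact min_le_right _ _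

/-- **both ends** (as `char_lim2`, along any scale `L`) -/
theorem charL2 {P : ℕ → ℝ → ℝ → ℂ} (ha : 0 < a) (hr0 : 0 < r) (h1 : CylLim Φ a) (h2 : TipCyl Φ ψ)
    (h3 : TipNN P ψ K) (hψ : ∀ C b, Continuous (ψ C b)) (hψ0 : ∀ C b, ψ C b 0 = 1) (hψ1 : ∀ C b u, ‖ψ C b u‖ ≤ 1)
    (hK : Tendsto K atTop atTop) (hL : Tendsto L atTop atTop)
    (hr : Tendsto (fun n : ℕ => Real.log ((2 ^ K n : ℕ) : ℝ) / L n) atTop (𝓝 r)) (s t : ℝ) :
    Tendsto (fun n : ℕ => P n (s / √(L n)) (t / √(L n))) atTop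
      (𝓝 ((Real.exp (-(a * r / 2 * (s ^ 2 + t ^ 2))) : ℝ) : ℂ)) := by
  rw [Metric.tendsto_nhds]
  intro e he
  obtain ⟨C0, hC0⟩ := tipL ha hr0 h1 h2 hψ hψ0 hK hL hr s (e / 6) (by positivity)
  obtain ⟨C2, hC2⟩ := tipL ha hr0 h1 h2 hψ hψ0 hK hL hr t (e / 6) (by positivity)
  obtain ⟨C1, hC1⟩ := h3 (e / 6) (by positivity)
  set C := max C0 (max C1 C2) with hC
  obtain ⟨M, hM⟩ := hC1 C (by omega)
  filter_upwards [hC0 C (by omega), hC2 C (by omega), hM, div_sqrtL hL M s (e / 6) (by positivity),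
    div_sqrtL hL M t (e / 6) (by positivity)] with n g1 g1' g2 g3 g3'
  have g4 := g2 (s / √(L n)) (t / √(L n))
  have g5 := g3 s le_rfl
  have g5' := g3' t le_rfl
  rw [dist_eq_norm]
  set x := ψ C (K n - C) (s / √(L n))
  set y := ψ C (K n - C) (t / √(L n))
  have hE : Real.exp (-(a * r / 2 * (s ^ 2 + t ^ 2))) =
      Real.exp (-(a * r / 2 * s ^ 2)) * Real.exp (-(a * r / 2 * t ^ 2)) := by
    rw [← Real.exp_add]
    congr 1
    ring
  rw [hE]
  have h9 : ‖((Real.exp (-(a * r / 2 * s ^ 2)) : ℝ) : ℂ)‖ ≤ 1 := by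
    rw [Complex.norm_real, Real.norm_of_nonneg (Real.exp_pos _).le]
    exact Real.exp_le_one_iff.2 (by
      have : 0 ≤ a * r / 2 * s ^ 2 := by positivity
      linarith)
  set G := ((Real.exp (-(a * r / 2 * s ^ 2)) : ℝ) : ℂ) with hG
  set H := ((Real.exp (-(a * r / 2 * t ^ 2)) : ℝ) : ℂ) with hH
  have : P n (s / √(L n)) (t / √(L n)) -
      ((Real.exp (-(a * r / 2 * s ^ 2)) * Real.exp (-(a * r / 2 * t ^ 2)) : ℝ) : ℂ) =
      (P n (s / √(L n)) (t / √(L n)) - x * y) + ((x - G) * y + G * (y - H)) := by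
    rw [Complex.ofReal_mul, ← hG, ← hH]
    ring
  rw [this]
  refine (norm_add_le _ _).trans_lt ?_
  have g6 : ‖(x - G) * y + G * (y - H)‖ ≤ e / 6 + e / 6 := by
    refine (norm_add_le _ _).trans (add_le_add ?_ ?_)
    · rw [norm_mul]
      calc _ ≤ e / 6 * 1 := mul_le_mul g1 (hψ1 _ _ _) (norm_nonneg _) (by positivity)
        _ = e / 6 := mul_one _
    · rw [norm_mul]
      calc _ ≤ 1 * (e / 6) := mul_le_mul h9 g1' (norm_nonneg _) zero_le_one
        _ = e / 6 := one_mul _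
  have g7 : M * (|s / √(L n)| + |t / √(L n)|) = M * |s / √(L n)| + M * |t / √(L n)| := by ring
  rw [g7] at g4
  linarith

end

/-- the characteristic function of two independent centred Gaussian variables -/
theorem char_prod (v : NNReal) (s t : ℝ) :
    ∫ p, Complex.exp (((s * p.1 + t * p.2 : ℝ) : ℂ) * Complex.I) ∂((gaussianReal 0 v).prod (gaussianReal 0 v)) =
      ((Real.exp (-((v : ℝ) * 1 / 2 * (s ^ 2 + t ^ 2))) : ℝ) : ℂ) := by
  have h1 : ∀ p : ℝ × ℝ, Complex.exp (((s * p.1 + t * p.2 : ℝ) : ℂ) * Complex.I) =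
      Complex.exp ((s : ℂ) * (p.1 : ℂ) * Complex.I) * Complex.exp ((t : ℂ) * (p.2 : ℂ) * Complex.I) := by
    intro p
    rw [← Complex.exp_add]
    congr 1
    push_cast
    ring
  simp_rw [h1]
  rw [integral_prod_mul (μ := gaussianReal 0 v) (ν := gaussianReal 0 v)
    (fun x : ℝ => Complex.exp ((s : ℂ) * (x : ℂ) * Complex.I)) (fun x : ℝ => Complex.exp ((t : ℂ) * (x : ℂ) * Complex.I)),
    ← charFun_apply_real, ← charFun_apply_real, charFun_gaussianReal, charFun_gaussianReal, ← Complex.exp_add]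
  push_cast
  congr 1
  ring

end PW

end

noncomputable section

open scoped Classical

open MeasureTheory ProbabilityTheory

namespace NTSF

namespace CW

open Filter Topology

open HexObs hiding pos

open HexObs.TIW HexObs.SDN HexObs.PWd

open Pool.Agent.NTS.Res Pool.Agent.PW.Res

open NTF (JJ)

/-! ### the sum over the critical walks as a sum over one index -/

/-- the weight -/
def wtX (x : ℂ) (i : Σ n : ℕ, (Fin n → Fin 3)) : ℝ := if i.2 ∈ sawTo x i.1 then xc ^ i.1 else 0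

theorem wtX_nonneg (x : ℂ) (i : Σ n : ℕ, (Fin n → Fin 3)) : 0 ≤ wtX x i := by
  unfold wtX
  split_ifs
  · exact pow_nonneg xc_pos.le _
  · exact le_rfl

theorem wtX_fib {E : Type*} [AddCommGroup E] [Module ℝ E] (x : ℂ) (n : ℕ) (F : (Σ n : ℕ, (Fin n → Fin 3)) → E) :
    ∑ s : Fin n → Fin 3, wtX x ⟨n, s⟩ • F ⟨n, s⟩ = xc ^ n • ∑ s ∈ sawTo x n, F ⟨n, s⟩ := by
  rw [Finset.smul_sum, ← Finset.sum_subset (Finset.subset_univ (sawTo x n))]
  · refine Finset.sum_congr rfl fun s hs => ?_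
    unfold wtX
    rw [if_pos hs]
  · intro s _ hs
    unfold wtX
    rw [if_neg hs, zero_smul]

theorem wtX_summ {x : ℂ} (hs : Summable fun n => ((sawTo x n).card : ℝ) * xc ^ n) : Summable (wtX x) := by
  rw [summable_sigma_of_nonneg (wtX_nonneg x)]
  refine ⟨fun n => Summable.of_finite, ?_⟩
  refine hs.congr fun n => ?_
  rw [tsum_fintype]
  have h1 := wtX_fib x n (fun _ => (1 : ℝ))
  simp only [smul_eq_mul, mul_one, Finset.sum_const, nsmul_eq_mul] at h1
  rw [h1, mul_comm]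

theorem wtX_sum {E : Type*} [NormedAddCommGroup E] [NormedSpace ℝ E] [CompleteSpace E] {x : ℂ}
    (hs : Summable fun n => ((sawTo x n).card : ℝ) * xc ^ n) (F : (Σ n : ℕ, (Fin n → Fin 3)) → E) {B : ℝ}
    (hB : ∀ i, ‖F i‖ ≤ B) :
    ∑' i, wtX x i • F i = ∑' n, xc ^ n • ∑ s ∈ sawTo x n, F ⟨n, s⟩ := by
  have h1 : Summable fun i => wtX x i • F i := by
    refine Summable.of_norm_bounded ((wtX_summ hs).mul_right B) fun i => ?_
    rw [norm_smul, Real.norm_of_nonneg (wtX_nonneg x i)]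
    exact mul_le_mul_of_nonneg_left (hB i) (wtX_nonneg x i)
  rw [h1.tsum_sigma' fun n => Summable.of_finite]
  refine tsum_congr fun n => ?_
  rw [tsum_fintype, wtX_fib]

theorem wtX_GX {x : ℂ} (hs : Summable fun n => ((sawTo x n).card : ℝ) * xc ^ n) : ∑' i, wtX x i = GX x := by
  have h1 := wtX_sum hs (fun _ => (1 : ℝ)) (B := 1) (fun _ => by simp)
  simp only [smul_eq_mul, mul_one, Finset.sum_const, nsmul_eq_mul] at h1
  rw [h1]
  unfold GX
  exact tsum_congr fun n => mul_comm _ _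

theorem wtX_JX {x : ℂ} (hs : Summable fun n => ((sawTo x n).card : ℝ) * xc ^ n) (u v : ℝ) :
    ∑' i, (wtX x i : ℂ) * Complex.exp (((u * windS i.2 i.1 + v * windE i.2 i.1 : ℝ) : ℂ) * Complex.I) = JX x u v := by
  have h1 := wtX_sum hs (fun i => Complex.exp (((u * windS i.2 i.1 + v * windE i.2 i.1 : ℝ) : ℂ) * Complex.I)) (B := 1)
    (fun i => (Complex.norm_exp_ofReal_mul_I _).le)
  simp only [Complex.real_smul] at h1
  rw [h1]
  unfold JX
  exact tsum_congr fun n => mul_comm _ _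

/-! ### the shells -/

/-- the shell of `q` -/
def shX (q : Pt) : ℕ := Nat.log 2 (hn q).toNat

theorem shX_spec {q : Pt} (hq : 0 < hn q) : (2 : ℤ) ^ shX q ≤ hn q ∧ hn q < 2 ^ (shX q + 1) := by
  have h1 : (hn q).toNat ≠ 0 := by omega
  have h2 := Nat.pow_log_le_self 2 h1
  have h3 := Nat.lt_pow_succ_log_self (b := 2) (by norm_num) (hn q).toNat
  have h4 : (((hn q).toNat : ℕ) : ℤ) = hn q := Int.toNat_of_nonneg hq.le
  unfold shX
  constructor
  · rw [← h4]
    exact_mod_cast h2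
  · rw [← h4]
    exact_mod_cast h3

/-- **the law of the windings of the critical walk** -/
theorem windX {Φ : ℕ → ℝ → ℂ} {ψ : ℕ → ℕ → ℝ → ℂ} (h1 : PW.CylLim Φ (8 / 3)) (h2 : PW.TipCyl Φ ψ)
    (hψ : ∀ C b, Continuous (ψ C b)) (hψ0 : ∀ C b, ψ C b 0 = 1) (hψ1 : ∀ C b u, ‖ψ C b u‖ ≤ 1) (h3 : TipX ψ)
    (hsum : ∀ q : Pt, q ≠ 0 → Summable fun n : ℕ => ((sawTo (JJ q) n).card : ℝ) * xc ^ n) : WindX := by
  intro f ε hε
  by_contra hc
  push Not at hc
  choose p hp1 hp2 using hc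
  -- the sequence
  set y : ℕ → Pt := fun j => p (j + 1) with hy
  have hy1 : ∀ j : ℕ, (j : ℝ) + 1 ≤ ‖JJ (y j)‖ := fun j => hp1 _
  have hpos : ∀ j, 0 < ‖JJ (y j)‖ := fun j => lt_of_lt_of_le (by positivity) (hy1 j)
  have hne : ∀ j, y j ≠ 0 := by
    intro j h
    have h4 := hpos j
    rw [h] at h4
    have h5 : NTF.JJ (0 : Pt) = 0 := by
      apply Complex.ext <;> simp [NTF.JJ]
    rw [h5, norm_zero] at h4
    exact lt_irrefl _ h4
  have hs := fun j => hsum (y j) (hne j)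
  have hviol := fun j : ℕ => hp2 ((j : ℝ) + 1)
  -- the norm
  set L : ℕ → ℝ := fun j => Real.log ‖JJ (y j)‖ with hLd
  have hLj : ∀ j : ℕ, Real.log ((j : ℝ) + 1) ≤ L j := fun j => Real.log_le_log (by positivity) (hy1 j)
  have hL : Tendsto L atTop atTop := by
    refine tendsto_atTop_mono hLj ?_
    exact Real.tendsto_log_atTop.comp (tendsto_atTop_add_const_right _ _ tendsto_natCast_atTop_atTop)
  have hn0 : ∀ j, 0 < hn (y j) := by
    intro j
    have h4 := norm_le_hn (y j)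
    have h5 := hpos j
    have : (0 : ℝ) < hn (y j) := lt_of_lt_of_le h5 h4
    exact_mod_cast this
  set K : ℕ → ℕ := fun j => shX (y j) with hKd
  have hKlo : ∀ j, ‖JJ (y j)‖ < 2 ^ (K j + 1) := by
    intro j
    refine lt_of_le_of_lt (norm_le_hn _) ?_
    exact_mod_cast (shX_spec (hn0 j)).2
  have hKhi : ∀ j, (2 : ℝ) ^ K j ≤ 2 * ‖JJ (y j)‖ := by
    intro j
    refine le_trans ?_ (hn_le_norm _)
    exact_mod_cast (shX_spec (hn0 j)).1
  have l1 : ∀ j, L j < ((K j : ℝ) + 1) * Real.log 2 := by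
    intro j
    have h4 := Real.log_lt_log (hpos j) (hKlo j)
    rw [Real.log_pow] at h4
    push_cast at h4
    exact h4
  have l2 : ∀ j, (K j : ℝ) * Real.log 2 ≤ Real.log 2 + L j := by
    intro j
    have h4 := Real.log_le_log (by positivity) (hKhi j)
    rw [Real.log_pow, Real.log_mul (by norm_num) (hpos j).ne'] at h4
    exact h4
  have hlog2 : 0 < Real.log 2 := Real.log_pos (by norm_num)
  have hK : Tendsto K atTop atTop := by
    have h4 : Tendsto (fun j => L j / Real.log 2 - 1) atTop atTop :=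
      tendsto_atTop_add_const_right _ _ (hL.atTop_div_const hlog2)
    have h5 : Tendsto (fun j => (K j : ℝ)) atTop atTop := by
      refine tendsto_atTop_mono (fun j => ?_) h4
      rw [sub_le_iff_le_add, div_le_iff₀ hlog2]
      exact (l1 j).le
    exact tendsto_natCast_atTop_iff.1 h5
  have hr : Tendsto (fun j => Real.log ((2 ^ K j : ℕ) : ℝ) / L j) atTop (𝓝 1) := by
    have h4 : Tendsto (fun j => Real.log 2 / L j) atTop (𝓝 0) := Tendsto.const_div_atTop hL _
    have h5 : Tendsto (fun j => 1 - Real.log 2 / L j) atTop (𝓝 (1 - 0)) := h4.const_sub 1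
    have h6 : Tendsto (fun j => 1 + Real.log 2 / L j) atTop (𝓝 (1 + 0)) := h4.const_add 1
    rw [sub_zero] at h5
    rw [add_zero] at h6
    refine tendsto_of_tendsto_of_tendsto_of_le_of_le' h5 h6 ?_ ?_
    · filter_upwards [hL.eventually_gt_atTop 0] with j hj
      rw [← sub_nonneg]
      have h7 : Real.log ((2 ^ K j : ℕ) : ℝ) = K j * Real.log 2 := by
        push_cast
        exact Real.log_pow _ _
      have h8 : Real.log ((2 ^ K j : ℕ) : ℝ) / L j - (1 - Real.log 2 / L j) =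
          (((K j : ℝ) + 1) * Real.log 2 - L j) / L j := by
        rw [h7]
        field_simp
        ring
      rw [h8]
      exact div_nonneg (by have := l1 j; linarith) hj.le
    · filter_upwards [hL.eventually_gt_atTop 0] with j hj
      rw [← sub_nonneg]
      have h7 : Real.log ((2 ^ K j : ℕ) : ℝ) = K j * Real.log 2 := by
        push_cast
        exact Real.log_pow _ _
      have h8 : (1 + Real.log 2 / L j) - Real.log ((2 ^ K j : ℕ) : ℝ) / L j =
          (Real.log 2 + L j - K j * Real.log 2) / L j := by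
        rw [h7]
        field_simp
        ring
      rw [h8]
      exact div_nonneg (by have := l2 j; linarith) hj.le
  -- the sum is positive
  have hG0 : ∀ j, 0 ≤ GX (JJ (y j)) := fun j =>
    tsum_nonneg fun n => mul_nonneg (Nat.cast_nonneg _) (pow_nonneg xc_pos.le _)
  have hGp : ∀ j, 0 < GX (JJ (y j)) := by
    intro j
    refine lt_of_le_of_ne (hG0 j) fun h0 => ?_
    have h4 := hviol j
    have h5 : ∀ n, ((sawTo (JJ (y j)) n).card : ℝ) * xc ^ n = 0 := by
      have h6 : HasSum (fun n => ((sawTo (JJ (y j)) n).card : ℝ) * xc ^ n) 0 := by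
        have := (hs j).hasSum
        unfold GX at h0
        rwa [← h0] at this
      exact fun n => congrFun ((hasSum_zero_iff_of_nonneg fun n =>
        mul_nonneg (Nat.cast_nonneg _) (pow_nonneg xc_pos.le _)).1 h6) n
    have h7 : ∀ n, sawTo (JJ (y j)) n = ∅ := by
      intro n
      have h8 := h5 n
      rcases mul_eq_zero.1 h8 with h9 | h9
      · exact Finset.card_eq_zero.1 (by exact_mod_cast h9)
      · exact absurd h9 (pow_pos xc_pos _).ne'
    simp only [hy] at h7 h0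
    rw [← h0] at h4
    simp [h7] at h4
  -- the characteristic functions
  set P : ℕ → ℝ → ℝ → ℂ := fun j u v => JX (JJ (y j)) u v / ((GX (JJ (y j)) : ℝ) : ℂ) with hP
  have hNN : PW.TipNN P ψ K := by
    intro e he
    obtain ⟨C0, hC0⟩ := h3 e he
    refine ⟨C0, fun C hC => ?_⟩
    obtain ⟨M, k0, hM⟩ := hC0 C hC
    refine ⟨M, ?_⟩
    filter_upwards [hK.eventually_ge_atTop k0] with j hj u v
    obtain ⟨a1, a2⟩ := shX_spec (hn0 j)
    have h4 := hM (K j) (y j) hj a1 (a2.le.trans (pow_le_pow_right₀ (by norm_num) (by show K j + 1 ≤ K j + 3; omega))) u v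
    have hGne : ((GX (JJ (y j)) : ℝ) : ℂ) ≠ 0 := Complex.ofReal_ne_zero.2 (hGp j).ne'
    have h5 : P j u v - ψ C (K j - C) u * ψ C (K j - C) v =
        (JX (JJ (y j)) u v - ψ C (K j - C) u * ψ C (K j - C) v * ((GX (JJ (y j)) : ℝ) : ℂ)) /
          ((GX (JJ (y j)) : ℝ) : ℂ) := by
      rw [sub_div, mul_div_cancel_right₀ _ hGne]
    rw [h5, norm_div, Complex.norm_real, Real.norm_of_nonneg (hG0 j), div_le_iff₀ (hGp j)]
    exact h4
  have hchar := fun s t : ℝ => PW.charL2 (by norm_num : (0 : ℝ) < 8 / 3) one_pos h1 h2 hNN hψ hψ0 hψ1 hK hL hr s t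
  -- the law
  have hlim := PLC2.lim_pair (μ := (gaussianReal 0 (8 / 3)).prod (gaussianReal 0 (8 / 3)))
    (q := fun j => wtX (JJ (y j)))
    (X := fun j i => windS i.2 i.1 / √(L j)) (Y := fun j i => windE i.2 i.1 / √(L j))
    (fun j i => wtX_nonneg _ i) (fun j => wtX_summ (hs j)) (fun j => by rw [wtX_GX (hs j)]; exact hGp j)
    (fun s t => by
      rw [PW.char_prod]
      have h4 : ((8 / 3 : NNReal) : ℝ) = 8 / 3 := by push_cast; norm_num
      rw [h4]
      refine (hchar s t).congr fun j => ?_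
      rw [hP]
      simp only
      rw [wtX_GX (hs j), ← wtX_JX (hs j)]
      congr 1
      refine tsum_congr fun i => ?_
      congr 4
      ring) f
  -- the contradiction
  have hev := hlim.eventually (Metric.ball_mem_nhds _ hε)
  obtain ⟨j, hj⟩ := hev.exists
  rw [Real.dist_eq, wtX_GX (hs j)] at hj
  have h4 := hviol j
  have h5 := wtX_sum (hs j) (fun i => f (windS i.2 i.1 / √(L j), windE i.2 i.1 / √(L j))) (B := ‖f‖)
    (fun i => f.norm_coe_le_norm _)
  simp only [smul_eq_mul] at h5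
  rw [h5] at hj
  have h6 : ∀ A c G : ℝ, 0 < G → |A / G - c| < ε → |A - c * G| < ε * G := by
    intro A c G hG h
    have : A - c * G = (A / G - c) * G := by field_simp
    rw [this, abs_mul, abs_of_pos hG]
    exact mul_lt_mul_of_pos_right h hG
  have h7 := h6 _ _ _ (hGp j) hj
  refine absurd h4 (not_lt.2 ?_)
  refine le_trans (le_of_eq ?_) h7.le
  congr 2
  refine tsum_congr fun n => mul_comm _ _

end CW

end NTSF

end
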