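import Pool.Agent.PLC.WTip
import Pool.Agent.PLC.WFin
import Pool.Agent.PLC.E1A
import Pool.Agent.PLC.TipCZ
import Pool.Agent.PW.CylJZ
import Pool.Agent.PW.CylLim

/-!
PLC (the critical two-point ensemble of the plane), row W (helper5): the public form.
-/

set_option autoImplicit false

noncomputable section

open scoped Classical

open MeasureTheory ProbabilityTheory

namespace NTSF

namespace CW

open HexObs hiding pos

open HexObs.TIW HexObs.SDN

open NTF (JJ)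

/-- the words: no hypothesis -/
theorem tipX : TipX psiW := tipX_of (HexObs.PLC.eF2 (PWN.tent_bump 0) (PWN.tent_one 0))

theorem psiW_le (C b : ℕ) (u : ℝ) : ‖psiW C b u‖ ≤ 1 := by
  unfold psiW
  by_cases h : 0 < PWN.MA (PWN.tent 0) (nref (b + C))
  · rw [if_pos h]
    obtain ⟨n, hn⟩ : ∃ n, n = nref (b + C) := ⟨_, rfl⟩
    obtain ⟨θ, hθ⟩ : ∃ θ : List Bool → ℝ, θ = fun t => u * th (2 ^ b / 2) t.length (pE t.length t) := ⟨_, rfl⟩
    have h2 := PW.mean_cs (S := PWN.AAF n) (p := PWN.pA (PWN.tent 0) n) θ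
    have e1 : PWN.EA (PWN.tent 0) n (qE (cosP (2 ^ b / 2) u)) =
        (∑ t ∈ PWN.AAF n, PWN.pA (PWN.tent 0) n t * Real.cos (θ t)) / PWN.MA (PWN.tent 0) n := by
      rw [hθ]
      rfl
    have e2 : PWN.EA (PWN.tent 0) n (qE (sinP (2 ^ b / 2) u)) =
        (∑ t ∈ PWN.AAF n, PWN.pA (PWN.tent 0) n t * Real.sin (θ t)) / PWN.MA (PWN.tent 0) n := by
      rw [hθ]
      rfl
    rw [← hn] at h ⊢
    have e3 : ((PWN.EA (PWN.tent 0) n (qE (cosP (2 ^ b / 2) u)) : ℝ) : ℂ) +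
        ((PWN.EA (PWN.tent 0) n (qE (sinP (2 ^ b / 2) u)) : ℝ) : ℂ) * Complex.I =
        (∑ t ∈ PWN.AAF n, (PWN.pA (PWN.tent 0) n t : ℂ) * Complex.exp ((θ t : ℂ) * Complex.I)) /
          ((PWN.MA (PWN.tent 0) n : ℝ) : ℂ) := by
      rw [h2, e1, e2]
      push_cast
      ring
    rw [e3, norm_div, Complex.norm_real, Real.norm_of_nonneg h.le, div_le_one h]
    refine (norm_sum_le _ _).trans ?_
    unfold PWN.MA
    refine Finset.sum_le_sum fun t _ => ?_
    rw [norm_mul, Complex.norm_exp_ofReal_mul_I, mul_one, Complex.norm_real,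
      Real.norm_of_nonneg (PWN.pA_nonneg (PWN.tent_bump 0) n t)]
  · rw [if_neg h]
    simp

/-- **the law of the windings of the critical walk** -/
theorem windX' : WindX :=
  windX PW.cylLim PWJ.tipCyl psiW_cont psiW_zero psiW_le tipX fun _ hq => GX_summ hq

/-- **the public form** -/
theorem wind_pub (h : WindX) (f : BoundedContinuousFunction (ℝ × ℝ) ℝ) (ε : ℝ) (hε : 0 < ε) : ∃ R : ℝ,
    ∀ x ∈ Pool.Agent.PLC.Res.vertices, R ≤ ‖x‖ →
    |(∑' n : ℕ, (∑ s ∈ (Pool.Agent.IW.Res.saw n).filter (fun s => Pool.Agent.IW.Res.pos s n = x),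
        f (Pool.Agent.PW.Res.windS s n / √(Real.log ‖x‖), Pool.Agent.PW.Res.windE s n / √(Real.log ‖x‖))) *
          Pool.Agent.PLC.Res.zc ^ n) / Pool.Agent.PLC.Res.G Pool.Agent.PLC.Res.zc x -
      ∫ p, f p ∂((gaussianReal 0 (8 / 3)).prod (gaussianReal 0 (8 / 3)))| ≤ ε := by
  obtain ⟨R, hR⟩ := h f ε hε
  obtain ⟨c, k0, hc, hlow⟩ := GX_low
  refine ⟨max R (2 ^ (k0 + 1)), ?_⟩
  rintro x ⟨n, s, rfl⟩ hx
  obtain ⟨q, h1, h2⟩ := pos_cls s n le_rfl
  have h1' : Pool.Agent.IW.Res.pos s n = JJ q := h1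
  rw [h1'] at hx ⊢
  have h3 := hR q ((le_max_left _ _).trans hx)
  have h4 : (2 : ℝ) ^ (k0 + 1) ≤ ‖JJ q‖ := (le_max_right _ _).trans hx
  have h5 : (2 : ℤ) ^ (k0 + 1) ≤ hn q := by
    have h6 := h4.trans (JJ_le_hn q)
    exact_mod_cast h6
  have hn0 : 0 < hn q := lt_of_lt_of_le (by positivity) h5
  obtain ⟨K, hK⟩ : ∃ K : ℕ, K = Nat.log 2 (hn q).toNat := ⟨_, rfl⟩
  have e0 : ((hn q).toNat : ℤ) = hn q := Int.toNat_of_nonneg hn0.le
  have e1 : (hn q).toNat ≠ 0 := by omega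
  have e2 : (2 : ℤ) ^ K ≤ hn q := by
    have := Nat.pow_log_le_self 2 e1
    rw [← hK] at this
    rw [← e0]
    exact_mod_cast this
  have e3 : hn q ≤ 2 ^ (K + 3) := by
    have := Nat.lt_pow_succ_log_self (b := 2) (by norm_num) (hn q).toNat
    rw [← hK] at this
    have h6 : hn q < 2 ^ (K + 1) := by
      rw [← e0]
      exact_mod_cast this
    exact h6.le.trans (pow_le_pow_right₀ (by norm_num) (by omega))
  have e4 : k0 ≤ K := by
    rw [hK]
    refine Nat.le_log_of_pow_le (by norm_num) ?_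
    have h6 : (2 : ℤ) ^ k0 ≤ ((hn q).toNat : ℤ) := by
      rw [e0]
      exact (pow_le_pow_right₀ (by norm_num) (by omega)).trans h5
    exact_mod_cast h6
  have hcl : cls false q ∨ cls true q := by
    cases hn : n.bodd
    · rw [hn] at h2
      exact Or.inl h2
    · rw [hn] at h2
      exact Or.inr h2
  have h6 := hlow K q e4 e2 e3 hcl
  have h7 : 0 < GX (JJ q) := lt_of_lt_of_le (mul_pos hc (PWN.gK_pos K)) h6
  have h8 : Pool.Agent.PLC.Res.G Pool.Agent.PLC.Res.zc (JJ q) = GX (JJ q) := by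
    rw [Pool.Agent.PLC.zc_eq]
    rfl
  rw [h8, Pool.Agent.PLC.zc_eq]
  have h9 : ∀ X I G : ℝ, 0 < G → |X - I * G| ≤ ε * G → |X / G - I| ≤ ε := by
    intro X I G hG hX
    have h10 : X / G - I = (X - I * G) / G := by
      field_simp
    rw [h10, abs_div, abs_of_pos hG, div_le_iff₀ hG]
    exact hX
  exact h9 _ _ _ h7 h3

/-- **the winding of the critical walk around its two ends** -/
theorem wind_res (f : BoundedContinuousFunction (ℝ × ℝ) ℝ) (ε : ℝ) (hε : 0 < ε) : ∃ R : ℝ,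
    ∀ x ∈ Pool.Agent.PLC.Res.vertices, R ≤ ‖x‖ →
    |(∑' n : ℕ, (∑ s ∈ (Pool.Agent.IW.Res.saw n).filter (fun s => Pool.Agent.IW.Res.pos s n = x),
        f (Pool.Agent.PW.Res.windS s n / √(Real.log ‖x‖), Pool.Agent.PW.Res.windE s n / √(Real.log ‖x‖))) *
          Pool.Agent.PLC.Res.zc ^ n) / Pool.Agent.PLC.Res.G Pool.Agent.PLC.Res.zc x -
      ∫ p, f p ∂((gaussianReal 0 (8 / 3)).prod (gaussianReal 0 (8 / 3)))| ≤ ε :=
  wind_pub windX' f ε hε

end CW

end NTSF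

end
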