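import Pool.Agent.PLC.NbZ
import Pool.Agent.PLC.PubRA
import Pool.Agent.PLC.TipCZ
import Pool.Agent.PLC.E1C
import Pool.Agent.PLC.WPub
import Pool.Agent.TPF.NC
import Pool.Agent.TIW.IWF

/-!
PLC, the final statement: the self-avoiding walk from `0` to a distant vertex `x` with the weight `zc ^ length`.
-/

set_option autoImplicit false

open MeasureTheory Filter Topology ProbabilityTheory
open scoped Classical

namespace Pool.Agent.PLC

open Pool.Agent.IW.Res Res

/-- the beginnings of the n-step walks, any set of beginnings -/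
theorem first_lim {P : Measure (ℕ → Fin 3)} [IsProbabilityMeasure P] (hb : BP P) (m : ℕ) (W : Set (Fin m → Fin 3)) :
    Tendsto (fun n : ℕ => (((saw n).filter (fun s => ∃ h : m ≤ n, (fun i : Fin m => s (Fin.castLE h i)) ∈ W)).card : ℝ) /
      ((saw n).card : ℝ)) atTop (𝓝 (P.real {w | (fun i : Fin m => w i) ∈ W})) := by
  obtain ⟨ex, hex⟩ : ∃ ex : (Fin m → Fin 3) → ℕ → Fin 3, ∀ η (i : Fin m), ex η i = η i :=
    ⟨fun η i => if h : i < m then η ⟨i, h⟩ else 0, fun η i => by simp [i.2]⟩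
  have h1 : P.real {w | (fun i : Fin m => w i) ∈ W} = ∑ η ∈ (Finset.univ : Finset (Fin m → Fin 3)).filter (· ∈ W),
      P.real {w | ∀ i, i < m → w i = ex η i} := by
    have e1 : {w : ℕ → Fin 3 | (fun i : Fin m => w i) ∈ W} = ⋃ η ∈ (Finset.univ : Finset (Fin m → Fin 3)).filter (· ∈ W),
        {w | ∀ i, i < m → w i = ex η i} := by
      ext w
      simp only [Set.mem_setOf_eq, Set.mem_iUnion, Finset.mem_filter, Finset.mem_univ, true_and, exists_prop]
      constructor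
      · intro h
        exact ⟨_, h, fun i hi => (hex (fun i : Fin m => w i) ⟨i, hi⟩).symm⟩
      · rintro ⟨η, hη, h⟩
        have : (fun i : Fin m => w i) = η := funext fun i => (h i i.2).trans (hex η i)
        rwa [this]
    rw [e1, measureReal_biUnion_finset]
    · intro η _ η' _ hne
      rw [Function.onFun, Set.disjoint_left]
      intro w h h'
      refine hne (funext fun i => ?_)
      rw [← hex η i, ← hex η' i, ← h i i.2, ← h' i i.2]
    · intro η _
      have e2 : {w : ℕ → Fin 3 | ∀ i, i < m → w i = ex η i} = ⋂ i : Fin m, {w | w i = ex η i} := by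
        ext w
        simp only [Set.mem_setOf_eq, Set.mem_iInter]
        exact ⟨fun h i => h i i.2, fun h i hi => h ⟨i, hi⟩⟩
      rw [e2]
      refine MeasurableSet.iInter fun i => ?_
      exact measurableSet_eq_fun (measurable_pi_apply (i : ℕ)) measurable_const
  rw [h1]
  have h2 := tendsto_finsetSum ((Finset.univ : Finset (Fin m → Fin 3)).filter (· ∈ W)) fun η _ => hb (ex η) m
  refine h2.congr' ?_
  filter_upwards [eventually_ge_atTop m] with n hn
  have h3 : (saw n).filter (fun s => ∃ h : m ≤ n, (fun i : Fin m => s (Fin.castLE h i)) ∈ W) =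
      ((Finset.univ : Finset (Fin m → Fin 3)).filter (· ∈ W)).biUnion fun η =>
        (saw n).filter (fun s => ∀ i : Fin n, (i : ℕ) < m → s i = ex η i) := by
    ext s
    simp only [Finset.mem_filter, Finset.mem_biUnion, Finset.mem_univ, true_and]
    constructor
    · rintro ⟨hs, h, hW⟩
      exact ⟨_, hW, hs, fun i hi => (hex (fun i : Fin m => s (Fin.castLE h i)) ⟨i, hi⟩).symm⟩
    · rintro ⟨η, hη, hs, h⟩
      refine ⟨hs, hn, ?_⟩
      have : (fun i : Fin m => s (Fin.castLE hn i)) = η := funext fun i => (h (Fin.castLE hn i) i.2).trans (hex η i)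
      rwa [this]
  rw [h3, Finset.card_biUnion]
  · rw [Nat.cast_sum, Finset.sum_div]
    rfl
  · intro η _ η' _ hne
    rw [Function.onFun, Finset.disjoint_left]
    intro s h h'
    refine hne (funext fun i => ?_)
    have h4 := (Finset.mem_filter.1 h).2 (Fin.castLE hn i) i.2
    have h5 := (Finset.mem_filter.1 h').2 (Fin.castLE hn i) i.2
    rw [← hex η i, ← hex η' i]
    exact h4.symm.trans h5

/-- regular variation of the critical two-point function, in every direction -/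
theorem rP {P : Measure (ℕ → Fin 3)} [IsProbabilityMeasure P] (hb : BP P) : ∀ ε : ℝ, 0 < ε → ∃ δ : ℝ, 0 < δ ∧
    ∀ x ∈ vertices, ∀ y ∈ vertices, 1 / δ ≤ ‖x‖ → ‖y - x‖ ≤ δ * ‖x‖ → |G zc y / G zc x - 1| ≤ ε := by
  intro ε hε
  obtain ⟨δ, hδ, h⟩ := HexObs.PLC.pubR_of HexObs.PLC.shF (f := step) (fun _ _ => rfl)
    (μ := ⨅ n : {n : ℕ // 1 ≤ n}, ((saw n.1).card : ℝ) ^ ((1 : ℝ) / (n.1 : ℝ))) (by simp only [saw_eq]) (G := G)
    (by
      intro z x
      unfold G
      refine tsum_congr fun n => ?_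
      rw [saw_eq]
      rfl)
    (fun ε hε => nb_step tpb (eP hb) hb hε) ε hε
  refine ⟨δ, hδ, ?_⟩
  rintro x ⟨n, s, rfl⟩ y ⟨m, s', rfl⟩ h1 h2
  exact h n m s s' h1 h2

/-- **the final statement** -/
theorem fin :
    (∀ ε : ℝ, 0 < ε → ∃ δ : ℝ, 0 < δ ∧ ∀ x ∈ vertices, ∀ y ∈ vertices, 1 / δ ≤ ‖x‖ → ‖y - x‖ ≤ δ * ‖x‖ →
      |G zc y / G zc x - 1| ≤ ε) ∧
    (∃ P : Measure (ℕ → Fin 3), IsProbabilityMeasure P ∧
      (∀ (m : ℕ) (W : Set (Fin m → Fin 3)), Tendsto (fun n : ℕ => (((saw n).filter (fun s => ∃ h : m ≤ n,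
        (fun i : Fin m => s (Fin.castLE h i)) ∈ W)).card : ℝ) / ((saw n).card : ℝ)) atTop
          (𝓝 (P.real {w | (fun i : Fin m => w i) ∈ W}))) ∧
      ∀ ε : ℝ, 0 < ε → ∃ δ : ℝ, 0 < δ ∧ ∀ x ∈ vertices, ∀ m : ℕ, 1 / δ ≤ ‖x‖ → (m : ℝ) ≤ δ * ‖x‖ ^ (4 / 3 : ℝ) →
        ∀ W V : Set (Fin m → Fin 3), |ends zc x m W V - P.real {w | (fun i : Fin m => w i) ∈ W} *
          P.real {w | (fun i : Fin m => w i) ∈ V} * G zc x| ≤ ε * G zc x) ∧
    ∀ (f : BoundedContinuousFunction (ℝ × ℝ) ℝ) (ε : ℝ), 0 < ε → ∃ R : ℝ, ∀ x ∈ vertices, R ≤ ‖x‖ →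
      |(∑' n : ℕ, (∑ s ∈ (saw n).filter (fun s => pos s n = x),
        f (Pool.Agent.PW.Res.windS s n / √(Real.log ‖x‖), Pool.Agent.PW.Res.windE s n / √(Real.log ‖x‖))) *
          zc ^ n) / G zc x - ∫ p, f p ∂((gaussianReal 0 (8 / 3)).prod (gaussianReal 0 (8 / 3)))| ≤ ε := by
  obtain ⟨⟨P, hP, -, hb⟩, -⟩ := HexObs.TIW.iw
  have hb' : BP P := hb
  exact ⟨rP hb', ⟨P, hP, first_lim hb', eP hb'⟩, NTSF.CW.wind_res⟩

end Pool.Agent.PLC
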