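import Pool.Agent.PLC.SmallP
import Pool.Agent.PLC.TipC
import Pool.Agent.PLC.ShC
import Pool.Agent.PW.TipTF

/-!
PLC: the two theorems for the words of the plane with a given end, without hypothesis

* **`tipP`** : the tip is asymptotically independent of the far functionals, with the mean of the plane ensemble;
* **`shP`** : far functionals do not see a shift of the end.
-/

set_option autoImplicit false

namespace HexObs

namespace PLC

open PWN SLW

theorem tipP {Lg : ℝ} {g : ℝ → ℝ} (hg : Bump Lg g) {u : ℝ} (hu : g u = 1) : TipC PlC g :=
  tipC_of cl_plC aReg smallN smallP seY momL mom1T hg hu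

theorem shP : ShC PlC := shC_of cl_plC smallP seY momL mom1T

end PLC

end HexObs
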