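import Pool.Agent.PLC.RInf

/-!
PLC, row E1b (helper11): the words with a given end, all last directions.
-/

set_option autoImplicit false

namespace HexObs

namespace PLC

open Finset TS SDN TIW SLW PWN Filter

open scoped ENNReal Topology

/-- the words with the end y -/
def Sy (y : Pt) : Set (List Bool) := {t | t ∈ SA ∧ en t = y}

lemma de_dirs (t : List Bool) : de t ∈ dirs := de_mem t

/-- the sum over the words with the end y -/
noncomputable def SS (y : Pt) (h : List Bool → ℝ) : ℝ := ∑' t : Sy y, xc ^ t.1.length * h t.1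

/-- the sum over the words with the end y and the last direction e -/
noncomputable def SE (e y : Pt) (h : List Bool → ℝ) : ℝ := ∑' t : Se e y, xc ^ t.1.length * h t.1

open Classical in
lemma SE_ind (e y : Pt) (h : List Bool → ℝ) :
    SE e y h = ∑' t : List Bool, Set.indicator (Se e y) (fun t => xc ^ t.length * h t) t :=
  tsum_subtype (Se e y) fun t => xc ^ t.length * h t

lemma summ_ind (e y : Pt) {h : List Bool → ℝ} (hh : ∀ t, |h t| ≤ 1) :
    Summable (Set.indicator (Se e y) fun t : List Bool => xc ^ t.length * h t) :=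
  summable_subtype_iff_indicator.1 (summ_Seq e y hh)

open Classical in
lemma ind_Sy (y : Pt) (h : List Bool → ℝ) (t : List Bool) :
    Set.indicator (Sy y) (fun t => xc ^ t.length * h t) t =
      ∑ e ∈ dirs, Set.indicator (Se e y) (fun t => xc ^ t.length * h t) t := by
  by_cases ht : t ∈ Sy y
  · rw [Set.indicator_of_mem ht, Finset.sum_eq_single (de t)]
    · rw [Set.indicator_of_mem (show t ∈ Se (de t) y from ⟨ht.1, ht.2, rfl⟩)]
    · intro e _ he
      exact Set.indicator_of_notMem (fun h2 => he h2.2.2.symm) _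
    · intro h2
      exact absurd (de_dirs t) h2
  · rw [Set.indicator_of_notMem ht, Finset.sum_eq_zero]
    intro e _
    exact Set.indicator_of_notMem (fun h2 => ht ⟨h2.1, h2.2.1⟩) _

lemma summ_Sy (y : Pt) {h : List Bool → ℝ} (hh : ∀ t, |h t| ≤ 1) :
    Summable (Set.indicator (Sy y) fun t : List Bool => xc ^ t.length * h t) := by
  have e1 : (Set.indicator (Sy y) fun t : List Bool => xc ^ t.length * h t) =
      fun t => ∑ e ∈ dirs, Set.indicator (Se e y) (fun t => xc ^ t.length * h t) t := funext fun t => ind_Sy y h t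
  rw [e1]
  exact summable_sum fun e _ => summ_ind e y hh

/-- **the sum over the last directions** -/
theorem SS_eq (y : Pt) {h : List Bool → ℝ} (hh : ∀ t, |h t| ≤ 1) : SS y h = ∑ e ∈ dirs, SE e y h := by
  have e0 : SS y h = ∑' t : List Bool, Set.indicator (Sy y) (fun t => xc ^ t.length * h t) t :=
    tsum_subtype (Sy y) fun t => xc ^ t.length * h t
  have e1 : (Set.indicator (Sy y) fun t : List Bool => xc ^ t.length * h t) =
      fun t => ∑ e ∈ dirs, Set.indicator (Se e y) (fun t => xc ^ t.length * h t) t := funext fun t => ind_Sy y h t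
  rw [e0, e1, Summable.tsum_finsetSum fun e _ => summ_ind e y hh]
  exact Finset.sum_congr rfl fun e _ => (SE_ind e y h).symm

lemma SE_congr {e y : Pt} {h h' : List Bool → ℝ} (hc : ∀ t, t ∈ Se e y → h t = h' t) : SE e y h = SE e y h' :=
  tsum_congr fun t => by rw [hc t.1 t.2]

lemma SE_sub {e y : Pt} {h h' : List Bool → ℝ} (hh : ∀ t, |h t| ≤ 1) (hh' : ∀ t, |h' t| ≤ 1) :
    SE e y h - SE e y h' = ∑' t : Se e y, xc ^ t.1.length * (h t.1 - h' t.1) := by
  unfold SE
  rw [← (summ_Seq e y hh).tsum_sub (summ_Seq e y hh')]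
  exact tsum_congr fun t => by ring

lemma SE_add {e y : Pt} {h h' : List Bool → ℝ} (hh : ∀ t, |h t| ≤ 1) (hh' : ∀ t, |h' t| ≤ 1) :
    SE e y h + SE e y h' = ∑' t : Se e y, xc ^ t.1.length * (h t.1 + h' t.1) := by
  unfold SE
  rw [← (summ_Seq e y hh).tsum_add (summ_Seq e y hh')]
  exact tsum_congr fun t => by ring

/-- comparison -/
lemma SE_dist {e y : Pt} {h h' k : List Bool → ℝ} (hh : ∀ t, |h t| ≤ 1) (hh' : ∀ t, |h' t| ≤ 1) (hk : ∀ t, |k t| ≤ 1)
    (hd : ∀ t ∈ Se e y, |h t - h' t| ≤ k t) : |SE e y h - SE e y h'| ≤ SE e y k := by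
  rw [SE_sub hh hh']
  have h1 : Summable fun t : Se e y => xc ^ t.1.length * (h t.1 - h' t.1) := by
    refine ((summ_Seq e y hh).sub (summ_Seq e y hh')).congr fun t => ?_
    ring
  rw [← Real.norm_eq_abs]
  refine tsum_of_norm_bounded (summ_Seq e y hk).hasSum fun t => ?_
  rw [norm_mul, Real.norm_eq_abs, Real.norm_eq_abs, abs_of_nonneg (pow_nonneg xc_pos.le _)]
  exact mul_le_mul_of_nonneg_left (hd t.1 t.2) (pow_nonneg xc_pos.le _)

lemma SE_nonneg {e y : Pt} {h : List Bool → ℝ} (hh : ∀ t, 0 ≤ h t) : 0 ≤ SE e y h :=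
  tsum_nonneg fun t => mul_nonneg (pow_nonneg xc_pos.le _) (hh _)

end PLC

end HexObs
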