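import Pool.Agent.PLC.EAval
import Pool.Agent.PLC.Sy
import Pool.Agent.MC.Pub2
import Pool.Agent.MC.CoreZ

/-!
PLC, row E1b (helper11): the labels of the last steps read backwards, seen from the tip.
-/

set_option autoImplicit false

open MeasureTheory Filter Topology
open scoped Classical

namespace HexObs

namespace PLC

open TS SDN TIW SLW PWN MCP

open Pool.Agent.IW (rvw rvw_app rvw_mem rvw_rvw split_last ext ext_lt Loc law law_prob law_lim)

open Pool.Agent.IW.MC (StQ stE_StQ Wr Wr_loc Ex)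

/-- the change of the label by a turn -/
def tau (b : Bool) : Fin 3 := if b then 2 else 1

lemma aa_turn : ∀ d ∈ dirs, ∀ b : Bool, NTF.aa (turn b d) = NTF.aa d + tau b := by decide

lemma aa_neg : ∀ d ∈ dirs, NTF.aa (-d) = NTF.aa d := by decide

lemma aa_up : NTF.aa up = 0 := by decide

lemma aa_dx {d0 : Pt} (h0 : d0 ∈ dirs) (t : List Bool) (i : ℕ) : NTF.aa (dx d0 t i) = NTF.aa d0 + NTF.aa (dx up t i) := by
  induction i with
  | zero =>
    show NTF.aa d0 = NTF.aa d0 + NTF.aa up
    rw [aa_up, add_zero]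
  | succ i ih =>
    rw [dx_succ, dx_succ, aa_turn _ (dx_mem h0 t i), aa_turn _ (dx_mem SDN.up_dirs t i), ih, add_assoc]

/-- the labels read backwards -/
lemma lab_back (s : List Bool) (c : Bool) {i : ℕ} (hi : i ≤ s.length) :
    NTF.aa (dx up (s ++ [c]) (s.length - i)) = NTF.aa (dx up (rvw (s ++ [c])) i) + NTF.aa (dx up s s.length) := by
  have hd : dx up s s.length ∈ dirs := dx_mem SDN.up_dirs s s.length
  have h1 := dx_rev up s i hi
  have h2 := aa_dx (neg_mem_dirs hd) (rev s) i
  rw [h1, aa_neg _ (dx_mem SDN.up_dirs s _), aa_neg _ hd] at h2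
  rw [dx_append (by omega), rvw_app, dx_append (by rw [rev_length]; exact hi), h2, add_comm]

lemma lab_de (s : List Bool) (c : Bool) : NTF.aa (de (s ++ [c])) = NTF.aa (dx up s s.length) + tau c := by
  unfold de
  rw [dx_append_one, aa_turn _ (dx_mem SDN.up_dirs s _)]

/-- the label of the last step from the label of the next direction -/
def rho (l : Fin 3) (c : Bool) : Fin 3 := l - tau c

lemma rho_de (s : List Bool) (c : Bool) (a : Fin 3) :
    rho (NTF.aa (de (s ++ [c])) + a) c = NTF.aa (dx up s s.length) + a := by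
  unfold rho
  rw [lab_de]
  abel

/-- the event of the sequences -/
def VI {m : ℕ} (V : Set (Fin m → Fin 3)) : Set (ℕ → Fin 3) := {w | (fun i : Fin m => w i) ∈ V}

lemma VI_loc {m : ℕ} (V : Set (Fin m → Fin 3)) : Loc m (VI V) := by
  intro w w' e hw
  have h : (fun i : Fin m => w' i) = fun i : Fin m => w i := funext fun i => (e i i.2).symm
  show (fun i : Fin m => w' i) ∈ V
  rw [h]
  exact hw

/-- the labels of the last m steps read backwards, turned by a, are in V -/
def Bk (m : ℕ) (a : Fin 3) (V : Set (Fin m → Fin 3)) : Set (List Bool) :=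
  {t | m ≤ t.length ∧ (fun i : Fin m => NTF.aa (dx up t (t.length - 1 - i)) + a) ∈ V}

/-- the labels of the first m steps, turned by a, are in V -/
def Fr (m : ℕ) (a : Fin 3) (V : Set (Fin m → Fin 3)) : Set (List Bool) :=
  {t | m ≤ t.length ∧ (fun i : Fin m => NTF.aa (dx up t i) + a) ∈ V}

lemma bk_iff {m : ℕ} {a : Fin 3} {V : Set (Fin m → Fin 3)} {s : List Bool} {c : Bool} (hm : m ≤ s.length + 1) :
    s ++ [c] ∈ Bk m a V ↔ ext (NTF.sw m ((rvw (s ++ [c])).take m)) ∈ Wr (rho (NTF.aa (de (s ++ [c])) + a) c) (VI V) := by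
  have hl : (s ++ [c]).length = s.length + 1 := by simp
  have h1 : (fun i : Fin m => NTF.aa (dx up (s ++ [c]) ((s ++ [c]).length - 1 - i)) + a) =
      fun i : Fin m => ext (NTF.sw m ((rvw (s ++ [c])).take m)) i + rho (NTF.aa (de (s ++ [c])) + a) c := by
    funext i
    have hi := i.2
    rw [hl, Nat.add_sub_cancel, lab_back s c (by omega), rho_de, ext_lt _ hi]
    show _ = NTF.aa (dx up ((rvw (s ++ [c])).take m) i) + _
    rw [Pool.Agent.IW.dx_take _ _ _ (by omega)]
    abel
  constructor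
  · rintro ⟨-, h2⟩
    rw [h1] at h2
    exact h2
  · intro h2
    refine ⟨by rw [hl]; exact hm, ?_⟩
    rw [h1]
    exact h2

lemma lf_StQ (b m : ℕ) (W : Set (ℕ → Fin 3)) : LF (StQ b m W) := by
  rintro s c c' ⟨h1, h2, h3⟩
  have hl : (s ++ [c]).length = s.length + 1 := by simp
  have hl' : (s ++ [c']).length = s.length + 1 := by simp
  rw [hl] at h1
  refine ⟨by rw [hl']; exact h1, fun i hi => ?_, ?_⟩
  · have h4 := h2 i hi
    rw [vx_append (by omega)] at h4 ⊢
    exact h4
  · have e : NTF.sw m ((s ++ [c']).take m) = NTF.sw m ((s ++ [c]).take m) := by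
      funext i
      show NTF.aa (dx up ((s ++ [c']).take m) i) = NTF.aa (dx up ((s ++ [c]).take m) i)
      have hi := i.2
      rw [Pool.Agent.IW.dx_take _ _ _ (by omega), Pool.Agent.IW.dx_take _ _ _ (by omega), dx_append (by omega),
        dx_append (by omega)]
    rw [e]
    exact h3

/-- the functional of the tip for the last direction e -/
noncomputable def qq (b m : ℕ) (a : Fin 3) (V : Set (Fin m → Fin 3)) (e : Pt) (t : List Bool) : ℝ :=
  qf true (StQ b m (Wr (rho (NTF.aa e + a) true) (VI V))) t + qf false (StQ b m (Wr (rho (NTF.aa e + a) false) (VI V))) t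

/-- the walk does not leave the ball at once, seen from the tip -/
noncomputable def qu (b m : ℕ) (t : List Bool) : ℝ := TIP.ind (rvw t ∈ StQ b m Set.univ)

lemma qq_dist {b m : ℕ} {a : Fin 3} {V : Set (Fin m → Fin 3)} {e : Pt} {t : List Bool} (ht : 0 < t.length) (he : de t = e) :
    |TIP.ind (t ∈ Bk m a V) - qq b m a V e t| ≤ 1 - qu b m t := by
  obtain ⟨s, c, rfl, -⟩ := split_last ht rfl
  have hl : (s ++ [c]).length = s.length + 1 := by simp
  have hlr : (rvw (s ++ [c])).length = s.length + 1 := by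
    rw [rvw_app, List.length_append, rev_length]
    rfl
  have e1 : qq b m a V e (s ++ [c]) = TIP.ind (rvw (s ++ [c]) ∈ StQ b m (Wr (rho (NTF.aa e + a) c) (VI V))) := by
    unfold qq qf
    rw [lst_app, lst_app]
    cases c
    · rw [TIP.ind_neg (by decide), TIP.ind_pos rfl, zero_mul, one_mul, zero_add]
    · rw [TIP.ind_neg (show ¬ (true = false) by decide), TIP.ind_pos rfl, zero_mul, one_mul, add_zero]
  rw [e1, ← he]
  unfold qu
  by_cases hu : rvw (s ++ [c]) ∈ StQ b m Set.univ
  · have hm : m ≤ s.length + 1 := by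
      have := hu.1
      rwa [hlr] at this
    rw [TIP.ind_pos hu, sub_self]
    refine le_of_eq ?_
    have h2 : (s ++ [c] ∈ Bk m a V) ↔ rvw (s ++ [c]) ∈ StQ b m (Wr (rho (NTF.aa (de (s ++ [c])) + a) c) (VI V)) := by
      rw [bk_iff hm]
      exact ⟨fun h => ⟨hu.1, hu.2.1, h⟩, fun h => h.2.2⟩
    rw [TIP.ind_congr h2, sub_self, abs_zero]
  · rw [TIP.ind_neg hu, sub_zero]
    have g1 := TIP.ind_nonneg (s ++ [c] ∈ Bk m a V)
    have g2 := TIP.ind_le_one (s ++ [c] ∈ Bk m a V)
    have g3 := TIP.ind_nonneg (rvw (s ++ [c]) ∈ StQ b m (Wr (rho (NTF.aa (de (s ++ [c])) + a) c) (VI V)))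
    have g4 := TIP.ind_le_one (rvw (s ++ [c]) ∈ StQ b m (Wr (rho (NTF.aa (de (s ++ [c])) + a) c) (VI V)))
    rw [abs_le]
    constructor <;> linarith

end PLC

end HexObs
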