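import Pool.Agent.PLC.Res

/-!
PLC, row E2 (helper70): elementary part. The walk with a first step added, the sublattices, the cut at a vertex, the reversal.
-/

set_option autoImplicit false

open scoped Classical

namespace Pool.Agent.PLC

open Pool.Agent.IW.Res Res Finset

/-! ### positions -/

lemma step_succ (i : ℕ) (a : Fin 3) : step (i + 1) a = -step i a := by
  unfold step
  ring

lemma step_add (k i : ℕ) (a : Fin 3) : step (k + i) a = (-1) ^ k * step i a := by
  unfold step
  ring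

lemma pos_eq {n : ℕ} (s : Fin n → Fin 3) (k : ℕ) : pos s k = ∑ i : Fin n, if (i : ℕ) < k then step i (s i) else 0 := by
  unfold pos
  rw [sum_filter]

lemma pos_zero {n : ℕ} (s : Fin n → Fin 3) : pos s 0 = 0 := by
  rw [pos_eq]
  simp

lemma pos_succ {n : ℕ} (s : Fin n → Fin 3) {k : ℕ} (hk : k < n) : pos s (k + 1) = pos s k + step k (s ⟨k, hk⟩) := by
  unfold pos
  have h : univ.filter (fun i : Fin n => (i : ℕ) < k + 1) = insert ⟨k, hk⟩ (univ.filter (fun i : Fin n => (i : ℕ) < k)) := by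
    ext i
    simp only [mem_filter, mem_univ, true_and, mem_insert, Fin.ext_iff]
    omega
  rw [h, sum_insert (by simp), add_comm]

lemma pos_cons {n : ℕ} (j : Fin 3) (s : Fin n → Fin 3) (k : ℕ) : pos (Fin.cons j s : Fin (n + 1) → Fin 3) (k + 1) =
    step 0 j - pos s k := by
  rw [pos_eq, pos_eq, Fin.sum_univ_succ, sub_eq_add_neg, ← sum_neg_distrib]
  simp only [Fin.val_zero, Nat.succ_pos, if_true, Fin.cons_zero, Fin.val_succ, Fin.cons_succ, add_lt_add_iff_right]
  refine congrArg _ (sum_congr rfl fun i _ => ?_)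
  rw [step_succ]
  split_ifs
  · rfl
  · rw [neg_zero]

/-- the first `m` directions -/
lemma pos_take {n m : ℕ} (h : m ≤ n) (s : Fin n → Fin 3) {k : ℕ} (hk : k ≤ m) :
    pos (fun i : Fin m => s (Fin.castLE h i)) k = pos s k := by
  unfold pos
  refine sum_bij (fun i _ => Fin.castLE h i) ?_ ?_ ?_ ?_
  · intro i hi
    simp only [mem_filter, mem_univ, true_and, Fin.val_castLE] at hi ⊢
    exact hi
  · intro i _ i' _ hii
    exact Fin.castLE_injective h hii
  · intro i hi
    simp only [mem_filter, mem_univ, true_and] at hi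
    refine ⟨⟨i, by omega⟩, ?_, ?_⟩
    · simp only [mem_filter, mem_univ, true_and]
      exact hi
    · rfl
  · intro i _
    rfl

/-- the directions after the time `k` -/
lemma pos_drop {k l : ℕ} (s : Fin (k + l) → Fin 3) (i : ℕ) :
    pos s (k + i) = pos s k + (-1) ^ k * pos (fun i : Fin l => s (Fin.natAdd k i)) i := by
  rw [pos_eq, pos_eq, pos_eq, Fin.sum_univ_add, Fin.sum_univ_add]
  have h1 : ∀ x : Fin l, (if ((Fin.natAdd k x : Fin (k + l)) : ℕ) < k then step (Fin.natAdd k x : Fin (k + l)) (s (Fin.natAdd k x))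
      else 0) = 0 := by
    intro x
    rw [if_neg]
    rw [Fin.val_natAdd]
    omega
  rw [sum_congr rfl fun x _ => h1 x, sum_const_zero, add_zero, mul_sum]
  refine congrArg₂ _ (sum_congr rfl fun x _ => ?_) (sum_congr rfl fun x _ => ?_)
  · have hx := x.2
    rw [Fin.val_castAdd, if_pos (by omega), if_pos (by omega)]
  · rw [Fin.val_natAdd, step_add]
    by_cases h : (x : ℕ) < i
    · rw [if_pos (by omega), if_pos h]
    · rw [if_neg (by omega), if_neg h, mul_zero]

lemma pos_ge {n : ℕ} (s : Fin n → Fin 3) {k : ℕ} (hk : n ≤ k) : pos s k = pos s n := by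
  rw [pos_eq, pos_eq]
  refine sum_congr rfl fun i _ => ?_
  have := i.2
  rw [if_pos (by omega), if_pos this]

lemma norm_step (i : ℕ) (a : Fin 3) : ‖step i a‖ = 1 := by
  unfold step
  rw [norm_mul, norm_pow, norm_neg, norm_one, one_pow, one_mul]
  have : 2 * (Real.pi : ℂ) * Complex.I * ((a : ℕ) : ℂ) / 3 = ((2 * Real.pi * (a : ℕ) / 3 : ℝ) : ℂ) * Complex.I := by
    push_cast
    ring
  rw [this, Complex.norm_exp_ofReal_mul_I]

lemma norm_pos_le {n : ℕ} (s : Fin n → Fin 3) (k : ℕ) : ‖pos s k‖ ≤ n := by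
  unfold pos
  refine (norm_sum_le _ _).trans ?_
  rw [sum_congr rfl fun (i : Fin n) _ => norm_step (i : ℕ) (s i), sum_const, nsmul_eq_mul, mul_one]
  exact_mod_cast (card_filter_le _ _).trans (by simp)

/-! ### the two sublattices -/

lemma re_step (a : Fin 3) : ∃ p : ℤ, 2 * (step 0 a).re = 3 * p + 2 := by
  unfold step
  rw [pow_zero, one_mul]
  have h3 : Real.cos (2 * Real.pi / 3) = -1 / 2 := by
    have : 2 * Real.pi / 3 = Real.pi - Real.pi / 3 := by ring
    rw [this, Real.cos_pi_sub, Real.cos_pi_div_three]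
    ring
  have h4 : Real.cos (4 * Real.pi / 3) = -1 / 2 := by
    have : 4 * Real.pi / 3 = Real.pi / 3 + Real.pi := by ring
    rw [this, Real.cos_add_pi, Real.cos_pi_div_three]
    ring
  fin_cases a
  · refine ⟨0, ?_⟩
    simp
  · refine ⟨-1, ?_⟩
    have : 2 * (Real.pi : ℂ) * Complex.I * ((1 : ℕ) : ℂ) / 3 = ((2 * Real.pi / 3 : ℝ) : ℂ) * Complex.I := by
      push_cast
      ring
    change 2 * (Complex.exp (2 * (Real.pi : ℂ) * Complex.I * ((1 : ℕ) : ℂ) / 3)).re = _
    rw [this, Complex.exp_ofReal_mul_I_re, h3]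
    norm_num
  · refine ⟨-1, ?_⟩
    have : 2 * (Real.pi : ℂ) * Complex.I * ((2 : ℕ) : ℂ) / 3 = ((4 * Real.pi / 3 : ℝ) : ℂ) * Complex.I := by
      push_cast
      ring
    change 2 * (Complex.exp (2 * (Real.pi : ℂ) * Complex.I * ((2 : ℕ) : ℂ) / 3)).re = _
    rw [this, Complex.exp_ofReal_mul_I_re, h4]
    norm_num

lemma re_pos {n : ℕ} (s : Fin n → Fin 3) (k : ℕ) (hk : k ≤ n) : ∃ p : ℤ, 2 * (pos s k).re = 3 * p + 2 * ((k % 2 : ℕ) : ℝ) := by
  induction k with
  | zero => exact ⟨0, by rw [pos_zero]; simp⟩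
  | succ k ih =>
    obtain ⟨p, hp⟩ := ih (by omega)
    obtain ⟨p', hp'⟩ := re_step (s ⟨k, by omega⟩)
    rw [pos_succ s (by omega), Complex.add_re, mul_add, hp]
    have h1 := step_add k 0 (s ⟨k, by omega⟩)
    rw [add_zero] at h1
    rw [h1]
    rcases Nat.even_or_odd k with h | h
    · have e1 : k % 2 = 0 := Nat.even_iff.1 h
      have e2 : (k + 1) % 2 = 1 := by omega
      rw [h.neg_one_pow, one_mul, hp', e1, e2]
      refine ⟨p + p', ?_⟩
      push_cast
      ring
    · have e1 : k % 2 = 1 := Nat.odd_iff.1 h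
      have e2 : (k + 1) % 2 = 0 := by omega
      rw [h.neg_one_pow, neg_one_mul, Complex.neg_re, e1, e2]
      refine ⟨p - p', ?_⟩
      push_cast
      linarith

/-- **the parity of the length** -/
lemma par {n m k l : ℕ} {s : Fin n → Fin 3} {s' : Fin m → Fin 3} (hk : k ≤ n) (hl : l ≤ m) (h : pos s k = pos s' l) :
    k % 2 = l % 2 := by
  obtain ⟨p, hp⟩ := re_pos s k hk
  obtain ⟨p', hp'⟩ := re_pos s' l hl
  rw [h, hp'] at hp
  generalize hu : k % 2 = u at hp ⊢
  generalize hv : l % 2 = v at hp ⊢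
  have h1 : 3 * p' + 2 * (v : ℤ) = 3 * p + 2 * (u : ℤ) := by exact_mod_cast hp
  omega

lemma pos_one (j : Fin 3) : pos (fun _ : Fin 1 => j) 1 = step 0 j := by
  rw [pos_eq]
  simp

/-- a walk at `ω ^ j` has made an odd number of steps -/
lemma odd_of {n : ℕ} {s : Fin n → Fin 3} {k : ℕ} (hk : k ≤ n) {j : Fin 3} (h : pos s k = step 0 j) : Odd k := by
  have := par (s' := fun _ : Fin 1 => j) hk le_rfl (h.trans (pos_one j).symm)
  exact Nat.odd_iff.2 this

lemma vert_sub {x : ℂ} (hx : x ∈ vertices) (j : Fin 3) : step 0 j - x ∈ vertices := by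
  obtain ⟨n, s, rfl⟩ := hx
  exact ⟨n + 1, Fin.cons j s, pos_cons j s n⟩

/-! ### self-avoiding walks -/

lemma mem_saw {n : ℕ} {s : Fin n → Fin 3} : s ∈ saw n ↔ ∀ j k : ℕ, j ≤ n → k ≤ n → pos s j = pos s k → j = k := by
  unfold saw
  simp

lemma saw_cons {n : ℕ} {j : Fin 3} {s : Fin n → Fin 3} :
    (Fin.cons j s : Fin (n + 1) → Fin 3) ∈ saw (n + 1) ↔ s ∈ saw n ∧ ∀ k ≤ n, pos s k ≠ step 0 j := by
  rw [mem_saw, mem_saw]
  constructor
  · intro h
    refine ⟨fun i k hi hk hik => ?_, fun k hk hkj => ?_⟩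
    · have := h (i + 1) (k + 1) (by omega) (by omega) (by rw [pos_cons, pos_cons, hik])
      omega
    · have := h 0 (k + 1) (by omega) (by omega) (by rw [pos_zero, pos_cons, hkj, sub_self])
      omega
  · rintro ⟨h1, h2⟩ i k hi hk hik
    rcases i with _ | i <;> rcases k with _ | k
    · rfl
    · rw [pos_zero, pos_cons] at hik
      exact absurd (sub_eq_zero.1 hik.symm).symm (h2 k (by omega))
    · rw [pos_zero, pos_cons] at hik
      exact absurd (sub_eq_zero.1 hik).symm (h2 i (by omega))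
    · rw [pos_cons, pos_cons] at hik
      rw [h1 i k (by omega) (by omega) (sub_right_injective hik)]

lemma saw_take {k l : ℕ} {s : Fin (k + l) → Fin 3} (hs : s ∈ saw (k + l)) : (fun i : Fin k => s (Fin.castAdd l i)) ∈ saw k := by
  rw [mem_saw] at hs ⊢
  intro i i' hi hi' h
  have e : (fun i : Fin k => s (Fin.castAdd l i)) = fun i : Fin k => s (Fin.castLE (Nat.le_add_right k l) i) := rfl
  rw [e, pos_take _ _ hi, pos_take _ _ hi'] at h
  exact hs i i' (by omega) (by omega) h

lemma saw_drop {k l : ℕ} {s : Fin (k + l) → Fin 3} (hs : s ∈ saw (k + l)) : (fun i : Fin l => s (Fin.natAdd k i)) ∈ saw l := by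
  rw [mem_saw] at hs ⊢
  intro i i' hi hi' h
  have := hs (k + i) (k + i') (by omega) (by omega) (by rw [pos_drop, pos_drop, h])
  omega

/-! ### the cut at a vertex -/

/-- the number of the walks `0 → x` with `n` steps -/
noncomputable def cn (n : ℕ) (x : ℂ) : ℕ := ((saw n).filter (fun s => pos s n = x)).card

lemma card_cut (k l : ℕ) (x : ℂ) (j : Fin 3) :
    ((saw (k + l)).filter (fun s => pos s (k + l) = x ∧ pos s k = step 0 j)).card ≤ cn k (step 0 j) * cn l (step 0 j - x) := by
  unfold cn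
  rw [← card_product]
  refine card_le_card_of_injOn (fun s => (fun i : Fin k => s (Fin.castAdd l i), fun i : Fin l => s (Fin.natAdd k i))) ?_ ?_
  · intro s hs
    rw [mem_coe, mem_filter] at hs
    obtain ⟨hs, h1, h2⟩ := hs
    rw [mem_coe, mem_product, mem_filter, mem_filter]
    have e : (fun i : Fin k => s (Fin.castAdd l i)) = fun i : Fin k => s (Fin.castLE (Nat.le_add_right k l) i) := rfl
    refine ⟨⟨saw_take hs, ?_⟩, saw_drop hs, ?_⟩
    · change pos (fun i : Fin k => s (Fin.castAdd l i)) k = step 0 j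
      rw [e, pos_take _ _ le_rfl]
      exact h2
    · change pos (fun i : Fin l => s (Fin.natAdd k i)) l = step 0 j - x
      have h3 := pos_drop s l
      rw [h1, h2, (odd_of (Nat.le_add_right k l) h2).neg_one_pow] at h3
      rw [h3]
      ring
  · intro s _ s' _ h
    rw [Prod.mk.injEq] at h
    obtain ⟨h1, h2⟩ := h
    funext i
    refine Fin.addCases (fun i => ?_) (fun i => ?_) i
    · exact congrFun h1 i
    · exact congrFun h2 i

lemma card_hit (m n : ℕ) (x : ℂ) (j : Fin 3) :
    ((saw n).filter (fun s => pos s n = x ∧ ∃ k ≤ n, m < k ∧ pos s k = step 0 j)).card ≤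
      ∑ p ∈ HasAntidiagonal.antidiagonal n, (if m < p.1 then cn p.1 (step 0 j) else 0) * cn p.2 (step 0 j - x) := by
  have h1 : (saw n).filter (fun s => pos s n = x ∧ ∃ k ≤ n, m < k ∧ pos s k = step 0 j) ⊆
      ((HasAntidiagonal.antidiagonal n).filter (fun p => m < p.1)).biUnion
        (fun p => (saw n).filter (fun s => pos s n = x ∧ pos s p.1 = step 0 j)) := by
    intro s hs
    rw [mem_filter] at hs
    obtain ⟨hs, h1, k, hk, hmk, h2⟩ := hs
    rw [mem_biUnion]
    refine ⟨(k, n - k), ?_, ?_⟩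
    · rw [mem_filter, HasAntidiagonal.mem_antidiagonal]
      exact ⟨by simp only; omega, hmk⟩
    · rw [mem_filter]
      exact ⟨hs, h1, h2⟩
  refine (card_le_card h1).trans (card_biUnion_le.trans ?_)
  rw [sum_filter]
  refine sum_le_sum fun p hp => ?_
  rw [HasAntidiagonal.mem_antidiagonal] at hp
  split_ifs with h
  · obtain ⟨k, l⟩ := p
    simp only at hp ⊢
    subst hp
    exact card_cut k l x j
  · exact Nat.zero_le _

/-! ### the reversal -/

lemma pos_rev {n : ℕ} (s : Fin n → Fin 3) {k : ℕ} (hk : k ≤ n) :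
    pos (fun i => s (Fin.rev i)) k = (-1) ^ (n + 1) * (pos s n - pos s (n - k)) := by
  induction k with
  | zero => rw [pos_zero, Nat.sub_zero, sub_self, mul_zero]
  | succ k ih =>
    rw [pos_succ _ (by omega), ih (by omega)]
    have h1 : n - k = n - (k + 1) + 1 := by omega
    rw [h1, pos_succ s (by omega : n - (k + 1) < n)]
    have h2 : Fin.rev (⟨k, by omega⟩ : Fin n) = ⟨n - (k + 1), by omega⟩ := by
      apply Fin.ext
      rw [Fin.val_rev]
    rw [h2]
    have h3 : step k (s ⟨n - (k + 1), by omega⟩) = (-1) ^ (n + 1) * step (n - (k + 1)) (s ⟨n - (k + 1), by omega⟩) := by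
      unfold step
      have h4 : (-1 : ℂ) ^ k = (-1) ^ (n + 1) * (-1) ^ (n - (k + 1)) := by
        rw [← pow_add]
        have h5 : n + 1 + (n - (k + 1)) = k + 2 * (n - k) := by omega
        rw [h5, pow_add, pow_mul, neg_one_sq, one_pow, mul_one]
      rw [h4]
      ring
    rw [h3]
    ring

lemma saw_rev {n : ℕ} {s : Fin n → Fin 3} (hs : s ∈ saw n) : (fun i => s (Fin.rev i)) ∈ saw n := by
  rw [mem_saw] at hs ⊢
  intro i k hi hk h
  rw [pos_rev s hi, pos_rev s hk] at h
  have h1 := mul_left_cancel₀ (pow_ne_zero _ (by norm_num)) h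
  have h2 := hs (n - i) (n - k) (by omega) (by omega) (sub_right_injective h1)
  omega

lemma cn_neg {n : ℕ} (hn : Even n) (x : ℂ) : cn n (-x) = cn n x := by
  have key : ∀ y : ℂ, cn n y ≤ cn n (-y) := by
    intro y
    unfold cn
    refine card_le_card_of_injOn (fun s i => s (Fin.rev i)) ?_ ?_
    · intro s hs
      rw [mem_coe, mem_filter] at hs
      obtain ⟨hs, h1⟩ := hs
      rw [mem_coe, mem_filter]
      refine ⟨saw_rev hs, ?_⟩
      rw [pos_rev s le_rfl, Nat.sub_self, pos_zero, h1, pow_succ, hn.neg_one_pow]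
      ring
    · intro s _ s' _ h
      funext i
      have := congrFun h (Fin.rev i)
      simp only [Fin.rev_rev] at this
      exact this
  refine le_antisymm ?_ (key x)
  have := key (-x)
  rwa [neg_neg] at this

end Pool.Agent.PLC
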