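import Pool.Agent.PLC.NbA

/-!
PLC, row E2 (helper70): the critical two-point function at two neighbours. From (E) for a fixed number of steps and the bounds of
the two-point function up to constants.

Let `a = ω ^ j`. The walks `0 → x` which avoid `a`, with a first step added, are the walks `a → x` with the first step to `0`
(in our frame: the walks `0 → a - x` with the first direction `j`), and the proportion of the walks `0 → x` which avoid `a` is
`P (a is avoided) + o(1)`. So `G (a - x) / G (x) → κ`. The map `x ↦ a - x` is an involution, so `κ = 1`.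
-/

set_option autoImplicit false

open scoped Classical

open MeasureTheory Filter Topology

namespace Pool.Agent.PLC

open Pool.Agent.IW.Res Res Finset

/-- the two-point function up to constants -/
def TPb : Prop := ∃ c : ℝ, 0 < c ∧ ∀ x ∈ vertices, x ≠ 0 →
  c * ‖x‖ ^ (-(5 / 24) : ℝ) ≤ G zc x ∧ G zc x ≤ c⁻¹ * ‖x‖ ^ (-(5 / 24) : ℝ)

/-- (E) with the measure `P` -/
def EP (P : Measure (ℕ → Fin 3)) : Prop := ∀ ε : ℝ, 0 < ε → ∃ δ : ℝ, 0 < δ ∧ ∀ x ∈ vertices, ∀ m : ℕ, 1 / δ ≤ ‖x‖ →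
  (m : ℝ) ≤ δ * ‖x‖ ^ (4 / 3 : ℝ) → ∀ W W' : Set (Fin m → Fin 3),
  |ends zc x m W W' - P.real {w | (fun i : Fin m => w i) ∈ W} * P.real {w | (fun i : Fin m => w i) ∈ W'} * G zc x| ≤
    ε * G zc x

lemma EP.fix {P : Measure (ℕ → Fin 3)} (hE : EP P) (m : ℕ) {ε : ℝ} (hε : 0 < ε) : ∃ R : ℝ, ∀ x ∈ vertices, R ≤ ‖x‖ →
    ∀ W W' : Set (Fin m → Fin 3),
    |ends zc x m W W' - P.real {w | (fun i : Fin m => w i) ∈ W} * P.real {w | (fun i : Fin m => w i) ∈ W'} * G zc x| ≤
      ε * G zc x := by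
  obtain ⟨δ, hδ, h⟩ := hE ε hε
  refine ⟨max (1 / δ) (max 1 (m / δ)), fun x hx hR => h x hx m ((le_max_left _ _).trans hR) ?_⟩
  have h1 : 1 ≤ ‖x‖ := ((le_max_left _ _).trans (le_max_right _ _)).trans hR
  have h2 : m / δ ≤ ‖x‖ := ((le_max_right _ _).trans (le_max_right _ _)).trans hR
  have h3 : ‖x‖ ≤ ‖x‖ ^ (4 / 3 : ℝ) := by
    calc ‖x‖ = ‖x‖ ^ (1 : ℝ) := (Real.rpow_one _).symm
      _ ≤ ‖x‖ ^ (4 / 3 : ℝ) := Real.rpow_le_rpow_of_exponent_le h1 (by norm_num)
  rw [div_le_iff₀ hδ] at h2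
  calc (m : ℝ) ≤ ‖x‖ * δ := h2
    _ = δ * ‖x‖ := mul_comm _ _
    _ ≤ δ * ‖x‖ ^ (4 / 3 : ℝ) := mul_le_mul_of_nonneg_left h3 hδ.le

/-! ### the fugacity, the sums -/

lemma zc_nonneg : 0 ≤ zc := by
  unfold zc
  refine div_nonneg zero_le_one (Real.iInf_nonneg fun n => ?_)
  positivity

lemma G_eq (x : ℂ) : G zc x = ∑' n : ℕ, (cn n x : ℝ) * zc ^ n := rfl

lemma G_nonneg (x : ℂ) : 0 ≤ G zc x := tsum_nonneg fun n => mul_nonneg (Nat.cast_nonneg _) (pow_nonneg zc_nonneg n)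

lemma TPb.pos (h : TPb) {x : ℂ} (hx : x ∈ vertices) (h0 : x ≠ 0) : 0 < G zc x := by
  obtain ⟨c, hc, h⟩ := h
  exact lt_of_lt_of_le (mul_pos hc (Real.rpow_pos_of_pos (norm_pos_iff.2 h0) _)) (h x hx h0).1

lemma TPb.sum (h : TPb) {x : ℂ} (hx : x ∈ vertices) (h0 : x ≠ 0) : Summable fun n : ℕ => (cn n x : ℝ) * zc ^ n := by
  by_contra hs
  have h1 := h.pos hx h0
  rw [G_eq, tsum_eq_zero_of_not_summable hs] at h1
  exact lt_irrefl _ h1

lemma step_ne (j : Fin 3) : step 0 j ≠ 0 := by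
  intro h
  have := norm_step 0 j
  rw [h, norm_zero] at this
  exact zero_ne_one this

lemma step_vert (j : Fin 3) : step 0 j ∈ vertices := ⟨1, fun _ => j, pos_one j⟩

lemma TPb.zc_pos (h : TPb) : 0 < zc := by
  refine lt_of_le_of_ne zc_nonneg fun h0 => ?_
  have h1 := h.pos (step_vert 0) (step_ne 0)
  rw [G_eq, ← h0] at h1
  have h2 : ∀ n : ℕ, (cn n (step 0 0) : ℝ) * (0 : ℝ) ^ n = 0 := by
    intro n
    rcases Nat.eq_zero_or_pos n with rfl | hn
    · have : cn 0 (step 0 0) = 0 := by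
        unfold cn
        rw [card_eq_zero, filter_eq_empty_iff]
        intro s _ hs
        rw [pos_zero] at hs
        exact step_ne 0 hs.symm
      rw [this, Nat.cast_zero, zero_mul]
    · rw [zero_pow hn.ne', mul_zero]
  rw [tsum_congr h2, tsum_zero] at h1
  exact lt_irrefl _ h1

/-- the walks of `ends` -/
noncomputable def fc (n : ℕ) (x : ℂ) (m : ℕ) (W W' : Set (Fin m → Fin 3)) : Finset (Fin n → Fin 3) :=
  (saw n).filter (fun s => pos s n = x ∧ ∃ h : m ≤ n, (fun i : Fin m => s (Fin.castLE h i)) ∈ W ∧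
    (fun i : Fin m => s (Fin.rev (Fin.castLE h i))) ∈ W')

lemma mem_fc {n : ℕ} {x : ℂ} {m : ℕ} {W W' : Set (Fin m → Fin 3)} {s : Fin n → Fin 3} : s ∈ fc n x m W W' ↔
    s ∈ saw n ∧ pos s n = x ∧ ∃ h : m ≤ n, (fun i : Fin m => s (Fin.castLE h i)) ∈ W ∧
      (fun i : Fin m => s (Fin.rev (Fin.castLE h i))) ∈ W' := by
  unfold fc
  rw [mem_filter]

lemma ends_eq (x : ℂ) (m : ℕ) (W W' : Set (Fin m → Fin 3)) :
    ends zc x m W W' = ∑' n : ℕ, ((fc n x m W W').card : ℝ) * zc ^ n := rfl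

lemma fc_le (n : ℕ) (x : ℂ) (m : ℕ) (W W' : Set (Fin m → Fin 3)) : (fc n x m W W').card ≤ cn n x := by
  unfold cn
  refine card_le_card fun s hs => ?_
  rw [mem_fc] at hs
  rw [mem_filter]
  exact ⟨hs.1, hs.2.1⟩

/-- the walks which avoid `ω ^ j` -/
noncomputable def an (n : ℕ) (x : ℂ) (j : Fin 3) : ℕ :=
  ((saw n).filter (fun s => pos s n = x ∧ ∀ k ≤ n, pos s k ≠ step 0 j)).card

noncomputable def GA (x : ℂ) (j : Fin 3) : ℝ := ∑' n : ℕ, (an n x j : ℝ) * zc ^ n

lemma an_le (n : ℕ) (x : ℂ) (j : Fin 3) : an n x j ≤ cn n x := by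
  unfold an cn
  refine card_le_card fun s hs => ?_
  rw [mem_filter] at hs ⊢
  exact ⟨hs.1, hs.2.1⟩

/-- the walks with the first direction `j` -/
lemma fc_one (n : ℕ) (x : ℂ) (j : Fin 3) : (fc (n + 1) (step 0 j - x) 1 {w | w 0 = j} Set.univ).card = an n x j := by
  unfold an
  refine card_nbij' (fun s => Fin.tail s) (fun s => Fin.cons j s) ?_ ?_ ?_ ?_
  · intro s hs
    rw [mem_coe, mem_fc] at hs
    obtain ⟨hs, h1, h, h2, -⟩ := hs
    have h3 : s 0 = j := h2
    have h4 : (Fin.cons j (Fin.tail s) : Fin (n + 1) → Fin 3) = s := by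
      rw [← h3]
      exact Fin.cons_self_tail s
    rw [← h4] at hs h1
    rw [saw_cons] at hs
    rw [pos_cons] at h1
    rw [mem_coe, mem_filter]
    exact ⟨hs.1, sub_right_injective h1, hs.2⟩
  · intro s hs
    rw [mem_coe, mem_filter] at hs
    obtain ⟨hs, h1, h2⟩ := hs
    rw [mem_coe, mem_fc]
    refine ⟨saw_cons.2 ⟨hs, h2⟩, ?_, by omega, ?_, trivial⟩
    · rw [pos_cons, h1]
    · rfl
  · intro s hs
    rw [mem_coe, mem_fc] at hs
    obtain ⟨hs, h1, h, h2, -⟩ := hs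
    have h3 : s 0 = j := h2
    rw [← h3]
    exact Fin.cons_self_tail s
  · intro s _
    exact Fin.tail_cons (α := fun _ => Fin 3) j s

lemma ends_one (x : ℂ) (j : Fin 3) : ends zc (step 0 j - x) 1 {w | w 0 = j} Set.univ = zc * GA x j := by
  rw [ends_eq]
  unfold GA
  rw [← Nat.succ_injective.tsum_eq, ← tsum_mul_left]
  · refine tsum_congr fun n => ?_
    rw [Nat.succ_eq_add_one, fc_one, pow_succ]
    ring
  · intro n hn
    rcases n with _ | n
    · exfalso
      rw [Function.mem_support] at hn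
      refine hn ?_
      have : fc 0 (step 0 j - x) 1 {w | w 0 = j} Set.univ = ∅ := by
        rw [eq_empty_iff_forall_notMem]
        intro s hs
        rw [mem_fc] at hs
        obtain ⟨-, -, h, -⟩ := hs
        omega
      rw [this, card_empty, Nat.cast_zero, zero_mul]
    · exact ⟨n, rfl⟩

/-! ### the walks which avoid `ω ^ j` in the first `m` steps -/

/-- the beginnings which avoid `ω ^ j` -/
def Wa (m : ℕ) (j : Fin 3) : Set (Fin m → Fin 3) := {w | ∀ k ≤ m, pos w k ≠ step 0 j}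

/-- the tail of the sum over the loops -/
noncomputable def TL (m : ℕ) (j : Fin 3) : ℝ := ∑' k : ℕ, (if m < k then (cn k (step 0 j) : ℝ) * zc ^ k else 0)

lemma le_of_norm {n m : ℕ} {x : ℂ} (hm : (m : ℝ) ≤ ‖x‖) {s : Fin n → Fin 3} (hs : pos s n = x) : m ≤ n := by
  have := norm_pos_le s n
  rw [hs] at this
  exact_mod_cast hm.trans this

lemma GA_le_ends (h : TPb) {x : ℂ} (hx : x ∈ vertices) (h0 : x ≠ 0) {m : ℕ} (hm : (m : ℝ) ≤ ‖x‖) (j : Fin 3) :
    GA x j ≤ ends zc x m (Wa m j) Set.univ := by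
  have hs := h.sum hx h0
  rw [ends_eq]
  unfold GA
  refine Summable.tsum_le_tsum (fun n => ?_) ?_ ?_
  · refine mul_le_mul_of_nonneg_right (Nat.cast_le.2 (card_le_card fun s hs => ?_)) (pow_nonneg zc_nonneg n)
    rw [mem_filter] at hs
    rw [mem_fc]
    obtain ⟨hs, h1, h2⟩ := hs
    have h3 := le_of_norm hm h1
    refine ⟨hs, h1, h3, fun k hk => ?_, trivial⟩
    rw [pos_take h3 s hk]
    exact h2 k (by omega)
  · refine Summable.of_nonneg_of_le (fun n => mul_nonneg (Nat.cast_nonneg _) (pow_nonneg zc_nonneg n)) (fun n => ?_) hs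
    exact mul_le_mul_of_nonneg_right (Nat.cast_le.2 (an_le n x j)) (pow_nonneg zc_nonneg n)
  · refine Summable.of_nonneg_of_le (fun n => mul_nonneg (Nat.cast_nonneg _) (pow_nonneg zc_nonneg n)) (fun n => ?_) hs
    exact mul_le_mul_of_nonneg_right (Nat.cast_le.2 (fc_le n x m _ _)) (pow_nonneg zc_nonneg n)

lemma sumTL (h : TPb) (m : ℕ) (j : Fin 3) : Summable fun k : ℕ => (if m < k then (cn k (step 0 j) : ℝ) * zc ^ k else 0) := by
  refine Summable.of_nonneg_of_le (fun k => ?_) (fun k => ?_) (h.sum (step_vert j) (step_ne j))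
  · split_ifs
    · exact mul_nonneg (Nat.cast_nonneg _) (pow_nonneg zc_nonneg k)
    · exact le_rfl
  · split_ifs
    · exact le_rfl
    · exact mul_nonneg (Nat.cast_nonneg _) (pow_nonneg zc_nonneg k)

lemma ends_le (h : TPb) {x : ℂ} (hx : x ∈ vertices) (h0 : x ≠ 0) (m : ℕ) (j : Fin 3) (h1 : step 0 j - x ≠ 0) :
    ends zc x m (Wa m j) Set.univ ≤ GA x j + TL m j * G zc (step 0 j - x) := by
  have hs := h.sum hx h0
  have hT := sumTL h m j
  have hG := h.sum (vert_sub hx j) h1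
  have hp : ∀ n : ℕ, 0 ≤ zc ^ n := fun n => pow_nonneg zc_nonneg n
  have hT0 : ∀ k : ℕ, 0 ≤ (if m < k then (cn k (step 0 j) : ℝ) * zc ^ k else 0) := by
    intro k
    split_ifs
    · exact mul_nonneg (Nat.cast_nonneg _) (hp k)
    · exact le_rfl
  have hG0 : ∀ k : ℕ, 0 ≤ (cn k (step 0 j - x) : ℝ) * zc ^ k := fun k => mul_nonneg (Nat.cast_nonneg _) (hp k)
  have hTn : Summable fun k : ℕ => ‖(if m < k then (cn k (step 0 j) : ℝ) * zc ^ k else 0)‖ := hT.norm
  have hGn : Summable fun k : ℕ => ‖(cn k (step 0 j - x) : ℝ) * zc ^ k‖ := hG.norm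
  have hprod := tsum_mul_tsum_eq_tsum_sum_antidiagonal_of_summable_norm hTn hGn
  have hsp := (summable_norm_sum_mul_antidiagonal_of_summable_norm hTn hGn).of_norm
  unfold TL
  rw [G_eq, hprod]
  have hsa : Summable fun n : ℕ => (an n x j : ℝ) * zc ^ n := by
    refine Summable.of_nonneg_of_le (fun n => mul_nonneg (Nat.cast_nonneg _) (hp n)) (fun n => ?_) hs
    exact mul_le_mul_of_nonneg_right (Nat.cast_le.2 (an_le n x j)) (hp n)
  rw [ends_eq]
  unfold GA
  rw [← hsa.tsum_add hsp]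
  refine Summable.tsum_le_tsum (fun n => ?_) ?_ (hsa.add hsp)
  · have e1 : ∑ p ∈ HasAntidiagonal.antidiagonal n, (if m < p.1 then (cn p.1 (step 0 j) : ℝ) * zc ^ p.1 else 0) *
        ((cn p.2 (step 0 j - x) : ℝ) * zc ^ p.2) =
        ((∑ p ∈ HasAntidiagonal.antidiagonal n, (if m < p.1 then cn p.1 (step 0 j) else 0) * cn p.2 (step 0 j - x) : ℕ) : ℝ) *
          zc ^ n := by
      rw [Nat.cast_sum, sum_mul]
      refine sum_congr rfl fun p hp => ?_
      rw [HasAntidiagonal.mem_antidiagonal] at hp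
      rw [← hp, pow_add]
      split_ifs <;> push_cast <;> ring
    rw [e1, ← add_mul]
    refine mul_le_mul_of_nonneg_right ?_ (hp n)
    rw [← Nat.cast_add, Nat.cast_le]
    refine le_trans ?_ (Nat.add_le_add_left (card_hit m n x j) _)
    unfold an
    refine le_trans (card_le_card ?_) (card_union_le _ _)
    intro s hs
    rw [mem_fc] at hs
    obtain ⟨hs, h1, h2, h3, -⟩ := hs
    rw [mem_union, mem_filter, mem_filter]
    by_cases h4 : ∀ k ≤ n, pos s k ≠ step 0 j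
    · exact Or.inl ⟨hs, h1, h4⟩
    · right
      refine ⟨hs, h1, ?_⟩
      simp only [not_forall, not_not] at h4
      obtain ⟨k, hk, h4⟩ := h4
      refine ⟨k, hk, ?_, h4⟩
      by_contra h5
      have h6 := h3 k (by omega)
      rw [pos_take h2 s (by omega)] at h6
      exact h6 h4
  · refine Summable.of_nonneg_of_le (fun n => mul_nonneg (Nat.cast_nonneg _) (hp n)) (fun n => ?_) hs
    exact mul_le_mul_of_nonneg_right (Nat.cast_le.2 (fc_le n x m _ _)) (hp n)

lemma TL_lim (h : TPb) (j : Fin 3) : Tendsto (fun m => TL m j) atTop (𝓝 0) := by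
  have h1 := tendsto_tsum_of_dominated_convergence (𝓕 := atTop)
    (f := fun (m k : ℕ) => (if m < k then (cn k (step 0 j) : ℝ) * zc ^ k else 0)) (g := fun _ => (0 : ℝ))
    (h.sum (step_vert j) (step_ne j)) (fun k => ?_) (Eventually.of_forall fun m k => ?_)
  · rw [tsum_zero] at h1
    exact h1
  · refine tendsto_const_nhds.congr' ?_
    filter_upwards [eventually_ge_atTop k] with m hm
    rw [if_neg (by omega)]
  · split_ifs
    · rw [Real.norm_of_nonneg (mul_nonneg (Nat.cast_nonneg _) (pow_nonneg zc_nonneg k))]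
    · rw [norm_zero]
      exact mul_nonneg (Nat.cast_nonneg _) (pow_nonneg zc_nonneg k)

lemma TL_nonneg (m : ℕ) (j : Fin 3) : 0 ≤ TL m j := by
  refine tsum_nonneg fun k => ?_
  split_ifs
  · exact mul_nonneg (Nat.cast_nonneg _) (pow_nonneg zc_nonneg k)
  · exact le_rfl

/-! ### the infinite walk -/

lemma pos_ipos (w : ℕ → Fin 3) {m k : ℕ} (hk : k ≤ m) : pos (fun i : Fin m => w i) k = ipos w k := by
  unfold pos ipos
  refine sum_bij (fun i _ => (i : ℕ)) ?_ ?_ ?_ ?_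
  · intro i hi
    rw [mem_filter] at hi
    exact mem_range.2 hi.2
  · intro i _ i' _ h
    exact Fin.ext h
  · intro i hi
    rw [mem_range] at hi
    exact ⟨⟨i, by omega⟩, by simp [hi], rfl⟩
  · intro i _
    rfl

/-- the infinite walk avoids `ω ^ j` -/
def Qa (j : Fin 3) : Set (ℕ → Fin 3) := {w | ∀ k, ipos w k ≠ step 0 j}

lemma Wa_eq (m : ℕ) (j : Fin 3) : {w : ℕ → Fin 3 | (fun i : Fin m => w i) ∈ Wa m j} = {w | ∀ k ≤ m, ipos w k ≠ step 0 j} := by
  ext w
  refine forall_congr' fun k => forall_congr' fun hk => ?_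
  rw [pos_ipos w hk]

lemma meas_ipos (k : ℕ) : Measurable fun w : ℕ → Fin 3 => ipos w k := by
  unfold ipos
  refine Finset.measurable_sum _ fun i _ => ?_
  exact (measurable_of_finite (step i)).comp (measurable_pi_apply i)

lemma meas_Wa (m : ℕ) (j : Fin 3) : MeasurableSet {w : ℕ → Fin 3 | ∀ k ≤ m, ipos w k ≠ step 0 j} := by
  have : {w : ℕ → Fin 3 | ∀ k ≤ m, ipos w k ≠ step 0 j} = ⋂ k ∈ Set.Iic m, (fun w : ℕ → Fin 3 => ipos w k) ⁻¹' {step 0 j}ᶜ := by
    ext w
    simp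
  rw [this]
  exact MeasurableSet.biInter (Set.to_countable _) fun k _ => meas_ipos k (measurableSet_singleton _).compl

lemma Wa_lim (P : Measure (ℕ → Fin 3)) [IsProbabilityMeasure P] (j : Fin 3) :
    Tendsto (fun m : ℕ => P.real {w | (fun i : Fin m => w i) ∈ Wa m j}) atTop (𝓝 (P.real (Qa j))) := by
  have h1 : Qa j = ⋂ m : ℕ, {w : ℕ → Fin 3 | ∀ k ≤ m, ipos w k ≠ step 0 j} := by
    ext w
    simp only [Qa, Set.mem_iInter]
    exact ⟨fun h m k _ => h k, fun h k => h k k le_rfl⟩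
  have h2 : Antitone fun m : ℕ => {w : ℕ → Fin 3 | ∀ k ≤ m, ipos w k ≠ step 0 j} :=
    fun m m' hm w hw k hk => hw k (hk.trans hm)
  have h3 := tendsto_measure_iInter_atTop (μ := P) (fun m => (meas_Wa m j).nullMeasurableSet) h2 ⟨0, measure_ne_top _ _⟩
  rw [← h1] at h3
  have h4 := (ENNReal.tendsto_toReal (measure_ne_top P (Qa j))).comp h3
  refine h4.congr fun m => ?_
  rw [Wa_eq]
  rfl

end Pool.Agent.PLC
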