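import Pool.Agent.PLC.NbB

/-!
PLC, row E2 (helper70): the conclusion. `G (x') / G (x) → 1` for the neighbours `x'` of `x`; the infinite walk avoids a neighbour
of its start with probability `μ / 3`.
-/

set_option autoImplicit false

open scoped Classical

open MeasureTheory Filter Topology

namespace Pool.Agent.PLC

open Pool.Agent.IW.Res Res Finset

/-! ### the first direction is fair -/

lemma exp_third : Complex.exp (2 * (Real.pi : ℂ) * Complex.I / 3) ^ 3 = 1 := by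
  rw [← Complex.exp_nat_mul]
  have : ((3 : ℕ) : ℂ) * (2 * (Real.pi : ℂ) * Complex.I / 3) = 2 * Real.pi * Complex.I := by
    push_cast
    ring
  rw [this, Complex.exp_two_pi_mul_I]

lemma step_pow (i : ℕ) (a : Fin 3) : step i a = (-1) ^ i * Complex.exp (2 * (Real.pi : ℂ) * Complex.I / 3) ^ (a : ℕ) := by
  unfold step
  rw [← Complex.exp_nat_mul]
  congr 2
  ring

lemma step_rot (i : ℕ) (a : Fin 3) : step i (a + 1) = step i a * Complex.exp (2 * (Real.pi : ℂ) * Complex.I / 3) := by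
  rw [step_pow, step_pow]
  have h : Complex.exp (2 * (Real.pi : ℂ) * Complex.I / 3) ^ ((a + 1 : Fin 3) : ℕ) =
      Complex.exp (2 * (Real.pi : ℂ) * Complex.I / 3) ^ (a : ℕ) * Complex.exp (2 * (Real.pi : ℂ) * Complex.I / 3) := by
    rw [← pow_succ]
    fin_cases a
    · rfl
    · rfl
    · change Complex.exp (2 * (Real.pi : ℂ) * Complex.I / 3) ^ 0 = Complex.exp (2 * (Real.pi : ℂ) * Complex.I / 3) ^ 3
      rw [exp_third, pow_zero]
  rw [h]
  exact (mul_assoc _ _ _).symm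

lemma pos_rot {n : ℕ} (s : Fin n → Fin 3) (k : ℕ) :
    pos (fun i => s i + 1) k = pos s k * Complex.exp (2 * (Real.pi : ℂ) * Complex.I / 3) := by
  unfold pos
  rw [sum_mul]
  exact sum_congr rfl fun i _ => step_rot _ _

lemma saw_rot {n : ℕ} {s : Fin n → Fin 3} (hs : s ∈ saw n) : (fun i => s i + 1) ∈ saw n := by
  rw [mem_saw] at hs ⊢
  intro i k hi hk h
  rw [pos_rot, pos_rot] at h
  exact hs i k hi hk (mul_right_cancel₀ (Complex.exp_ne_zero _) h)

/-- the walks with the first direction `j` -/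
noncomputable def f1 (n : ℕ) (j : Fin 3) : Finset (Fin n → Fin 3) := (saw n).filter (fun s => ∀ i : Fin n, (i : ℕ) < 1 → s i = j)

lemma f1_le (n : ℕ) (j : Fin 3) : (f1 n j).card ≤ (f1 n (j + 1)).card := by
  refine card_le_card_of_injOn (fun s i => s i + 1) ?_ ?_
  · intro s hs
    rw [mem_coe, f1, mem_filter] at hs
    rw [mem_coe, f1, mem_filter]
    refine ⟨saw_rot hs.1, fun i hi => ?_⟩
    change s i + 1 = j + 1
    rw [hs.2 i hi]
  · intro s _ s' _ h
    funext i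
    exact add_right_cancel (congrFun h i)

lemma f1_eq (n : ℕ) (j : Fin 3) : (f1 n j).card = (f1 n 0).card := by
  have h0 := f1_le n 0
  have h1 := f1_le n 1
  have h2 := f1_le n 2
  rw [show (0 : Fin 3) + 1 = 1 from rfl] at h0
  rw [show (1 : Fin 3) + 1 = 2 from rfl] at h1
  rw [show (2 : Fin 3) + 1 = 0 from rfl] at h2
  fin_cases j
  · rfl
  · change (f1 n 1).card = _
    omega
  · change (f1 n 2).card = _
    omega

lemma begins_eq (n : ℕ) (j : Fin 3) : begins n 1 (fun _ => j) = begins n 1 (fun _ => 0) := by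
  have h : ∀ j : Fin 3, begins n 1 (fun _ => j) = ((f1 n j).card : ℝ) / ((saw n).card : ℝ) := fun _ => rfl
  rw [h, h, f1_eq]

/-- the beginnings of the long walks -/
def BP (P : Measure (ℕ → Fin 3)) : Prop := ∀ (η : ℕ → Fin 3) (m : ℕ),
  Tendsto (fun n => begins n m η) atTop (𝓝 (P.real {w | ∀ i, i < m → w i = η i}))

lemma one_set (j : Fin 3) : {w : ℕ → Fin 3 | ∀ i, i < 1 → w i = j} = {w | w 0 = j} := by
  ext w
  constructor
  · exact fun h => h 0 (by omega)
  · intro h i hi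
    have : i = 0 := by omega
    rw [this]
    exact h

variable {P : Measure (ℕ → Fin 3)} [IsProbabilityMeasure P]

/-- **the first direction is fair** -/
lemma p_third (hb : BP P) (j : Fin 3) : P.real {w | w 0 = j} = 1 / 3 := by
  have h1 : ∀ j : Fin 3, P.real {w | w 0 = j} = P.real {w | w 0 = 0} := by
    intro j
    rw [← one_set, ← one_set]
    refine tendsto_nhds_unique ((hb (fun _ => j) 1).congr fun n => begins_eq n j) (hb (fun _ => 0) 1)
  have h2 : ∑ j : Fin 3, P.real {w | w 0 = j} = 1 := by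
    have hm : Measurable fun w : ℕ → Fin 3 => w 0 := measurable_pi_apply 0
    have hp : IsProbabilityMeasure (P.map fun w : ℕ → Fin 3 => w 0) := Measure.isProbabilityMeasure_map hm.aemeasurable
    have h3 := sum_measureReal_singleton (μ := P.map fun w : ℕ → Fin 3 => w 0) (univ : Finset (Fin 3))
    rw [coe_univ, probReal_univ] at h3
    rw [← h3]
    refine sum_congr rfl fun j _ => ?_
    rw [map_measureReal_apply hm (measurableSet_singleton j)]
    rfl
  rw [h1 j]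
  rw [sum_congr rfl fun j _ => h1 j, sum_const, card_univ, Fintype.card_fin, nsmul_eq_mul] at h2
  push_cast at h2
  linarith

/-! ### the neighbours -/

lemma norm_sub_ge (x : ℂ) (j : Fin 3) : ‖x‖ - 1 ≤ ‖step 0 j - x‖ := by
  have h := norm_sub_norm_le x (step 0 j)
  rw [norm_step, norm_sub_rev] at h
  exact h

lemma G_nb (h : TPb) : ∃ C : ℝ, 0 < C ∧ ∀ x ∈ vertices, 2 ≤ ‖x‖ → ∀ j, G zc (step 0 j - x) ≤ C * G zc x := by
  obtain ⟨c, hc, h⟩ := h
  refine ⟨2 * c⁻¹ * c⁻¹, by positivity, fun x hx h2 j => ?_⟩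
  have h3 := norm_sub_ge x j
  have h4 : ‖x‖ / 2 ≤ ‖step 0 j - x‖ := by linarith
  have hx0 : x ≠ 0 := norm_pos_iff.1 (by linarith)
  have hy0 : step 0 j - x ≠ 0 := norm_pos_iff.1 (by linarith)
  have h5 := (h _ (vert_sub hx j) hy0).2
  have h6 := (h x hx hx0).1
  have h7 : ‖step 0 j - x‖ ^ (-(5 / 24) : ℝ) ≤ 2 * ‖x‖ ^ (-(5 / 24) : ℝ) := by
    have hp : 0 < ‖x‖ / 2 := by linarith
    calc ‖step 0 j - x‖ ^ (-(5 / 24) : ℝ) ≤ (‖x‖ / 2) ^ (-(5 / 24) : ℝ) :=
          Real.rpow_le_rpow_of_nonpos hp h4 (by norm_num)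
      _ = 2 ^ (5 / 24 : ℝ) * ‖x‖ ^ (-(5 / 24) : ℝ) := by
          rw [Real.div_rpow (norm_nonneg _) (by norm_num), Real.rpow_neg (by norm_num : (0 : ℝ) ≤ 2), div_inv_eq_mul, mul_comm]
      _ ≤ 2 * ‖x‖ ^ (-(5 / 24) : ℝ) := by
          refine mul_le_mul_of_nonneg_right ?_ (Real.rpow_nonneg (norm_nonneg _) _)
          calc (2 : ℝ) ^ (5 / 24 : ℝ) ≤ 2 ^ (1 : ℝ) := Real.rpow_le_rpow_of_exponent_le (by norm_num) (by norm_num)
            _ = 2 := Real.rpow_one _
  calc G zc (step 0 j - x) ≤ c⁻¹ * ‖step 0 j - x‖ ^ (-(5 / 24) : ℝ) := h5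
    _ ≤ c⁻¹ * (2 * ‖x‖ ^ (-(5 / 24) : ℝ)) := mul_le_mul_of_nonneg_left h7 (inv_nonneg.2 hc.le)
    _ = 2 * c⁻¹ * c⁻¹ * (c * ‖x‖ ^ (-(5 / 24) : ℝ)) := by
        field_simp
    _ ≤ 2 * c⁻¹ * c⁻¹ * G zc x := mul_le_mul_of_nonneg_left h6 (by positivity)

lemma real_univ' (m : ℕ) : P.real {w : ℕ → Fin 3 | (fun i : Fin m => w i) ∈ (Set.univ : Set (Fin m → Fin 3))} = 1 := by
  have : {w : ℕ → Fin 3 | (fun i : Fin m => w i) ∈ (Set.univ : Set (Fin m → Fin 3))} = Set.univ :=
    Set.eq_univ_of_forall fun w => Set.mem_univ _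
  rw [this, probReal_univ]

/-- the proportion of the walks `0 → x` which avoid `ω ^ j` -/
lemma GA_lim (h : TPb) (hE : EP P) (j : Fin 3) {ε : ℝ} (hε : 0 < ε) : ∃ R : ℝ, ∀ x ∈ vertices, R ≤ ‖x‖ →
    |GA x j - P.real (Qa j) * G zc x| ≤ ε * G zc x := by
  obtain ⟨C, hC, hnb⟩ := G_nb h
  have e1 : ∀ᶠ m : ℕ in atTop, |P.real {w | (fun i : Fin m => w i) ∈ Wa m j} - P.real (Qa j)| < ε / 3 := by
    have := (Wa_lim P j).eventually (Metric.ball_mem_nhds _ (by positivity : 0 < ε / 3))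
    exact this
  have e2 : ∀ᶠ m : ℕ in atTop, |TL m j - 0| < ε / (3 * C) := by
    have := (TL_lim h j).eventually (Metric.ball_mem_nhds _ (by positivity : 0 < ε / (3 * C)))
    exact this
  obtain ⟨m, h1, h2⟩ := (e1.and e2).exists
  rw [sub_zero, abs_of_nonneg (TL_nonneg m j)] at h2
  obtain ⟨R, hR⟩ := hE.fix m (by positivity : 0 < ε / 3)
  refine ⟨max R (max 2 m), fun x hx hxR => ?_⟩
  have h3 : 2 ≤ ‖x‖ := ((le_max_left _ _).trans (le_max_right _ _)).trans hxR
  have h4 : (m : ℝ) ≤ ‖x‖ := ((le_max_right _ _).trans (le_max_right _ _)).trans hxR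
  have hx0 : x ≠ 0 := norm_pos_iff.1 (by linarith)
  have hy0 : step 0 j - x ≠ 0 := norm_pos_iff.1 (by linarith [norm_sub_ge x j])
  have h5 := hR x hx ((le_max_left _ _).trans hxR) (Wa m j) Set.univ
  rw [real_univ', mul_one] at h5
  have h6 := GA_le_ends h hx hx0 h4 j
  have h7 := ends_le h hx hx0 m j hy0
  have hG := G_nonneg x
  have h8 : TL m j * G zc (step 0 j - x) ≤ ε / 3 * G zc x := by
    calc TL m j * G zc (step 0 j - x) ≤ TL m j * (C * G zc x) := mul_le_mul_of_nonneg_left (hnb x hx h3 j) (TL_nonneg m j)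
      _ ≤ ε / (3 * C) * (C * G zc x) := mul_le_mul_of_nonneg_right h2.le (by positivity)
      _ = ε / 3 * G zc x := by
          field_simp
  rw [abs_le] at h5 ⊢
  rw [abs_lt] at h1
  have h9 : (P.real {w | (fun i : Fin m => w i) ∈ Wa m j} - P.real (Qa j)) * G zc x ≤ ε / 3 * G zc x :=
    mul_le_mul_of_nonneg_right h1.2.le hG
  have h10 : -(ε / 3) * G zc x ≤ (P.real {w | (fun i : Fin m => w i) ∈ Wa m j} - P.real (Qa j)) * G zc x :=
    mul_le_mul_of_nonneg_right h1.1.le hG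
  constructor
  · nlinarith [h5.1, h5.2]
  · nlinarith [h5.1, h5.2]

/-- `G (ω ^ j - x) / G (x) → 3 μ⁻¹ P (ω ^ j is avoided)` -/
lemma inv_lim (h : TPb) (hE : EP P) (hb : BP P) (j : Fin 3) {ε : ℝ} (hε : 0 < ε) : ∃ R : ℝ, ∀ x ∈ vertices, R ≤ ‖x‖ →
    |G zc (step 0 j - x) - 3 * zc * P.real (Qa j) * G zc x| ≤ ε * G zc x := by
  obtain ⟨C, hC, hnb⟩ := G_nb h
  have hz := h.zc_pos
  set ε' : ℝ := ε / (3 * (C + zc)) with hε'
  have hε0 : 0 < ε' := by positivity
  obtain ⟨R1, hR1⟩ := GA_lim h hE j hε0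
  obtain ⟨R2, hR2⟩ := hE.fix 1 hε0
  refine ⟨max R1 (max (R2 + 1) 2), fun x hx hxR => ?_⟩
  have h2 : 2 ≤ ‖x‖ := ((le_max_right _ _).trans (le_max_right _ _)).trans hxR
  have h3 : R2 + 1 ≤ ‖x‖ := ((le_max_left _ _).trans (le_max_right _ _)).trans hxR
  have h4 := hR1 x hx ((le_max_left _ _).trans hxR)
  have h5 := hR2 _ (vert_sub hx j) (by linarith [norm_sub_ge x j]) {w | w 0 = j} Set.univ
  rw [real_univ', mul_one, ends_one] at h5
  have h6 : P.real {w : ℕ → Fin 3 | (fun i : Fin 1 => w i) ∈ ({w | w 0 = j} : Set (Fin 1 → Fin 3))} = 1 / 3 := p_third hb j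
  rw [h6] at h5
  have h7 := hnb x hx h2 j
  have hG := G_nonneg x
  have h8 : ε' * G zc (step 0 j - x) ≤ ε' * (C * G zc x) := mul_le_mul_of_nonneg_left h7 hε0.le
  have h9 : |zc * (GA x j - P.real (Qa j) * G zc x)| ≤ zc * (ε' * G zc x) := by
    rw [abs_mul, abs_of_pos hz]
    exact mul_le_mul_of_nonneg_left h4 hz.le
  have h10 : 3 * (ε' * (C * G zc x)) + 3 * (zc * (ε' * G zc x)) = ε * G zc x := by
    rw [hε']
    field_simp
  rw [abs_le] at h5 h9 ⊢
  constructor
  · linarith [h5.1, h5.2, h9.1, h9.2]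
  · linarith [h5.1, h5.2, h9.1, h9.2]

/-- **the two-point function at two neighbours**, first form -/
theorem nb_inv (h : TPb) (hE : EP P) (hb : BP P) {ε : ℝ} (hε : 0 < ε) : ∃ R : ℝ, ∀ x ∈ vertices, R ≤ ‖x‖ → ∀ j,
    |G zc (step 0 j - x) / G zc x - 1| ≤ ε := by
  have key : ∀ j : Fin 3, ∃ R : ℝ, ∀ x ∈ vertices, R ≤ ‖x‖ → |G zc (step 0 j - x) / G zc x - 1| ≤ ε := by
    intro j
    obtain ⟨R, hR⟩ := inv_lim h hE hb j (by positivity : 0 < ε / 2)
    refine ⟨max (R + 1) 2, fun x hx hxR => ?_⟩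
    have h1 : R + 1 ≤ ‖x‖ := (le_max_left _ _).trans hxR
    have h2 : 2 ≤ ‖x‖ := (le_max_right _ _).trans hxR
    have h3 := norm_sub_ge x j
    have hG := h.pos hx (norm_pos_iff.1 (by linarith))
    have hG' := h.pos (vert_sub hx j) (norm_pos_iff.1 (by linarith))
    have h4 := hR x hx (by linarith)
    have h5 := hR _ (vert_sub hx j) (by linarith)
    rw [sub_sub_cancel] at h5
    set q : ℝ := 3 * zc * P.real (Qa j)
    set A : ℝ := G zc x
    set B : ℝ := G zc (step 0 j - x)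
    have h6 : |B / A - q| ≤ ε / 2 := by
      have : B / A - q = (B - q * A) / A := by field_simp
      rw [this, abs_div, abs_of_pos hG, div_le_iff₀ hG]
      exact h4
    have h7 : |A / B - q| ≤ ε / 2 := by
      have : A / B - q = (A - q * B) / B := by field_simp
      rw [this, abs_div, abs_of_pos hG', div_le_iff₀ hG']
      exact h5
    have h8 : |B / A - A / B| ≤ ε := by
      have : B / A - A / B = (B / A - q) - (A / B - q) := by ring
      rw [this]
      refine (abs_sub _ _).trans ?_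
      linarith
    refine le_trans ?_ h8
    have hr : 0 < B / A := div_pos hG' hG
    have e1 : A / B = (B / A)⁻¹ := by rw [inv_div]
    rw [e1]
    generalize B / A = r at hr
    have e2 : r - r⁻¹ = (r - 1) * (1 + r⁻¹) := by
      field_simp
      ring
    rw [e2, abs_mul]
    have e3 : 1 ≤ |1 + r⁻¹| := by
      rw [abs_of_pos (by positivity)]
      have : 0 < r⁻¹ := by positivity
      linarith
    exact le_mul_of_one_le_right (abs_nonneg _) e3
  choose R hR using key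
  refine ⟨max (R 0) (max (R 1) (R 2)), fun x hx hxR j => hR j x hx (le_trans ?_ hxR)⟩
  fin_cases j
  · exact le_max_left _ _
  · exact (le_max_left _ _).trans (le_max_right _ _)
  · exact (le_max_right _ _).trans (le_max_right _ _)

/-! ### the vertices are unbounded, the constant -/

lemma vert_big (R : ℝ) : ∃ x ∈ vertices, R ≤ ‖x‖ := by
  set w : ℕ → Fin 3 := fun i => if i % 2 = 0 then 0 else 1 with hw
  have h1 : ∀ n : ℕ, (ipos w (2 * n)).re = 3 / 2 * n := by
    intro n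
    induction n with
    | zero =>
      rw [Nat.mul_zero]
      unfold ipos
      rw [sum_range_zero]
      simp
    | succ n ih =>
      have e : 2 * (n + 1) = 2 * n + 1 + 1 := by ring
      unfold ipos at ih ⊢
      rw [e, sum_range_succ, sum_range_succ, Complex.add_re, Complex.add_re, ih]
      have e1 : w (2 * n) = 0 := by
        rw [hw]
        simp
      have e2 : w (2 * n + 1) = 1 := by
        rw [hw]
        have : (2 * n + 1) % 2 = 1 := by omega
        simp [this]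
      rw [e1, e2]
      have e3 : step (2 * n) 0 = 1 := by
        rw [step_pow, pow_mul, neg_one_sq, one_pow, one_mul]
        rfl
      have e4 : (step (2 * n + 1) 1).re = 1 / 2 := by
        rw [step_succ, Complex.neg_re]
        unfold step
        rw [pow_mul, neg_one_sq, one_pow, one_mul]
        have h3 : Real.cos (2 * Real.pi / 3) = -1 / 2 := by
          have : 2 * Real.pi / 3 = Real.pi - Real.pi / 3 := by ring
          rw [this, Real.cos_pi_sub, Real.cos_pi_div_three]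
          ring
        have : 2 * (Real.pi : ℂ) * Complex.I * (((1 : Fin 3) : ℕ) : ℂ) / 3 = ((2 * Real.pi / 3 : ℝ) : ℂ) * Complex.I := by
          change 2 * (Real.pi : ℂ) * Complex.I * ((1 : ℕ) : ℂ) / 3 = _
          push_cast
          ring
        rw [this, Complex.exp_ofReal_mul_I_re, h3]
        norm_num
      rw [e3, e4, Complex.one_re]
      push_cast
      ring
  obtain ⟨n, hn⟩ := exists_nat_ge R
  refine ⟨ipos w (2 * n), ⟨2 * n, fun i => w i, pos_ipos w le_rfl⟩, ?_⟩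
  have h2 := Complex.abs_re_le_norm (ipos w (2 * n))
  rw [h1] at h2
  have h3 := le_abs_self (3 / 2 * (n : ℝ))
  have h4 : (0 : ℝ) ≤ n := Nat.cast_nonneg n
  linarith

/-- **the infinite walk avoids a neighbour of its start with probability `μ / 3`** -/
theorem avoid_prob (h : TPb) (hE : EP P) (hb : BP P) (j : Fin 3) : P.real (Qa j) = 1 / (3 * zc) := by
  have hz := h.zc_pos
  have key : ∀ ε : ℝ, 0 < ε → |3 * zc * P.real (Qa j) - 1| ≤ ε := by
    intro ε hε
    obtain ⟨R1, hR1⟩ := inv_lim h hE hb j (by positivity : 0 < ε / 2)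
    obtain ⟨R2, hR2⟩ := nb_inv h hE hb (by positivity : 0 < ε / 2)
    obtain ⟨x, hx, hxR⟩ := vert_big (max (max R1 R2) 1)
    have hG := h.pos hx (norm_pos_iff.1 (lt_of_lt_of_le one_pos ((le_max_right _ _).trans hxR)))
    have h1 := hR1 x hx (((le_max_left _ _).trans (le_max_left _ _)).trans hxR)
    have h2 := hR2 x hx (((le_max_right _ _).trans (le_max_left _ _)).trans hxR) j
    have h3 : |G zc (step 0 j - x) / G zc x - 3 * zc * P.real (Qa j)| ≤ ε / 2 := by
      have : G zc (step 0 j - x) / G zc x - 3 * zc * P.real (Qa j) =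
          (G zc (step 0 j - x) - 3 * zc * P.real (Qa j) * G zc x) / G zc x := by field_simp
      rw [this, abs_div, abs_of_pos hG, div_le_iff₀ hG]
      exact h1
    rw [abs_le] at h2 h3 ⊢
    constructor <;> linarith [h2.1, h2.2, h3.1, h3.2]
  have h1 : 3 * zc * P.real (Qa j) = 1 := by
    by_contra hne
    have h2 : 0 < |3 * zc * P.real (Qa j) - 1| := abs_pos.2 (sub_ne_zero.2 hne)
    have := key _ (half_pos h2)
    linarith
  field_simp
  linarith

/-! ### the sublattices -/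

/-- the even vertices -/
def ev : Set ℂ := {x | ∃ (n : ℕ) (s : Fin n → Fin 3), Even n ∧ pos s n = x}

/-- the odd vertices -/
def od : Set ℂ := {x | ∃ (n : ℕ) (s : Fin n → Fin 3), Odd n ∧ pos s n = x}

lemma ev_or_od {x : ℂ} (hx : x ∈ vertices) : x ∈ ev ∨ x ∈ od := by
  obtain ⟨n, s, h⟩ := hx
  rcases Nat.even_or_odd n with hn | hn
  · exact Or.inl ⟨n, s, hn, h⟩
  · exact Or.inr ⟨n, s, hn, h⟩

lemma ev_vert {x : ℂ} (hx : x ∈ ev) : x ∈ vertices := by
  obtain ⟨n, s, -, h⟩ := hx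
  exact ⟨n, s, h⟩

lemma od_vert {x : ℂ} (hx : x ∈ od) : x ∈ vertices := by
  obtain ⟨n, s, -, h⟩ := hx
  exact ⟨n, s, h⟩

lemma ev_neg {x : ℂ} (hx : x ∈ ev) : -x ∈ ev := by
  obtain ⟨n, s, hn, h⟩ := hx
  refine ⟨n, fun i => s (Fin.rev i), hn, ?_⟩
  rw [pos_rev s le_rfl, Nat.sub_self, pos_zero, h, pow_succ, hn.neg_one_pow]
  ring

lemma od_sub {x : ℂ} (hx : x ∈ od) (j : Fin 3) : step 0 j - x ∈ ev := by
  obtain ⟨n, s, hn, rfl⟩ := hx
  exact ⟨n + 1, Fin.cons j s, hn.add_one, pos_cons j s n⟩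

lemma ev_sub {x : ℂ} (hx : x ∈ ev) (j : Fin 3) : step 0 j - x ∈ od := by
  obtain ⟨n, s, hn, rfl⟩ := hx
  exact ⟨n + 1, Fin.cons j s, hn.add_one, pos_cons j s n⟩

/-- the neighbours of an even vertex -/
lemma ev_add {x : ℂ} (hx : x ∈ ev) (j : Fin 3) : x + step 0 j ∈ od := by
  have := ev_sub (ev_neg hx) j
  rwa [sub_neg_eq_add, add_comm] at this

/-- the neighbours of an odd vertex -/
lemma od_sub' {x : ℂ} (hx : x ∈ od) (j : Fin 3) : x - step 0 j ∈ ev := by
  have := ev_neg (od_sub hx j)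
  rwa [neg_sub] at this

lemma cn_ev {x : ℂ} (hx : x ∈ ev) {n : ℕ} (hn : ¬ Even n) : cn n x = 0 := by
  obtain ⟨m, s, hm, h⟩ := hx
  unfold cn
  rw [card_eq_zero, filter_eq_empty_iff]
  intro t _ ht
  have := par (s := t) (s' := s) le_rfl le_rfl (ht.trans h.symm)
  rw [Nat.even_iff] at hn hm
  omega

lemma G_neg {x : ℂ} (hx : x ∈ ev) (z : ℝ) : G z (-x) = G z x := by
  change ∑' n : ℕ, (cn n (-x) : ℝ) * z ^ n = ∑' n : ℕ, (cn n x : ℝ) * z ^ n
  refine tsum_congr fun n => ?_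
  by_cases hn : Even n
  · rw [cn_neg hn]
  · rw [cn_ev hx hn, cn_ev (ev_neg hx) hn]

/-- **the two-point function at two neighbours** -/
theorem nb (h : TPb) (hE : EP P) (hb : BP P) {ε : ℝ} (hε : 0 < ε) : ∃ R : ℝ, ∀ x : ℂ, R ≤ ‖x‖ → ∀ j,
    (x ∈ ev → |G zc (x + step 0 j) / G zc x - 1| ≤ ε) ∧ (x ∈ od → |G zc (x - step 0 j) / G zc x - 1| ≤ ε) := by
  obtain ⟨R, hR⟩ := nb_inv h hE hb hε
  refine ⟨R, fun x hxR j => ⟨fun hx => ?_, fun hx => ?_⟩⟩
  · have := hR (-x) (ev_vert (ev_neg hx)) (by rw [norm_neg]; exact hxR) j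
    rw [sub_neg_eq_add, add_comm, G_neg hx] at this
    exact this
  · have := hR x (od_vert hx) hxR j
    rw [← G_neg (od_sub hx j), neg_sub] at this
    exact this

/-- the form of PLC/PubRA -/
theorem nb_step (h : TPb) (hE : EP P) (hb : BP P) {ε : ℝ} (hε : 0 < ε) : ∃ R : ℝ, ∀ (n : ℕ) (s : Fin n → Fin 3) (a : Fin 3),
    R ≤ ‖pos s n‖ → |G zc (pos s n + step n a) / G zc (pos s n) - 1| ≤ ε := by
  obtain ⟨R, hR⟩ := nb h hE hb hε
  refine ⟨R, fun n s a hs => ?_⟩
  have h1 := step_add n 0 a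
  rw [add_zero] at h1
  rw [h1]
  rcases Nat.even_or_odd n with hn | hn
  · rw [hn.neg_one_pow, one_mul]
    exact (hR _ hs a).1 ⟨n, s, hn, rfl⟩
  · rw [hn.neg_one_pow, neg_one_mul, ← sub_eq_add_neg]
    exact (hR _ hs a).2 ⟨n, s, hn, rfl⟩

end Pool.Agent.PLC
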