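import Pool.Agent.PLC.Defs
import Pool.Agent.PLC.DefR
import Pool.Agent.TPF.Main
import Pool.Agent.TPC.XUp

/-!
PLC, row D1 (helper73): no box. The sums over `Ty R R e y` (the plane words with the end `y`, the last direction `e`, in the box
`R`) converge to the sums over all words; `ShF`, `EF` from `ShC PlC`, `TipC PlC`.
-/

set_option autoImplicit false

namespace HexObs

namespace PLC

open Finset TS SDN TIW SLW PWN Filter

open scoped ENNReal Topology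

/-- the words with the end y and the last direction e -/
def Se (e y : Pt) : Set (List Bool) := {t | t ∈ SA ∧ en t = y ∧ de t = e}

/-- the words of the box R do not meet their translates by 2 k m (1, 1) if R ≤ k -/
lemma Dsj_box {k R : ℕ} (hR : R ≤ k) {t : List Bool} (h : ∀ i, i ≤ t.length → hn (vx oo up t i) < R) : TPC.Dsj k t := by
  intro i j hi hj m hm he
  have h1 := hn_T k hm
  have h2 := hn_sub (vx oo up t i) (vx oo up t j)
  have h3 : vx oo up t i - vx oo up t j = (2 * (k : ℤ) * m, 2 * (k : ℤ) * m) := by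
    rw [he]
    abel
  rw [h3] at h2
  have h4 := h i hi
  have h5 := h j hj
  have h6 : (R : ℤ) ≤ k := by exact_mod_cast hR
  have h7 := hn_nonneg (vx oo up t i)
  linarith

lemma mem_TyP {R : ℕ} {e y : Pt} {t : List Bool} : t ∈ Ty R R e y ↔ t ∈ Se e y ∧ ∀ i, i ≤ t.length → hn (vx oo up t i) < R := by
  rw [mem_Ty]
  constructor
  · rintro ⟨⟨h1, h2⟩, -, h3, h4⟩
    exact ⟨⟨h1, h3, h4⟩, h2⟩
  · rintro ⟨⟨h1, h3, h4⟩, h2⟩
    exact ⟨⟨h1, h2⟩, Dsj_box le_rfl h2, h3, h4⟩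

/-- finite mass -/
lemma gf_Se (e y : Pt) : gf (Se e y) ≠ ⊤ :=
  ne_top_of_le_ne_top (TPF.SE_finC TPF.ur TPC.xUp y) (gf_mono fun _ h => ⟨h.1, h.2.1⟩)

lemma summ_Se (e y : Pt) : Summable fun t : Se e y => xc ^ t.1.length := by
  have h1 := ENNReal.summable_toReal (gf_Se e y)
  refine h1.congr fun t => ?_
  unfold wE
  exact ENNReal.toReal_ofReal (pow_nonneg xc_pos.le _)

lemma summ_Seq (e y : Pt) {q : List Bool → ℝ} (hq : ∀ t, |q t| ≤ 1) :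
    Summable fun t : Se e y => xc ^ t.1.length * q t.1 := by
  refine Summable.of_norm_bounded (summ_Se e y) fun t => ?_
  rw [norm_mul, Real.norm_eq_abs, Real.norm_eq_abs, abs_of_nonneg (pow_nonneg xc_pos.le _)]
  exact mul_le_of_le_one_right (pow_nonneg xc_pos.le _) (hq _)

lemma gf_toReal (e y : Pt) : (gf (Se e y)).toReal = ∑' t : Se e y, xc ^ t.1.length := by
  unfold gf
  rw [ENNReal.tsum_toReal_eq fun t => ?_]
  · refine tsum_congr fun t => ?_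
    unfold wE
    exact ENNReal.toReal_ofReal (pow_nonneg xc_pos.le _)
  · unfold wE
    exact ENNReal.ofReal_ne_top

open Classical in
/-- **the box grows** -/
theorem tendsto_box (e y : Pt) {q : List Bool → ℝ} (hq : ∀ t, |q t| ≤ 1) :
    Tendsto (fun R : ℕ => ∑ t ∈ Ty R R e y, xc ^ t.length * q t) atTop (𝓝 (∑' t : Se e y, xc ^ t.1.length * q t.1)) := by
  have h1 := (summ_Seq e y hq).hasSum
  obtain ⟨s, hs⟩ : ∃ s : ℕ → Finset (Se e y), s = fun R => (Ty R R e y).subtype fun t => t ∈ Se e y := ⟨_, rfl⟩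
  have h2 : Tendsto s atTop atTop := by
    refine tendsto_atTop_finset_of_monotone (fun R R' hR t ht => ?_) fun t => ?_
    · rw [hs] at ht ⊢
      rw [Finset.mem_subtype, mem_TyP] at ht ⊢
      refine ⟨ht.1, fun i hi => (ht.2 i hi).trans_le ?_⟩
      exact_mod_cast hR
    · obtain ⟨N, hN⟩ : ∃ N : ℕ, ∀ i, i ≤ t.1.length → hn (vx oo up t.1 i) < (N : ℤ) := by
        refine ⟨∑ i ∈ range (t.1.length + 1), (hn (vx oo up t.1 i)).toNat + 1, fun i hi => ?_⟩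
        have h3 : (hn (vx oo up t.1 i)).toNat ≤ ∑ i ∈ range (t.1.length + 1), (hn (vx oo up t.1 i)).toNat :=
          Finset.single_le_sum (f := fun i => (hn (vx oo up t.1 i)).toNat) (fun _ _ => Nat.zero_le _)
            (Finset.mem_range.2 (by omega))
        have h4 := Int.toNat_of_nonneg (hn_nonneg (vx oo up t.1 i))
        omega
      refine ⟨N, ?_⟩
      rw [hs, Finset.mem_subtype, mem_TyP]
      exact ⟨t.2, hN⟩
  have h3 := h1.comp h2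
  refine h3.congr fun R => ?_
  rw [hs]
  show ∑ t ∈ (Ty R R e y).subtype fun t => t ∈ Se e y, xc ^ t.1.length * q t.1 = _
  rw [Finset.sum_subtype_of_mem (fun t => xc ^ t.length * q t)]
  intro t ht
  exact (mem_TyP.1 ht).1

/-- **row ShF2**: far functionals do not see a shift of the end, no box -/
def ShF2 : Prop := ∀ ε : ℝ, 0 < ε → ∃ C1 : ℕ, ∀ C0 C : ℕ, C1 ≤ C0 → C0 + C1 ≤ C → ∃ k0 : ℕ,
  ∀ (K : ℕ) (e y y' : Pt), k0 ≤ K → e ∈ dirs → (2 : ℤ) ^ K ≤ hn y → hn y ≤ 2 ^ (K + 3) → (2 : ℤ) ^ K ≤ hn y' →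
  hn y' ≤ 2 ^ (K + 3) → hn (y' - y) ≤ 2 ^ (K - C) → (3 : ℤ) ∣ ip (y' - y) up → ∀ Φ er : List Bool → ℝ, (∀ t, |Φ t| ≤ 1) →
  RM.Rob (2 ^ (K - C0)) Φ er → (∀ t, 0 ≤ er t) → (∀ t ∈ SA, en t = y ∨ en t = y' → er t = 0) →
  |∑' t : Se e y, xc ^ t.1.length * Φ t.1 - ∑' t : Se e y', xc ^ t.1.length * Φ t.1| ≤ ε * gK K

/-- **row EF**: inner functionals of the tip, no box -/
def EF (g : ℝ → ℝ) : Prop := ∀ ε : ℝ, 0 < ε → ∃ C k0 : ℕ, ∀ (K n' : ℕ) (e y : Pt), k0 ≤ K → e ∈ dirs →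
  (2 : ℤ) ^ K ≤ hn y → hn y ≤ 2 ^ (K + 3) → TIP.Sc K n' → ∀ q : List Bool → ℝ, (∀ t, |q t| ≤ 1) → Inn (K - C) q →
  |∑' t : Se e y, xc ^ t.1.length * q t.1 - EA g n' q * FP e y| ≤ ε * gK K

/-- **row EF2**: inner functionals of the tip against far functionals, no box -/
def EF2 (g : ℝ → ℝ) : Prop := ∀ ε : ℝ, 0 < ε → ∃ C1 : ℕ, ∀ C0 C : ℕ, C1 ≤ C0 → C0 + C1 ≤ C → ∃ k0 : ℕ,
  ∀ (K n' : ℕ) (e y : Pt), k0 ≤ K → e ∈ dirs → (2 : ℤ) ^ K ≤ hn y → hn y ≤ 2 ^ (K + 3) → TIP.Sc K n' →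
  ∀ q Φ er : List Bool → ℝ, (∀ t, |q t| ≤ 1) → (∀ t, |Φ t| ≤ 1) → Inn (K - C) q → RM.Rob (2 ^ (K - C0)) Φ er →
  (∀ t, 0 ≤ er t) → (∀ t ∈ SA, en t = y → er t = 0) →
  |∑' t : Se e y, xc ^ t.1.length * (Φ t.1 * q t.1) - EA g n' q * ∑' t : Se e y, xc ^ t.1.length * Φ t.1| ≤ ε * gK K

lemma FP_eq (e y : Pt) : FP e y = ∑' t : Se e y, xc ^ t.1.length * (1 : ℝ) := by
  have h1 : FP e y = ∑' t : Se e y, xc ^ t.1.length := gf_toReal e y
  rw [h1]
  exact tsum_congr fun t => (mul_one _).symm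

theorem shF2_of (h : ShC PlC) : ShF2 := by
  intro ε hε
  obtain ⟨τ, hτ, C1, h⟩ := h ε hε
  refine ⟨C1, fun C0 C hC0 hC => ?_⟩
  obtain ⟨k0, h⟩ := h C0 C hC0 hC
  refine ⟨k0, fun K e y y' hK he hy1 hy2 hy1' hy2' hyy h3 Φ er hΦ hRob her0 her => ?_⟩
  have h4 := tendsto_box e y hΦ
  have h5 := tendsto_box e y' hΦ
  refine le_of_tendsto (h4.sub h5).abs (Filter.eventually_atTop.2 ⟨(max (hn y) (hn y') + 2 ^ K).toNat, fun R hR => ?_⟩)
  have hR' : max (hn y) (hn y') + 2 ^ K ≤ (R : ℤ) := Int.toNat_le.1 hR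
  have hR1 := le_max_left (hn y) (hn y')
  have hR2 := le_max_right (hn y) (hn y')
  have hg := gK_nonneg K
  refine h K R R e y y' hK ⟨he, hy1, hy2, by linarith, le_rfl⟩ ⟨he, hy1', hy2', by linarith, le_rfl⟩ hyy h3
    Φ er hΦ hRob her0 ?_ ?_
  · have h6 : ∑ t ∈ Ty R R e y, xc ^ t.length * er t ^ 2 = 0 := Finset.sum_eq_zero fun t ht => by
      have h7 := (mem_TyP.1 ht).1
      rw [her t h7.1 (Or.inl h7.2.1)]
      ring
    rw [h6]
    positivity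
  · have h6 : ∑ t ∈ Ty R R e y', xc ^ t.length * er t ^ 2 = 0 := Finset.sum_eq_zero fun t ht => by
      have h7 := (mem_TyP.1 ht).1
      rw [her t h7.1 (Or.inr h7.2.1)]
      ring
    rw [h6]
    positivity

theorem shF_of (h : ShF2) : ShF := by
  intro ε hε
  obtain ⟨C1, h⟩ := h ε hε
  obtain ⟨k0, h⟩ := h C1 (C1 + C1) le_rfl le_rfl
  refine ⟨C1 + C1, k0, fun K e y y' hK he hy1 hy2 hy1' hy2' hyy h3 => ?_⟩
  rw [FP_eq, FP_eq]
  exact h K e y y' hK he hy1 hy2 hy1' hy2' hyy h3 (fun _ => 1) (fun _ => 0) (fun _ => by norm_num)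
    (fun _ _ _ _ _ => by simp) (fun _ => le_rfl) (fun _ _ _ => rfl)

theorem eF2_of {g : ℝ → ℝ} (h : TipC PlC g) : EF2 g := by
  intro ε hε
  obtain ⟨τ, hτ, C1, h⟩ := h ε hε
  refine ⟨C1, fun C0 C hC0 hC => ?_⟩
  obtain ⟨k0, h⟩ := h C0 C hC0 hC
  refine ⟨k0, fun K n' e y hK he hy1 hy2 hn' q Φ er hq hΦ hI hR her0 her => ?_⟩
  have h4 := tendsto_box e y (q := fun t => Φ t * q t) (fun t => by
    rw [abs_mul]
    exact mul_le_one₀ (hΦ t) (abs_nonneg _) (hq t))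
  have h5 := tendsto_box e y hΦ
  refine le_of_tendsto (h4.sub (h5.const_mul (EA g n' q))).abs (Filter.eventually_atTop.2
    ⟨(hn y + 2 ^ K).toNat, fun R hRR => ?_⟩)
  have hR' : hn y + 2 ^ K ≤ (R : ℤ) := Int.toNat_le.1 hRR
  refine h K R R n' e y hK ⟨he, hy1, hy2, hR', le_rfl⟩ hn' q Φ er hq hΦ hI hR her0 ?_
  have h6 : ∑ t ∈ Ty R R e y, xc ^ t.length * er t ^ 2 = 0 := Finset.sum_eq_zero fun t ht => by
    have h7 := (mem_TyP.1 ht).1
    rw [her t h7.1 h7.2.1]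
    ring
  rw [h6]
  have := gK_nonneg K
  positivity

theorem eF_of {g : ℝ → ℝ} (h : EF2 g) : EF g := by
  intro ε hε
  obtain ⟨C1, h⟩ := h ε hε
  obtain ⟨k0, h⟩ := h C1 (C1 + C1) le_rfl le_rfl
  refine ⟨C1 + C1, k0, fun K n' e y hK he hy1 hy2 hn' q hq hI => ?_⟩
  have h6 := h K n' e y hK he hy1 hy2 hn' q (fun _ => 1) (fun _ => 0) hq (fun _ => by norm_num) hI
    (fun _ _ _ _ _ => by simp) (fun _ => le_rfl) (fun _ _ _ => rfl)
  rw [FP_eq]
  simpa only [one_mul] using h6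

end PLC

end HexObs
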