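import Pool.Agent.PW.PsiW
import Pool.Agent.PW.ResW
import Pool.Agent.PW.CharS

/-!
PLC (the critical two-point ensemble of the plane), row W: the winding of the critical walk, the literals.
-/

set_option autoImplicit false

noncomputable section

open scoped Classical

open MeasureTheory ProbabilityTheory

namespace NTSF

namespace CW

open HexObs hiding pos

open HexObs.TIW HexObs.SDN

open Pool.Agent.NTS.Res Pool.Agent.PW.Res

open NTF (JJ)

/-- the self-avoiding walks with `n` steps from `0` to `x` -/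
def sawTo (x : ℂ) (n : ℕ) : Finset (Fin n → Fin 3) := (saw n).filter fun s => pos s n = x

/-- the critical two-point function -/
def GX (x : ℂ) : ℝ := ∑' n : ℕ, ((sawTo x n).card : ℝ) * xc ^ n

/-- the characteristic function of the two windings, not normalized -/
def JX (x : ℂ) (u v : ℝ) : ℂ :=
  ∑' n : ℕ, (∑ s ∈ sawTo x n, Complex.exp ((u * windS s n + v * windE s n : ℝ) * Complex.I)) * ((xc ^ n : ℝ) : ℂ)

/-- **words** (helper5): the two ends are two independent tips -/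
def TipX (ψ : ℕ → ℕ → ℝ → ℂ) : Prop :=
  ∀ e : ℝ, 0 < e → ∃ C0 : ℕ, ∀ C, C0 ≤ C → ∃ (M : ℝ) (k0 : ℕ), ∀ (K : ℕ) (q : Pt), k0 ≤ K → (2 : ℤ) ^ K ≤ hn q →
    hn q ≤ 2 ^ (K + 3) → ∀ u v : ℝ,
    ‖JX (JJ q) u v - ψ C (K - C) u * ψ C (K - C) v * ((GX (JJ q) : ℝ) : ℂ)‖ ≤ (e + M * (|u| + |v|)) * GX (JJ q)

/-- **the law of the windings of the critical walk** -/
def WindX : Prop :=
  ∀ (f : BoundedContinuousFunction (ℝ × ℝ) ℝ) (ε : ℝ), 0 < ε → ∃ R : ℝ, ∀ q : Pt, R ≤ ‖JJ q‖ →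
    |(∑' n : ℕ, (∑ s ∈ sawTo (JJ q) n, f (windS s n / √(Real.log ‖JJ q‖), windE s n / √(Real.log ‖JJ q‖))) * xc ^ n) -
      (∫ p, f p ∂((gaussianReal 0 (8 / 3)).prod (gaussianReal 0 (8 / 3)))) * GX (JJ q)| ≤ ε * GX (JJ q)

end CW

end NTSF

end
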