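import Pool.Agent.PLC.WDef
import Pool.Agent.PLC.RInf
import Pool.Agent.PW.TransW

/-!
PLC (the critical two-point ensemble of the plane), row W (helper5): the winding of the critical walk. Sums over the critical
walks from `0` to `x` and sums over the words with a given end.

* `P2 Q` : functionals of the pair (path seen from the start, path seen from the end);
* `MR x Q` : the sum over the self-avoiding walks from `0` to `x`, weight `xc ^ n`;
* **`MR_words`** : `2 MR (JJ q) Q` = the sum over the words whose end is one of the three rotations of `q`;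
* **`MR_rev`** : reversal.
-/

set_option autoImplicit false

noncomputable section

namespace NTSF

namespace CW

open Finset Filter Topology

open HexObs hiding pos

open HexObs.TIW HexObs.SDN HexObs.PWd HexObs.PWN

open Pool.Agent.NTS.Res Pool.Agent.PW.Res

open NTF (sw JJ JJ_norm JJ_sub JJ_add JJ_neg)

/-- the path seen from the end -/
def pB {n : ℕ} (s : Fin n → Fin 3) (i : ℕ) : ℂ := pos s (n - i) - pos s n

/-- functionals of the pair (path seen from the start, path seen from the end) -/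
structure P2 (Q : ℕ → (ℕ → ℂ) → (ℕ → ℂ) → ℝ) : Prop where
  rot : ∀ m z w, Q m (fun i => om * z i) (fun i => om * w i) = Q m z w
  neg : ∀ m z w, Q m (fun i => -z i) (fun i => -w i) = Q m z w
  loc : ∀ m z z' w w', (∀ i, i ≤ m → z i = z' i) → (∀ i, i ≤ m → w i = w' i) → Q m z w = Q m z' w'
  le : ∀ m z w, |Q m z w| ≤ 1

open Classical in
/-- the sum over the walks with `n` steps from `0` to `x` -/
def an (Q : ℕ → (ℕ → ℂ) → (ℕ → ℂ) → ℝ) (x : ℂ) (n : ℕ) : ℝ :=
  ∑ s ∈ saw n, if pos s n = x then Q n (pos s) (pB s) else 0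

/-- the sum over the critical walks from `0` to `x` -/
def MR (x : ℂ) (Q : ℕ → (ℕ → ℂ) → (ℕ → ℂ) → ℝ) : ℝ := ∑' n : ℕ, an Q x n * xc ^ n

/-- the functional of a word -/
def fW (Q : ℕ → (ℕ → ℂ) → (ℕ → ℂ) → ℝ) (t : List Bool) : ℝ := Q t.length (pS t) (pE t.length t)

/-! ### 0. Classes -/

theorem JJ_zero : JJ (0 : Pt) = 0 := by
  have h := JJ_sub (0 : Pt) 0
  rw [sub_self, sub_self] at h
  exact h

/-- the class of a vertex -/
def cls (b : Bool) (q : Pt) : Prop := (3 : ℤ) ∣ ip q up - (if b then 2 else 0)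

theorem cls_Ed : ∀ a : Fin 3, (3 : ℤ) ∣ ip (NTF.Ed a) up - 2 := by decide

theorem pos_cls {n : ℕ} (s : Fin n → Fin 3) : ∀ k, k ≤ n → ∃ q : Pt, pos s k = JJ q ∧ cls k.bodd q := by
  intro k
  induction k with
  | zero =>
    intro _
    refine ⟨0, by rw [pos_zero, JJ_zero], ?_⟩
    unfold cls ip up
    simp
  | succ k ih =>
    intro hk
    obtain ⟨q, h1, h2⟩ := ih (by omega)
    refine ⟨q + NTF.de k (s ⟨k, by omega⟩), ?_, ?_⟩
    · rw [Pool.Agent.PW.Res.pos_succ s (k := k) (by omega), h1, JJ_add]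
      congr 1
      exact (NTF.JJ_de k _).symm
    · generalize s ⟨k, by omega⟩ = a
      unfold cls at h2 ⊢
      have e1 : ip (q + NTF.de k a) up = ip q up + ip (NTF.de k a) up := by
        unfold ip up
        simp only [Prod.fst_add, Prod.snd_add]
        ring
      have e2 := cls_Ed a
      rw [e1, Nat.bodd_succ]
      unfold NTF.de
      have e3 : ip (-NTF.Ed a) up = -ip (NTF.Ed a) up := by
        unfold ip up
        simp only [Prod.fst_neg, Prod.snd_neg]
        ring
      rcases Nat.even_or_odd k with he | ho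
      · have e4 : k.bodd = false := by
          have := Nat.mod_two_of_bodd k
          rw [Nat.even_iff.1 he] at this
          cases hb : k.bodd
          · rfl
          · rw [hb] at this
            exact absurd this (by decide)
        rw [if_pos he, e4]
        rw [e4] at h2
        simp only [Bool.not_false, if_true, Bool.false_eq_true, if_false] at h2 ⊢
        omega
      · have e4 : k.bodd = true := by
          have := Nat.mod_two_of_bodd k
          rw [Nat.odd_iff.1 ho] at this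
          cases hb : k.bodd
          · rw [hb] at this
            exact absurd this (by decide)
          · rfl
        rw [if_neg (Nat.not_even_iff_odd.2 ho), e3, e4]
        rw [e4] at h2
        simp only [Bool.not_true, if_true, Bool.false_eq_true, if_false] at h2 ⊢
        omega

open Classical in
theorem an_zero (Q : ℕ → (ℕ → ℂ) → (ℕ → ℂ) → ℝ) {q : Pt} {n : ℕ} (h : ¬ cls n.bodd q) : an Q (JJ q) n = 0 := by
  unfold an
  refine sum_eq_zero fun s _ => if_neg fun h1 => h ?_
  obtain ⟨q', h2, h3⟩ := pos_cls s n le_rfl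
  rw [h2] at h1
  rw [← NTF.JJ_inj h1]
  exact h3

/-! ### 1. Rotation -/

theorem sum_rotb {n : ℕ} (F : (Fin n → Fin 3) → ℝ) : ∑ s ∈ saw n, F (rot s) = ∑ s ∈ saw n, F s := by
  refine sum_nbij' rot (fun s i => s i - 1) ?_ ?_ ?_ ?_ ?_
  · intro s hs
    exact rot_mem.2 hs
  · intro s hs
    have e : rot (fun i => s i - 1) = s := by
      funext i
      show s i - 1 + 1 = s i
      rw [sub_add_cancel]
    rw [← rot_mem, e]
    exact hs
  · intro s _
    funext i
    show s i + 1 - 1 = s i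
    rw [add_sub_cancel_right]
  · intro s _
    funext i
    show s i - 1 + 1 = s i
    rw [sub_add_cancel]
  · intro s _
    rfl

theorem pB_rot {n : ℕ} (s : Fin n → Fin 3) (i : ℕ) : pB (rot s) i = om * pB s i := by
  unfold pB
  rw [pos_rot, pos_rot, ← mul_sub]

theorem an_rot {Q : ℕ → (ℕ → ℂ) → (ℕ → ℂ) → ℝ} (h : P2 Q) (x : ℂ) (n : ℕ) : an Q (om * x) n = an Q x n := by
  classical
  unfold an
  rw [← sum_rotb]
  refine sum_congr rfl fun s _ => ?_
  have e1 : (fun i => pos (rot s) i) = fun i => om * pos s i := by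
    funext i
    exact pos_rot s i
  have e2 : (fun i => pB (rot s) i) = fun i => om * pB s i := by
    funext i
    exact pB_rot s i
  have e3 : Q n (pos (rot s)) (pB (rot s)) = Q n (pos s) (pB s) := by
    show Q n (fun i => pos (rot s) i) (fun i => pB (rot s) i) = _
    rw [e1, e2]
    exact h.rot _ _ _
  rw [e3, pos_rot]
  by_cases hx : pos s n = x
  · rw [if_pos hx, if_pos (by rw [hx])]
  · rw [if_neg hx, if_neg fun h1 => hx (mul_left_cancel₀ om_ne h1)]

/-- the rotations of the plane -/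
theorem uE_rot3 : uE (1, 0) = 1 ∧ uE (-1, 1) = om ∧ uE (0, -1) = om * om := by
  have h1 : om = ⟨-1 / 2, √3 / 2⟩ := by
    unfold om
    have e : 2 * (Real.pi : ℂ) * Complex.I / 3 = ((2 * Real.pi / 3 : ℝ) : ℂ) * Complex.I := by
      push_cast
      ring
    rw [e, Complex.exp_mul_I, ← Complex.ofReal_cos, ← Complex.ofReal_sin]
    have c1 : Real.cos (2 * Real.pi / 3) = -1 / 2 := by
      rw [show 2 * Real.pi / 3 = Real.pi - Real.pi / 3 by ring, Real.cos_pi_sub, Real.cos_pi_div_three]
      norm_num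
    have c2 : Real.sin (2 * Real.pi / 3) = √3 / 2 := by
      rw [show 2 * Real.pi / 3 = Real.pi - Real.pi / 3 by ring, Real.sin_pi_sub, Real.sin_pi_div_three]
    rw [c1, c2]
    apply Complex.ext <;> simp
  have h3 : (√3 : ℝ) * √3 = 3 := Real.mul_self_sqrt (by norm_num)
  refine ⟨?_, ?_, ?_⟩
  · unfold uE
    apply Complex.ext <;> simp
  · rw [h1]
    unfold uE
    apply Complex.ext <;> simp
    norm_num
  · rw [h1]
    unfold uE
    apply Complex.ext
    · simp only [Complex.mul_re]
      push_cast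
      linear_combination ((1 : ℝ) / 4) * h3
    · simp only [Complex.mul_im]
      push_cast
      ring

open Classical in
/-- the three rotations of a point -/
def R3 (x z : ℂ) : ℝ := ∑ g ∈ TPF.Rot3, if z = uE g * x then 1 else 0

theorem R3_eq (x z : ℂ) : R3 x z = (by classical exact (if z = x then 1 else 0) + (if z = om * x then 1 else 0) +
    (if z = om * (om * x) then 1 else 0)) := by
  classical
  obtain ⟨h1, h2, h3⟩ := uE_rot3
  unfold R3 TPF.Rot3
  rw [sum_insert (by decide), sum_insert (by decide), sum_singleton, h1, h2, h3, one_mul, mul_assoc]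
  ring

theorem R3_rot (x z : ℂ) : R3 x (om * z) = R3 x z := by
  classical
  have h1 : om * z = x ↔ z = om * (om * x) := by
    constructor
    · intro h
      rw [← h]
      calc z = 1 * z := (one_mul z).symm
        _ = om * (om * om) * z := by rw [om_cube]
        _ = _ := by ring
    · intro h
      rw [h]
      calc om * (om * (om * x)) = om * (om * om) * x := by ring
        _ = x := by rw [om_cube, one_mul]
  have h2 : om * z = om * x ↔ z = x := ⟨fun h => mul_left_cancel₀ om_ne h, fun h => by rw [h]⟩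
  have h3 : om * z = om * (om * x) ↔ z = om * x := ⟨fun h => mul_left_cancel₀ om_ne h, fun h => by rw [h]⟩
  rw [R3_eq, R3_eq]
  simp only [h1, h2, h3]
  ring

theorem R3_JJ (q p : Pt) : R3 (JJ q) (JJ p) = ∑ g ∈ TPF.Rot3, if p = mulE g q then (1 : ℝ) else 0 := by
  classical
  unfold R3
  refine sum_congr rfl fun g _ => ?_
  rw [← JJ_mulE]
  by_cases h : p = mulE g q
  · rw [if_pos h, if_pos (by rw [h])]
  · rw [if_neg h, if_neg fun h1 => h (NTF.JJ_inj h1)]

/-! ### 2. Words with `n` letters -/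

theorem Rot3_nrm {g : Pt} (hg : g ∈ TPF.Rot3) : nrm g = 1 := by
  revert g
  decide

theorem words_n {Q : ℕ → (ℕ → ℂ) → (ℕ → ℂ) → ℝ} (h : P2 Q) {q : Pt} (hq : q ≠ 0) (n : ℕ) :
    ∑ g ∈ TPF.Rot3, ∑ t ∈ sawF n, (if en t = mulE g q then fW Q t else 0) = 2 * an Q (JJ q) n := by
  classical
  rcases Nat.eq_zero_or_pos n with hn | hn
  · -- no words
    subst hn
    have e1 : an Q (JJ q) 0 = 0 := by
      unfold an
      refine sum_eq_zero fun s _ => if_neg fun h1 => hq ?_
      have h2 : pos s 0 = 0 := by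
        unfold pos
        simp
      rw [h2, ← JJ_zero] at h1
      exact (NTF.JJ_inj h1).symm
    rw [e1, mul_zero]
    refine sum_eq_zero fun g hg => sum_eq_zero fun t ht => if_neg fun h1 => hq ?_
    rw [mem_sawF] at ht
    have h2 : t = [] := List.length_eq_zero_iff.1 ht.1
    rw [h2] at h1
    have h3 : JJ (mulE g q) = 0 := by
      rw [← h1]
      exact JJ_zero
    rw [JJ_mulE] at h3
    have h4 : uE g ≠ 0 := by
      have h5 := uE_norm (Rot3_nrm hg)
      intro h6
      rw [h6, norm_zero] at h5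
      exact zero_ne_one h5
    have h5 := (mul_eq_zero.1 h3).resolve_left h4
    rw [← JJ_zero] at h5
    exact NTF.JJ_inj h5
  · have hinv : ∀ s : Fin n → Fin 3, (fun s : Fin n → Fin 3 => ((Q n (pos s) (pB s) * R3 (JJ q) (pos s n) : ℝ) : ℂ)) (rot s) =
        (fun s : Fin n → Fin 3 => ((Q n (pos s) (pB s) * R3 (JJ q) (pos s n) : ℝ) : ℂ)) s := by
      intro s
      have e1 : (fun i => pos (rot s) i) = fun i => om * pos s i := by
        funext i
        exact pos_rot s i
      have e2 : (fun i => pB (rot s) i) = fun i => om * pB s i := by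
        funext i
        exact pB_rot s i
      have e3 : Q n (pos (rot s)) (pB (rot s)) = Q n (pos s) (pB s) := by
        show Q n (fun i => pos (rot s) i) (fun i => pB (rot s) i) = _
        rw [e1, e2]
        exact h.rot _ _ _
      show ((Q n (pos (rot s)) (pB (rot s)) * R3 (JJ q) (pos (rot s) n) : ℝ) : ℂ) = _
      rw [e3, pos_rot, R3_rot]
    have h1 := sum_words hn (fun t => mem_sawF) (fun s : Fin n → Fin 3 =>
      ((Q n (pos s) (pB s) * R3 (JJ q) (pos s n) : ℝ) : ℂ)) hinv
    have h2 : 3 * ∑ t ∈ sawF n, Q n (pos (sw n t)) (pB (sw n t)) * R3 (JJ q) (pos (sw n t) n) =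
        2 * ∑ s ∈ saw n, Q n (pos s) (pB s) * R3 (JJ q) (pos s n) := by
      exact_mod_cast h1
    have h3 : ∑ s ∈ saw n, Q n (pos s) (pB s) * R3 (JJ q) (pos s n) = 3 * an Q (JJ q) n := by
      have e1 : ∀ y : ℂ, ∑ s ∈ saw n, Q n (pos s) (pB s) * (if pos s n = y then 1 else 0) = an Q y n := by
        intro y
        unfold an
        refine sum_congr rfl fun s _ => ?_
        split_ifs
        · rw [mul_one]
        · rw [mul_zero]
      have e2 : ∀ s : Fin n → Fin 3, Q n (pos s) (pB s) * R3 (JJ q) (pos s n) =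
          Q n (pos s) (pB s) * (if pos s n = JJ q then 1 else 0) +
          Q n (pos s) (pB s) * (if pos s n = om * JJ q then 1 else 0) +
          Q n (pos s) (pB s) * (if pos s n = om * (om * JJ q) then 1 else 0) := by
        intro s
        rw [R3_eq]
        ring
      simp only [e2]
      rw [sum_add_distrib, sum_add_distrib, e1, e1, e1, an_rot h, an_rot h, an_rot h]
      ring
    rw [h3] at h2
    have h4 : ∑ t ∈ sawF n, Q n (pos (sw n t)) (pB (sw n t)) * R3 (JJ q) (pos (sw n t) n) =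
        ∑ g ∈ TPF.Rot3, ∑ t ∈ sawF n, (if en t = mulE g q then fW Q t else 0) := by
      rw [sum_comm]
      refine sum_congr rfl fun t ht => ?_
      rw [mem_sawF] at ht
      have e1 : Q n (pos (sw n t)) (pB (sw n t)) = fW Q t := by
        unfold fW
        rw [ht.1]
        refine h.loc _ _ _ _ _ (fun i hi => (pS_sw t hi).symm) fun i hi => ?_
        unfold pB
        exact (pE_sw t i).symm
      have e2 : pos (sw n t) n = JJ (en t) := by
        rw [← pS_sw t le_rfl, ← ht.1]
        rfl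
      rw [e1, e2, R3_JJ, mul_sum]
      refine sum_congr rfl fun g _ => ?_
      split_ifs
      · rw [mul_one]
      · rw [mul_zero]
    rw [h4] at h2
    linarith

/-! ### 3. All words -/

/-- the words with the end `y` -/
def SY (y : Pt) : Set (List Bool) := {t | t ∈ SA ∧ en t = y}

theorem summ_SY (y : Pt) : Summable fun t : SY y => xc ^ t.1.length := by
  have h1 := ENNReal.summable_toReal (f := fun t : SY y => wE t.1) (TPF.SE_finC TPF.ur TPC.xUp y)
  refine h1.congr fun t => ?_
  unfold wE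
  exact ENNReal.toReal_ofReal (pow_nonneg xc_pos.le _)

theorem summ_SYf (y : Pt) {f : List Bool → ℝ} (hf : ∀ t, |f t| ≤ 1) : Summable fun t : SY y => xc ^ t.1.length * f t.1 := by
  refine Summable.of_norm_bounded (summ_SY y) fun t => ?_
  rw [norm_mul, Real.norm_eq_abs, Real.norm_eq_abs, abs_of_nonneg (pow_nonneg xc_pos.le _)]
  exact mul_le_of_le_one_right (pow_nonneg xc_pos.le _) (hf _)

open Classical in
theorem SY_len (y : Pt) {f : List Bool → ℝ} (hf : ∀ t, |f t| ≤ 1) :
    HasSum (fun n : ℕ => (∑ t ∈ sawF n, if en t = y then f t else 0) * xc ^ n) (∑' t : SY y, xc ^ t.1.length * f t.1) := by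
  have h1 := summ_SYf y hf
  have h2 : Summable (Set.indicator (SY y) fun t => xc ^ t.length * f t) := (summable_subtype_iff_indicator).1 h1
  have h3 := h2.hasSum.tsum_fiberwise (fun t : List Bool => t.length)
  rw [_root_.tsum_subtype (SY y) (fun t => xc ^ t.length * f t)]
  have h4 : (fun n : ℕ => (∑ t ∈ sawF n, if en t = y then f t else 0) * xc ^ n) =
      fun n : ℕ => ∑' t : (fun t : List Bool => t.length) ⁻¹' {n}, Set.indicator (SY y) (fun t => xc ^ t.length * f t) t.1 := by
    funext n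
    rw [_root_.tsum_subtype ((fun t : List Bool => t.length) ⁻¹' {n})
      (fun t => Set.indicator (SY y) (fun t => xc ^ t.length * f t) t)]
    rw [tsum_eq_sum (s := sawF n), sum_mul]
    · refine sum_congr rfl fun t ht => ?_
      rw [mem_sawF] at ht
      rw [Set.indicator_of_mem (show t ∈ (fun t : List Bool => t.length) ⁻¹' {n} from ht.1)]
      by_cases h5 : en t = y
      · rw [if_pos h5, Set.indicator_of_mem (show t ∈ SY y from ⟨ht.2, h5⟩), ht.1, mul_comm]
      · rw [if_neg h5, Set.indicator_of_notMem (show t ∉ SY y from fun h6 => h5 h6.2), zero_mul]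
    · intro t ht
      by_cases h5 : t ∈ (fun t : List Bool => t.length) ⁻¹' {n}
      · rw [Set.indicator_of_mem h5]
        exact Set.indicator_of_notMem (fun h6 => ht (mem_sawF.2 ⟨h5, h6.1⟩)) _
      · exact Set.indicator_of_notMem h5 _
  rw [h4]
  exact h3

/-- the sum over the last directions -/
theorem SY_dir (y : Pt) {f : List Bool → ℝ} (hf : ∀ t, |f t| ≤ 1) :
    ∑ e ∈ dirs, ∑' t : PLC.Se e y, xc ^ t.1.length * f t.1 = ∑' t : SY y, xc ^ t.1.length * f t.1 := by
  classical
  simp only [_root_.tsum_subtype _ (fun t => xc ^ t.length * f t)]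
  rw [← Summable.tsum_finsetSum fun e _ => (summable_subtype_iff_indicator).1 (PLC.summ_Seq e y hf)]
  refine tsum_congr fun t => ?_
  simp only [Set.indicator_apply]
  by_cases h : t ∈ SY y
  · rw [if_pos h]
    have hd : de t ∈ dirs := dx_mem upd t t.length
    rw [Finset.sum_eq_single (de t)]
    · exact if_pos (show t ∈ {s | s ∈ SA ∧ en s = y ∧ de s = de t} from ⟨h.1, h.2, rfl⟩)
    · intro e _ he
      exact if_neg fun h3 => he h3.2.2.symm
    · intro h3
      exact absurd hd h3
  · rw [if_neg h]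
    refine Finset.sum_eq_zero fun e _ => if_neg fun h3 => h ⟨h3.1, h3.2.1⟩

/-! ### 4. From words to walks -/

theorem fW_le {Q : ℕ → (ℕ → ℂ) → (ℕ → ℂ) → ℝ} (h : P2 Q) (t : List Bool) : |fW Q t| ≤ 1 := h.le _ _ _

theorem MR_hasSum {Q : ℕ → (ℕ → ℂ) → (ℕ → ℂ) → ℝ} (h : P2 Q) {q : Pt} (hq : q ≠ 0) :
    HasSum (fun n : ℕ => an Q (JJ q) n * xc ^ n)
      ((∑ g ∈ TPF.Rot3, ∑' t : SY (mulE g q), xc ^ t.1.length * fW Q t.1) / 2) := by
  classical
  have h1 := (hasSum_sum fun g (_ : g ∈ TPF.Rot3) => SY_len (mulE g q) (fW_le h)).div_const 2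
  have h4 : (fun n : ℕ => an Q (JJ q) n * xc ^ n) =
      fun n : ℕ => (∑ g ∈ TPF.Rot3, (∑ t ∈ sawF n, if en t = mulE g q then fW Q t else 0) * xc ^ n) / 2 := by
    funext n
    rw [← sum_mul]
    have h3 : (∑ g ∈ TPF.Rot3, ∑ t ∈ sawF n, if en t = mulE g q then fW Q t else 0) = 2 * an Q (JJ q) n :=
      words_n h hq n
    rw [h3]
    ring
  rw [h4]
  exact h1

/-- **the walks from `0` to `x` and the words whose end is one of the rotations of `x`** -/
theorem MR_words {Q : ℕ → (ℕ → ℂ) → (ℕ → ℂ) → ℝ} (h : P2 Q) {q : Pt} (hq : q ≠ 0) :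
    2 * MR (JJ q) Q = ∑ g ∈ TPF.Rot3, ∑' t : SY (mulE g q), xc ^ t.1.length * fW Q t.1 := by
  unfold MR
  rw [(MR_hasSum h hq).tsum_eq]
  ring

theorem MR_dirs {Q : ℕ → (ℕ → ℂ) → (ℕ → ℂ) → ℝ} (h : P2 Q) {q : Pt} (hq : q ≠ 0) :
    2 * MR (JJ q) Q = ∑ g ∈ TPF.Rot3, ∑ e ∈ dirs, ∑' t : PLC.Se e (mulE g q), xc ^ t.1.length * fW Q t.1 := by
  rw [MR_words h hq]
  exact sum_congr rfl fun g _ => (SY_dir _ (fW_le h)).symm

theorem P2_one : P2 fun _ _ _ => 1 where
  rot := fun _ _ _ => rfl
  neg := fun _ _ _ => rfl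
  loc := fun _ _ _ _ _ _ _ => rfl
  le := fun _ _ _ => by simp

/-! ### 5. The two-point function -/

open Classical in
theorem an_one (x : ℂ) (n : ℕ) : an (fun _ _ _ => 1) x n = ((sawTo x n).card : ℝ) := by
  unfold an sawTo
  rw [← sum_filter, sum_const, nsmul_eq_mul, mul_one]

theorem GX_eq (x : ℂ) : GX x = MR x fun _ _ _ => 1 := by
  unfold GX MR
  exact tsum_congr fun n => by rw [an_one]

theorem GX_summ {q : Pt} (hq : q ≠ 0) : Summable fun n : ℕ => ((sawTo (JJ q) n).card : ℝ) * xc ^ n := by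
  refine (MR_hasSum P2_one hq).summable.congr fun n => ?_
  rw [an_one]

theorem GX_nonneg (x : ℂ) : 0 ≤ GX x := tsum_nonneg fun n => mul_nonneg (Nat.cast_nonneg _) (pow_nonneg xc_pos.le _)

open Classical in
theorem an_le {Q : ℕ → (ℕ → ℂ) → (ℕ → ℂ) → ℝ} {B : ℝ} (hQ : ∀ m z w, |Q m z w| ≤ B) (x : ℂ) (n : ℕ) :
    |an Q x n| ≤ B * (sawTo x n).card := by
  have h1 : B * ((sawTo x n).card : ℝ) = ∑ s ∈ saw n, if pos s n = x then B else 0 := by
    unfold sawTo
    rw [← sum_filter, sum_const, nsmul_eq_mul, mul_comm]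
  rw [h1]
  unfold an
  refine (abs_sum_le_sum_abs _ _).trans (sum_le_sum fun s _ => ?_)
  split_ifs
  · exact hQ _ _ _
  · rw [abs_zero]

/-- bounded functionals -/
theorem summ_an {Q : ℕ → (ℕ → ℂ) → (ℕ → ℂ) → ℝ} {B : ℝ} (hQ : ∀ m z w, |Q m z w| ≤ B) {q : Pt} (hq : q ≠ 0) :
    Summable fun n : ℕ => an Q (JJ q) n * xc ^ n := by
  refine Summable.of_norm_bounded ((GX_summ hq).mul_left B) fun n => ?_
  rw [norm_mul, Real.norm_eq_abs, Real.norm_eq_abs, abs_of_nonneg (pow_nonneg xc_pos.le _), ← mul_assoc]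
  exact mul_le_mul_of_nonneg_right (an_le hQ _ _) (pow_nonneg xc_pos.le _)

open Classical in
theorem an_add (Q Q' : ℕ → (ℕ → ℂ) → (ℕ → ℂ) → ℝ) (a b : ℝ) (x : ℂ) (n : ℕ) :
    an (fun m z w => a * Q m z w + b * Q' m z w) x n = a * an Q x n + b * an Q' x n := by
  unfold an
  rw [mul_sum, mul_sum, ← sum_add_distrib]
  refine sum_congr rfl fun s _ => ?_
  split_ifs
  · rfl
  · ring

theorem MR_add {Q Q' : ℕ → (ℕ → ℂ) → (ℕ → ℂ) → ℝ} {B B' : ℝ} (hQ : ∀ m z w, |Q m z w| ≤ B)
    (hQ' : ∀ m z w, |Q' m z w| ≤ B') (a b : ℝ) {q : Pt} (hq : q ≠ 0) :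
    MR (JJ q) (fun m z w => a * Q m z w + b * Q' m z w) = a * MR (JJ q) Q + b * MR (JJ q) Q' := by
  unfold MR
  rw [← tsum_mul_left, ← tsum_mul_left, ← Summable.tsum_add ((summ_an hQ hq).mul_left a) ((summ_an hQ' hq).mul_left b)]
  refine tsum_congr fun n => ?_
  rw [an_add]
  ring

open Classical in
theorem MR_mono {Q Q' : ℕ → (ℕ → ℂ) → (ℕ → ℂ) → ℝ} {B B' : ℝ} (hQ : ∀ m z w, |Q m z w| ≤ B)
    (hQ' : ∀ m z w, |Q' m z w| ≤ B') (h : ∀ m z w, Q m z w ≤ Q' m z w) {q : Pt} (hq : q ≠ 0) :
    MR (JJ q) Q ≤ MR (JJ q) Q' := by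
  unfold MR
  refine Summable.tsum_le_tsum (fun n => mul_le_mul_of_nonneg_right ?_ (pow_nonneg xc_pos.le _)) (summ_an hQ hq) (summ_an hQ' hq)
  unfold an
  refine sum_le_sum fun s _ => ?_
  split_ifs
  · exact h _ _ _
  · exact le_rfl

/-- differences -/
theorem MR_sub_le {Q Q' R : ℕ → (ℕ → ℂ) → (ℕ → ℂ) → ℝ} {B B' D : ℝ} (hQ : ∀ m z w, |Q m z w| ≤ B)
    (hQ' : ∀ m z w, |Q' m z w| ≤ B') (hR : ∀ m z w, |R m z w| ≤ D) (h : ∀ m z w, |Q m z w - Q' m z w| ≤ R m z w) {q : Pt}
    (hq : q ≠ 0) : |MR (JJ q) Q - MR (JJ q) Q'| ≤ MR (JJ q) R := by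
  have h1 := MR_add hQ hQ' 1 (-1) hq
  have hb : ∀ m z w, |1 * Q m z w + -1 * Q' m z w| ≤ B + B' := fun m z w => by
    have h2 := hQ m z w
    have h3 := hQ' m z w
    rw [one_mul, neg_one_mul, ← sub_eq_add_neg]
    exact (abs_sub _ _).trans (add_le_add h2 h3)
  have h4 := MR_mono hb hR (fun m z w => by
    have := (abs_le.1 (h m z w)).2
    linarith) hq
  have h5 := MR_add hR hR (-1) 0 hq
  have hb' : ∀ m z w, |-1 * R m z w + 0 * R m z w| ≤ D := fun m z w => by
    rw [zero_mul, add_zero, neg_one_mul, abs_neg]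
    exact hR m z w
  have h6 := MR_mono hb' hb (fun m z w => by
    have := (abs_le.1 (h m z w)).1
    linarith) hq
  rw [h1] at h4 h6
  rw [h5] at h6
  rw [abs_le]
  constructor <;> linarith

/-! ### 6. Reversal -/

open Classical in
theorem an_rev {Q : ℕ → (ℕ → ℂ) → (ℕ → ℂ) → ℝ} (h : P2 Q) (x : ℂ) (n : ℕ) :
    an Q x n = an (fun m z w => Q m w z) (-(-1) ^ n * x) n := by
  unfold an
  rw [← sum_rv]
  refine sum_congr rfl fun s _ => ?_
  have c1 : ((-1 : ℂ)) ^ n * (-1) ^ n = 1 := by
    rw [← mul_pow]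
    simp
  have e0 : pos s 0 = 0 := pos_zero s
  have e1 : ∀ i, i ≤ n → pos (rv s) i = (-1) ^ n * pB s i := fun i hi => pos_rv s hi
  have e2 : ∀ i, i ≤ n → pB (rv s) i = (-1) ^ n * pos s i := by
    intro i hi
    unfold pB
    rw [pos_rv s (Nat.sub_le n i), pos_rv s le_rfl, Nat.sub_sub_self hi, Nat.sub_self, e0]
    ring
  have e3 : Q n (pos (rv s)) (pB (rv s)) = Q n (pB s) (pos s) := by
    rw [h.loc n _ (fun i => (-1) ^ n * pB s i) _ (fun i => (-1) ^ n * pos s i) e1 e2]
    rcases neg_one_pow_eq_or ℂ n with h1 | h1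
    · rw [h1]
      simp only [one_mul]
    · rw [h1]
      simp only [neg_one_mul]
      exact h.neg _ _ _
  have e4 : pos (rv s) n = x ↔ pos s n = -(-1) ^ n * x := by
    rw [pos_rv s le_rfl, Nat.sub_self, e0, zero_sub]
    constructor
    · intro h1
      rw [← h1]
      linear_combination (-(pos s n)) * c1
    · intro h1
      rw [h1]
      linear_combination x * c1
  by_cases hx : pos s n = -(-1) ^ n * x
  · rw [if_pos hx, if_pos (e4.2 hx), e3]
  · rw [if_neg hx, if_neg fun h1 => hx (e4.1 h1)]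

/-- **reversal** -/
theorem MR_rev (q : Pt) : ∃ q' : Pt, (q' = q ∨ q' = -q) ∧ ∀ Q : ℕ → (ℕ → ℂ) → (ℕ → ℂ) → ℝ, P2 Q →
    MR (JJ q) Q = MR (JJ q') fun m z w => Q m w z := by
  have hneg : ip (-q) up = -ip q up := by
    unfold ip up
    simp only [Prod.fst_neg, Prod.snd_neg]
    ring
  have podd : ∀ n : ℕ, n.bodd = true → (-1 : ℂ) ^ n = -1 := fun n hn => by
    have := Nat.mod_two_of_bodd n
    rw [hn] at this
    exact (Nat.odd_iff.2 this).neg_one_pow
  have peven : ∀ n : ℕ, n.bodd = false → (-1 : ℂ) ^ n = 1 := fun n hn => by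
    have := Nat.mod_two_of_bodd n
    rw [hn] at this
    exact (Nat.even_iff.2 this).neg_one_pow
  by_cases h0 : cls false q
  · refine ⟨-q, Or.inr rfl, fun Q hQ => ?_⟩
    unfold MR
    refine tsum_congr fun n => ?_
    congr 1
    cases hn : n.bodd
    · rw [an_rev hQ, peven n hn, JJ_neg]
      congr 1
      ring
    · have h1 : ¬ cls n.bodd q := by
        rw [hn]
        unfold cls at h0 ⊢
        simp only [Bool.false_eq_true, if_false, if_true] at h0 ⊢
        omega
      have h2 : ¬ cls n.bodd (-q) := by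
        rw [hn]
        unfold cls at h0 ⊢
        rw [hneg]
        simp only [Bool.false_eq_true, if_false, if_true] at h0 ⊢
        omega
      rw [an_zero _ h1, an_zero _ h2]
  · refine ⟨q, Or.inl rfl, fun Q hQ => ?_⟩
    unfold MR
    refine tsum_congr fun n => ?_
    congr 1
    cases hn : n.bodd
    · rw [an_zero _ (by rw [hn]; exact h0), an_zero _ (by rw [hn]; exact h0)]
    · rw [an_rev hQ, podd n hn]
      congr 1
      ring

end CW

end NTSF

end
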