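import Pool.Agent.PLC.WDic
import Pool.Agent.PW.PlaneW
import Pool.Agent.PW.SmallTy

/-!
PLC (the critical two-point ensemble of the plane), row W (helper5): the winding of the critical walk around its ends is the
winding up to the first exit from a disc of a comparable size, up to a bounded error.
-/

set_option autoImplicit false

noncomputable section

namespace NTSF

namespace CW

open Finset Filter Topology

open HexObs hiding pos

open HexObs.TIW HexObs.SDN HexObs.PWN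

open HexObs.PWd (turn turn_add turn_congr turn_smul exists_chain Chn0)

open Pool.Agent.NTS.Res Pool.Agent.PW.Res

open NTF (sw JJ JJ_norm JJ_sub JJ_add JJ_neg)

open scoped ENNReal

/-- the norms -/
theorem JJ_le_hn (p : Pt) : ‖JJ p‖ ≤ (hn p : ℝ) := by
  have h1 : ((nrm p : ℤ) : ℝ) ≤ ((hn p : ℤ) : ℝ) ^ 2 := by exact_mod_cast nrm_le_hn p
  rw [← JJ_norm] at h1
  have h2 : (0 : ℝ) ≤ ((hn p : ℤ) : ℝ) := by exact_mod_cast hn_nonneg p
  exact (sq_le_sq₀ (norm_nonneg _) h2).1 h1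

/-! ### 1. One word -/

theorem far_word {K C c N0 : ℕ} {t : List Bool} (hK : c + 2 ≤ K) (hcC : C + 1 ≤ c) (hy : (2 : ℤ) ^ K ≤ hn (en t))
    (h1 : ¬ ∃ i l : ℕ, i ≤ l ∧ l ≤ t.length ∧ hn (vx oo up t i - en t) < 2 ^ (K - c) ∧
      2 ^ (K - (C + 1)) ≤ hn (vx oo up t l - en t)) (h2 : ¬ Chn0 (2 ^ (K - (c + 2))) N0 t) :
    |turn (pE t.length t) 1 t.length - th (2 ^ (K - C) / 2) t.length (pE t.length t)| ≤ N0 * (Real.pi / 2) := by
  obtain ⟨m, hm⟩ : ∃ m, m = t.length := ⟨_, rfl⟩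
  obtain ⟨w, hw⟩ : ∃ w : ℕ → ℂ, w = pE m t := ⟨_, rfl⟩
  obtain ⟨r, hr⟩ : ∃ r : ℝ, r = 2 ^ (K - C) / 2 := ⟨_, rfl⟩
  rw [← hm, ← hw, ← hr]
  have hr0 : 0 < r := by rw [hr]; positivity
  have e0 : ∀ i, w i = JJ (vx oo up t (m - i) - en t) := fun i => by
    rw [hw, hm]
    unfold pE
    rw [JJ_sub]
    rfl
  have p1 : (2 : ℝ) ^ (K - (C + 1)) = r := by
    rw [hr, show K - C = K - (C + 1) + 1 by omega, pow_succ]
    ring
  have p2 : (2 : ℝ) ^ (K - C) ≤ 2 ^ K := pow_le_pow_right₀ (by norm_num) (by omega)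
  have hwm : r ≤ ‖w m‖ := by
    have h3 := hn_le_JJ (vx oo up t (m - m) - en t)
    rw [← e0, Nat.sub_self] at h3
    have h4 : vx oo up t 0 - en t = -en t := by
      rw [show vx oo up t 0 = oo from rfl]
      unfold oo
      exact zero_sub _
    rw [h4, hn_neg] at h3
    have h5 : (2 : ℝ) ^ K ≤ ((hn (en t) : ℤ) : ℝ) := by exact_mod_cast hy
    rw [hr]
    linarith
  obtain ⟨e, he⟩ : ∃ e, e = ex r m w := ⟨_, rfl⟩
  have hem : e ≤ m := by rw [he]; exact ex_le _ _ _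
  have hwe : r ≤ ‖w e‖ := by rw [he]; exact ex_spec ⟨m, le_rfl, hwm⟩
  have he1 : 1 ≤ e := by
    by_contra hcon
    have h3 : e = 0 := by omega
    rw [h3, e0, Nat.sub_zero] at hwe
    have h4 : vx oo up t m - en t = 0 := by
      rw [hm]
      exact sub_self _
    rw [h4, JJ_zero, norm_zero] at hwe
    linarith
  have hfar : ∀ i, e ≤ i → i ≤ m → (2 : ℝ) ^ (K - c) / 2 ≤ ‖w i‖ := by
    intro i hi him
    by_contra hcon
    push Not at hcon
    refine h1 ⟨m - i, m - e, by omega, by omega, ?_, ?_⟩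
    · by_contra h3
      push Not at h3
      have h4 := hn_le_JJ (vx oo up t (m - i) - en t)
      rw [← e0] at h4
      have h5 : (2 : ℝ) ^ (K - c) ≤ ((hn (vx oo up t (m - i) - en t) : ℤ) : ℝ) := by exact_mod_cast h3
      linarith
    · have h4 := JJ_le_hn (vx oo up t (m - e) - en t)
      rw [← e0] at h4
      have h5 : (2 : ℝ) ^ (K - (C + 1)) ≤ ((hn (vx oo up t (m - e) - en t) : ℤ) : ℝ) := by
        rw [p1]
        linarith
      exact_mod_cast h5
  have p3 : (2 : ℝ) ^ (K - c) = 4 * 2 ^ (K - (c + 2)) := by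
    rw [show K - c = K - (c + 2) + 2 by omega, pow_add]
    ring
  have p4 : (1 : ℝ) ≤ 2 ^ (K - (c + 2)) := one_le_pow₀ (by norm_num)
  obtain ⟨N, s, hs0, hs, hT⟩ := exists_chain (z := w) (r := 2 ^ (K - (c + 2))) (d := 1) (by positivity) zero_le_one hem
    (fun i _ hi => by
      rw [e0, e0, ← JJ_sub]
      have h3 : m - i = m - (i + 1) + 1 := by omega
      have h4 : vx oo up t (m - (i + 1)) - en t - (vx oo up t (m - i) - en t) = -dx up t (m - (i + 1)) := by
        rw [h3, vx_succ]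
        abel
      rw [h4, JJ_neg, norm_neg]
      have h5 : ‖JJ (dx up t (m - (i + 1)))‖ ^ 2 = 1 := by
        rw [JJ_norm, mem_dirs.1 (dx_mem upd t _)]
        norm_num
      nlinarith [norm_nonneg (JJ (dx up t (m - (i + 1))))])
    (fun i hi him => by
      have := hfar i hi him
      linarith)
  have hlt : N < N0 := by
    by_contra hcon
    push Not at hcon
    refine h2 ⟨fun j => m - s (N0 - j), fun j hj => ?_, (Nat.sub_le _ _).trans hm.le, fun j hj => ?_⟩
    · have h3 := (hs (N0 - (j + 1)) (by omega)).1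
      rw [show N0 - (j + 1) + 1 = N0 - j by omega] at h3
      show m - s (N0 - j) ≤ m - s (N0 - (j + 1))
      omega
    · have h3 := (hs (N0 - (j + 1)) (by omega)).2.2.1
      rw [show N0 - (j + 1) + 1 = N0 - j by omega, e0, e0, ← JJ_sub] at h3
      have h4 : vx oo up t (m - s (N0 - j)) - en t - (vx oo up t (m - s (N0 - (j + 1))) - en t) =
          -(vx oo up t (m - s (N0 - (j + 1))) - vx oo up t (m - s (N0 - j))) := by abel
      rw [h4, JJ_neg, norm_neg] at h3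
      have h5 := JJ_norm (vx oo up t (m - s (N0 - (j + 1))) - vx oo up t (m - s (N0 - j)))
      have h6 : ((2 : ℝ) ^ (K - (c + 2))) ^ 2 ≤
          ((nrm (vx oo up t (m - s (N0 - (j + 1))) - vx oo up t (m - s (N0 - j))) : ℤ) : ℝ) := by
        rw [← h5]
        exact pow_le_pow_left₀ (by positivity) h3 2
      have h7 : ((2 : ℤ) ^ (K - (c + 2))) ^ 2 ≤ nrm (vx oo up t (m - s (N0 - (j + 1))) - vx oo up t (m - s (N0 - j))) := by
        exact_mod_cast h6
      show (((2 ^ (K - (c + 2)) : ℕ) : ℤ)) ^ 2 ≤ nrm (vx oo up t (m - s (N0 - (j + 1))) - vx oo up t (m - s (N0 - j)))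
      push_cast
      exact h7
  have h3 : turn w 1 m - th r m w = turn w e m := by
    have h4 := turn_add w he1 hem
    have h5 : th r m w = turn w 1 e := by
      rw [he]
      rfl
    rw [h4, h5]
    ring
  rw [h3]
  refine hT.trans ?_
  have h4 : ((N : ℝ) + 1) ≤ N0 := by exact_mod_cast hlt
  exact mul_le_mul_of_nonneg_right h4 (by positivity)

/-! ### 2. The mass -/

theorem far_mass (ε : ℝ) (C : ℕ) (hε : 0 < ε) : ∃ (A : ℝ) (k0 : ℕ), 0 ≤ A ∧ ∀ (K : ℕ) (y : Pt), k0 ≤ K →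
    (2 : ℤ) ^ K ≤ hn y →
    gf {t | t ∈ PW.Py y ∧ A < |turn (pE t.length t) 1 t.length - th (2 ^ (K - C) / 2) t.length (pE t.length t)|} ≤
      ENNReal.ofReal ε * PW.gg K := by
  obtain ⟨c1, K0, -, hr⟩ := PW.noRetPc (ε / 2) (C + 1) (by positivity)
  obtain ⟨N0, K1, hc⟩ := PW.chainP (ε / 2) (c1 + C + 1 + 2) (by positivity)
  refine ⟨N0 * (Real.pi / 2), K0 + K1 + (c1 + C + 1 + 2), by positivity, fun K y hK hy => ?_⟩
  have h1 := hr (c1 + C + 1) K y (by omega) (by omega) hy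
  have h2 := hc K y (by omega)
  refine (gf_mono (?_ : _ ⊆ {t | t ∈ PW.Py y ∧ ∃ i l : ℕ, i ≤ l ∧ l ≤ t.length ∧
      hn (vx oo up t i - y) < 2 ^ (K - (c1 + C + 1)) ∧ 2 ^ (K - (C + 1)) ≤ hn (vx oo up t l - y)} ∪
      {t | t ∈ PW.Py y ∧ Chn0 (2 ^ (K - (c1 + C + 1 + 2))) N0 t})).trans ?_
  · rintro t ⟨h3, h4⟩
    have h5 : en t = y := h3.2
    by_contra h6
    rw [Set.mem_union, not_or] at h6
    refine absurd (far_word (K := K) (C := C) (c := c1 + C + 1) (N0 := N0) (t := t) (by omega) (by omega)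
      (by rw [h5]; exact hy) (fun h7 => h6.1 ⟨h3, by rw [h5] at h7; exact h7⟩) (fun h7 => h6.2 ⟨h3, h7⟩)) (not_le.2 h4)
  · calc _ ≤ ENNReal.ofReal (ε / 2) * PW.gg K + ENNReal.ofReal (ε / 2) * PW.gg K :=
          (gf_union_le _ _).trans (add_le_add h1 h2)
      _ = ENNReal.ofReal ε * PW.gg K := by
          rw [← add_mul, ← ENNReal.ofReal_add (by positivity) (by positivity)]
          congr 2
          ring

open Classical in
/-- sums of indicators -/
theorem SY_ind (y : Pt) (B : Set (List Bool)) {f : List Bool → ℝ} (hf : ∀ t, f t = if t ∈ B then 1 else 0) :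
    ∑' t : SY y, xc ^ t.1.length * f t.1 = (gf {t | t ∈ PW.Py y ∧ t ∈ B}).toReal := by
  have h1 : (gf {t | t ∈ PW.Py y ∧ t ∈ B}).toReal = ∑' t : {t | t ∈ PW.Py y ∧ t ∈ B}, xc ^ t.1.length := by
    unfold gf
    rw [ENNReal.tsum_toReal_eq fun t => ?_]
    · refine tsum_congr fun t => ?_
      unfold wE
      exact ENNReal.toReal_ofReal (pow_nonneg xc_pos.le _)
    · unfold wE
      exact ENNReal.ofReal_ne_top
  rw [h1, _root_.tsum_subtype (SY y) (fun t => xc ^ t.length * f t),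
    _root_.tsum_subtype {t | t ∈ PW.Py y ∧ t ∈ B} (fun t => xc ^ t.length)]
  refine tsum_congr fun t => ?_
  by_cases h2 : t ∈ SY y
  · rw [Set.indicator_of_mem h2, hf]
    by_cases h3 : t ∈ B
    · rw [if_pos h3, mul_one, Set.indicator_of_mem (show t ∈ {t | t ∈ PW.Py y ∧ t ∈ B} from ⟨h2, h3⟩)]
    · rw [if_neg h3, mul_zero, Set.indicator_of_notMem fun h4 => h3 h4.2]
  · rw [Set.indicator_of_notMem h2, Set.indicator_of_notMem fun h4 => h2 h4.1]

/-! ### 3. Walks -/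

/-- functionals of both paths -/
theorem P2_of {Q1 Q2 : ℕ → (ℕ → ℂ) → ℝ} (h1 : PF Q1) (h2 : PF Q2) (b1 : ∀ m z, |Q1 m z| ≤ 1) (b2 : ∀ m z, |Q2 m z| ≤ 1) :
    P2 fun m z w => Q1 m z * Q2 m w where
  rot := fun m z w => by rw [h1.rot, h2.rot]
  neg := fun m z w => by rw [h1.neg, h2.neg]
  loc := fun m z z' w w' hz hw => by rw [h1.loc m z z' hz, h2.loc m w w' hw]
  le := fun m z w => by
    rw [abs_mul]
    exact mul_le_one₀ (b1 _ _) (abs_nonneg _) (b2 _ _)

theorem PF_one : PF fun _ _ => 1 where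
  rot := fun _ _ => rfl
  neg := fun _ _ => rfl
  loc := fun _ _ _ _ => rfl

open Classical in
/-- the bad event -/
def badP (A r : ℝ) (m : ℕ) (z : ℕ → ℂ) : ℝ := if A < |turn z 1 m - th r m z| then 1 else 0

theorem badP_pf (A r : ℝ) : PF (badP A r) where
  rot := fun m z => by
    unfold badP
    rw [turn_smul om_ne, th_rot r m z om_norm]
  neg := fun m z => by
    have h1 : (fun i => -z i) = fun i => (-1 : ℂ) * z i := by
      funext i
      ring
    unfold badP
    rw [h1, turn_smul (by norm_num), th_rot r m z (by simp)]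
  loc := fun m z z' h => by
    unfold badP
    rw [turn_congr fun i _ hi => h i hi, th_loc r m h]

theorem badP_nn (A r : ℝ) (m : ℕ) (z : ℕ → ℂ) : 0 ≤ badP A r m z := by
  unfold badP
  split_ifs <;> norm_num

theorem badP_le (A r : ℝ) (m : ℕ) (z : ℕ → ℂ) : |badP A r m z| ≤ 1 := by
  unfold badP
  split_ifs <;> norm_num

theorem one_le' : ∀ (m : ℕ) (z : ℕ → ℂ), |(fun (_ : ℕ) (_ : ℕ → ℂ) => (1 : ℝ)) m z| ≤ 1 := fun _ _ => by simp

theorem q_ne {K : ℕ} {q : Pt} (h : (2 : ℤ) ^ K ≤ hn q) : q ≠ 0 := by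
  rintro rfl
  have h1 : hn (0 : Pt) = 0 := by decide
  rw [h1] at h
  have : (0 : ℤ) < 2 ^ K := by positivity
  linarith

theorem hn_g {g : Pt} (hg : g ∈ TPF.Rot3) (q : Pt) : hn (mulE g q) = hn q := hn_mulE (Rot3_nrm hg) q

/-- **the windings are those of the first exits, up to a bounded error** -/
theorem MR_far (ε : ℝ) (C : ℕ) (hε : 0 < ε) : ∃ (A : ℝ) (k0 : ℕ), 0 ≤ A ∧ ∀ (K : ℕ) (q : Pt), k0 ≤ K →
    (2 : ℤ) ^ K ≤ hn q →
    MR (JJ q) (fun m _ w => badP A (2 ^ (K - C) / 2) m w) ≤ ε * PWN.gK K ∧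
    MR (JJ q) (fun m z _ => badP A (2 ^ (K - C) / 2) m z) ≤ ε * PWN.gK K := by
  classical
  obtain ⟨A, k0, hA, h⟩ := far_mass (ε / 2) C (by positivity)
  have key : ∀ (K : ℕ) (q : Pt), k0 ≤ K → (2 : ℤ) ^ K ≤ hn q →
      MR (JJ q) (fun m _ w => badP A (2 ^ (K - C) / 2) m w) ≤ ε * PWN.gK K := by
    intro K q hK hq
    have hP : P2 fun m (_ : ℕ → ℂ) w => badP A (2 ^ (K - C) / 2) m w := by
      have := P2_of PF_one (badP_pf A (2 ^ (K - C) / 2)) one_le' (badP_le A (2 ^ (K - C) / 2))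
      simpa only [one_mul] using this
    have h1 := MR_words hP (q_ne hq)
    have hg0 := PWN.gK_nonneg K
    have h2 : ∀ g ∈ TPF.Rot3, ∑' t : SY (mulE g q), xc ^ t.1.length *
        fW (fun m (_ : ℕ → ℂ) w => badP A (2 ^ (K - C) / 2) m w) t.1 ≤ ε / 2 * PWN.gK K := by
      intro g hg
      rw [SY_ind (mulE g q) {t | A < |turn (pE t.length t) 1 t.length - th (2 ^ (K - C) / 2) t.length (pE t.length t)|}
        (f := fW fun m (_ : ℕ → ℂ) w => badP A (2 ^ (K - C) / 2) m w) fun t => by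
          unfold fW badP
          rfl]
      have h3 := h K (mulE g q) hK (by rw [hn_g hg]; exact hq)
      have h4 : ENNReal.ofReal (ε / 2) * PW.gg K = ENNReal.ofReal (ε / 2 * PWN.gK K) := by
        rw [ENNReal.ofReal_mul (by positivity)]
        congr 1
        exact gK_eq K
      rw [h4] at h3
      exact ENNReal.toReal_le_of_le_ofReal (by positivity) h3
    have h3 := sum_le_sum h2
    rw [← h1, sum_const, nsmul_eq_mul] at h3
    have h4 : (TPF.Rot3.card : ℝ) = 3 := by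
      have : TPF.Rot3.card = 3 := by decide
      rw [this]
      norm_num
    rw [h4] at h3
    nlinarith [mul_nonneg hε.le hg0]
  refine ⟨A, k0, hA, fun K q hK hq => ⟨key K q hK hq, ?_⟩⟩
  obtain ⟨q', hq', hrev⟩ := MR_rev q
  have hP : P2 fun m z (_ : ℕ → ℂ) => badP A (2 ^ (K - C) / 2) m z := by
    have := P2_of (badP_pf A (2 ^ (K - C) / 2)) PF_one (badP_le A (2 ^ (K - C) / 2)) one_le'
    simpa only [mul_one] using this
  rw [hrev _ hP]
  refine key K q' hK ?_
  rcases hq' with rfl | rfl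
  · exact hq
  · rw [hn_neg]
    exact hq

end CW

end NTSF

end
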