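import Pool.Agent.PLC.WFar
import Pool.Agent.PLC.StR
import Pool.Agent.SLW.AReg

/-!
PLC (the critical two-point ensemble of the plane), row W (helper5): the windings around the two ends of the critical walk are
those of two independent tips.
-/

set_option autoImplicit false

noncomputable section

namespace NTSF

namespace CW

open Finset Filter Topology

open HexObs hiding pos

open HexObs.TIW HexObs.SDN HexObs.PWN

open HexObs.PWd (turn turn_add turn_congr turn_smul)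

open Pool.Agent.NTS.Res Pool.Agent.PW.Res

open NTF (sw JJ JJ_norm JJ_sub JJ_add JJ_neg)

/-! ### 1. The product formula -/

/-- functionals of the start -/
theorem sta_qS {R : ℕ} {r : ℝ} {Q : ℕ → (ℕ → ℂ) → ℝ} (h : InnP r Q) (hr : 2 * r ≤ R) : PLC.Sta R (qS Q) := by
  intro A Y _ hA
  have hi : ∀ i, i ≤ A.length → pS (A ++ Y) i = pS A i := fun i hi => by
    unfold pS
    rw [vx_append (by omega)]
  refine h.inn (A ++ Y).length A.length (pS (A ++ Y)) (pS A) A.length (by rw [List.length_append]; omega) le_rfl ?_ hi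
  rw [hi _ le_rfl]
  have h1 := hn_le_JJ (en A)
  have h2 : (R : ℝ) ≤ ((hn (en A) : ℤ) : ℝ) := by exact_mod_cast hA
  show r ≤ ‖JJ (en A)‖
  linarith

theorem InnP_one (r : ℝ) : InnP r fun _ _ => 1 where
  rot := fun _ _ _ _ => rfl
  loc := fun _ _ _ _ => rfl
  inn := fun _ _ _ _ _ _ _ _ _ => rfl

/-- the end is independent of the start -/
theorem MR_tip (hE : PLC.EF2 (tent 0)) (ε : ℝ) (hε : 0 < ε) : ∃ C0 : ℕ, ∀ C, C0 ≤ C → ∃ k0 : ℕ, ∀ (K : ℕ) (q : Pt),
    k0 ≤ K → (2 : ℤ) ^ K ≤ hn q → hn q ≤ 2 ^ (K + 3) → ∀ Q1 Q2 : ℕ → (ℕ → ℂ) → ℝ, InnP (2 ^ (K - C) / 2) Q1 →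
    InnP (2 ^ (K - C) / 2) Q2 → (∀ m z, |Q1 m z| ≤ 1) → (∀ m z, |Q2 m z| ≤ 1) →
    |MR (JJ q) (fun m z w => Q1 m z * Q2 m w) - EA (tent 0) (nref K) (qE Q2) * MR (JJ q) (fun m z _ => Q1 m z)| ≤
      ε * PWN.gK K := by
  obtain ⟨C1, h⟩ := hE (ε / 9) (by positivity)
  obtain ⟨k1, hk1⟩ := nref_sc
  refine ⟨2 * (C1 + 1), fun C hC => ?_⟩
  obtain ⟨k0, h⟩ := h (C1 + 1) C (by omega) (by omega)
  refine ⟨k0 + k1 + C + 1, fun K q hK hq1 hq2 Q1 Q2 i1 i2 b1 b2 => ?_⟩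
  have hq := q_ne hq1
  have hP : P2 fun m z w => Q1 m z * Q2 m w := P2_of i1.pf i2.pf b1 b2
  have hP1 : P2 fun m z (_ : ℕ → ℂ) => Q1 m z := by
    have := P2_of i1.pf PF_one b1 one_le'
    simpa only [mul_one] using this
  have e1 := MR_dirs hP hq
  have e2 := MR_dirs hP1 hq
  have p1 : 2 ^ (K - C) + 2 ^ (K - (C1 + 1)) ≤ 2 ^ K := by
    have q1 : 2 ^ (K - C) ≤ 2 ^ (K - 1) := Nat.pow_le_pow_right (by norm_num) (by omega)
    have q2 : 2 ^ (K - (C1 + 1)) ≤ 2 ^ (K - 1) := Nat.pow_le_pow_right (by norm_num) (by omega)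
    have q3 : 2 ^ K = 2 * 2 ^ (K - 1) := by
      rw [← pow_succ']
      congr 1
      omega
    omega
  have key : ∀ g ∈ TPF.Rot3, ∀ e ∈ dirs,
      |∑' t : PLC.Se e (mulE g q), xc ^ t.1.length * fW (fun m z w => Q1 m z * Q2 m w) t.1 -
        EA (tent 0) (nref K) (qE Q2) * ∑' t : PLC.Se e (mulE g q), xc ^ t.1.length * fW (fun m z _ => Q1 m z) t.1| ≤
      ε / 9 * PWN.gK K := by
    intro g hg e he
    have hy := hn_g hg q
    exact h K (nref K) e (mulE g q) (by omega) he (by rw [hy]; exact hq1) (by rw [hy]; exact hq2) (hk1 K (by omega))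
      (qE Q2) (qS Q1) (PLC.erS (2 ^ K)) (fun t => b2 _ _) (fun t => b1 _ _) (i2.inn_qE (le_of_eq (by ring)))
      (PLC.sta_rob (sta_qS (R := 2 ^ (K - C)) i1 (le_of_eq (by push_cast; ring))) (fun t => b1 _ _) p1)
      (PLC.erS_nn _) (fun t _ ht => PLC.erS_far (by
        rw [ht, hy]
        push_cast
        exact hq1))
  have h2 : |2 * MR (JJ q) (fun m z w => Q1 m z * Q2 m w) -
      EA (tent 0) (nref K) (qE Q2) * (2 * MR (JJ q) (fun m z _ => Q1 m z))| ≤ 2 * (ε * PWN.gK K) := by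
    rw [e1, e2, mul_sum, ← sum_sub_distrib]
    refine (abs_sum_le_sum_abs _ _).trans ?_
    have h3 : ∀ g ∈ TPF.Rot3, |∑ e ∈ dirs, ∑' t : PLC.Se e (mulE g q), xc ^ t.1.length *
          fW (fun m z w => Q1 m z * Q2 m w) t.1 - EA (tent 0) (nref K) (qE Q2) *
          ∑ e ∈ dirs, ∑' t : PLC.Se e (mulE g q), xc ^ t.1.length * fW (fun m z _ => Q1 m z) t.1| ≤
        6 * (ε / 9 * PWN.gK K) := by
      intro g hg
      rw [mul_sum, ← sum_sub_distrib]
      refine (abs_sum_le_sum_abs _ _).trans ((sum_le_sum (key g hg)).trans (le_of_eq ?_))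
      rw [sum_const, nsmul_eq_mul]
      have : dirs.card = 6 := by decide
      rw [this]
      norm_num
    refine (sum_le_sum h3).trans (le_of_eq ?_)
    rw [sum_const, nsmul_eq_mul]
    have : TPF.Rot3.card = 3 := by decide
    rw [this]
    push_cast
    ring
  have h4 : 2 * MR (JJ q) (fun m z w => Q1 m z * Q2 m w) -
      EA (tent 0) (nref K) (qE Q2) * (2 * MR (JJ q) (fun m z _ => Q1 m z)) =
      2 * (MR (JJ q) (fun m z w => Q1 m z * Q2 m w) - EA (tent 0) (nref K) (qE Q2) * MR (JJ q) (fun m z _ => Q1 m z)) := by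
    ring
  rw [h4, abs_mul, abs_of_pos (by norm_num : (0 : ℝ) < 2)] at h2
  linarith

/-- **two independent tips** -/
theorem MR_tip2 (hE : PLC.EF2 (tent 0)) (ε : ℝ) (hε : 0 < ε) : ∃ C0 : ℕ, ∀ C, C0 ≤ C → ∃ k0 : ℕ, ∀ (K : ℕ) (q : Pt),
    k0 ≤ K → (2 : ℤ) ^ K ≤ hn q → hn q ≤ 2 ^ (K + 3) → ∀ Q1 Q2 : ℕ → (ℕ → ℂ) → ℝ, InnP (2 ^ (K - C) / 2) Q1 →
    InnP (2 ^ (K - C) / 2) Q2 → (∀ m z, |Q1 m z| ≤ 1) → (∀ m z, |Q2 m z| ≤ 1) →
    |MR (JJ q) (fun m z w => Q1 m z * Q2 m w) -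
      EA (tent 0) (nref K) (qE Q1) * EA (tent 0) (nref K) (qE Q2) * GX (JJ q)| ≤ ε * PWN.gK K := by
  obtain ⟨C0, h⟩ := MR_tip hE (ε / 2) (by positivity)
  obtain ⟨k1, hk1⟩ := nref_sc
  obtain ⟨kM, hM⟩ := MA_pos SLW.aReg (tent_bump 0) (tent_one 0)
  refine ⟨C0, fun C hC => ?_⟩
  obtain ⟨k0, h⟩ := h C hC
  refine ⟨k0 + k1 + kM, fun K q hK hq1 hq2 Q1 Q2 i1 i2 b1 b2 => ?_⟩
  have h1 := h K q (by omega) hq1 hq2 Q1 Q2 i1 i2 b1 b2
  obtain ⟨q', hq', hrev⟩ := MR_rev q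
  have hq1' : (2 : ℤ) ^ K ≤ hn q' := by
    rcases hq' with rfl | rfl
    · exact hq1
    · rw [hn_neg]; exact hq1
  have hq2' : hn q' ≤ 2 ^ (K + 3) := by
    rcases hq' with rfl | rfl
    · exact hq2
    · rw [hn_neg]; exact hq2
  have h2 := h K q' (by omega) hq1' hq2' (fun _ _ => 1) Q1 (InnP_one _) i1 one_le' b1
  have hP1 : P2 fun m z (_ : ℕ → ℂ) => Q1 m z := by
    have := P2_of i1.pf PF_one b1 one_le'
    simpa only [mul_one] using this
  have h3 := hrev _ hP1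
  have h4 := hrev _ P2_one
  have h5 : GX (JJ q) = MR (JJ q') (fun _ _ _ => 1) := by
    rw [GX_eq]
    exact h4
  simp only [one_mul] at h2
  have hMA : 0 < MA (tent 0) (nref K) := hM K (nref K) (by omega) (hk1 K (by omega)).1
  have h6 : |EA (tent 0) (nref K) (qE Q2)| ≤ 1 := EA_abs (tent_bump 0) hMA fun t => b2 _ _
  rw [h3] at h1
  rw [h5]
  have h7 : MR (JJ q) (fun m z w => Q1 m z * Q2 m w) -
      EA (tent 0) (nref K) (qE Q1) * EA (tent 0) (nref K) (qE Q2) * MR (JJ q') (fun _ _ _ => 1) =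
      (MR (JJ q) (fun m z w => Q1 m z * Q2 m w) - EA (tent 0) (nref K) (qE Q2) * MR (JJ q') (fun m _ w => Q1 m w)) +
      EA (tent 0) (nref K) (qE Q2) *
        (MR (JJ q') (fun m _ w => Q1 m w) - EA (tent 0) (nref K) (qE Q1) * MR (JJ q') (fun _ _ _ => 1)) := by
    ring
  rw [h7]
  refine (abs_add_le _ _).trans ?_
  rw [abs_mul]
  have h8 := mul_le_mul h6 h2 (abs_nonneg _) zero_le_one
  linarith

/-! ### 2. The two-point function is comparable to gK -/

theorem GX_low : ∃ (c : ℝ) (k0 : ℕ), 0 < c ∧ ∀ (K : ℕ) (q : Pt), k0 ≤ K → (2 : ℤ) ^ K ≤ hn q → hn q ≤ 2 ^ (K + 3) →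
    (cls false q ∨ cls true q) → c * PWN.gK K ≤ GX (JJ q) := by
  classical
  obtain ⟨c, K0, hc, h⟩ := PW.low_plane 3
  refine ⟨c / 2, K0 + 1, by positivity, fun K q hK hq1 hq2 hcl => ?_⟩
  obtain ⟨b, hb⟩ : ∃ b, cls b q := by
    rcases hcl with h1 | h1
    · exact ⟨_, h1⟩
    · exact ⟨_, h1⟩
  have hq := q_ne hq1
  have n1 : (4 : ℤ) ^ (K - 3) ≤ nrm q := by
    have h1 : hn q ^ 2 ≤ 4 * nrm q := by
      have q1 := hn_le_JJ q
      have q2 : (0 : ℝ) ≤ ((hn q : ℤ) : ℝ) := by exact_mod_cast hn_nonneg q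
      have q3 := pow_le_pow_left₀ q2 q1 2
      rw [mul_pow, JJ_norm] at q3
      have q4 : ((hn q ^ 2 : ℤ) : ℝ) ≤ ((4 * nrm q : ℤ) : ℝ) := by
        push_cast
        linarith
      exact_mod_cast q4
    have h2 : ((2 : ℤ) ^ K) ^ 2 ≤ hn q ^ 2 := pow_le_pow_left₀ (by positivity) hq1 2
    have h3 : ((2 : ℤ) ^ K) ^ 2 = 4 * 4 ^ (K - 1) := by
      rw [← pow_mul, mul_comm K 2, pow_mul, ← pow_succ', show K - 1 + 1 = K by omega]
      norm_num
    have h4 : (4 : ℤ) ^ (K - 3) ≤ 4 ^ (K - 1) := pow_le_pow_right₀ (by norm_num) (by omega)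
    linarith
  have n2 : nrm q ≤ (4 : ℤ) ^ (K + 3) := by
    have h1 := nrm_le_hn q
    have h2 : hn q ^ 2 ≤ ((2 : ℤ) ^ (K + 3)) ^ 2 := pow_le_pow_left₀ (hn_nonneg q) hq2 2
    have h3 : ((2 : ℤ) ^ (K + 3)) ^ 2 = 4 ^ (K + 3) := by
      rw [← pow_mul, mul_comm (K + 3) 2, pow_mul]
      norm_num
    linarith
  have h1 := h K q b (by omega) n1 n2 hb
  have h2 : ENNReal.ofReal c * PW.gg K = ENNReal.ofReal (c * PWN.gK K) := by
    rw [ENNReal.ofReal_mul hc.le]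
    congr 1
    exact gK_eq K
  rw [h2] at h1
  have hfin : ∀ y : Pt, gf (PW.Py y) ≠ ⊤ := fun y =>
    TPF.SE_finC TPF.ur TPC.xUp y
  have h3 := ENNReal.toReal_mono (ENNReal.sum_ne_top.2 fun g _ => hfin (mulE g q)) h1
  rw [ENNReal.toReal_ofReal (mul_nonneg hc.le (PWN.gK_nonneg K)), ENNReal.toReal_sum fun g _ => hfin _] at h3
  have h4 := MR_words P2_one hq
  rw [← GX_eq] at h4
  have h5 : ∀ g ∈ TPF.Rot3, (gf (PW.Py (mulE g q))).toReal =
      ∑' t : SY (mulE g q), xc ^ t.1.length * fW (fun _ _ _ => 1) t.1 := by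
    intro g _
    rw [SY_ind (mulE g q) Set.univ (f := fW fun _ _ _ => 1) fun t => (if_pos (Set.mem_univ t)).symm]
    congr 2
    ext t
    exact ⟨fun h6 => ⟨h6, Set.mem_univ t⟩, fun h6 => h6.1⟩
  rw [sum_congr rfl h5, ← h4] at h3
  linarith

/-! ### 3. The characteristic function -/

theorem cos_d (a b : ℝ) : |Real.cos a - Real.cos b| ≤ |a - b| := by
  have h1 := PW.exp_dist a b
  have h2 := (Complex.abs_re_le_norm _).trans h1
  rwa [Complex.sub_re, Complex.exp_ofReal_mul_I_re, Complex.exp_ofReal_mul_I_re] at h2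

theorem sin_d (a b : ℝ) : |Real.sin a - Real.sin b| ≤ |a - b| := by
  have h1 := PW.exp_dist a b
  have h2 := (Complex.abs_im_le_norm _).trans h1
  rwa [Complex.sub_im, Complex.exp_ofReal_mul_I_im, Complex.exp_ofReal_mul_I_im] at h2

/-- the windings are replaced by those of the first exits -/
theorem MR_shift {φ : ℝ → ℝ} (h1 : ∀ a b, |φ a - φ b| ≤ |a - b|) (h2 : ∀ a, |φ a| ≤ 1) {A : ℝ} (hA : 0 ≤ A) (r u v : ℝ)
    {q : Pt} (hq : q ≠ 0) :
    |MR (JJ q) (fun m z w => φ (u * turn z 1 m + v * turn w 1 m)) -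
      MR (JJ q) (fun m z w => φ (u * th r m z + v * th r m w))| ≤
    A * (|u| + |v|) * GX (JJ q) + 2 * MR (JJ q) (fun m z _ => badP A r m z) + 2 * MR (JJ q) (fun m _ w => badP A r m w) := by
  have hn1 : ∀ (m : ℕ) (z _w : ℕ → ℂ), |badP A r m z| ≤ 1 := fun m z _ => badP_le A r m z
  have hn2 : ∀ (m : ℕ) (_z w : ℕ → ℂ), |badP A r m w| ≤ 1 := fun m _ w => badP_le A r m w
  have ho : ∀ (m : ℕ) (_z _w : ℕ → ℂ), |(1 : ℝ)| ≤ 1 := fun _ _ _ => by simp
  have hL : 0 ≤ A * (|u| + |v|) := by positivity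
  have b3 : ∀ (m : ℕ) (z _w : ℕ → ℂ), |A * (|u| + |v|) * 1 + 2 * badP A r m z| ≤ A * (|u| + |v|) + 2 := fun m z _ => by
    have h3 := badP_nn A r m z
    have h4 := (abs_le.1 (badP_le A r m z)).2
    rw [abs_of_nonneg (by positivity)]
    linarith
  have b4 : ∀ (m : ℕ) (z w : ℕ → ℂ), |1 * (A * (|u| + |v|) * 1 + 2 * badP A r m z) + 2 * badP A r m w| ≤
      A * (|u| + |v|) + 4 := fun m z w => by
    have h3 := badP_nn A r m z
    have h4 := (abs_le.1 (badP_le A r m z)).2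
    have h5 := badP_nn A r m w
    have h6 := (abs_le.1 (badP_le A r m w)).2
    rw [abs_of_nonneg (by positivity)]
    linarith
  have e1 := MR_add b3 hn2 1 2 hq
  have e2 := MR_add ho hn1 (A * (|u| + |v|)) 2 hq
  rw [e2, ← GX_eq, one_mul] at e1
  rw [← e1]
  refine MR_sub_le (B := 1) (B' := 1) (D := A * (|u| + |v|) + 4) (fun _ _ _ => h2 _) (fun _ _ _ => h2 _) b4 (fun m z w => ?_) hq
  have t0 : |φ (u * turn z 1 m + v * turn w 1 m) - φ (u * th r m z + v * th r m w)| ≤ 2 := by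
    have h3 := h2 (u * turn z 1 m + v * turn w 1 m)
    have h4 := h2 (u * th r m z + v * th r m w)
    exact (abs_sub _ _).trans (by linarith)
  have n1 := badP_nn A r m z
  have n2 := badP_nn A r m w
  by_cases c1 : A < |turn z 1 m - th r m z|
  · have h3 : badP A r m z = 1 := if_pos c1
    rw [h3]
    linarith
  by_cases c2 : A < |turn w 1 m - th r m w|
  · have h3 : badP A r m w = 1 := if_pos c2
    rw [h3]
    linarith
  push Not at c1 c2
  have h3 := h1 (u * turn z 1 m + v * turn w 1 m) (u * th r m z + v * th r m w)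
  have h4 : u * turn z 1 m + v * turn w 1 m - (u * th r m z + v * th r m w) =
      u * (turn z 1 m - th r m z) + v * (turn w 1 m - th r m w) := by ring
  rw [h4] at h3
  have h5 : |u * (turn z 1 m - th r m z) + v * (turn w 1 m - th r m w)| ≤ |u| * A + |v| * A := by
    refine (abs_add_le _ _).trans ?_
    rw [abs_mul, abs_mul]
    exact add_le_add (mul_le_mul_of_nonneg_left c1 (abs_nonneg _)) (mul_le_mul_of_nonneg_left c2 (abs_nonneg _))
  linarith

open Classical in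
/-- the characteristic function from the real ones -/
theorem JX_eq (u v : ℝ) {q : Pt} (hq : q ≠ 0) :
    JX (JJ q) u v = ((MR (JJ q) (fun m z w => Real.cos (u * turn z 1 m + v * turn w 1 m)) : ℝ) : ℂ) +
      ((MR (JJ q) (fun m z w => Real.sin (u * turn z 1 m + v * turn w 1 m)) : ℝ) : ℂ) * Complex.I := by
  have hc := (summ_an (Q := fun m z w => Real.cos (u * turn z 1 m + v * turn w 1 m)) (B := 1)
    (fun m z w => Real.abs_cos_le_one _) hq).hasSum
  have hs := (summ_an (Q := fun m z w => Real.sin (u * turn z 1 m + v * turn w 1 m)) (B := 1)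
    (fun m z w => Real.abs_sin_le_one _) hq).hasSum
  have h1 := (Complex.hasSum_ofReal.2 hc).add ((Complex.hasSum_ofReal.2 hs).mul_right Complex.I)
  unfold JX
  refine Eq.trans ?_ h1.tsum_eq
  refine tsum_congr fun n => ?_
  have e1 : ∀ F : (Fin n → Fin 3) → ℝ, ∑ s ∈ saw n, (if pos s n = JJ q then F s else 0) = ∑ s ∈ sawTo (JJ q) n, F s := by
    intro F
    unfold sawTo
    rw [sum_filter]
  unfold an
  rw [e1 fun s => (fun m z w => Real.cos (u * turn z 1 m + v * turn w 1 m)) n (pos s) (pB s),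
    e1 fun s => (fun m z w => Real.sin (u * turn z 1 m + v * turn w 1 m)) n (pos s) (pB s)]
  push_cast
  rw [sum_mul, sum_mul, sum_mul, sum_mul, ← sum_add_distrib]
  refine sum_congr rfl fun s _ => ?_
  have e2 : windS s n = turn (pos s) 1 n := rfl
  have e3 : windE s n = turn (pB s) 1 n := rfl
  rw [e2, e3, Complex.exp_mul_I]
  ring

/-- the sine and the cosine of a sum -/
theorem MR_cos (r u v : ℝ) {q : Pt} (hq : q ≠ 0) :
    MR (JJ q) (fun m z w => Real.cos (u * th r m z + v * th r m w)) =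
      MR (JJ q) (fun m z w => cosP r u m z * cosP r v m w) - MR (JJ q) (fun m z w => sinP r u m z * sinP r v m w) := by
  have b1 : ∀ (m : ℕ) (z w : ℕ → ℂ), |cosP r u m z * cosP r v m w| ≤ 1 := fun m z w => by
    rw [abs_mul]
    exact mul_le_one₀ (Real.abs_cos_le_one _) (abs_nonneg _) (Real.abs_cos_le_one _)
  have b2 : ∀ (m : ℕ) (z w : ℕ → ℂ), |sinP r u m z * sinP r v m w| ≤ 1 := fun m z w => by
    rw [abs_mul]
    exact mul_le_one₀ (Real.abs_sin_le_one _) (abs_nonneg _) (Real.abs_sin_le_one _)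
  have h1 := MR_add b1 b2 1 (-1) hq
  rw [one_mul, neg_one_mul, ← sub_eq_add_neg] at h1
  rw [← h1]
  congr 1
  funext m z w
  rw [Real.cos_add]
  unfold cosP sinP
  ring

theorem MR_sin (r u v : ℝ) {q : Pt} (hq : q ≠ 0) :
    MR (JJ q) (fun m z w => Real.sin (u * th r m z + v * th r m w)) =
      MR (JJ q) (fun m z w => sinP r u m z * cosP r v m w) + MR (JJ q) (fun m z w => cosP r u m z * sinP r v m w) := by
  have b1 : ∀ (m : ℕ) (z w : ℕ → ℂ), |sinP r u m z * cosP r v m w| ≤ 1 := fun m z w => by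
    rw [abs_mul]
    exact mul_le_one₀ (Real.abs_sin_le_one _) (abs_nonneg _) (Real.abs_cos_le_one _)
  have b2 : ∀ (m : ℕ) (z w : ℕ → ℂ), |cosP r u m z * sinP r v m w| ≤ 1 := fun m z w => by
    rw [abs_mul]
    exact mul_le_one₀ (Real.abs_cos_le_one _) (abs_nonneg _) (Real.abs_sin_le_one _)
  have h1 := MR_add b1 b2 1 1 hq
  rw [one_mul, one_mul] at h1
  rw [← h1]
  congr 1
  funext m z w
  rw [Real.sin_add]
  unfold cosP sinP
  ring

/-- points that are no vertices -/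
theorem JX_none {q : Pt} (h : ¬ (cls false q ∨ cls true q)) (hq : q ≠ 0) : GX (JJ q) = 0 ∧ ∀ u v, JX (JJ q) u v = 0 := by
  have h1 : ∀ (Q : ℕ → (ℕ → ℂ) → (ℕ → ℂ) → ℝ), MR (JJ q) Q = 0 := by
    intro Q
    unfold MR
    have h2 : ∀ n : ℕ, an Q (JJ q) n * xc ^ n = 0 := fun n => by
      have h3 : ¬ cls n.bodd q := by
        intro h4
        cases hn : n.bodd
        · rw [hn] at h4
          exact h (Or.inl h4)
        · rw [hn] at h4
          exact h (Or.inr h4)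
      rw [an_zero Q h3, zero_mul]
    rw [tsum_congr h2, tsum_zero]
  refine ⟨by rw [GX_eq, h1], fun u v => ?_⟩
  rw [JX_eq u v hq, h1, h1]
  simp

/-- **the windings around the two ends of the critical walk** are those of two independent tips -/
theorem tipX_of (hE : PLC.EF2 (tent 0)) : TipX psiW := by
  intro e he
  obtain ⟨c, kc, hc, hlow⟩ := GX_low
  obtain ⟨C0, h⟩ := MR_tip2 hE (e * c / 12) (by positivity)
  obtain ⟨k1, hk1⟩ := nref_sc
  obtain ⟨kM, hM⟩ := MA_pos SLW.aReg (tent_bump 0) (tent_one 0)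
  refine ⟨C0, fun C hC => ?_⟩
  obtain ⟨k0, h⟩ := h C hC
  obtain ⟨A, kA, hA, hfar⟩ := MR_far (e * c / 12) C (by positivity)
  refine ⟨2 * A, kc + k0 + k1 + kM + kA + C, fun K q hK hq1 hq2 u v => ?_⟩
  have hq := q_ne hq1
  by_cases hcl : cls false q ∨ cls true q
  swap
  · obtain ⟨h1, h2⟩ := JX_none hcl hq
    rw [h1, h2]
    simp
  have hG := hlow K q (by omega) hq1 hq2 hcl
  have hgK := PWN.gK_nonneg K
  have hη : e * c / 12 * PWN.gK K ≤ e / 12 * GX (JJ q) := by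
    have := mul_le_mul_of_nonneg_left hG (by positivity : 0 ≤ e / 12)
    linarith
  obtain ⟨f1, f2⟩ := hfar K q (by omega) hq1
  have hMA : 0 < MA (tent 0) (nref K) := hM K (nref K) (by omega) (hk1 K (by omega)).1
  have hKC : K - C + C = K := Nat.sub_add_cancel (by omega)
  have hψ : ∀ x : ℝ, psiW C (K - C) x = ((EA (tent 0) (nref K) (qE (cosP (2 ^ (K - C) / 2) x)) : ℝ) : ℂ) +
      ((EA (tent 0) (nref K) (qE (sinP (2 ^ (K - C) / 2) x)) : ℝ) : ℂ) * Complex.I := by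
    intro x
    unfold psiW
    rw [hKC, if_pos hMA]
  have bc : ∀ (x : ℝ) (m : ℕ) (z : ℕ → ℂ), |cosP (2 ^ (K - C) / 2) x m z| ≤ 1 := fun x m z => Real.abs_cos_le_one _
  have bs : ∀ (x : ℝ) (m : ℕ) (z : ℕ → ℂ), |sinP (2 ^ (K - C) / 2) x m z| ≤ 1 := fun x m z => Real.abs_sin_le_one _
  have g1 := h K q (by omega) hq1 hq2 _ _ (cosP_inn _ u) (cosP_inn _ v) (bc u) (bc v)
  have g2 := h K q (by omega) hq1 hq2 _ _ (sinP_inn _ u) (sinP_inn _ v) (bs u) (bs v)
  have g3 := h K q (by omega) hq1 hq2 _ _ (sinP_inn _ u) (cosP_inn _ v) (bs u) (bc v)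
  have g4 := h K q (by omega) hq1 hq2 _ _ (cosP_inn _ u) (sinP_inn _ v) (bc u) (bs v)
  have s1 := MR_shift cos_d Real.abs_cos_le_one hA (2 ^ (K - C) / 2) u v hq
  have s2 := MR_shift sin_d Real.abs_sin_le_one hA (2 ^ (K - C) / 2) u v hq
  rw [MR_cos _ u v hq] at s1
  rw [MR_sin _ u v hq] at s2
  rw [JX_eq u v hq, hψ u, hψ v]
  generalize EA (tent 0) (nref K) (qE (cosP (2 ^ (K - C) / 2) u)) = cu at *
  generalize EA (tent 0) (nref K) (qE (cosP (2 ^ (K - C) / 2) v)) = cv at *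
  generalize EA (tent 0) (nref K) (qE (sinP (2 ^ (K - C) / 2) u)) = su at *
  generalize EA (tent 0) (nref K) (qE (sinP (2 ^ (K - C) / 2) v)) = sv at *
  generalize MR (JJ q) (fun m z w => Real.cos (u * turn z 1 m + v * turn w 1 m)) = X at *
  generalize MR (JJ q) (fun m z w => Real.sin (u * turn z 1 m + v * turn w 1 m)) = Y at *
  generalize MR (JJ q) (fun m z w => cosP (2 ^ (K - C) / 2) u m z * cosP (2 ^ (K - C) / 2) v m w) = m1 at *
  generalize MR (JJ q) (fun m z w => sinP (2 ^ (K - C) / 2) u m z * sinP (2 ^ (K - C) / 2) v m w) = m2 at *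
  generalize MR (JJ q) (fun m z w => sinP (2 ^ (K - C) / 2) u m z * cosP (2 ^ (K - C) / 2) v m w) = m3 at *
  generalize MR (JJ q) (fun m z w => cosP (2 ^ (K - C) / 2) u m z * sinP (2 ^ (K - C) / 2) v m w) = m4 at *
  generalize GX (JJ q) = G at *
  have e1 : (X : ℂ) + (Y : ℂ) * Complex.I - ((cu : ℂ) + (su : ℂ) * Complex.I) * ((cv : ℂ) + (sv : ℂ) * Complex.I) * (G : ℂ) =
      ((X - (cu * cv - su * sv) * G : ℝ) : ℂ) + ((Y - (su * cv + cu * sv) * G : ℝ) : ℂ) * Complex.I := by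
    push_cast
    have hI := Complex.I_mul_I
    linear_combination (-((su : ℂ) * sv * G)) * hI
  rw [e1]
  refine (norm_add_le _ _).trans ?_
  rw [norm_mul, Complex.norm_I, mul_one, Complex.norm_real, Complex.norm_real, Real.norm_eq_abs, Real.norm_eq_abs]
  rw [abs_le] at g1 g2 g3 g4 s1 s2
  have a1 : |X - (cu * cv - su * sv) * G| ≤ A * (|u| + |v|) * G + 6 * (e * c / 12 * PWN.gK K) := by
    rw [abs_le]
    constructor <;> linarith [g1.1, g1.2, g2.1, g2.2, s1.1, s1.2]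
  have a2 : |Y - (su * cv + cu * sv) * G| ≤ A * (|u| + |v|) * G + 6 * (e * c / 12 * PWN.gK K) := by
    rw [abs_le]
    constructor <;> linarith [g3.1, g3.2, g4.1, g4.2, s2.1, s2.2]
  have a3 : (e + 2 * A * (|u| + |v|)) * G = 2 * (A * (|u| + |v|) * G) + 12 * (e / 12 * G) := by ring
  rw [a3]
  linarith

end CW

end NTSF

end
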